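import Pool.Agent.Helper856.Q8.Defs

open Classical SimpleGraph

namespace Pool.Agent.Helper856.Q8

namespace Ball

variable {V : Type} {G : SimpleGraph V}

/-- TARGET -/
theorem ball_card [Fintype V] (hc : G.Connected) (d : ℕ)
    (hd : ∀ v, (Finset.univ.filter (fun w => G.Adj v w)).card ≤ d) (v : V) (r : ℕ) :
    (Finset.univ.filter (fun w => G.dist v w ≤ r)).card ≤ (d + 1) ^ r := by
  induction r with
  | zero =>
    rw [pow_zero]
    refine Finset.card_le_one.2 fun a ha b hb => ?_
    have h1 := (Finset.mem_filter.1 ha).2
    have h2 := (Finset.mem_filter.1 hb).2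
    have h3 : v = a := hc.dist_eq_zero_iff.1 (Nat.le_zero.1 h1)
    have h4 : v = b := hc.dist_eq_zero_iff.1 (Nat.le_zero.1 h2)
    rw [← h3, ← h4]
  | succ r ih =>
    have hsub : (Finset.univ.filter (fun w => G.dist v w ≤ r + 1)) ⊆
        (Finset.univ.filter (fun w => G.dist v w ≤ r)).biUnion
          (fun u => insert u (Finset.univ.filter (fun w => G.Adj u w))) := by
      intro w hw
      have hw' : G.dist v w ≤ r + 1 := (Finset.mem_filter.1 hw).2
      rw [Finset.mem_biUnion]
      by_cases h : G.dist v w ≤ r
      · exact ⟨w, Finset.mem_filter.2 ⟨Finset.mem_univ _, h⟩, Finset.mem_insert_self _ _⟩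
      · have he : G.dist v w = r + 1 := by omega
        obtain ⟨p, hp⟩ := hc.exists_walk_length_eq_dist w v
        rw [G.dist_comm, he] at hp
        cases p with
        | nil => simp at hp
        | @cons _ u _ hadj q =>
          rw [Walk.length_cons] at hp
          have hq : G.dist v u ≤ r := by
            rw [G.dist_comm]
            exact (dist_le q).trans (by omega)
          exact ⟨u, Finset.mem_filter.2 ⟨Finset.mem_univ _, hq⟩,
            Finset.mem_insert_of_mem (Finset.mem_filter.2 ⟨Finset.mem_univ _, hadj.symm⟩)⟩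
    calc (Finset.univ.filter (fun w => G.dist v w ≤ r + 1)).card
        ≤ ((Finset.univ.filter (fun w => G.dist v w ≤ r)).biUnion
          (fun u => insert u (Finset.univ.filter (fun w => G.Adj u w)))).card :=
          Finset.card_le_card hsub
      _ ≤ (Finset.univ.filter (fun w => G.dist v w ≤ r)).card * (d + 1) :=
          Finset.card_biUnion_le_card_mul _ _ _ fun u _ =>
            (Finset.card_insert_le _ _).trans (Nat.add_le_add_right (hd u) 1)
      _ ≤ (d + 1) ^ r * (d + 1) := Nat.mul_le_mul_right _ ih
      _ = (d + 1) ^ (r + 1) := (pow_succ _ _).symm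

end Ball

end Pool.Agent.Helper856.Q8
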