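import Pool.Agent.Helper856.Q8.Defs

open Classical SimpleGraph

namespace Pool.Agent.Helper856.Q8

open Pool.Agent.Helper856.Lcw (GLin)

namespace BaseEx

variable {V : Type} {G : SimpleGraph V}

/-- TARGET -/
theorem base_ex {t : ℕ} (S : Set V) (hne : S.Nonempty) (h : GLin t (G.induce S)) :
    ∃ (p : V → ℕ) (c : ℕ → V → Fin t), Base G S p c := by
  obtain ⟨p0, hp0, hc⟩ := h
  choose c0 hc0 using hc
  obtain ⟨x0, hx0⟩ := hne
  refine ⟨fun v => if hv : v ∈ S then p0 ⟨v, hv⟩ else 0,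
    fun τ v => if hv : v ∈ S then c0 τ ⟨v, hv⟩ else c0 τ ⟨x0, hx0⟩, ?_, ?_⟩
  · intro u hu v hv he
    simp only [dif_pos hu, dif_pos hv] at he
    exact congrArg Subtype.val (hp0 he)
  · intro τ u hu v hv h1 h2 h3 w hw h4
    simp only [dif_pos hu, dif_pos hv, dif_pos hw] at h1 h2 h3 h4
    exact hc0 τ ⟨u, hu⟩ ⟨v, hv⟩ h1 h2 h3 ⟨w, hw⟩ h4

end BaseEx

end Pool.Agent.Helper856.Q8
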