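import Pool.Agent.Helper856.Q8.Defs

open Classical SimpleGraph

namespace Pool.Agent.Helper856.Q8

open Pool.Agent.Helper856.Lcw (GLin)

namespace Compl

variable {V : Type} {G : SimpleGraph V}

/-- TARGET -/
theorem isp4_compl {a b c d : V} (h : IsP4 G a b c d) : IsP4 Gᶜ b d a c := by
  obtain ⟨h1, h2, h3, h4, h5, h6⟩ := h
  have hbd : b ≠ d := fun e => h5 (e ▸ h1)
  have hda : d ≠ a := fun e => h4 ((e ▸ h3 : G.Adj c a).symm)
  have hac : a ≠ c := fun e => h5 (e ▸ h3)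
  refine ⟨?_, ?_, ?_, ?_, ?_, ?_⟩
  · rw [SimpleGraph.compl_adj]
    exact ⟨hbd, h6⟩
  · rw [SimpleGraph.compl_adj]
    exact ⟨hda, fun h => h5 h.symm⟩
  · rw [SimpleGraph.compl_adj]
    exact ⟨hac, h4⟩
  · rw [SimpleGraph.compl_adj]
    exact fun h => h.2 h1.symm
  · rw [SimpleGraph.compl_adj]
    exact fun h => h.2 h2
  · rw [SimpleGraph.compl_adj]
    exact fun h => h.2 h3.symm

theorem h400_aux {H : SimpleGraph V} (T : Finset V) (h : P4s H T) : P4s Hᶜ T := by
  obtain ⟨a, b, c, d, h1, h2⟩ := h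
  refine ⟨b, d, a, c, isp4_compl h1, ?_⟩
  rw [h2]
  ext x
  simp only [Finset.mem_insert, Finset.mem_singleton]
  tauto

/-- TARGET -/
theorem p4s_compl (T : Finset V) : P4s Gᶜ T ↔ P4s G T := by
  constructor
  · intro h
    have h1 := h400_aux T h
    rwa [compl_compl] at h1
  · exact h400_aux T

/-- TARGET -/
theorem sur_compl (h : Sur G) : Sur Gᶜ := by
  intro L h1 h2 h3 h4 h5
  exact h L h1 h2 h3 (fun T hT => (p4s_compl T).mp (h4 T hT)) h5

/-- TARGET -/
theorem prime_compl (h : Prime G) : Prime Gᶜ := by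
  intro M hM
  apply h M
  intro v hv x hx y hy
  have h1 := hM v hv x hx y hy
  have hvx : v ≠ x := fun e => hv (e ▸ hx)
  have hvy : v ≠ y := fun e => hv (e ▸ hy)
  rw [SimpleGraph.compl_adj, SimpleGraph.compl_adj] at h1
  constructor
  · intro h2
    by_contra h3
    exact (h1.mpr ⟨hvy, h3⟩).2 h2
  · intro h2
    by_contra h3
    exact (h1.mp ⟨hvx, h3⟩).2 h2

/-- TARGET -/
theorem glin_compl {k : ℕ} (h : GLin k Gᶜ) : GLin k G := by
  obtain ⟨p, hp, h1⟩ := h
  refine ⟨p, hp, ?_⟩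
  intro t
  obtain ⟨c, hc⟩ := h1 t
  refine ⟨c, ?_⟩
  intro u v hu hv huv w hw
  have h2 := hc u v hu hv huv w hw
  have huw : u ≠ w := fun e => by
    rw [e] at hu
    omega
  have hvw : v ≠ w := fun e => by
    rw [e] at hv
    omega
  rw [SimpleGraph.compl_adj, SimpleGraph.compl_adj] at h2
  constructor
  · intro h3
    by_contra h4
    exact (h2.mpr ⟨hvw, h4⟩).2 h3
  · intro h3
    by_contra h4
    exact (h2.mp ⟨huw, h4⟩).2 h3

end Compl

end Pool.Agent.Helper856.Q8
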