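import Pool.Agent.Helper856.Q8.Defs

open Classical SimpleGraph

namespace Pool.Agent.Helper856.Q8

namespace Sound

variable {V : Type} {G : SimpleGraph V}

theorem cs_or (a k l : ℕ) : (a ||| (1 <<< k)).testBit l = (a.testBit l || decide (k = l)) := by
  rw [Nat.testBit_or, Nat.one_shiftLeft, Nat.testBit_two_pow]

theorem cs_mk4 (q i : ℕ) : (mk4 q).testBit i = true ↔
    (q % 16 = i ∨ q / 16 % 16 = i ∨ q / 256 % 16 = i ∨ q / 4096 % 16 = i) := by
  unfold mk4
  rw [cs_or, cs_or, cs_or, Nat.one_shiftLeft, Nat.testBit_two_pow]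
  simp only [Bool.or_eq_true, decide_eq_true_eq]
  tauto

theorem cs_tb (a k i j : ℕ) : tb (a ||| (1 <<< k)) i j = true →
    tb a i j = true ∨ (i < j ∧ k = 16 * i + j) ∨ (j ≤ i ∧ k = 16 * j + i) := by
  unfold tb
  intro h
  cases hb : Nat.blt i j with
  | true =>
    rw [hb] at h
    simp only [cond_true] at h ⊢
    rw [cs_or, Bool.or_eq_true, decide_eq_true_eq] at h
    have hlt : i < j := by
      have := Nat.le_of_ble_eq_true (show Nat.ble (i+1) j = true from hb)
      omega
    rcases h with h | h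
    · exact Or.inl h
    · exact Or.inr (Or.inl ⟨hlt, h⟩)
  | false =>
    rw [hb] at h
    simp only [cond_false] at h ⊢
    rw [cs_or, Bool.or_eq_true, decide_eq_true_eq] at h
    have hle : j ≤ i := by
      by_contra hcon
      have h3 : Nat.ble (i+1) j = true := Nat.ble_eq_true_of_le (by omega)
      have h4 : Nat.blt i j = true := h3
      rw [h4] at hb
      exact Bool.noConfusion hb
    rcases h with h | h
    · exact Or.inl h
    · exact Or.inr (Or.inr ⟨hle, h⟩)

theorem cs_blt {i j : ℕ} (h : Nat.blt i j = true) : i < j := by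
  have := Nat.le_of_ble_eq_true (show Nat.ble (i+1) j = true from h)
  omega

theorem cs_blt' {i j : ℕ} (h : i < j) : Nat.blt i j = true := by
  show Nat.ble (i+1) j = true
  exact Nat.ble_eq_true_of_le (by omega)

theorem cs_blt'' {i j : ℕ} (h : ¬ i < j) : Nat.blt i j = false := by
  cases hb : Nat.blt i j with
  | false => rfl
  | true => exact absurd (cs_blt hb) h

theorem cs_symm (a i j : ℕ) : tb a i j = tb a j i := by
  unfold tb
  rcases lt_trichotomy i j with h | h | h
  · rw [cs_blt' h, cs_blt'' (by omega : ¬ j < i)]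
    rfl
  · subst h
    rfl
  · rw [cs_blt'' (by omega : ¬ i < j), cs_blt' h]
    rfl

theorem cs_adj {a : ℕ} (f : ℕ → V)
    (hd : ∀ i, i < 16 → tb a i i = false)
    (ha : ∀ i j, i < j → j < 16 → tb a i j = true → G.Adj (f i) (f j)) {x y : ℕ} (hx : x < 16)
    (hy : y < 16) (h : tb a x y = true) : x ≠ y ∧ G.Adj (f x) (f y) := by
  rcases lt_trichotomy x y with h1 | h1 | h1
  · exact ⟨by omega, ha x y h1 hy h⟩
  · subst h1
    rw [hd x hx] at h
    exact Bool.noConfusion h
  · rw [cs_symm] at h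
    exact ⟨by omega, (ha y x h1 hx h).symm⟩

theorem cs_nadj {b : ℕ} (f : ℕ → V)
    (hd : ∀ i, i < 16 → tb b i i = false)
    (hb : ∀ i j, i < j → j < 16 → tb b i j = true → ¬G.Adj (f i) (f j)) {x y : ℕ} (hx : x < 16)
    (hy : y < 16) (h : tb b x y = true) : x ≠ y ∧ ¬G.Adj (f x) (f y) := by
  rcases lt_trichotomy x y with h1 | h1 | h1
  · exact ⟨by omega, hb x y h1 hy h⟩
  · subst h1
    rw [hd x hx] at h
    exact Bool.noConfusion h
  · rw [cs_symm] at h
    exact ⟨by omega, fun hc => hb y x h1 hx h hc.symm⟩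

theorem cs_pc (m : ℕ) : ∀ k, pc m k = ((Finset.range k).filter (fun i => m.testBit i = true)).card
  | 0 => by simp [pc]
  | k + 1 => by
    rw [pc, cs_pc m k, Finset.range_add_one, Finset.filter_insert]
    cases hb : m.testBit k with
    | true =>
      rw [if_pos rfl, Finset.card_insert_of_notMem (by simp)]
      simp only [cond_true]
      omega
    | false =>
      rw [if_neg (by simp)]
      simp only [cond_false]
      omega

/-- the image of the index set of the mask `u` -/
noncomputable def cs_img (f : ℕ → V) (u : ℕ) : Finset V :=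
  ((Finset.range 16).filter (fun i => u.testBit i = true)).image f

theorem cs_mem_img (f : ℕ → V) (u : ℕ) (v : V) :
    v ∈ cs_img f u ↔ ∃ i, i < 16 ∧ u.testBit i = true ∧ f i = v := by
  unfold cs_img
  simp only [Finset.mem_image, Finset.mem_filter, Finset.mem_range]
  constructor
  · rintro ⟨i, ⟨h1, h2⟩, h3⟩
    exact ⟨i, h1, h2, h3⟩
  · rintro ⟨i, h1, h2, h3⟩
    exact ⟨i, ⟨h1, h2⟩, h3⟩

theorem cs_img_mk4 (f : ℕ → V) (q : ℕ) :
    cs_img f (mk4 q) = {f (q % 16), f (q / 16 % 16), f (q / 256 % 16), f (q / 4096 % 16)} := by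
  ext v
  rw [cs_mem_img]
  simp only [Finset.mem_insert, Finset.mem_singleton, cs_mk4]
  constructor
  · rintro ⟨i, h1, h2, h3⟩
    rcases h2 with h2 | h2 | h2 | h2 <;> rw [← h3, ← h2] <;> simp
  · intro h
    rcases h with h | h | h | h
    · exact ⟨_, Nat.mod_lt _ (by norm_num), Or.inl rfl, h.symm⟩
    · exact ⟨_, Nat.mod_lt _ (by norm_num), Or.inr (Or.inl rfl), h.symm⟩
    · exact ⟨_, Nat.mod_lt _ (by norm_num), Or.inr (Or.inr (Or.inl rfl)), h.symm⟩
    · exact ⟨_, Nat.mod_lt _ (by norm_num), Or.inr (Or.inr (Or.inr rfl)), h.symm⟩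

theorem cs_img_or (f : ℕ → V) (u m : ℕ) : cs_img f (u ||| m) = cs_img f m ∪ cs_img f u := by
  ext v
  rw [Finset.mem_union, cs_mem_img, cs_mem_img, cs_mem_img]
  simp only [Nat.testBit_or, Bool.or_eq_true]
  constructor
  · rintro ⟨i, h1, h2 | h2, h3⟩
    · exact Or.inr ⟨i, h1, h2, h3⟩
    · exact Or.inl ⟨i, h1, h2, h3⟩
  · rintro (⟨i, h1, h2, h3⟩ | ⟨i, h1, h2, h3⟩)
    · exact ⟨i, h1, Or.inr h2, h3⟩
    · exact ⟨i, h1, Or.inl h2, h3⟩

theorem cs_img_inj {al : ℕ} (f : ℕ → V)
    (hinj : ∀ i j, al.testBit i = true → al.testBit j = true → f i = f j → i = j) {s t : ℕ}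
    (hs : ∀ i, s.testBit i = true → i < 16 ∧ al.testBit i = true)
    (ht : ∀ i, t.testBit i = true → i < 16 ∧ al.testBit i = true)
    (h : cs_img f s = cs_img f t) : s = t := by
  apply Nat.eq_of_testBit_eq
  intro i
  rw [Bool.eq_iff_iff]
  constructor
  · intro hi
    have h1 : f i ∈ cs_img f s := (cs_mem_img f s _).2 ⟨i, (hs i hi).1, hi, rfl⟩
    rw [h, cs_mem_img] at h1
    obtain ⟨j, h2, h3, h4⟩ := h1
    have := hinj j i (ht j h3).2 (hs i hi).2 h4
    rw [← this]
    exact h3
  · intro hi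
    have h1 : f i ∈ cs_img f t := (cs_mem_img f t _).2 ⟨i, (ht i hi).1, hi, rfl⟩
    rw [← h, cs_mem_img] at h1
    obtain ⟨j, h2, h3, h4⟩ := h1
    have := hinj j i (hs j h3).2 (ht i hi).2 h4
    rw [← this]
    exact h3

theorem cs_sub (al a b : ℕ) : ∀ (fuel n cnt u : ℕ) (seen : List ℕ),
    lf al a b fuel n cnt u seen = true → ∀ i, u.testBit i = true → al.testBit i = true := by
  intro fuel
  induction fuel with
  | zero =>
    intro n cnt u seen h
    rw [lf] at h
    exact Bool.noConfusion h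
  | succ fuel ih =>
    intro n cnt u seen h i hi
    rw [lf] at h
    cases hn : Nat.beq n 0 with
    | true =>
      rw [hn] at h
      simp only [cond_true, Bool.and_eq_true] at h
      have h1 := Nat.eq_of_beq_eq_true h.2
      have h2 : (u &&& al).testBit i = true := by rw [h1]; exact hi
      rw [Nat.testBit_and, Bool.and_eq_true] at h2
      exact h2.2
    | false =>
      rw [hn] at h
      simp only [cond_false, Bool.and_eq_true] at h
      refine ih _ _ _ _ h.2 i ?_
      rw [Nat.testBit_or, hi, Bool.true_or]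

theorem cs_lf {al a b : ℕ} (hS : Sur G) (f : ℕ → V)
    (hinj : ∀ i j, al.testBit i = true → al.testBit j = true → f i = f j → i = j)
    (hd : ∀ i, i < 16 → tb a i i = false ∧ tb b i i = false)
    (ha : ∀ i j, i < j → j < 16 → tb a i j = true → G.Adj (f i) (f j))
    (hb : ∀ i j, i < j → j < 16 → tb b i j = true → ¬G.Adj (f i) (f j)) :
    ∀ (fuel n cnt u : ℕ) (seen : List ℕ) (L : List (Finset V)),
    lf al a b fuel n cnt u seen = true → L.Nodup → (∀ T ∈ L, P4s G T) → Cn L → L.length = cnt →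
    uL L = cs_img f u → (∀ T ∈ L, ∃ s ∈ seen, T = cs_img f s ∧
      ∀ i, s.testBit i = true → i < 16 ∧ u.testBit i = true) →
    False := by
  intro fuel
  induction fuel with
  | zero =>
    intro n cnt u seen L h
    rw [lf] at h
    exact Bool.noConfusion h
  | succ fuel ih =>
    intro n cnt u seen L h hnd hP hC hlen hu hseen
    have hual := cs_sub al a b _ _ _ _ _ h
    rw [lf] at h
    cases hn : Nat.beq n 0 with
    | true =>
      rw [hn] at h
      simp only [cond_true, Bool.and_eq_true] at h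
      obtain ⟨⟨⟨h1, h2⟩, h3⟩, h4⟩ := h
      have h1' := Nat.le_of_ble_eq_true h1
      have h2' := Nat.le_of_ble_eq_true h2
      have h3' := Nat.le_of_ble_eq_true h3
      have hne : L ≠ [] := by
        rintro rfl
        simp only [List.length_nil] at hlen
        omega
      have h5 := hS L hne (by omega) hnd hP hC
      rw [hu] at h5
      have h6 : (cs_img f u).card ≤ pc u 16 := by
        rw [cs_pc]
        exact Finset.card_image_le
      omega
    | false =>
      rw [hn] at h
      simp only [cond_false, Bool.and_eq_true] at h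
      obtain ⟨⟨⟨h1, h2⟩, h3⟩, h4⟩ := h
      set q := n % 65536 with hq
      have hual' := cs_sub al a b _ _ _ _ _ h4
      have hq0 : q % 16 < 16 := Nat.mod_lt _ (by norm_num)
      have hq1 : q / 16 % 16 < 16 := Nat.mod_lt _ (by norm_num)
      have hq2 : q / 256 % 16 < 16 := Nat.mod_lt _ (by norm_num)
      have hq3 : q / 4096 % 16 < 16 := Nat.mod_lt _ (by norm_num)
      have hmk : ∀ i, (mk4 q).testBit i = true → i < 16 ∧ al.testBit i = true := by
        intro i hi
        refine ⟨?_, hual' i (by rw [Nat.testBit_or, hi, Bool.or_true])⟩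
        rw [cs_mk4] at hi
        omega
      have hda : ∀ i, i < 16 → tb a i i = false := fun i hi => (hd i hi).1
      have hdb : ∀ i, i < 16 → tb b i i = false := fun i hi => (hd i hi).2
      have hT : P4s G (cs_img f (mk4 q)) := by
        unfold isp at h1
        simp only [Bool.and_eq_true] at h1
        obtain ⟨⟨⟨⟨⟨e1, e2⟩, e3⟩, e4⟩, e5⟩, e6⟩ := h1
        refine ⟨_, _, _, _, ⟨(cs_adj f hda ha hq0 hq1 e1).2, (cs_adj f hda ha hq1 hq2 e2).2,
          (cs_adj f hda ha hq2 hq3 e3).2, (cs_nadj f hdb hb hq0 hq2 e4).2,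
          (cs_nadj f hdb hb hq0 hq3 e5).2, (cs_nadj f hdb hb hq1 hq3 e6).2⟩, cs_img_mk4 f q⟩
      refine ih (n / 65536) (cnt + 1) (u ||| mk4 q) (mk4 q :: seen) (cs_img f (mk4 q) :: L) h4
        ?_ ?_ ?_ ?_ ?_ ?_
      · refine List.nodup_cons.2 ⟨?_, hnd⟩
        intro hmem
        obtain ⟨s, hs1, hs2, hs3⟩ := hseen _ hmem
        have hs4 : mk4 q = s := cs_img_inj f hinj hmk
          (fun i hi => ⟨(hs3 i hi).1, hual i (hs3 i hi).2⟩) hs2
        rw [List.all_eq_true] at h3
        have h5 := h3 s hs1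
        rw [hs4] at h5
        have h6 : Nat.beq s s = true := Nat.beq_refl s
        rw [h6] at h5
        exact Bool.noConfusion h5
      · intro T hT'
        rcases List.mem_cons.1 hT' with h5 | h5
        · rw [h5]
          exact hT
        · exact hP T h5
      · refine ⟨?_, hC⟩
        intro hne
        have hcnt : cnt ≠ 0 := by
          intro h0
          rw [h0] at hlen
          exact hne (List.length_eq_zero_iff.1 hlen)
        have h5 : mk4 q &&& u ≠ 0 := by
          intro h0
          rw [h0] at h2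
          have h6 : Nat.beq cnt 0 = false := by
            cases hc : Nat.beq cnt 0 with
            | false => rfl
            | true => exact absurd (Nat.eq_of_beq_eq_true hc) hcnt
          rw [h6] at h2
          exact Bool.noConfusion h2
        obtain ⟨i, hi⟩ := Nat.exists_testBit_of_ne_zero h5
        rw [Nat.testBit_and, Bool.and_eq_true] at hi
        refine ⟨f i, ?_⟩
        rw [Finset.mem_inter, hu, cs_mem_img, cs_mem_img]
        exact ⟨⟨i, (hmk i hi.1).1, hi.1, rfl⟩, ⟨i, (hmk i hi.1).1, hi.2, rfl⟩⟩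
      · rw [List.length_cons, hlen]
      · rw [cs_img_or, ← hu]
        rfl
      · intro T hT'
        rcases List.mem_cons.1 hT' with h5 | h5
        · refine ⟨mk4 q, List.mem_cons_self, h5, fun i hi => ⟨(hmk i hi).1, ?_⟩⟩
          rw [Nat.testBit_or, hi, Bool.or_true]
        · obtain ⟨s, hs1, hs2, hs3⟩ := hseen T h5
          refine ⟨s, List.mem_cons_of_mem _ hs1, hs2, fun i hi => ⟨(hs3 i hi).1, ?_⟩⟩
          rw [Nat.testBit_or, (hs3 i hi).2, Bool.true_or]

/-- TARGET -/
theorem chk_sound {c4 : Bool} {al : ℕ} {Q : ℕ → ℕ → Bool} (hS : Sur G) (h4 : c4 = true → NC4 G)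
    (f : ℕ → V) (hinj : ∀ i j, al.testBit i = true → al.testBit j = true → f i = f j → i = j)
    (P : Prop) (t : Tr) (a b : ℕ)
    (hQ : ∀ a' b', (∀ i j, i < j → j < 16 → tb a' i j = true → G.Adj (f i) (f j)) →
      (∀ i j, i < j → j < 16 → tb b' i j = true → ¬G.Adj (f i) (f j)) → Q a' b' = true → P)
    (hd : ∀ i, i < 16 → tb a i i = false ∧ tb b i i = false)
    (ha : ∀ i j, i < j → j < 16 → tb a i j = true → G.Adj (f i) (f j))
    (hb : ∀ i j, i < j → j < 16 → tb b i j = true → ¬G.Adj (f i) (f j))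
    (h : chk c4 al Q t a b = true) : P := by
  induction t generalizing a b with
  | K => exact hQ a b ha hb h
  | P n =>
    exfalso
    refine cs_lf hS f hinj hd ha hb 8 n 0 0 [] [] h List.nodup_nil (by simp) trivial rfl ?_ (by simp)
    ext v
    rw [cs_mem_img]
    simp [uL]
  | C q =>
    exfalso
    rw [chk] at h
    simp only [Bool.and_eq_true] at h
    obtain ⟨⟨⟨h1, h2⟩, h3⟩, h4'⟩ := h
    have hq0 : q % 16 < 16 := Nat.mod_lt _ (by norm_num)
    have hq1 : q / 16 % 16 < 16 := Nat.mod_lt _ (by norm_num)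
    have hq2 : q / 256 % 16 < 16 := Nat.mod_lt _ (by norm_num)
    have hq3 : q / 4096 % 16 < 16 := Nat.mod_lt _ (by norm_num)
    have hda : ∀ i, i < 16 → tb a i i = false := fun i hi => (hd i hi).1
    have hdb : ∀ i, i < 16 → tb b i i = false := fun i hi => (hd i hi).2
    unfold isc at h2
    simp only [Bool.and_eq_true] at h2
    obtain ⟨⟨⟨⟨⟨e1, e2⟩, e3⟩, e4⟩, e5⟩, e6⟩ := h2
    have hal : ∀ i, (mk4 q).testBit i = true → al.testBit i = true := by
      intro i hi
      have h5 := Nat.eq_of_beq_eq_true h3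
      rw [← h5, Nat.testBit_and, Bool.and_eq_true] at hi
      exact hi.2
    have f1 := cs_nadj f hdb hb hq0 hq2 e5
    have f2 := cs_nadj f hdb hb hq1 hq3 e6
    have n1 : f (q % 16) ≠ f (q / 256 % 16) := fun hc =>
      f1.1 (hinj _ _ (hal _ ((cs_mk4 q _).2 (Or.inl rfl)))
        (hal _ ((cs_mk4 q _).2 (Or.inr (Or.inr (Or.inl rfl))))) hc)
    have n2 : f (q / 16 % 16) ≠ f (q / 4096 % 16) := fun hc =>
      f2.1 (hinj _ _ (hal _ ((cs_mk4 q _).2 (Or.inr (Or.inl rfl))))
        (hal _ ((cs_mk4 q _).2 (Or.inr (Or.inr (Or.inr rfl))))) hc)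
    rcases h4 h1 _ _ _ _ (cs_adj f hda ha hq0 hq1 e1).2 (cs_adj f hda ha hq1 hq2 e2).2
      (cs_adj f hda ha hq2 hq3 e3).2 (cs_adj f hda ha hq3 hq0 e4).2 n1 n2 with h5 | h5
    · exact f1.2 h5
    · exact f2.2 h5
  | N i j t s iht ihs =>
    rw [chk] at h
    simp only [Bool.and_eq_true] at h
    obtain ⟨⟨⟨h1, h2⟩, h3⟩, h4'⟩ := h
    have hij := cs_blt h1
    have hj := cs_blt h2
    by_cases hA : G.Adj (f i) (f j)
    · refine iht _ _ ?_ ?_ hb h3
      · intro k hk
        refine ⟨?_, (hd k hk).2⟩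
        cases hc : tb (a ||| 1 <<< (16 * i + j)) k k with
        | false => rfl
        | true =>
          exfalso
          rcases cs_tb _ _ _ _ hc with h5 | ⟨h5, h6⟩ | ⟨h5, h6⟩
          · rw [(hd k hk).1] at h5
            exact Bool.noConfusion h5
          · omega
          · omega
      · intro i' j' h5 h6 h7
        rcases cs_tb _ _ _ _ h7 with h8 | ⟨h8, h9⟩ | ⟨h8, h9⟩
        · exact ha i' j' h5 h6 h8
        · have h10 : i = i' := by omega
          have h11 : j = j' := by omega
          rw [← h10, ← h11]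
          exact hA
        · omega
    · refine ihs _ _ ?_ ha ?_ h4'
      · intro k hk
        refine ⟨(hd k hk).1, ?_⟩
        cases hc : tb (b ||| 1 <<< (16 * i + j)) k k with
        | false => rfl
        | true =>
          exfalso
          rcases cs_tb _ _ _ _ hc with h5 | ⟨h5, h6⟩ | ⟨h5, h6⟩
          · rw [(hd k hk).2] at h5
            exact Bool.noConfusion h5
          · omega
          · omega
      · intro i' j' h5 h6 h7
        rcases cs_tb _ _ _ _ h7 with h8 | ⟨h8, h9⟩ | ⟨h8, h9⟩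
        · exact hb i' j' h5 h6 h8
        · have h10 : i = i' := by omega
          have h11 : j = j' := by omega
          rw [← h10, ← h11]
          exact hA
        · omega

end Sound

end Pool.Agent.Helper856.Q8
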