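import Pool.Agent.Helper856.Q8.Defs
import Pool.Agent.Helper856.Q8.Sound

open Classical SimpleGraph

namespace Pool.Agent.Helper856.Q8

open Sound (chk_sound)

namespace UseA

variable {V : Type} {G : SimpleGraph V}

theorem useA_a' : ((List.range 16).all fun i => (List.range 16).all fun j => !(Nat.blt i j) ||
    !(tb 2658516839881840235198097336838651906 i j) || (Nat.blt j 5 && Nat.beq (i + 1) j) ||
    (Nat.ble 5 i && (Nat.blt j 10 && !(Nat.beq (i + 1) j)))) = true := by
  decide +kernel

theorem useA_b' : ((List.range 16).all fun i => (List.range 16).all fun j => !(Nat.blt i j) ||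
    !(tb 174225901101657560382198993360435132497948 i j) || (Nat.blt j 5 && !(Nat.beq (i + 1) j)) ||
    (Nat.ble 5 i && (Nat.blt j 10 && Nat.beq (i + 1) j))) = true := by
  decide +kernel

theorem useA_blt {a b : ℕ} : Nat.blt a b = true ↔ a < b := by
  unfold Nat.blt
  rw [Nat.ble_eq]
  rfl

theorem useA_beqf {a b : ℕ} : Nat.beq a b = false ↔ a ≠ b := by
  rw [← Bool.not_eq_true, Nat.beq_eq]

theorem useA_a : ∀ i < 16, ∀ j < 16, i < j →
    tb 2658516839881840235198097336838651906 i j = true →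
    ((j < 5 ∧ i + 1 = j) ∨ (5 ≤ i ∧ j < 10 ∧ i + 1 ≠ j)) := by
  intro i hi j hj hij h
  have h1 := List.all_eq_true.1 (List.all_eq_true.1 useA_a' i (List.mem_range.2 hi)) j
    (List.mem_range.2 hj)
  rw [h, useA_blt.2 hij] at h1
  simp only [Bool.or_eq_true, Bool.and_eq_true, Bool.not_eq_true', useA_blt, Nat.beq_eq, Nat.ble_eq,
    useA_beqf, Bool.not_true, Bool.false_eq_true, false_or] at h1
  exact h1

theorem useA_b : ∀ i < 16, ∀ j < 16, i < j →
    tb 174225901101657560382198993360435132497948 i j = true →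
    ((j < 5 ∧ i + 1 ≠ j) ∨ (5 ≤ i ∧ j < 10 ∧ i + 1 = j)) := by
  intro i hi j hj hij h
  have h1 := List.all_eq_true.1 (List.all_eq_true.1 useA_b' i (List.mem_range.2 hi)) j
    (List.mem_range.2 hj)
  rw [h, useA_blt.2 hij] at h1
  simp only [Bool.or_eq_true, Bool.and_eq_true, Bool.not_eq_true', useA_blt, Nat.beq_eq, Nat.ble_eq,
    useA_beqf, Bool.not_true, Bool.false_eq_true, false_or] at h1
  exact h1

theorem useA_d : ∀ i < 16, tb 2658516839881840235198097336838651906 i i = false ∧
    tb 174225901101657560382198993360435132497948 i i = false := by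
  decide +kernel

theorem useA_bit {i : ℕ} (h : (1023 : ℕ).testBit i = true) : i < 10 := by
  by_contra hi
  push Not at hi
  have h1 : 1023 < 2 ^ i := lt_of_lt_of_le (by norm_num) (Nat.pow_le_pow_right (by norm_num) hi)
  rw [Nat.testBit_lt_two_pow h1] at h
  exact Bool.false_ne_true h

/-- TARGET -/
theorem useA (t : Tr) (ht : chk false 1023 QA t 2658516839881840235198097336838651906
      174225901101657560382198993360435132497948 = true)
    (hS : Sur G) (x s : ℕ → V) (hx : IsP5 G x) (hs : IsP5 Gᶜ s) (hd : ∀ i < 5, ∀ j < 5, s i ≠ x j) :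
    ∀ i < 5, (∀ j < 5, G.Adj (s i) (x j)) ∨ (∀ j < 5, ¬G.Adj (s i) (x j)) := by
  obtain ⟨f, hf1, hf2⟩ : ∃ f : ℕ → V, (∀ k, k < 5 → f k = x k) ∧ (∀ k, f (5 + k) = s k) := by
    refine ⟨fun k => if k < 5 then x k else s (k - 5), fun k hk => if_pos hk, fun k => ?_⟩
    have h1 : ¬ (5 + k < 5) := by omega
    simp only [if_neg h1]
    congr 1
    omega
  have hxx : ∀ i j, i < 5 → j < 5 → (G.Adj (f i) (f j) ↔ (i + 1 = j ∨ j + 1 = i)) := by
    intro i j hi hj
    rw [hf1 i hi, hf1 j hj]
    exact hx.2 i j hi hj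
  have hss : ∀ i j, i < 5 → j < 5 → i ≠ j →
      (G.Adj (f (5 + i)) (f (5 + j)) ↔ ¬ (i + 1 = j ∨ j + 1 = i)) := by
    intro i j hi hj hij
    rw [hf2 i, hf2 j, ← hs.2 i j hi hj, SimpleGraph.compl_adj]
    have h1 : s i ≠ s j := fun h => hij (hs.1 i j hi hj h)
    tauto
  refine chk_sound (c4 := false) (al := 1023) (Q := QA) hS (fun h => absurd h Bool.false_ne_true) f
    ?_ _ t 2658516839881840235198097336838651906 174225901101657560382198993360435132497948
    ?_ useA_d ?_ ?_ ht
  · intro i j hi hj hij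
    have hi10 := useA_bit hi
    have hj10 := useA_bit hj
    by_cases hi5 : i < 5
    · by_cases hj5 : j < 5
      · rw [hf1 i hi5, hf1 j hj5] at hij
        exact hx.1 i j hi5 hj5 hij
      · obtain ⟨k, rfl⟩ : ∃ k, j = 5 + k := ⟨j - 5, by omega⟩
        rw [hf1 i hi5, hf2 k] at hij
        exact absurd hij.symm (hd k (by omega) i hi5)
    · obtain ⟨l, rfl⟩ : ∃ k, i = 5 + k := ⟨i - 5, by omega⟩
      by_cases hj5 : j < 5
      · rw [hf1 j hj5, hf2 l] at hij
        exact absurd hij (hd l (by omega) j hj5)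
      · obtain ⟨k, rfl⟩ : ∃ k, j = 5 + k := ⟨j - 5, by omega⟩
        rw [hf2 l, hf2 k] at hij
        have := hs.1 l k (by omega) (by omega) hij
        omega
  · intro a' b' ha' hb' hQ i hi
    have hcol : colC a' b' (5 + i) = true := by
      unfold QA at hQ
      simp only [Bool.and_eq_true] at hQ
      obtain ⟨⟨⟨⟨h5, h6⟩, h7⟩, h8⟩, h9⟩ := hQ
      interval_cases i
      · exact h5
      · exact h6
      · exact h7
      · exact h8
      · exact h9
    unfold colC at hcol
    simp only [Bool.or_eq_true, Bool.and_eq_true] at hcol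
    rcases hcol with ⟨⟨⟨⟨h0, h1⟩, h2⟩, h3⟩, h4⟩ | ⟨⟨⟨⟨h0, h1⟩, h2⟩, h3⟩, h4⟩
    · left
      intro j hj
      have hj' : tb a' j (5 + i) = true := by
        interval_cases j
        · exact h0
        · exact h1
        · exact h2
        · exact h3
        · exact h4
      have h5 := ha' j (5 + i) (by omega) (by omega) hj'
      rw [hf1 j hj, hf2 i] at h5
      exact h5.symm
    · right
      intro j hj
      have hj' : tb b' j (5 + i) = true := by
        interval_cases j
        · exact h0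
        · exact h1
        · exact h2
        · exact h3
        · exact h4
      have h5 := hb' j (5 + i) (by omega) (by omega) hj'
      rw [hf1 j hj, hf2 i] at h5
      exact fun h6 => h5 h6.symm
  · intro i j hij hj h
    rcases useA_a i (by omega) j hj hij h with ⟨h1, h2⟩ | ⟨h1, h2, h3⟩
    · exact (hxx i j (by omega) h1).2 (Or.inl h2)
    · obtain ⟨l, rfl⟩ : ∃ k, i = 5 + k := ⟨i - 5, by omega⟩
      obtain ⟨k, rfl⟩ : ∃ k, j = 5 + k := ⟨j - 5, by omega⟩
      exact (hss l k (by omega) (by omega) (by omega)).2 (by omega)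
  · intro i j hij hj h
    rcases useA_b i (by omega) j hj hij h with ⟨h1, h2⟩ | ⟨h1, h2, h3⟩
    · intro h4
      have := (hxx i j (by omega) h1).1 h4
      omega
    · obtain ⟨l, rfl⟩ : ∃ k, i = 5 + k := ⟨i - 5, by omega⟩
      obtain ⟨k, rfl⟩ : ∃ k, j = 5 + k := ⟨j - 5, by omega⟩
      intro h4
      have := (hss l k (by omega) (by omega) (by omega)).1 h4
      omega

end UseA

end Pool.Agent.Helper856.Q8
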