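import Pool.Agent.Helper856.Q8.Defs
import Pool.Agent.Helper856.Q8.Sound

open Classical SimpleGraph

namespace Pool.Agent.Helper856.Q8

open Sound (chk_sound)

namespace UsePat

variable {V : Type} {G : SimpleGraph V}

def up_OK (R : ℕ → ℕ → Prop) (m : ℕ) : Prop :=
  ∀ n, m.testBit n = true → ∃ i j, i < j ∧ j < 16 ∧ n = 16 * i + j ∧ R i j

theorem up_sh (n m : ℕ) : (1 <<< n).testBit m = true ↔ n = m := by
  rw [Nat.one_shiftLeft, Nat.testBit_two_pow]
  exact decide_eq_true_iff

theorem up_pb (R : ℕ → ℕ → Prop) (hR : ∀ i j, R i j → R j i) (p q : ℕ) (hp : p < 16) (hq : q < 16)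
    (hpq : p ≠ q) (h : R p q) : up_OK R (pb p q) := by
  intro n hn
  unfold pb at hn
  rw [up_sh] at hn
  rcases Nat.lt_or_ge p q with h1 | h1
  · refine ⟨p, q, h1, hq, ?_, h⟩
    rw [← hn, min_eq_left h1.le, max_eq_right h1.le]
  · refine ⟨q, p, by omega, hp, ?_, hR _ _ h⟩
    rw [← hn, min_eq_right h1, max_eq_left h1]

theorem up_or (R : ℕ → ℕ → Prop) {m n : ℕ} (hm : up_OK R m) (hn : up_OK R n) : up_OK R (m ||| n) := by
  intro k hk
  rw [Nat.testBit_or, Bool.or_eq_true] at hk
  rcases hk with h | h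
  · exact hm k h
  · exact hn k h

theorem up_tb (R : ℕ → ℕ → Prop) {m : ℕ} (hm : up_OK R m) (i j : ℕ) (hij : i < j) (hj : j < 16)
    (h : tb m i j = true) : R i j := by
  have hb : Nat.blt i j = true := by rw [Nat.blt_eq]; exact hij
  unfold tb at h
  rw [hb, cond_true] at h
  obtain ⟨i', j', h1, h2, h3, h4⟩ := hm _ h
  have e1 : i' = i := by omega
  have e2 : j' = j := by omega
  rw [e1, e2] at h4
  exact h4

theorem up_dd (R : ℕ → ℕ → Prop) {m : ℕ} (hm : up_OK R m) (i : ℕ) (hi : i < 16) :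
    tb m i i = false := by
  by_contra hne
  have h : tb m i i = true := by simpa using hne
  have hb : Nat.blt i i = false := by
    cases hh : Nat.blt i i
    · rfl
    · rw [Nat.blt_eq] at hh; omega
  unfold tb at h
  rw [hb, cond_false] at h
  obtain ⟨i', j', h1, h2, h3, _⟩ := hm _ h
  omega

theorem up_and (R R' : ℕ → ℕ → Prop) {m n : ℕ} (hm : up_OK R m) (hn : up_OK R' n)
    (h : ∀ i j, R i j → R' i j → False) : m &&& n = 0 := by
  refine Nat.eq_of_testBit_eq fun k => ?_
  rw [Nat.testBit_and, Nat.zero_testBit]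
  by_contra hne
  have h1 : m.testBit k = true ∧ n.testBit k = true := by
    have : (m.testBit k && n.testBit k) = true := by simpa using hne
    rwa [Bool.and_eq_true] at this
  obtain ⟨i, j, a1, a2, a3, a4⟩ := hm k h1.1
  obtain ⟨i', j', b1, b2, b3, b4⟩ := hn k h1.2
  have e1 : i' = i := by omega
  have e2 : j' = j := by omega
  rw [e1, e2] at b4
  exact h i j a4 b4

theorem up_mkA (a b c d e : ℕ) : mkA [a, b, c, d, e] = pb 0 1 ||| pb 1 2 ||| pb 2 3 ||| pb 3 4 |||
    pb a c ||| pb a d ||| pb a e ||| pb b d ||| pb b e ||| pb c e := rfl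

theorem up_mkB (a b c d e : ℕ) : mkB [a, b, c, d, e] = pb 0 2 ||| pb 0 3 ||| pb 0 4 ||| pb 1 3 |||
    pb 1 4 ||| pb 2 4 ||| pb a b ||| pb b c ||| pb c d ||| pb d e := rfl

theorem up_mkAl (a b c d e i : ℕ) : (mkAl [a, b, c, d, e]).testBit i = true ↔
    i < 5 ∨ i = a ∨ i = b ∨ i = c ∨ i = d ∨ i = e := by
  have h : mkAl [a, b, c, d, e] = 31 ||| (1 <<< a) ||| (1 <<< b) ||| (1 <<< c) ||| (1 <<< d) |||
    (1 <<< e) := rfl
  have h31 : Nat.testBit 31 i = true ↔ i < 5 := by
    have : (31 : ℕ) = 2 ^ 5 - 1 := by norm_num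
    rw [this, Nat.testBit_two_pow_sub_one]
    exact decide_eq_true_iff
  rw [h]
  simp only [Nat.testBit_or, Bool.or_eq_true, up_sh, h31]
  constructor
  · rintro (((((h | h) | h) | h) | h) | h)
    · exact Or.inl h
    · exact Or.inr (Or.inl h.symm)
    · exact Or.inr (Or.inr (Or.inl h.symm))
    · exact Or.inr (Or.inr (Or.inr (Or.inl h.symm)))
    · exact Or.inr (Or.inr (Or.inr (Or.inr (Or.inl h.symm))))
    · exact Or.inr (Or.inr (Or.inr (Or.inr (Or.inr h.symm))))
  · rintro (h | h | h | h | h | h)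
    · exact Or.inl (Or.inl (Or.inl (Or.inl (Or.inl h))))
    · exact Or.inl (Or.inl (Or.inl (Or.inl (Or.inr h.symm))))
    · exact Or.inl (Or.inl (Or.inl (Or.inr h.symm)))
    · exact Or.inl (Or.inl (Or.inr h.symm))
    · exact Or.inl (Or.inr h.symm)
    · exact Or.inr h.symm

theorem up_allL (a b c d e : ℕ) (ha : a < 5 ∨ a = 5) (hb : b < 5 ∨ b = 6) (hc : c < 5 ∨ c = 7)
    (hd : d < 5 ∨ d = 8) (he : e < 5 ∨ e = 9) : [a, b, c, d, e] ∈ allL := by
  have h5 : ∀ n t : ℕ, (n < 5 ∨ n = t) → n ∈ [0, 1, 2, 3, 4, t] := by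
    intro n t h
    simp only [List.mem_cons, List.not_mem_nil, or_false]
    omega
  unfold allL
  exact List.mem_flatMap.2 ⟨a, h5 _ _ ha, List.mem_flatMap.2 ⟨b, h5 _ _ hb, List.mem_flatMap.2
    ⟨c, h5 _ _ hc, List.mem_flatMap.2 ⟨d, h5 _ _ hd, List.mem_map.2 ⟨e, h5 _ _ he, rfl⟩⟩⟩⟩⟩

theorem up_beq (a b : ℕ) (h : a ≠ b) : Nat.beq a b = false := by
  cases hh : Nat.beq a b
  · rfl
  · exact absurd (Nat.eq_of_beq_eq_true hh) h

theorem up_nd5 (a b c d e : ℕ) (h1 : a ≠ b) (h2 : a ≠ c) (h3 : a ≠ d) (h4 : a ≠ e) (h5 : b ≠ c)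
    (h6 : b ≠ d) (h7 : b ≠ e) (h8 : c ≠ d) (h9 : c ≠ e) (h10 : d ≠ e) : nd5 [a, b, c, d, e] = true := by
  simp only [nd5, List.all_cons, List.all_nil, up_beq a b h1, up_beq a c h2, up_beq a d h3,
    up_beq a e h4, up_beq b c h5, up_beq b d h6, up_beq b e h7, up_beq c d h8, up_beq c e h9,
    up_beq d e h10, Bool.not_false, Bool.and_self]

theorem up_pc (m k : ℕ) : pc m k = ((Finset.range k).filter (fun i => m.testBit i = true)).card := by
  induction k with
  | zero => rfl
  | succ k ih =>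
    rw [Finset.range_add_one, Finset.filter_insert]
    unfold pc
    rw [ih]
    cases h : m.testBit k
    · simp
    · simp only [cond_true, if_true]
      rw [Finset.card_insert_of_notMem (by simp)]
      omega

/-- TARGET -/
theorem usePat (tab exc : List (List ℕ × Tr))
    (htab : tab.all (fun e => chk false (mkAl e.1) (fun _ _ => false) e.2 (mkA e.1) (mkB e.1)) = true)
    (hexc : exc.all (fun e => chk false (mkAl e.1 ||| 1024) (QE (mkAl e.1)) e.2 (mkA e.1) (mkB e.1)) = true)
    (h6 : exc.all (fun e => Nat.beq (pc (mkAl e.1) 16) 6) = true)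
    (hcov : cov tab exc = true) (hS : Sur G) (x s : ℕ → V) (hx : IsP5 G x) (hs : IsP5 Gᶜ s)
    (hov : ∃ i < 5, ∃ j < 5, s i = x j) :
    ∃ M : Finset V, 2 ≤ M.card ∧ M.card ≤ 6 ∧ ∀ u, u ∉ M → (∀ v ∈ M, G.Adj u v) ∨ (∀ v ∈ M, ¬G.Adj u v) := by
  -- the labels
  have hl0 : ∀ i, ∃ n : ℕ, (n < 5 ∧ s i = x n) ∨ (n = 5 + i ∧ ∀ j < 5, s i ≠ x j) := by
    intro i
    by_cases h : ∃ j, j < 5 ∧ s i = x j
    · obtain ⟨j, hj, hj'⟩ := h
      exact ⟨j, Or.inl ⟨hj, hj'⟩⟩
    · exact ⟨5 + i, Or.inr ⟨rfl, fun j hj hj' => h ⟨j, hj, hj'⟩⟩⟩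
  choose l hl using hl0
  -- the vertices
  let f : V → ℕ → V := fun u k => if k < 5 then x k else if k < 10 then s (k - 5) else u
  have hfx : ∀ u k, k < 5 → f u k = x k := fun u k hk => if_pos hk
  have hfl : ∀ u i, i < 5 → f u (l i) = s i := by
    intro u i hi
    rcases hl i with ⟨h1, h2⟩ | ⟨h1, h2⟩
    · rw [hfx u _ h1, h2]
    · show (if l i < 5 then x (l i) else if l i < 10 then s (l i - 5) else u) = s i
      rw [if_neg (by omega), if_pos (by omega), h1, Nat.add_sub_cancel_left]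
  have hf10 : ∀ u, f u 10 = u := fun u => rfl
  have hlt : ∀ i, i < 5 → l i < 10 := by
    intro i hi
    rcases hl i with ⟨h1, h2⟩ | ⟨h1, h2⟩ <;> omega
  have hlinj : ∀ i j, i < 5 → j < 5 → i ≠ j → l i ≠ l j := by
    intro i j hi hj hij h
    apply hij
    apply hs.1 i j hi hj
    rw [← hfl (x 0) i hi, ← hfl (x 0) j hj, h]
  have hAdjx : ∀ u i j, i < 5 → j < 5 → (i + 1 = j ∨ j + 1 = i) → G.Adj (f u i) (f u j) := by
    intro u i j hi hj h
    rw [hfx u i hi, hfx u j hj]
    exact (hx.2 i j hi hj).2 h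
  have hNAdjx : ∀ u i j, i < 5 → j < 5 → ¬ (i + 1 = j ∨ j + 1 = i) → ¬ G.Adj (f u i) (f u j) := by
    intro u i j hi hj h
    rw [hfx u i hi, hfx u j hj]
    exact fun h' => h ((hx.2 i j hi hj).1 h')
  have hAdjs : ∀ u i j, i < 5 → j < 5 → i ≠ j → ¬ (i + 1 = j ∨ j + 1 = i) →
      G.Adj (f u (l i)) (f u (l j)) := by
    intro u i j hi hj hij h
    rw [hfl u i hi, hfl u j hj]
    by_contra hn
    exact h ((hs.2 i j hi hj).1 ((SimpleGraph.compl_adj G _ _).2 ⟨fun he => hij (hs.1 i j hi hj he), hn⟩))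
  have hNAdjs : ∀ u i j, i < 5 → j < 5 → (i + 1 = j ∨ j + 1 = i) →
      ¬ G.Adj (f u (l i)) (f u (l j)) := by
    intro u i j hi hj h
    rw [hfl u i hi, hfl u j hj]
    exact ((SimpleGraph.compl_adj G _ _).1 ((hs.2 i j hi hj).2 h)).2
  obtain ⟨L, hL⟩ : ∃ L : List ℕ, L = [l 0, l 1, l 2, l 3, l 4] := ⟨_, rfl⟩
  have hl16 : ∀ i, i < 5 → l i < 16 := fun i hi => by have := hlt i hi; omega
  have hOKA : ∀ u, up_OK (fun i j => G.Adj (f u i) (f u j)) (mkA L) := by
    intro u
    have hR : ∀ i j, G.Adj (f u i) (f u j) → G.Adj (f u j) (f u i) := fun i j h => h.symm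
    have hp : ∀ i j, i < 5 → j < 5 → (i + 1 = j ∨ j + 1 = i) →
        up_OK (fun i j => G.Adj (f u i) (f u j)) (pb i j) := fun i j hi hj h =>
      up_pb _ hR i j (by omega) (by omega) (by omega) (hAdjx u i j hi hj h)
    have hq : ∀ i j, i < 5 → j < 5 → i ≠ j → ¬ (i + 1 = j ∨ j + 1 = i) →
        up_OK (fun i j => G.Adj (f u i) (f u j)) (pb (l i) (l j)) := fun i j hi hj hij h =>
      up_pb _ hR _ _ (hl16 i hi) (hl16 j hj) (hlinj i j hi hj hij) (hAdjs u i j hi hj hij h)
    rw [hL, up_mkA]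
    exact up_or _ (up_or _ (up_or _ (up_or _ (up_or _ (up_or _ (up_or _ (up_or _ (up_or _
      (hp 0 1 (by omega) (by omega) (by omega)) (hp 1 2 (by omega) (by omega) (by omega)))
      (hp 2 3 (by omega) (by omega) (by omega))) (hp 3 4 (by omega) (by omega) (by omega)))
      (hq 0 2 (by omega) (by omega) (by omega) (by omega)))
      (hq 0 3 (by omega) (by omega) (by omega) (by omega)))
      (hq 0 4 (by omega) (by omega) (by omega) (by omega)))
      (hq 1 3 (by omega) (by omega) (by omega) (by omega)))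
      (hq 1 4 (by omega) (by omega) (by omega) (by omega)))
      (hq 2 4 (by omega) (by omega) (by omega) (by omega))
  have hOKB : ∀ u, up_OK (fun i j => ¬ G.Adj (f u i) (f u j)) (mkB L) := by
    intro u
    have hR : ∀ i j, ¬ G.Adj (f u i) (f u j) → ¬ G.Adj (f u j) (f u i) := fun i j h h' => h h'.symm
    have hp : ∀ i j, i < 5 → j < 5 → i ≠ j → ¬ (i + 1 = j ∨ j + 1 = i) →
        up_OK (fun i j => ¬ G.Adj (f u i) (f u j)) (pb i j) := fun i j hi hj hij h =>
      up_pb _ hR i j (by omega) (by omega) hij (hNAdjx u i j hi hj h)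
    have hq : ∀ i j, i < 5 → j < 5 → (i + 1 = j ∨ j + 1 = i) →
        up_OK (fun i j => ¬ G.Adj (f u i) (f u j)) (pb (l i) (l j)) := fun i j hi hj h =>
      up_pb _ hR _ _ (hl16 i hi) (hl16 j hj) (hlinj i j hi hj (by omega)) (hNAdjs u i j hi hj h)
    rw [hL, up_mkB]
    exact up_or _ (up_or _ (up_or _ (up_or _ (up_or _ (up_or _ (up_or _ (up_or _ (up_or _
      (hp 0 2 (by omega) (by omega) (by omega) (by omega))
      (hp 0 3 (by omega) (by omega) (by omega) (by omega)))
      (hp 0 4 (by omega) (by omega) (by omega) (by omega)))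
      (hp 1 3 (by omega) (by omega) (by omega) (by omega)))
      (hp 1 4 (by omega) (by omega) (by omega) (by omega)))
      (hp 2 4 (by omega) (by omega) (by omega) (by omega)))
      (hq 0 1 (by omega) (by omega) (by omega)))
      (hq 1 2 (by omega) (by omega) (by omega)))
      (hq 2 3 (by omega) (by omega) (by omega)))
      (hq 3 4 (by omega) (by omega) (by omega))
  have hand : mkA L &&& mkB L = 0 := up_and _ _ (hOKA (x 0)) (hOKB (x 0)) fun i j h h' => h' h
  have hbit : ∀ i, (mkAl L).testBit i = true ↔ i < 5 ∨ ∃ a, a < 5 ∧ i = l a := by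
    intro i
    rw [hL, up_mkAl]
    constructor
    · rintro (h | h | h | h | h | h)
      · exact Or.inl h
      · exact Or.inr ⟨0, by omega, h⟩
      · exact Or.inr ⟨1, by omega, h⟩
      · exact Or.inr ⟨2, by omega, h⟩
      · exact Or.inr ⟨3, by omega, h⟩
      · exact Or.inr ⟨4, by omega, h⟩
    · rintro (h | ⟨a, ha, h⟩)
      · exact Or.inl h
      · interval_cases a
        · exact Or.inr (Or.inl h)
        · exact Or.inr (Or.inr (Or.inl h))
        · exact Or.inr (Or.inr (Or.inr (Or.inl h)))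
        · exact Or.inr (Or.inr (Or.inr (Or.inr (Or.inl h))))
        · exact Or.inr (Or.inr (Or.inr (Or.inr (Or.inr h))))
  have hbit10 : ∀ i, (mkAl L).testBit i = true → i < 10 := by
    intro i hi
    rcases (hbit i).1 hi with h | ⟨a, ha, h⟩
    · omega
    · rw [h]; exact hlt a ha
  have hinj : ∀ u i j, (mkAl L).testBit i = true → (mkAl L).testBit j = true → f u i = f u j → i = j := by
    intro u i j hi hj hij
    rw [hbit] at hi hj
    -- normal form
    have hnf : ∀ i, (i < 5 ∨ ∃ a, a < 5 ∧ i = l a) → (i < 5 ∧ f u i = x i) ∨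
        (∃ a, a < 5 ∧ i = l a ∧ f u i = s a ∧ ∀ j < 5, s a ≠ x j) := by
      intro i hi
      by_cases h5 : i < 5
      · exact Or.inl ⟨h5, hfx u i h5⟩
      · rcases hi with h | ⟨a, ha, h⟩
        · exact absurd h h5
        · rcases hl a with ⟨h1, h2⟩ | ⟨h1, h2⟩
          · omega
          · exact Or.inr ⟨a, ha, h, by rw [h]; exact hfl u a ha, h2⟩
    rcases hnf i hi with ⟨a1, a2⟩ | ⟨a, a1, a2, a3, a4⟩
    · rcases hnf j hj with ⟨b1, b2⟩ | ⟨b, b1, b2, b3, b4⟩
      · rw [a2, b2] at hij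
        exact hx.1 i j a1 b1 hij
      · rw [a2, b3] at hij
        exact absurd hij.symm (b4 i a1)
    · rcases hnf j hj with ⟨b1, b2⟩ | ⟨b, b1, b2, b3, b4⟩
      · rw [a3, b2] at hij
        exact absurd hij (a4 j b1)
      · rw [a3, b3] at hij
        rw [a2, b2, hs.1 a b a1 b1 hij]
  have hlcase : ∀ i, i < 5 → l i < 5 ∨ l i = 5 + i := by
    intro i hi
    rcases hl i with ⟨h1, h2⟩ | ⟨h1, h2⟩
    · exact Or.inl h1
    · exact Or.inr h1
  have hLmem : L ∈ allL := by
    rw [hL]
    exact up_allL _ _ _ _ _ (hlcase 0 (by omega)) (hlcase 1 (by omega)) (hlcase 2 (by omega))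
      (hlcase 3 (by omega)) (hlcase 4 (by omega))
  have hnd : nd5 L = true := by
    rw [hL]
    exact up_nd5 _ _ _ _ _ (hlinj 0 1 (by omega) (by omega) (by omega))
      (hlinj 0 2 (by omega) (by omega) (by omega)) (hlinj 0 3 (by omega) (by omega) (by omega))
      (hlinj 0 4 (by omega) (by omega) (by omega)) (hlinj 1 2 (by omega) (by omega) (by omega))
      (hlinj 1 3 (by omega) (by omega) (by omega)) (hlinj 1 4 (by omega) (by omega) (by omega))
      (hlinj 2 3 (by omega) (by omega) (by omega)) (hlinj 2 4 (by omega) (by omega) (by omega))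
      (hlinj 3 4 (by omega) (by omega) (by omega))
  have hLne : L ≠ [5, 6, 7, 8, 9] := by
    intro h
    rw [hL] at h
    simp only [List.cons.injEq, and_true] at h
    obtain ⟨e0, e1, e2, e3, e4⟩ := h
    obtain ⟨i, hi, j, hj, hij⟩ := hov
    have hli : l i = 5 + i := by
      interval_cases i
      · exact e0
      · exact e1
      · exact e2
      · exact e3
      · exact e4
    rcases hl i with ⟨h1, h2⟩ | ⟨h1, h2⟩
    · omega
    · exact h2 j hj hij
  have hcovL := List.all_eq_true.1 hcov L hLmem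
  have hbz : Nat.beq (mkA L &&& mkB L) 0 = true := by rw [hand]; rfl
  have hLne' : (L == [5, 6, 7, 8, 9]) = false := beq_eq_false_iff_ne.2 hLne
  simp only [hnd, hbz, hLne', Bool.not_true, Bool.false_or, Bool.or_eq_true, List.any_eq_true] at hcovL
  rcases hcovL with ⟨e, he, heL⟩ | ⟨e, he, heL⟩
  · -- a contradiction
    have heL' : e.1 = L := eq_of_beq heL
    have hc := List.all_eq_true.1 htab e he
    rw [heL'] at hc
    exact absurd (chk_sound hS (by simp) (f (x 0)) (hinj (x 0)) False e.2 (mkA L) (mkB L)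
      (fun _ _ _ _ h => absurd h (by simp))
      (fun i hi => ⟨up_dd _ (hOKA (x 0)) i hi, up_dd _ (hOKB (x 0)) i hi⟩)
      (fun i j hij hj h => up_tb _ (hOKA (x 0)) i j hij hj h)
      (fun i j hij hj h => up_tb _ (hOKB (x 0)) i j hij hj h) hc) id
  · have heL' : e.1 = L := eq_of_beq heL
    have hc := List.all_eq_true.1 hexc e he
    have h6' := List.all_eq_true.1 h6 e he
    rw [heL'] at hc h6'
    have h6'' : pc (mkAl L) 16 = 6 := Nat.eq_of_beq_eq_true h6'
    rw [up_pc] at h6''
    let M : Finset V := ((Finset.range 10).filter (fun i => (mkAl L).testBit i = true)).image (f (x 0))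
    have hMmem : ∀ u i, (mkAl L).testBit i = true → f u i ∈ M := by
      intro u i hi
      have hi10 := hbit10 i hi
      refine Finset.mem_image.2 ⟨i, Finset.mem_filter.2 ⟨Finset.mem_range.2 hi10, hi⟩, ?_⟩
      show (if i < 5 then x i else if i < 10 then s (i - 5) else x 0) =
        (if i < 5 then x i else if i < 10 then s (i - 5) else u)
      split_ifs <;> rfl
    have hMof : ∀ u v, v ∈ M → ∃ i, i < 10 ∧ (mkAl L).testBit i = true ∧ f u i = v := by
      intro u v hv
      obtain ⟨i, hi, hiv⟩ := Finset.mem_image.1 hv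
      rw [Finset.mem_filter, Finset.mem_range] at hi
      refine ⟨i, hi.1, hi.2, ?_⟩
      rw [← hiv]
      show (if i < 5 then x i else if i < 10 then s (i - 5) else u) =
        (if i < 5 then x i else if i < 10 then s (i - 5) else x 0)
      have hi10 := hi.1
      split_ifs <;> rfl
    refine ⟨M, ?_, ?_, ?_⟩
    · have h0 : x 0 ∈ M := by
        have := hMmem (x 0) 0 ((hbit 0).2 (Or.inl (by omega)))
        rwa [hfx (x 0) 0 (by omega)] at this
      have h1 : x 1 ∈ M := by
        have := hMmem (x 0) 1 ((hbit 1).2 (Or.inl (by omega)))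
        rwa [hfx (x 0) 1 (by omega)] at this
      have hne : x 0 ≠ x 1 := fun h => absurd (hx.1 0 1 (by omega) (by omega) h) (by omega)
      exact Finset.one_lt_card.2 ⟨x 0, h0, x 1, h1, hne⟩
    · refine Finset.card_image_le.trans ?_
      rw [← h6'']
      refine Finset.card_le_card ?_
      intro i hi
      rw [Finset.mem_filter, Finset.mem_range] at hi ⊢
      exact ⟨by omega, hi.2⟩
    · intro u hu
      have h1024 : ∀ i, (1024 : ℕ).testBit i = true ↔ i = 10 := by
        intro i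
        have : (1024 : ℕ) = 1 <<< 10 := rfl
        rw [this, up_sh]
        exact eq_comm
      refine chk_sound hS (by simp) (f u) ?_ _ e.2 (mkA L) (mkB L) ?_
        (fun i hi => ⟨up_dd _ (hOKA u) i hi, up_dd _ (hOKB u) i hi⟩)
        (fun i j hij hj h => up_tb _ (hOKA u) i j hij hj h)
        (fun i j hij hj h => up_tb _ (hOKB u) i j hij hj h) hc
      · intro i j hi hj hij
        rw [Nat.testBit_or, Bool.or_eq_true, h1024] at hi hj
        rcases hi with hi | hi
        · rcases hj with hj | hj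
          · exact hinj u i j hi hj hij
          · rw [hj, hf10] at hij
            exact absurd (hij ▸ hMmem u i hi) hu
        · rcases hj with hj | hj
          · rw [hi, hf10] at hij
            exact absurd (hij ▸ hMmem u j hj) hu
          · rw [hi, hj]
      · intro a' b' hA hB hQ
        unfold QE at hQ
        rw [Bool.or_eq_true, List.all_eq_true, List.all_eq_true] at hQ
        rcases hQ with hQ | hQ
        · left
          intro v hv
          obtain ⟨i, hi10, hib, hiv⟩ := hMof u v hv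
          have h1 := hQ i (List.mem_range.2 hi10)
          rw [hib, Bool.not_true, Bool.false_or] at h1
          have h2 := hA i 10 (by omega) (by omega) h1
          rw [hiv, hf10] at h2
          exact h2.symm
        · right
          intro v hv hadj
          obtain ⟨i, hi10, hib, hiv⟩ := hMof u v hv
          have h1 := hQ i (List.mem_range.2 hi10)
          rw [hib, Bool.not_true, Bool.false_or] at h1
          have h2 := hB i 10 (by omega) (by omega) h1
          rw [hiv, hf10] at h2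
          exact h2 hadj.symm

end UsePat

end Pool.Agent.Helper856.Q8
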