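import Pool.Agent.Helper856.Q8.Defs
import Pool.Agent.Helper856.Q8.Sound

open Classical SimpleGraph

namespace Pool.Agent.Helper856.Q8

open Sound (chk_sound)

namespace UseH

variable {V : Type} {G : SimpleGraph V}

theorem useH (t : Tr) (ht : chk false 255 QH t 232113757366008870264635420 10141204803596754168693817344098 = true)
    (hS : Sur G) (x : ℕ → V) (hx : IsP5 Gᶜ x) (w z u : V) (hw : ∀ i < 5, w ≠ x i ∧ ¬G.Adj w (x i))
    (hz : ∀ i < 5, z ≠ x i ∧ ¬G.Adj z (x i)) (hu : ∀ i < 5, u ≠ x i) (hwz : G.Adj w z) (huw : G.Adj u w)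
    (huz : ¬G.Adj u z) (hne : u ≠ z) : ∀ i < 5, ¬G.Adj u (x i) := by
  obtain ⟨hxi, hxa⟩ := hx
  have hG : ∀ i j, i < 5 → j < 5 → i ≠ j → (G.Adj (x i) (x j) ↔ ¬ (i + 1 = j ∨ j + 1 = i)) := by
    intro i j hi hj hij
    have h1 := hxa i j hi hj
    rw [compl_adj] at h1
    have h2 : x i ≠ x j := fun h => hij (hxi i j hi hj h)
    constructor
    · intro h h3
      exact (h1.2 h3).2 h
    · intro h
      by_contra h3
      exact h (h1.1 ⟨h2, h3⟩)
  obtain ⟨f, hf⟩ : ∃ f : ℕ → V, f = fun k => if k < 5 then x k else if k = 5 then w else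
    if k = 6 then z else u := ⟨_, rfl⟩
  have f0 : ∀ i, i < 5 → f i = x i := by
    intro i hi
    rw [hf]
    simp only [hi, if_true]
  have f5 : f 5 = w := by rw [hf]; simp
  have f6 : f 6 = z := by rw [hf]; simp
  have f7 : f 7 = u := by rw [hf]; simp
  have h8 : ∀ i : ℕ, (255 : ℕ).testBit i = true → i < 5 ∨ i = 5 ∨ i = 6 ∨ i = 7 := by
    intro i hi
    have : i < 8 := by
      by_contra hcon
      push Not at hcon
      have h1 : (255 : ℕ) < 2 ^ i :=
        lt_of_lt_of_le (by norm_num) (Nat.pow_le_pow_right (by norm_num) hcon)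
      rw [Nat.testBit_lt_two_pow h1] at hi
      exact Bool.noConfusion hi
    omega
  have hwz' : w ≠ z := hwz.ne
  have huw' : u ≠ w := huw.ne
  refine chk_sound (c4 := false) (al := 255) (Q := QH) hS (fun h => Bool.noConfusion h) f ?_
    (∀ i < 5, ¬G.Adj u (x i)) t 232113757366008870264635420 10141204803596754168693817344098
    ?_ ?_ ?_ ?_ ht
  · intro i j hi hj hij
    rcases h8 i hi with h | rfl | rfl | rfl <;> rcases h8 j hj with h' | rfl | rfl | rfl
    · rw [f0 i h, f0 j h'] at hij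
      exact hxi i j h h' hij
    · rw [f0 i h, f5] at hij
      exact absurd hij.symm (hw i h).1
    · rw [f0 i h, f6] at hij
      exact absurd hij.symm (hz i h).1
    · rw [f0 i h, f7] at hij
      exact absurd hij.symm (hu i h)
    · rw [f0 j h', f5] at hij
      exact absurd hij (hw j h').1
    · rfl
    · rw [f5, f6] at hij
      exact absurd hij hwz'
    · rw [f5, f7] at hij
      exact absurd hij.symm huw'
    · rw [f0 j h', f6] at hij
      exact absurd hij (hz j h').1
    · rw [f5, f6] at hij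
      exact absurd hij.symm hwz'
    · rfl
    · rw [f6, f7] at hij
      exact absurd hij.symm hne
    · rw [f0 j h', f7] at hij
      exact absurd hij (hu j h')
    · rw [f5, f7] at hij
      exact absurd hij huw'
    · rw [f6, f7] at hij
      exact absurd hij hne
    · rfl
  · intro a' b' _ hb' hQ i hi
    unfold QH at hQ
    simp only [Bool.and_eq_true] at hQ
    obtain ⟨⟨⟨⟨q0, q1⟩, q2⟩, q3⟩, q4⟩ := hQ
    have hq : tb b' i 7 = true := by
      interval_cases i
      · exact q0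
      · exact q1
      · exact q2
      · exact q3
      · exact q4
    have h1 := hb' i 7 (by omega) (by norm_num) hq
    rw [f0 i hi, f7] at h1
    exact fun h => h1 h.symm
  · intro i hi
    have h1 : ∀ i : Fin 16, tb 232113757366008870264635420 i i = false ∧
        tb 10141204803596754168693817344098 i i = false := by decide +kernel
    exact h1 ⟨i, hi⟩
  · have hda : ∀ i : Fin 16, ∀ j : Fin 16, i < j → tb 232113757366008870264635420 i j = true →
        ((i : ℕ), (j : ℕ)) ∈ [(0, 2), (0, 3), (0, 4), (1, 3), (1, 4), (2, 4), (5, 6), (5, 7)] := by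
      decide +kernel
    intro i j hij hj h
    have h1 := hda ⟨i, by omega⟩ ⟨j, hj⟩ hij h
    simp only [List.mem_cons, Prod.mk.injEq, List.not_mem_nil, or_false] at h1
    rcases h1 with ⟨rfl, rfl⟩ | ⟨rfl, rfl⟩ | ⟨rfl, rfl⟩ | ⟨rfl, rfl⟩ | ⟨rfl, rfl⟩ | ⟨rfl, rfl⟩ |
      ⟨rfl, rfl⟩ | ⟨rfl, rfl⟩
    · rw [f0 0 (by norm_num), f0 2 (by norm_num)]
      exact (hG 0 2 (by norm_num) (by norm_num) (by norm_num)).2 (by norm_num)
    · rw [f0 0 (by norm_num), f0 3 (by norm_num)]
      exact (hG 0 3 (by norm_num) (by norm_num) (by norm_num)).2 (by norm_num)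
    · rw [f0 0 (by norm_num), f0 4 (by norm_num)]
      exact (hG 0 4 (by norm_num) (by norm_num) (by norm_num)).2 (by norm_num)
    · rw [f0 1 (by norm_num), f0 3 (by norm_num)]
      exact (hG 1 3 (by norm_num) (by norm_num) (by norm_num)).2 (by norm_num)
    · rw [f0 1 (by norm_num), f0 4 (by norm_num)]
      exact (hG 1 4 (by norm_num) (by norm_num) (by norm_num)).2 (by norm_num)
    · rw [f0 2 (by norm_num), f0 4 (by norm_num)]
      exact (hG 2 4 (by norm_num) (by norm_num) (by norm_num)).2 (by norm_num)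
    · rw [f5, f6]
      exact hwz
    · rw [f5, f7]
      exact huw.symm
  · have hdb : ∀ i : Fin 16, ∀ j : Fin 16, i < j → tb 10141204803596754168693817344098 i j = true →
        ((i : ℕ), (j : ℕ)) ∈ [(0, 1), (1, 2), (2, 3), (3, 4), (0, 5), (1, 5), (2, 5), (3, 5), (4, 5),
          (0, 6), (1, 6), (2, 6), (3, 6), (4, 6), (6, 7)] := by
      decide +kernel
    intro i j hij hj h
    have h1 := hdb ⟨i, by omega⟩ ⟨j, hj⟩ hij h
    have hn : ∀ i, i + 1 < 5 → ¬ G.Adj (f i) (f (i + 1)) := by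
      intro i hi h
      rw [f0 i (by omega), f0 (i + 1) hi] at h
      exact (hG i (i + 1) (by omega) hi (by omega)).1 h (Or.inl rfl)
    have hn5 : ∀ i, i < 5 → ¬ G.Adj (f i) (f 5) := by
      intro i hi h
      rw [f0 i hi, f5] at h
      exact (hw i hi).2 h.symm
    have hn6 : ∀ i, i < 5 → ¬ G.Adj (f i) (f 6) := by
      intro i hi h
      rw [f0 i hi, f6] at h
      exact (hz i hi).2 h.symm
    simp only [List.mem_cons, Prod.mk.injEq, List.not_mem_nil, or_false] at h1
    rcases h1 with ⟨rfl, rfl⟩ | ⟨rfl, rfl⟩ | ⟨rfl, rfl⟩ | ⟨rfl, rfl⟩ | ⟨rfl, rfl⟩ | ⟨rfl, rfl⟩ |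
      ⟨rfl, rfl⟩ | ⟨rfl, rfl⟩ | ⟨rfl, rfl⟩ | ⟨rfl, rfl⟩ | ⟨rfl, rfl⟩ | ⟨rfl, rfl⟩ | ⟨rfl, rfl⟩ |
      ⟨rfl, rfl⟩ | ⟨rfl, rfl⟩
    · exact hn 0 (by norm_num)
    · exact hn 1 (by norm_num)
    · exact hn 2 (by norm_num)
    · exact hn 3 (by norm_num)
    · exact hn5 0 (by norm_num)
    · exact hn5 1 (by norm_num)
    · exact hn5 2 (by norm_num)
    · exact hn5 3 (by norm_num)
    · exact hn5 4 (by norm_num)
    · exact hn6 0 (by norm_num)
    · exact hn6 1 (by norm_num)
    · exact hn6 2 (by norm_num)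
    · exact hn6 3 (by norm_num)
    · exact hn6 4 (by norm_num)
    · rw [f6, f7]
      exact fun h => huz h.symm

end UseH

end Pool.Agent.Helper856.Q8
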