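import Pool.Agent.Helper856.Q8.Defs
import Pool.Agent.Helper856.Q8.UseH

open Classical SimpleGraph

namespace Pool.Agent.Helper856.Q8

open UseH (useH)

namespace W0Ind

variable {V : Type} {G : SimpleGraph V}

/-- TARGET -/
theorem w0_ind (hC : CertsOK) (hS : Sur G) (hP : Prime G) [Fintype V] (x : ℕ → V) (hx : IsP5 Gᶜ x)
    (w z : V) (hw : ∀ i < 5, w ≠ x i ∧ ¬G.Adj w (x i)) (hz : ∀ i < 5, z ≠ x i ∧ ¬G.Adj z (x i)) :
    ¬G.Adj w z := by
  intro hwz
  obtain ⟨-, ⟨t, ht⟩, -⟩ := hC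
  let W : V → Prop := fun v => ∀ i < 5, v ≠ x i ∧ ¬G.Adj v (x i)
  let R : V → V → Prop := fun a b => G.Adj a b ∧ W b
  let C : Set V := {v | Relation.ReflTransGen R w v}
  have hCW : ∀ v ∈ C, W v := by
    intro v hv
    rcases Relation.ReflTransGen.cases_tail hv with h | ⟨b, _, hb⟩
    · rw [h]; exact hw
    · exact hb.2
  have hwC : w ∈ C := Relation.ReflTransGen.refl
  have hstep : ∀ a ∈ C, ∀ b, G.Adj a b → W b → b ∈ C := fun a ha b hab hb =>
    Relation.ReflTransGen.tail ha ⟨hab, hb⟩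
  have hzC : z ∈ C := hstep w hwC z hwz hz
  have hnotmd : ¬ Md G C := by
    intro hmd
    rcases hP C hmd with h | h
    · exact hwz.ne (h hwC hzC)
    · have h0 : x 0 ∈ C := by rw [h]; trivial
      exact (hCW _ h0 0 (by norm_num)).1 rfl
  unfold Md at hnotmd
  push Not at hnotmd
  obtain ⟨v, hvC, c1, hc1, c2, hc2, hne⟩ := hnotmd
  -- an edge inside C where the adjacency to v changes
  obtain ⟨w', hw', z', hz', hadj, hvw, hvz⟩ : ∃ w' ∈ C, ∃ z' ∈ C, G.Adj w' z' ∧ G.Adj v w' ∧ ¬G.Adj v z' := by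
    by_contra hcon
    push Not at hcon
    have hall : ∀ c ∈ C, (G.Adj v w ↔ G.Adj v c) := by
      intro c hc
      induction hc with
      | refl => exact Iff.rfl
      | tail hab hbc ih =>
        rename_i b c'
        have hb : b ∈ C := hab
        have hc' : c' ∈ C := hstep b hb c' hbc.1 hbc.2
        rw [ih]
        exact ⟨fun h => hcon b hb c' hc' hbc.1 h, fun h => hcon c' hc' b hb hbc.1.symm h⟩
    have h1 := hall c1 hc1
    have h2 := hall c2 hc2
    tauto
  have hvx : ∀ i < 5, v ≠ x i := by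
    intro i hi h
    exact (hCW w' hw' i hi).2 (by rw [← h]; exact hvw.symm)
  have hvz' : v ≠ z' := fun h => hvC (h ▸ hz')
  have hfin := useH t ht hS x hx w' z' v (hCW w' hw') (hCW z' hz') hvx hadj hvw hvz hvz'
  exact hvC (hstep w' hw' v hvw.symm fun i hi => ⟨hvx i hi, hfin i hi⟩)

end W0Ind

end Pool.Agent.Helper856.Q8
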