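import Pool.Agent.Helper856.Q8.Defs
import Pool.Agent.Helper856.Q8.UseA
import Pool.Agent.Helper856.Q8.UsePat
import Pool.Agent.Helper856.Q8.W0Ind
import Pool.Agent.Helper856.Q8.Compl

open Classical SimpleGraph

namespace Pool.Agent.Helper856.Q8

open UseA (useA)
open UsePat (usePat)
open W0Ind (w0_ind)
open Compl (sur_compl prime_compl)

namespace Coexist

variable {V : Type} {G : SimpleGraph V}

/-- TARGET -/
theorem coexist (hC : CertsOK) (hS : Sur G) (hP : Prime G) [Fintype V] (h7 : 7 ≤ Fintype.card V)
    (x s : ℕ → V) (hx : IsP5 G x) (hs : IsP5 Gᶜ s) : False := by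
  have hC' := hC
  obtain ⟨⟨t, ht⟩, -, tab, exc, htab, hexc, h6, hcov⟩ := hC'
  by_cases hov : ∃ i < 5, ∃ j < 5, s i = x j
  · obtain ⟨M, hM2, hM6, hM⟩ := usePat tab exc htab hexc h6 hcov hS x s hx hs hov
    have hmd : Md G (M : Set V) := by
      intro v hv a ha b hb
      have ha' : a ∈ M := by exact_mod_cast ha
      have hb' : b ∈ M := by exact_mod_cast hb
      have hv' : v ∉ M := by
        intro h
        exact hv (by exact_mod_cast h)
      rcases hM v hv' with h | h
      · exact iff_of_true (h a ha') (h b hb')
      · exact iff_of_false (h a ha') (h b hb')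
    rcases hP (M : Set V) hmd with h | h
    · obtain ⟨a, ha, b, hb, hab⟩ := Finset.one_lt_card.1 (by omega : 1 < M.card)
      exact hab (h (by exact_mod_cast ha) (by exact_mod_cast hb))
    · have h1 : M = Finset.univ := by
        rw [← Finset.coe_eq_univ]
        exact h
      rw [h1, Finset.card_univ] at hM6
      omega
  · push Not at hov
    have hd : ∀ i < 5, ∀ j < 5, s i ≠ x j := hov
    have hd' : ∀ i < 5, ∀ j < 5, x i ≠ s j := fun i hi j hj h => hd j hj i hi h.symm
    have hx' : IsP5 Gᶜᶜ x := by rw [compl_compl]; exact hx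
    have h1 := useA t ht hS x s hx hs hd
    have h2 := useA t ht (sur_compl hS) s x hs hx' hd'
    by_cases h00 : G.Adj (s 0) (x 0)
    · have h3 : ∀ j < 5, G.Adj (s 0) (x j) := by
        rcases h1 0 (by norm_num) with h | h
        · exact h
        · exact absurd h00 (h 0 (by norm_num))
      have h4 : ∀ i < 5, ∀ j < 5, G.Adj (s i) (x j) := by
        intro i hi j hj
        rcases h2 j hj with h | h
        · exfalso
          have := h 0 (by norm_num)
          rw [compl_adj] at this
          exact this.2 (h3 j hj).symm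
        · have h5 := h i hi
          rw [compl_adj] at h5
          by_contra hcon
          exact h5 ⟨hd' j hj i hi, fun h => hcon h.symm⟩
      refine w0_ind hC (sur_compl hS) (prime_compl hP) x hx' (s 0) (s 1) ?_ ?_ ?_
      · intro i hi
        refine ⟨hd 0 (by norm_num) i hi, fun h => ?_⟩
        rw [compl_adj] at h
        exact h.2 (h4 0 (by norm_num) i hi)
      · intro i hi
        refine ⟨hd 1 (by norm_num) i hi, fun h => ?_⟩
        rw [compl_adj] at h
        exact h.2 (h4 1 (by norm_num) i hi)
      · exact (hs.2 0 1 (by norm_num) (by norm_num)).2 (Or.inl rfl)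
    · have h3 : ∀ j < 5, ¬ G.Adj (s 0) (x j) := by
        rcases h1 0 (by norm_num) with h | h
        · exact absurd (h 0 (by norm_num)) h00
        · exact h
      have h4 : ∀ i < 5, ∀ j < 5, ¬ G.Adj (s i) (x j) := by
        intro i hi j hj
        rcases h2 j hj with h | h
        · have h5 := h i hi
          rw [compl_adj] at h5
          exact fun h => h5.2 h.symm
        · exfalso
          apply h 0 (by norm_num)
          rw [compl_adj]
          exact ⟨hd' j hj 0 (by norm_num), fun h => h3 j hj h.symm⟩
      refine w0_ind hC hS hP s hs (x 0) (x 1) ?_ ?_ ?_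
      · intro i hi
        exact ⟨hd' 0 (by norm_num) i hi, fun h => h4 i hi 0 (by norm_num) h.symm⟩
      · intro i hi
        exact ⟨hd' 1 (by norm_num) i hi, fun h => h4 i hi 1 (by norm_num) h.symm⟩
      · exact (hx.2 0 1 (by norm_num) (by norm_num)).2 (Or.inl rfl)

end Coexist

end Pool.Agent.Helper856.Q8
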