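import Pool.Agent.Helper856.Q8.Defs

open Classical SimpleGraph

namespace Pool.Agent.Helper856.Q8

namespace Vlq

variable {V : Type} {G : SimpleGraph V}

def idxq {n : ℕ} (q : Fin n × Fin n × Fin n × Fin n) (k : ℕ) : Prop :=
  k = q.1.val ∨ k = q.2.1.val ∨ k = q.2.2.1.val ∨ k = q.2.2.2.val

theorem tb_mq {n : ℕ} (q : Fin n × Fin n × Fin n × Fin n) (k : ℕ) :
    (mq q).testBit k = true ↔ idxq q k := by
  unfold mq idxq
  simp only [Nat.testBit_or, Nat.one_shiftLeft, Nat.testBit_two_pow, Bool.or_eq_true,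
    decide_eq_true_eq]
  constructor
  · rintro (((h | h) | h) | h)
    · exact Or.inl h.symm
    · exact Or.inr (Or.inl h.symm)
    · exact Or.inr (Or.inr (Or.inl h.symm))
    · exact Or.inr (Or.inr (Or.inr h.symm))
  · rintro (h | h | h | h)
    · exact Or.inl (Or.inl (Or.inl h.symm))
    · exact Or.inl (Or.inl (Or.inr h.symm))
    · exact Or.inl (Or.inr h.symm)
    · exact Or.inr h.symm

theorem tb_fold {n : ℕ} (L : List (Fin n × Fin n × Fin n × Fin n)) (k : ℕ) :
    (L.foldr (fun r m => mq r ||| m) 0).testBit k = true ↔ ∃ r ∈ L, idxq r k := by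
  induction L with
  | nil => simp
  | cons q L ih =>
    rw [List.foldr_cons, Nat.testBit_or, Bool.or_eq_true, tb_mq, ih]
    constructor
    · rintro (h | ⟨r, hr, h⟩)
      · exact ⟨q, List.mem_cons_self, h⟩
      · exact ⟨r, List.mem_cons_of_mem _ hr, h⟩
    · rintro ⟨r, hr, h⟩
      rcases List.mem_cons.1 hr with rfl | hr
      · exact Or.inl h
      · exact Or.inr ⟨r, hr, h⟩

noncomputable def fq {n : ℕ} (x : Fin n → V) (q : Fin n × Fin n × Fin n × Fin n) : Finset V :=
  {x q.1, x q.2.1, x q.2.2.1, x q.2.2.2}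

theorem mem_fq {n : ℕ} {x : Fin n → V} (hinj : Function.Injective x)
    (q : Fin n × Fin n × Fin n × Fin n) (i : Fin n) : x i ∈ fq x q ↔ idxq q i.val := by
  unfold fq idxq
  simp only [Finset.mem_insert, Finset.mem_singleton, hinj.eq_iff, Fin.ext_iff]

theorem idxq_fin {n : ℕ} {q : Fin n × Fin n × Fin n × Fin n} {k : ℕ} (h : idxq q k) :
    ∃ i : Fin n, i.val = k := by
  rcases h with h | h | h | h <;> exact ⟨_, h.symm⟩

theorem mem_uL (L : List (Finset V)) (v : V) : v ∈ uL L ↔ ∃ T ∈ L, v ∈ T := by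
  induction L with
  | nil => simp [uL]
  | cons A L ih =>
    have : uL (A :: L) = A ∪ uL L := rfl
    rw [this, Finset.mem_union, ih]
    simp

theorem fq_eq {n : ℕ} {x : Fin n → V} (hinj : Function.Injective x)
    {q r : Fin n × Fin n × Fin n × Fin n} (h : fq x r = fq x q) : mq r = mq q := by
  apply Nat.eq_of_testBit_eq
  intro k
  rw [Bool.eq_iff_iff, tb_mq, tb_mq]
  constructor
  · intro hk
    obtain ⟨i, rfl⟩ := idxq_fin hk
    rw [← mem_fq hinj, ← h, mem_fq hinj]
    exact hk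
  · intro hk
    obtain ⟨i, rfl⟩ := idxq_fin hk
    rw [← mem_fq hinj, h, mem_fq hinj]
    exact hk

theorem vlq_aux {n : ℕ} {x : Fin n → V} (hinj : Function.Injective x)
    (L : List (Fin n × Fin n × Fin n × Fin n)) (hok : okq L = true) :
    (L.map (fq x)).Nodup ∧ Cn (L.map (fq x)) := by
  induction L with
  | nil => exact ⟨List.nodup_nil, trivial⟩
  | cons q L ih =>
    simp only [okq, Bool.and_eq_true] at hok
    obtain ⟨⟨h1, h2⟩, h3⟩ := hok
    obtain ⟨ih1, ih2⟩ := ih h3
    rw [List.map_cons]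
    refine ⟨?_, ?_, ih2⟩
    · rw [List.nodup_cons]
      refine ⟨?_, ih1⟩
      intro hmem
      rw [List.mem_map] at hmem
      obtain ⟨r, hr, hrq⟩ := hmem
      rw [List.all_eq_true] at h2
      have := h2 r hr
      rw [bne_iff_ne] at this
      exact this (fq_eq hinj hrq)
    · intro hne
      have hLne : L.isEmpty = false := by
        cases L with
        | nil => exact absurd rfl hne
        | cons _ _ => rfl
      rw [hLne, Bool.false_or, bne_iff_ne] at h1
      obtain ⟨k, hk⟩ := Nat.exists_testBit_of_ne_zero h1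
      rw [Nat.testBit_and, Bool.and_eq_true, tb_mq, tb_fold] at hk
      obtain ⟨hk1, r, hr, hk2⟩ := hk
      obtain ⟨i, rfl⟩ := idxq_fin hk1
      refine ⟨x i, ?_⟩
      rw [Finset.mem_inter, mem_uL]
      refine ⟨(mem_fq hinj q i).2 hk1, fq x r, ?_, (mem_fq hinj r i).2 hk2⟩
      exact List.mem_map.2 ⟨r, hr, rfl⟩

/-- TARGET -/
theorem vlq (hS : Sur G) {n : ℕ} (x : Fin n → V) (hinj : Function.Injective x)
    (L : List (Fin n × Fin n × Fin n × Fin n)) (h0 : L ≠ []) (h7 : L.length ≤ 7) (hn : n ≤ L.length + 1)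
    (hok : okq L = true)
    (hL : ∀ q ∈ L, IsP4 G (x q.1) (x q.2.1) (x q.2.2.1) (x q.2.2.2)) : False := by
  obtain ⟨hnd, hcn⟩ := vlq_aux hinj L hok
  have h := hS (L.map (fq x)) (by simpa using h0) (by simpa using h7) hnd (by
    intro T hT
    rw [List.mem_map] at hT
    obtain ⟨q, hq, rfl⟩ := hT
    exact ⟨_, _, _, _, hL q hq, rfl⟩) hcn
  rw [List.length_map] at h
  have hsub : uL (L.map (fq x)) ⊆ Finset.univ.image x := by
    intro v hv
    rw [mem_uL] at hv
    obtain ⟨T, hT, hvT⟩ := hv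
    rw [List.mem_map] at hT
    obtain ⟨q, _, rfl⟩ := hT
    unfold fq at hvT
    simp only [Finset.mem_insert, Finset.mem_singleton] at hvT
    rw [Finset.mem_image]
    rcases hvT with h | h | h | h <;> exact ⟨_, Finset.mem_univ _, h.symm⟩
  have hc := (Finset.card_le_card hsub).trans Finset.card_image_le
  rw [Finset.card_univ, Fintype.card_fin] at hc
  omega

end Vlq

end Pool.Agent.Helper856.Q8
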