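import Pool.Agent.Helper856.Q8.Defs
import Pool.Agent.Helper856.Q8.Vlq

open Classical SimpleGraph

namespace Pool.Agent.Helper856.Q8

open Vlq (vlq)

namespace P5K2

variable {V : Type} {G : SimpleGraph V}

theorem x975_mkP5 (p0 p1 p2 p3 p4 : V) (h01 : G.Adj p0 p1) (h12 : G.Adj p1 p2) (h23 : G.Adj p2 p3)
    (h34 : G.Adj p3 p4) (n02 : ¬G.Adj p0 p2) (n03 : ¬G.Adj p0 p3) (n04 : ¬G.Adj p0 p4)
    (n13 : ¬G.Adj p1 p3) (n14 : ¬G.Adj p1 p4) (n24 : ¬G.Adj p2 p4) : ∃ x : ℕ → V, IsP5 G x := by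
  have d01 : p0 ≠ p1 := h01.ne
  have d12 : p1 ≠ p2 := h12.ne
  have d23 : p2 ≠ p3 := h23.ne
  have d34 : p3 ≠ p4 := h34.ne
  have d02 : p0 ≠ p2 := fun h => n03 (h ▸ h23)
  have d03 : p0 ≠ p3 := fun h => n13 (h ▸ h01.symm)
  have d04 : p0 ≠ p4 := fun h => n14 (h ▸ h01.symm)
  have d13 : p1 ≠ p3 := fun h => n03 (h ▸ h01)
  have d14 : p1 ≠ p4 := fun h => n04 (h ▸ h01)
  have d24 : p2 ≠ p4 := fun h => n14 (h ▸ h12)
  refine ⟨fun i => if i = 0 then p0 else if i = 1 then p1 else if i = 2 then p2 else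
    if i = 3 then p3 else p4, ?_, ?_⟩
  · intro i j hi hj hij
    interval_cases i <;> interval_cases j <;> simp_all
  · intro i j hi hj
    interval_cases i <;> interval_cases j <;> simp_all [SimpleGraph.adj_comm]

/-- anticomplete to and different from `c`, `e` -/
def x975_W (G : SimpleGraph V) (c e : V) : Set V := {u | u ≠ c ∧ u ≠ e ∧ ¬G.Adj u c ∧ ¬G.Adj u e}

/-- component of `a` -/
def x975_A (G : SimpleGraph V) (c e a : V) : Set V :=
  {u | Relation.ReflTransGen (fun x y => G.Adj x y ∧ y ∈ x975_W G c e) a u}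

theorem x975_A_sub (c e a : V) (ha : a ∈ x975_W G c e) : ∀ u ∈ x975_A G c e a, u ∈ x975_W G c e := by
  intro u hu
  rcases Relation.ReflTransGen.cases_tail hu with h | ⟨w, _, h⟩
  · rw [h]; exact ha
  · exact h.2

theorem x975_star (hP : Prime G) (a b c e : V) (hab : G.Adj a b)
    (ha : a ∈ x975_W G c e) (hb : b ∈ x975_W G c e) :
    ∃ v a' b', a' ∈ x975_A G c e a ∧ b' ∈ x975_A G c e a ∧ G.Adj a' b' ∧ G.Adj v a' ∧
      ¬G.Adj v b' ∧ v ∉ x975_A G c e a ∧ (G.Adj v c ∨ G.Adj v e) := by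
  have haA : a ∈ x975_A G c e a := Relation.ReflTransGen.refl
  have hbA : b ∈ x975_A G c e a := Relation.ReflTransGen.single ⟨hab, hb⟩
  have hsub := x975_A_sub (G := G) c e a ha
  have hcA : c ∉ x975_A G c e a := fun h => (hsub c h).1 rfl
  have hnMd : ¬ Md G (x975_A G c e a) := by
    intro h
    rcases hP _ h with h1 | h1
    · exact hab.ne (h1 haA hbA)
    · exact hcA (h1 ▸ Set.mem_univ c)
  unfold Md at hnMd
  push Not at hnMd
  obtain ⟨v, hv, x, hx, y, hy, hxy⟩ := hnMd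
  -- an edge on which v is mixed
  have hedge : ∃ p q, p ∈ x975_A G c e a ∧ q ∈ x975_A G c e a ∧ G.Adj p q ∧
      ¬ (G.Adj v p ↔ G.Adj v q) := by
    by_contra hcon
    push Not at hcon
    have hall : ∀ u ∈ x975_A G c e a, (G.Adj v a ↔ G.Adj v u) := by
      intro u hu
      induction hu with
      | refl => exact Iff.rfl
      | tail h1 h2 ih =>
        refine ih.trans ?_
        exact hcon _ _ h1 (Relation.ReflTransGen.tail h1 h2) h2.1
    have h1 := (hall x hx).symm.trans (hall y hy)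
    rcases hxy with ⟨h2, h3⟩ | ⟨h2, h3⟩
    · exact h3 (h1.mp h2)
    · exact h2 (h1.mpr h3)
  obtain ⟨p, q, hp, hq, hpq, hm⟩ := hedge
  obtain ⟨a', b', ha', hb', hab', hva, hvb⟩ : ∃ a' b', a' ∈ x975_A G c e a ∧ b' ∈ x975_A G c e a ∧
      G.Adj a' b' ∧ G.Adj v a' ∧ ¬ G.Adj v b' := by
    by_cases h1 : G.Adj v p
    · have h2 : ¬ G.Adj v q := fun h2 => hm ⟨fun _ => h2, fun _ => h1⟩
      exact ⟨p, q, hp, hq, hpq, h1, h2⟩
    · have h2 : G.Adj v q := by
        by_contra h2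
        exact hm ⟨fun h => absurd h h1, fun h => absurd h h2⟩
      exact ⟨q, p, hq, hp, hpq.symm, h2, h1⟩
  refine ⟨v, a', b', ha', hb', hab', hva, hvb, hv, ?_⟩
  have hvW : v ∉ x975_W G c e := fun h => hv (Relation.ReflTransGen.tail ha' ⟨hva.symm, h⟩)
  have ha'W := hsub a' ha'
  by_contra hcon
  push Not at hcon
  apply hvW
  refine ⟨?_, ?_, hcon.1, hcon.2⟩
  · rintro rfl
    exact ha'W.2.2.1 hva.symm
  · rintro rfl
    exact ha'W.2.2.2 hva.symm

/-- TARGET -/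
theorem p5_2k2 (hS : Sur G) (hP : Prime G) [Fintype V] (a b c e : V) (hab : G.Adj a b) (hce : G.Adj c e)
    (hac : ¬G.Adj a c) (hae : ¬G.Adj a e) (hbc : ¬G.Adj b c) (hbe : ¬G.Adj b e)
    (nac : a ≠ c) (nae : a ≠ e) (nbc : b ≠ c) (nbe : b ≠ e) : ∃ x : ℕ → V, IsP5 G x := by
  by_contra hno
  have haW : a ∈ x975_W G c e := ⟨nac, nae, hac, hae⟩
  have hbW : b ∈ x975_W G c e := ⟨nbc, nbe, hbc, hbe⟩
  obtain ⟨v, a', b', ha', hb', hab', hva, hvb, hvA, hvce⟩ := x975_star hP a b c e hab haW hbW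
  have ha'W := x975_A_sub (G := G) c e a haW a' ha'
  have hb'W := x975_A_sub (G := G) c e a haW b' hb'
  have hvc : G.Adj v c := by
    by_contra h1
    have h2 : G.Adj v e := hvce.resolve_left h1
    exact hno (x975_mkP5 b' a' v e c hab'.symm hva.symm h2 hce.symm (fun h => hvb h.symm)
      hb'W.2.2.2 hb'W.2.2.1 ha'W.2.2.2 ha'W.2.2.1 h1)
  have hve : G.Adj v e := by
    by_contra h1
    exact hno (x975_mkP5 b' a' v c e hab'.symm hva.symm hvc hce (fun h => hvb h.symm)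
      hb'W.2.2.1 hb'W.2.2.2 ha'W.2.2.1 ha'W.2.2.2 h1)
  -- second stage
  have hcW : c ∈ x975_W G a' b' :=
    ⟨ha'W.1.symm, hb'W.1.symm, fun h => ha'W.2.2.1 h.symm, fun h => hb'W.2.2.1 h.symm⟩
  have heW : e ∈ x975_W G a' b' :=
    ⟨ha'W.2.1.symm, hb'W.2.1.symm, fun h => ha'W.2.2.2 h.symm, fun h => hb'W.2.2.2 h.symm⟩
  obtain ⟨w, c', e', hc', he', hce', hwc, hwe, hwD, hwab⟩ := x975_star hP c e a' b' hce hcW heW
  have hDsub := x975_A_sub (G := G) a' b' c hcW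
  have hc'W := hDsub c' hc'
  have he'W := hDsub e' he'
  have hvD : ∀ u ∈ x975_A G a' b' c, G.Adj v u := by
    intro u hu
    induction hu with
    | refl => exact hvc
    | @tail p q h1 h2 ih =>
      by_contra h3
      have hpW := hDsub p h1
      have hqW := h2.2
      exact hno (x975_mkP5 b' a' v p q hab'.symm hva.symm ih h2.1 (fun h => hvb h.symm)
        (fun h => hpW.2.2.2 h.symm) (fun h => hqW.2.2.2 h.symm) (fun h => hpW.2.2.1 h.symm)
        (fun h => hqW.2.2.1 h.symm) h3)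
  have hvc' := hvD c' hc'
  have hve' := hvD e' he'
  have hwa : G.Adj w a' := by
    by_contra h1
    have h2 : G.Adj w b' := hwab.resolve_left h1
    exact hno (x975_mkP5 e' c' w b' a' hce'.symm hwc.symm h2 hab'.symm (fun h => hwe h.symm)
      he'W.2.2.2 he'W.2.2.1 hc'W.2.2.2 hc'W.2.2.1 h1)
  have hwb : G.Adj w b' := by
    by_contra h1
    exact hno (x975_mkP5 e' c' w a' b' hce'.symm hwc.symm hwa hab' (fun h => hwe h.symm)
      he'W.2.2.1 he'W.2.2.2 hc'W.2.2.1 hc'W.2.2.2 h1)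
  -- nonadjacencies in symmetric form
  have nac' : ¬G.Adj a' c' := fun h => hc'W.2.2.1 h.symm
  have nbc' : ¬G.Adj b' c' := fun h => hc'W.2.2.2 h.symm
  have nae' : ¬G.Adj a' e' := fun h => he'W.2.2.1 h.symm
  have nbe' : ¬G.Adj b' e' := fun h => he'W.2.2.2 h.symm
  have nbv : ¬G.Adj b' v := fun h => hvb h.symm
  -- distinctness
  have d01 : a' ≠ b' := hab'.ne
  have d02 : a' ≠ c' := hc'W.1.symm
  have d03 : a' ≠ e' := he'W.1.symm
  have d04 : a' ≠ v := hva.ne'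
  have d05 : a' ≠ w := hwa.ne'
  have d12 : b' ≠ c' := hc'W.2.1.symm
  have d13 : b' ≠ e' := he'W.2.1.symm
  have d14 : b' ≠ v := fun h => nbc' (h ▸ hvc')
  have d15 : b' ≠ w := hwb.ne'
  have d23 : c' ≠ e' := hce'.ne
  have d24 : c' ≠ v := hvc'.ne'
  have d25 : c' ≠ w := hwc.ne'
  have d34 : e' ≠ v := hve'.ne'
  have d35 : e' ≠ w := fun h => nae' (h ▸ hwa.symm)
  have d45 : v ≠ w := fun h => hwe (h ▸ hve')
  have hinj : Function.Injective (![a', b', c', e', v, w] : Fin 6 → V) := by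
    intro i j hij
    fin_cases i <;> fin_cases j <;> simp_all
  by_cases hvw : G.Adj v w
  · refine vlq hS (![a', b', c', e', v, w] : Fin 6 → V) hinj
      [(1,0,4,2), (1,0,4,3), (0,5,2,3), (1,5,2,3), (1,5,4,3)] (by simp) (by simp) (by simp)
      (by rfl) ?_
    intro q hq
    simp only [List.mem_cons, List.mem_nil_iff, or_false] at hq
    rcases hq with rfl | rfl | rfl | rfl | rfl
    · exact ⟨hab'.symm, hva.symm, hvc', nbv, nbc', nac'⟩
    · exact ⟨hab'.symm, hva.symm, hve', nbv, nbe', nae'⟩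
    · exact ⟨hwa.symm, hwc, hce', nac', nae', hwe⟩
    · exact ⟨hwb.symm, hwc, hce', nbc', nbe', hwe⟩
    · exact ⟨hwb.symm, hvw.symm, hve', nbv, nbe', hwe⟩
  · refine vlq hS (![a', b', c', e', v, w] : Fin 6 → V) hinj
      [(1,0,4,2), (1,0,4,3), (0,5,2,3), (5,0,4,3), (1,5,2,3)] (by simp) (by simp) (by simp)
      (by rfl) ?_
    intro q hq
    simp only [List.mem_cons, List.mem_nil_iff, or_false] at hq
    rcases hq with rfl | rfl | rfl | rfl | rfl
    · exact ⟨hab'.symm, hva.symm, hvc', nbv, nbc', nac'⟩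
    · exact ⟨hab'.symm, hva.symm, hve', nbv, nbe', nae'⟩
    · exact ⟨hwa.symm, hwc, hce', nac', nae', hwe⟩
    · exact ⟨hwa, hva.symm, hve', fun h => hvw h.symm, hwe, nae'⟩
    · exact ⟨hwb.symm, hwc, hce', nbc', nbe', hwe⟩

end P5K2

end Pool.Agent.Helper856.Q8
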