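import Pool.Agent.Helper856.Q8.Defs
import Pool.Agent.Helper856.Q8.Coexist
import Pool.Agent.Helper856.Q8.P5K2
import Pool.Agent.Helper856.Q8.Compl

open Classical SimpleGraph

namespace Pool.Agent.Helper856.Q8

open Coexist (coexist)
open P5K2 (p5_2k2)
open Compl (sur_compl prime_compl)

namespace C4Or

variable {V : Type} {G : SimpleGraph V}

/-- TARGET -/
theorem c4_or (hC : CertsOK) (hS : Sur G) (hP : Prime G) [Fintype V] (h7 : 7 ≤ Fintype.card V) :
    NC4 G ∨ NC4 Gᶜ := by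
  by_contra hcon
  obtain ⟨hG, hGc⟩ := not_or.1 hcon
  have h1 : ∃ s : ℕ → V, IsP5 Gᶜ s := by
    unfold NC4 at hG
    push Not at hG
    obtain ⟨a, b, c, d, hab, hbc, hcd, hda, hac, hbd, nac, nbd⟩ := hG
    exact p5_2k2 (sur_compl hS) (prime_compl hP) a c b d ((SimpleGraph.compl_adj G a c).2 ⟨hac, nac⟩)
      ((SimpleGraph.compl_adj G b d).2 ⟨hbd, nbd⟩)
      (fun h => ((SimpleGraph.compl_adj G a b).1 h).2 hab)
      (fun h => ((SimpleGraph.compl_adj G a d).1 h).2 hda.symm)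
      (fun h => ((SimpleGraph.compl_adj G c b).1 h).2 hbc.symm)
      (fun h => ((SimpleGraph.compl_adj G c d).1 h).2 hcd)
      hab.ne hda.ne.symm hbc.ne.symm hcd.ne
  have h2 : ∃ x : ℕ → V, IsP5 G x := by
    unfold NC4 at hGc
    push Not at hGc
    obtain ⟨a, b, c, d, hab, hbc, hcd, hda, hac, hbd, nac, nbd⟩ := hGc
    have eac : G.Adj a c := by
      by_contra h; exact nac ((SimpleGraph.compl_adj G a c).2 ⟨hac, h⟩)
    have ebd : G.Adj b d := by
      by_contra h; exact nbd ((SimpleGraph.compl_adj G b d).2 ⟨hbd, h⟩)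
    exact p5_2k2 hS hP a c b d eac ebd
      ((SimpleGraph.compl_adj G a b).1 hab).2
      (fun h => ((SimpleGraph.compl_adj G d a).1 hda).2 h.symm)
      (fun h => ((SimpleGraph.compl_adj G b c).1 hbc).2 h.symm)
      ((SimpleGraph.compl_adj G c d).1 hcd).2
      hab.ne hda.ne.symm hbc.ne.symm hcd.ne
  obtain ⟨s, hs⟩ := h1
  obtain ⟨x, hx⟩ := h2
  exact coexist hC hS hP h7 x s hx hs

end C4Or

end Pool.Agent.Helper856.Q8
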