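import Pool.Agent.Helper856.Q8.Defs
import Pool.Agent.Helper856.Q8.CertA0
import Pool.Agent.Helper856.Q8.CertA1
import Pool.Agent.Helper856.Q8.CertA2
import Pool.Agent.Helper856.Q8.CertA3

open Classical SimpleGraph

namespace Pool.Agent.Helper856.Q8.CertA

open Pool.Agent.Helper856.Q8.Tr

theorem mkN {i j : ℕ} {t s : Tr} {a b : ℕ} (a' b' : ℕ) (h1 : Nat.blt i j = true) (h2 : Nat.blt j 16 = true)
    (ha : a ||| (1 <<< (16 * i + j)) = a') (hb : b ||| (1 <<< (16 * i + j)) = b')
    (ht : chk false 1023 QA t a' b = true) (hs : chk false 1023 QA s a b' = true) :
    chk false 1023 QA (N i j t s) a b = true := by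
  subst ha hb
  simp only [chk, h1, h2, ht, hs, Bool.and_self]

def tA : Tr := (N 0 5 (N 0 6 (N 0 7 (N 0 8 (N 0 9 (N 1 5 (N 1 6 (N 1 7 CertA0.s0 CertA1.s1) CertA2.s2) CertA3.s3) CertA1.s4) (N 0 9 CertA2.s5 CertA3.s6)) (N 0 8 CertA0.s7 CertA2.s8)) (N 0 7 CertA0.s9 (N 0 8 CertA1.s10 CertA3.s11))) (N 0 6 (N 0 7 CertA3.s12 CertA2.s13) (N 0 7 CertA0.s14 (N 0 8 CertA1.s15 (N 0 9 CertA2.s16 (N 1 5 CertA3.s17 CertA2.s18))))))

theorem okA : chk false 1023 QA tA 2658516839881840235198097336838651906 174225901101657560382198993360435132497948 = true :=
  (mkN 2658516839881840235198097336838651938 174225901101657560382198993360435132497980 (by decide) (by decide) (by decide +kernel) (by decide +kernel) (mkN 2658516839881840235198097336838652002 174225901101657560382198993360435132498012 (by decide) (by decide) (by decide +kernel) (by decide +kernel) (mkN 2658516839881840235198097336838652130 174225901101657560382198993360435132498076 (by decide) (by decide) (by decide +kernel) (by decide +kernel) (mkN 2658516839881840235198097336838652386 174225901101657560382198993360435132498204 (by decide) (by decide) (by decide +kernel) (by decide +kernel) (mkN 2658516839881840235198097336838652898 174225901101657560382198993360435132498460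 (by decide) (by decide) (by decide +kernel) (by decide +kernel) (mkN 2658516839881840235198097336840750050 174225901101657560382198993360435134595100 (by decide) (by decide) (by decide +kernel) (by decide +kernel) (mkN 2658516839881840235198097336844944354 174225901101657560382198993360435136692252 (by decide) (by decide) (by decide +kernel) (by decide +kernel) (mkN 2658516839881840235198097336853332962 174225901101657560382198993360435140886556 (by decide) (by decide) (by decide +kernel) (by decide +kernel) CertA0.ok0 CertA1.ok1) CertA2.ok2) CertA3.ok3) CertA1.ok4) (mkN 2658516839881840235198097336838652642 174225901101657560382198993360435132498716 (by decide) (by decide) (by decide +kernel) (by decide +kernel) CertA2.ok5 CertA3.ok6)) (mkN 2658516839881840235198097336838652258 174225901101657560382198993360435132498332 (by decide) (by decide) (by decide +kernel) (by decide +kernel) CertA0.ok7 CertA2.ok8)) (mkN 2658516839881840235198097336838652066 174225901101657560382198993360435132498140 (by decide) (by decide) (by decide +kernel) (by decide +kernel) CertA0.ok9 (mkN 2658516839881840235198097336838652194 174225901101657560382198993360435132498396 (by decide) (by decide) (by decide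 +kernel) (by decide +kernel) CertA1.ok10 CertA3.ok11))) (mkN 2658516839881840235198097336838651970 174225901101657560382198993360435132498044 (by decide) (by decide) (by decide +kernel) (by decide +kernel) (mkN 2658516839881840235198097336838652098 174225901101657560382198993360435132498108 (by decide) (by decide) (by decide +kernel) (by decide +kernel) CertA3.ok12 CertA2.ok13) (mkN 2658516839881840235198097336838652034 174225901101657560382198993360435132498172 (by decide) (by decide) (by decide +kernel) (by decide +kernel) CertA0.ok14 (mkN 2658516839881840235198097336838652162 174225901101657560382198993360435132498428 (by decide) (by decide) (by decide +kernel) (by decide +kernel) CertA1.ok15 (mkN 2658516839881840235198097336838652418 174225901101657560382198993360435132498940 (by decide) (by decide) (by decide +kernel) (by decide +kernel) CertA2.ok16 (mkN 2658516839881840235198097336840749058 174225901101657560382198993360435134596092 (by decide) (by decide) (by decide +kernel) (by decide +kernel) CertA3.ok17 CertA2.ok18))))))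

end Pool.Agent.Helper856.Q8.CertA
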