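import Pool.Agent.Helper856.Q8.Defs
import Pool.Agent.Helper856.Q8.CertA3

open Classical SimpleGraph

namespace Pool.Agent.Helper856.Q8.CertH

open Pool.Agent.Helper856.Q8.Tr

def tH : Tr := (N 0 7 (N 1 7 (N 2 7 (N 3 7 (N 4 7 (P 2057745234312003840785888266166321) (P 26969030987801279844359348273)) (P 31395005809507473885933805617)) (N 3 7 (P 31397491512017822321508163633) (P 411202642097832490770481))) (N 2 7 (N 3 7 (P 31397491529437974581616844849) (N 4 7 (P 27004324181281617283338281009) (P 539552366934813354041393))) (N 3 7 (N 4 7 (P 412067350959482660270402) (P 35615187265559977213481263153)) (N 4 7 (P 35923463349561426178053578801) (P 26930442465229418433627627569))))) (N 1 7 (N 2 7 (N 3 7 (P 31396282585171387105985699889) (P 8215534596614266929)) (N 3 7 (N 4 7 (P 412067350959478365254402) (P 232621730645146041589809)) (N 4 7 (P 26948398064759621048763162673) (P 534848447197112651751473)))) (N 2 7 (N 3 7 (P 411752598603577371402289) (N 4 7 (P 548148549677293794172977) (P 26969256736330054813205340209))) (N 3 7 (N 4 7 (P 412067350959478365254402) (P 543444629937402658562097)) (N 4 7 (P 27004324181281617545395380273) K)))))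

theorem okH : chk false 255 QH tH 232113757366008870264635420 10141204803596754168693817344098 = true := by
  decide +kernel

end Pool.Agent.Helper856.Q8.CertH
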