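import Pool.Agent.Helper856.Q8.Defs

open Classical SimpleGraph

namespace Pool.Agent.Helper856.Q8

namespace PrimeConn

variable {V : Type} {G : SimpleGraph V}

theorem card_two_aux [Fintype V] (h3 : 3 ≤ Fintype.card V) (x y : V) (h : ∀ z, z = x ∨ z = y) :
    False := by
  have h1 : (Finset.univ : Finset V) ⊆ {x, y} := by
    intro z _
    rw [Finset.mem_insert, Finset.mem_singleton]
    exact h z
  have h2 := Finset.card_le_card h1
  have h4 : ({x, y} : Finset V).card ≤ 2 := Finset.card_le_two
  rw [Finset.card_univ] at h2
  omega

/-- TARGET -/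
theorem prime_conn [Fintype V] (h : Prime G) (h3 : 3 ≤ Fintype.card V) : G.Connected := by
  have hne : Nonempty V := by
    apply Fintype.card_pos_iff.1
    omega
  haveI := hne
  refine ⟨?_⟩
  intro u w
  by_contra hcon
  have hmod : Md G {z | G.Reachable u z} := by
    intro a ha x hx y hy
    have hx' : G.Reachable u x := hx
    have hy' : G.Reachable u y := hy
    constructor
    · intro h1
      exact absurd (hx'.trans h1.symm.reachable) ha
    · intro h1
      exact absurd (hy'.trans h1.symm.reachable) ha
  have hwu : w ≠ u := by
    rintro rfl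
    exact hcon (SimpleGraph.Reachable.refl w)
  rcases h _ hmod with h1 | h1
  · have hiso : ∀ z, ¬ G.Adj u z := by
      intro z hz
      have h2 : z = u := h1 (show G.Reachable u z from hz.reachable)
        (show G.Reachable u u from SimpleGraph.Reachable.refl u)
      rw [h2] at hz
      exact G.loopless.irrefl u hz
    have hmod2 : Md G {z | z ≠ u} := by
      intro a ha x _ y _
      have ha' : a = u := by
        by_contra hne'
        exact ha hne'
      rw [ha']
      exact ⟨fun h2 => absurd h2 (hiso x), fun h2 => absurd h2 (hiso y)⟩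
    rcases h _ hmod2 with h4 | h4
    · apply card_two_aux h3 u w
      intro z
      by_cases hz : z = u
      · exact Or.inl hz
      · exact Or.inr (h4 (show z ≠ u from hz) (show w ≠ u from hwu))
    · have : u ∈ {z | z ≠ u} := by rw [h4]; exact Set.mem_univ u
      exact this rfl
  · have : w ∈ {z | G.Reachable u z} := by rw [h1]; exact Set.mem_univ w
    exact hcon this

/-- TARGET -/
theorem prime_twins [Fintype V] (h : Prime G) (h3 : 3 ≤ Fintype.card V) (x y : V) (hne : x ≠ y)
    (ht : ∀ w, w ≠ x → w ≠ y → (G.Adj x w ↔ G.Adj y w)) : False := by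
  have hmod : Md G {z | z = x ∨ z = y} := by
    intro v hv a ha b hb
    have hvx : v ≠ x := fun h1 => hv (Or.inl h1)
    have hvy : v ≠ y := fun h1 => hv (Or.inr h1)
    have key : G.Adj v x ↔ G.Adj v y := by
      rw [G.adj_comm v x, G.adj_comm v y]
      exact ht v hvx hvy
    rcases ha with rfl | rfl <;> rcases hb with rfl | rfl
    · exact Iff.rfl
    · exact key
    · exact key.symm
    · exact Iff.rfl
  rcases h _ hmod with h1 | h1
  · exact hne (h1 (Or.inl rfl) (Or.inr rfl))
  · apply card_two_aux h3 x y
    intro z
    have : z ∈ {z | z = x ∨ z = y} := by rw [h1]; exact Set.mem_univ z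
    exact this

end PrimeConn

end Pool.Agent.Helper856.Q8
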