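import Pool.Agent.Helper856.Q8.Defs
import Pool.Agent.Helper856.Q8.PrimeConn

open Classical SimpleGraph

namespace Pool.Agent.Helper856.Q8

open PrimeConn (prime_conn prime_twins)

namespace ChainStep

variable {V : Type} {G : SimpleGraph V}

theorem chain_step_priv [Fintype V] {q p y : V} :
    y ∈ priv G q p ↔ G.Adj q y ∧ ¬G.Adj p y ∧ y ≠ p := by
  simp [priv]

/-- from an empty private neighbourhood -/
theorem chain_step_emp [Fintype V] {q p y : V} (h : priv G q p = ∅) (hy : G.Adj q y)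
    (hne : y ≠ p) : G.Adj p y := by
  by_contra hn
  have : y ∈ priv G q p := chain_step_priv.2 ⟨hy, hn, hne⟩
  rw [h] at this
  exact absurd this (Finset.notMem_empty y)

theorem chain_step_Dn [Fintype V] {x y : V} : y ∈ Dn G x ↔ G.Adj x y ∧ priv G y x = ∅ := by
  simp [Dn]

theorem chain_step_F1 [Fintype V] {x f : V} :
    f ∈ F1 G x ↔ G.Adj x f ∧ (priv G f x).Nonempty ∧ (priv G x f).Nonempty := by
  simp [F1]

/-- TARGET -/
theorem chain_step (c1 c3 : ℕ) [Fintype V] (hP : Prime G) (h3 : 3 ≤ Fintype.card V) (hE : PL G c1)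
    (hF : ∀ x, (F1 G x).card ≤ c3) (x : V) (hD : c1 * c3 + 1 < (Dn G x).card) :
    ∃ y ∈ Dn G x, Dn G y ⊆ Dn G x ∧ (Dn G x \ Dn G y).card ≤ c1 * c3 + 1 + c1 + c3 := by
  set Ds : Finset V := (Dn G x).filter (fun d => ∀ f ∈ F1 G x, G.Adj d f) with hDs
  have hmDs : ∀ d, d ∈ Ds ↔ d ∈ Dn G x ∧ ∀ f ∈ F1 G x, G.Adj d f := fun d => by
    simp [hDs]
  -- step 1
  have hcard1 : (Dn G x \ Ds).card ≤ c1 * c3 := by
    have hsub : Dn G x \ Ds ⊆ (F1 G x).biUnion (fun f => priv G x f) := by
      intro z hz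
      rw [Finset.mem_sdiff] at hz
      obtain ⟨hz1, hz2⟩ := hz
      rw [hmDs] at hz2
      push Not at hz2
      obtain ⟨f, hf, hzf⟩ := hz2 hz1
      rw [Finset.mem_biUnion]
      refine ⟨f, hf, chain_step_priv.2 ⟨(chain_step_Dn.1 hz1).1, fun h => hzf h.symm, ?_⟩⟩
      rintro rfl
      have := (chain_step_F1.1 hf).2.1
      rw [(chain_step_Dn.1 hz1).2] at this
      exact absurd this Finset.not_nonempty_empty
    have hb : ∀ f ∈ F1 G x, (priv G x f).card ≤ c1 := by
      intro f hf
      obtain ⟨h1, ⟨r, hr⟩, _⟩ := chain_step_F1.1 hf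
      rw [chain_step_priv] at hr
      exact hE x f r ⟨h1, hr.1, hr.2.1, hr.2.2.symm⟩
    calc (Dn G x \ Ds).card ≤ ((F1 G x).biUnion (fun f => priv G x f)).card :=
          Finset.card_le_card hsub
      _ ≤ (F1 G x).card * c1 := Finset.card_biUnion_le_card_mul _ _ _ hb
      _ ≤ c3 * c1 := Nat.mul_le_mul_right _ (hF x)
      _ = c1 * c3 := Nat.mul_comm _ _
  have hsubDs : Ds ⊆ Dn G x := Finset.filter_subset _ _
  have hcard2 : 1 < Ds.card := by
    have := Finset.card_sdiff_add_card_eq_card hsubDs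
    omega
  -- step 2: `Ds` is not a module
  have hxDs : x ∉ Ds := by
    intro h
    exact G.loopless.irrefl x (chain_step_Dn.1 (hsubDs h)).1
  have hnm : ¬ Md G (Ds : Set V) := by
    intro hM
    rcases hP _ hM with h | h
    · obtain ⟨a, ha, b, hb, hab⟩ := Finset.one_lt_card.1 hcard2
      exact hab (h ha hb)
    · have : x ∈ (Ds : Set V) := by rw [h]; trivial
      exact hxDs this
  have hr : ∃ r, r ∉ Ds ∧ ∃ y1 ∈ Ds, ∃ y2 ∈ Ds, G.Adj r y1 ∧ ¬ G.Adj r y2 := by
    by_contra hcon
    apply hnm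
    intro v hv a ha b hb
    constructor
    · intro h
      by_contra hn
      exact hcon ⟨v, hv, a, ha, b, hb, h, hn⟩
    · intro h
      by_contra hn
      exact hcon ⟨v, hv, b, hb, a, ha, h, hn⟩
  obtain ⟨r, hrDs, y1, hy1, y2, hy2, hry1, hry2⟩ := hr
  have hy1D := chain_step_Dn.1 (hsubDs hy1)
  have hy2D := chain_step_Dn.1 (hsubDs hy2)
  have hrx : r ≠ x := by
    rintro rfl
    exact hry2 hy2D.1
  have hxr : G.Adj x r := chain_step_emp hy1D.2 hry1.symm hrx
  have hrF1 : r ∉ F1 G x := fun h => hry2 (((hmDs y2).1 hy2).2 r h).symm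
  have hpr : priv G r x = ∅ := by
    by_contra hne
    rw [← ne_eq, ← Finset.nonempty_iff_ne_empty] at hne
    apply hrF1
    refine chain_step_F1.2 ⟨hxr, hne, y2, chain_step_priv.2 ⟨hy2D.1, hry2, ?_⟩⟩
    rintro rfl
    exact hrDs hy2
  have hrD : r ∈ Dn G x := chain_step_Dn.2 ⟨hxr, hpr⟩
  obtain ⟨f, hf, hrf⟩ : ∃ f ∈ F1 G x, ¬ G.Adj r f := by
    by_contra hcon
    push Not at hcon
    exact hrDs ((hmDs r).2 ⟨hrD, hcon⟩)
  -- step 3
  obtain ⟨y, hy, hmax⟩ := Finset.exists_max_image (Ds.filter (fun y => G.Adj r y))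
    (fun y => (Finset.univ.filter (fun w => G.Adj y w)).card)
    ⟨y1, Finset.mem_filter.2 ⟨hy1, hry1⟩⟩
  rw [Finset.mem_filter] at hy
  obtain ⟨hyDs, hry⟩ := hy
  have hyD := chain_step_Dn.1 (hsubDs hyDs)
  refine ⟨y, hsubDs hyDs, ?_, ?_⟩
  · intro z hz
    have hzD := chain_step_Dn.1 hz
    have hzx : z ≠ x := by
      rintro rfl
      refine prime_twins hP h3 z y hyD.1.ne (fun w hwz hwy => ⟨fun h => ?_, fun h => ?_⟩)
      · exact chain_step_emp hzD.2 h hwy
      · exact chain_step_emp hyD.2 h hwz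
    have hxz : G.Adj x z := chain_step_emp hyD.2 hzD.1 hzx
    refine chain_step_Dn.2 ⟨hxz, ?_⟩
    rw [Finset.eq_empty_iff_forall_notMem]
    intro w hw
    obtain ⟨h1, h2, h4⟩ := chain_step_priv.1 hw
    by_cases hwy : w = y
    · subst hwy; exact h2 hyD.1
    · exact h2 (chain_step_emp hyD.2 (chain_step_emp hzD.2 h1 hwy) h4)
  · have hsub : Dn G x \ Dn G y ⊆ ((Dn G x \ Ds) ∪ {y}) ∪ priv G f y ∪ F1 G y := by
      intro z hz
      rw [Finset.mem_sdiff] at hz
      obtain ⟨hz1, hz2⟩ := hz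
      simp only [Finset.mem_union, Finset.mem_sdiff, Finset.mem_singleton]
      by_cases hzDs : z ∈ Ds
      swap
      · exact Or.inl (Or.inl (Or.inl ⟨hz1, hzDs⟩))
      by_cases hzy : z = y
      · exact Or.inl (Or.inl (Or.inr hzy))
      have hfz : G.Adj f z := (((hmDs z).1 hzDs).2 f hf).symm
      by_cases hyz : G.Adj y z
      swap
      · exact Or.inl (Or.inr (chain_step_priv.2 ⟨hfz, hyz, hzy⟩))
      right
      have hne1 : (priv G z y).Nonempty := by
        rw [Finset.nonempty_iff_ne_empty]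
        intro h
        exact hz2 (chain_step_Dn.2 ⟨hyz, h⟩)
      refine chain_step_F1.2 ⟨hyz, hne1, ?_⟩
      rw [Finset.nonempty_iff_ne_empty]
      intro hemp
      have hrz : r ≠ z := by rintro rfl; exact hrDs hzDs
      have hzr : G.Adj z r := chain_step_emp hemp hry.symm hrz
      have hm := hmax z (Finset.mem_filter.2 ⟨hzDs, hzr.symm⟩)
      obtain ⟨g, hg⟩ := hne1
      obtain ⟨g1, g2, g3⟩ := chain_step_priv.1 hg
      have hsub2 : insert g (insert y ((Finset.univ.filter (fun w => G.Adj y w)).erase z)) ⊆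
          Finset.univ.filter (fun w => G.Adj z w) := by
        intro w hw
        rw [Finset.mem_filter]
        refine ⟨Finset.mem_univ _, ?_⟩
        rw [Finset.mem_insert, Finset.mem_insert, Finset.mem_erase, Finset.mem_filter] at hw
        rcases hw with rfl | rfl | ⟨hwz, _, hyw⟩
        · exact g1
        · exact hyz.symm
        · exact chain_step_emp hemp hyw hwz
      have hc := Finset.card_le_card hsub2
      rw [Finset.card_insert_of_notMem, Finset.card_insert_of_notMem,
        Finset.card_erase_of_mem] at hc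
      · have hpos : 0 < (Finset.univ.filter (fun w => G.Adj y w)).card :=
          Finset.card_pos.2 ⟨z, Finset.mem_filter.2 ⟨Finset.mem_univ _, hyz⟩⟩
        omega
      · exact Finset.mem_filter.2 ⟨Finset.mem_univ _, hyz⟩
      · rw [Finset.mem_erase, Finset.mem_filter]
        rintro ⟨_, _, h⟩
        exact G.loopless.irrefl y h
      · rw [Finset.mem_insert, Finset.mem_erase, Finset.mem_filter]
        rintro (h | ⟨_, _, h⟩)
        · exact g3 h
        · exact g2 h
    have hfr : f ≠ r := by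
      rintro rfl
      have := (chain_step_F1.1 hf).2.1
      rw [hpr] at this
      exact absurd this Finset.not_nonempty_empty
    have hpf : (priv G f y).card ≤ c1 :=
      hE f y r ⟨(((hmDs y).1 hyDs).2 f hf).symm, hry.symm, fun h => hrf h.symm, hfr⟩
    calc (Dn G x \ Dn G y).card ≤ (((Dn G x \ Ds) ∪ {y}) ∪ priv G f y ∪ F1 G y).card :=
          Finset.card_le_card hsub
      _ ≤ (((Dn G x \ Ds) ∪ {y}) ∪ priv G f y).card + (F1 G y).card := Finset.card_union_le _ _
      _ ≤ (((Dn G x \ Ds) ∪ {y}).card + (priv G f y).card) + (F1 G y).card :=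
          Nat.add_le_add_right (Finset.card_union_le _ _) _
      _ ≤ (((Dn G x \ Ds).card + 1) + (priv G f y).card) + (F1 G y).card := by
          have := Finset.card_union_le (Dn G x \ Ds) {y}
          rw [Finset.card_singleton] at this
          omega
      _ ≤ c1 * c3 + 1 + c1 + c3 := by
          have := hF y
          omega

end ChainStep

end Pool.Agent.Helper856.Q8
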