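import Pool.Agent.Helper856.Q8.Defs

open Classical SimpleGraph

namespace Pool.Agent.Helper856.Q8

namespace ClOps

variable {V : Type} {G : SimpleGraph V}

/-- TARGET -/
theorem cl_closed (k : ℕ) : Cl6 k (CL k) := by
  refine ⟨?_, ?_, ?_, ?_, ?_, ?_⟩
  · intro P hP
    exact hP.1
  · intro i P hP
    exact hP.2.1 i
  · intro W₁ W₂ G₁ G₂ l₁ l₂ h1 h2 P hP
    exact hP.2.2.1 _ _ _ _ _ _ (h1 P hP) (h2 P hP)
  · intro W W' H l' e h P hP
    exact hP.2.2.2.1 _ _ _ _ e (h P hP)
  · intro W H l' i j h P hP
    exact hP.2.2.2.2.1 _ _ _ i j (h P hP)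
  · intro W H l' i j hij h P hP
    exact hP.2.2.2.2.2 _ _ _ i j hij (h P hP)

theorem cl_relabel_set {k : ℕ} {W : Type} {H : SimpleGraph W} {l : W → Fin k} (h : CL k W H l)
    (g : Fin k → Fin k) (s : Finset (Fin k)) :
    (∀ b ∈ s, g b ∉ s ∨ g b = b) → CL k W H (fun x => if l x ∈ s then g (l x) else l x) := by
  induction s using Finset.induction_on with
  | empty =>
    intro _
    have he : (fun x => if l x ∈ (∅ : Finset (Fin k)) then g (l x) else l x) = l := by
      funext x
      simp
    rw [he]
    exact h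
  | insert a s ha ih =>
    intro hg
    have hgs : ∀ b ∈ s, g b ∉ s ∨ g b = b := by
      intro b hb
      rcases hg b (Finset.mem_insert_of_mem hb) with h1 | h1
      · left
        intro h2
        exact h1 (Finset.mem_insert_of_mem h2)
      · exact Or.inr h1
    have h2 := (cl_closed k).2.2.2.2.1 W H _ a (g a) (ih hgs)
    convert h2 using 1
    funext x
    by_cases hx : l x ∈ s
    · have hne : g (l x) ≠ a := by
        intro he
        rcases hg (l x) (Finset.mem_insert_of_mem hx) with h1 | h1
        · exact h1 (he ▸ Finset.mem_insert_self a s)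
        · rw [he] at h1
          rw [← h1] at hx
          exact ha hx
      simp [hx, hne]
    · by_cases hxa : l x = a
      · simp [hxa, ha]
      · simp [hx, hxa]

/-- TARGET -/
theorem cl_const {k : ℕ} {W : Type} {H : SimpleGraph W} {l : W → Fin k} (h : CL k W H l) (c : Fin k) :
    CL k W H (fun _ => c) := by
  have h2 := cl_relabel_set h (fun _ => c) (Finset.univ.erase c) (by
    intro b _
    left
    simp)
  convert h2 using 1
  funext x
  by_cases hx : l x = c
  · simp [hx]
  · simp [hx]

/-- TARGET -/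
theorem cl_fun {k t : ℕ} (hk : 2 * t + 1 ≤ k) {W : Type} {H : SimpleGraph W} {l : W → Fin k} (h : CL k W H l)
    (hl : ∀ x, (l x).val ≤ t) (l' : W → Fin k) (hl' : ∀ x, (l' x).val < t)
    (hll : ∀ x y, l x = l y → l' x = l' y) : CL k W H l'  := by
  have hf : ∃ f : Fin k → Fin k, ∀ x, f (l x) = l' x := by
    refine ⟨fun a => if h : ∃ x, l x = a then l' h.choose else a, fun x => ?_⟩
    have hx : ∃ y, l y = l x := ⟨x, rfl⟩
    simp only [dif_pos hx]
    exact hll _ _ hx.choose_spec
  obtain ⟨f, hf⟩ := hf
  have h1 := cl_relabel_set h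
    (fun a => if h : t + 1 + (f a).val < k then ⟨t + 1 + (f a).val, h⟩ else a)
    (Finset.univ.filter (fun a : Fin k => a.val ≤ t)) (by
      intro b _
      by_cases hb : t + 1 + (f b).val < k
      · left
        simp only [dif_pos hb, Finset.mem_filter, Finset.mem_univ, true_and]
        omega
      · right
        simp only [dif_neg hb])
  have h2 := cl_relabel_set h1 (fun a => ⟨a.val - (t + 1), lt_of_le_of_lt (Nat.sub_le _ _) a.isLt⟩)
    (Finset.univ.filter (fun a : Fin k => t < a.val ∧ a.val ≤ 2 * t)) (by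
      intro b hb
      left
      simp only [Finset.mem_filter, Finset.mem_univ, true_and] at hb ⊢
      omega)
  convert h2 using 1
  funext x
  have hx1 : l x ∈ Finset.univ.filter (fun a : Fin k => a.val ≤ t) := by
    simp only [Finset.mem_filter, Finset.mem_univ, true_and]
    exact hl x
  have hx2 : t + 1 + (f (l x)).val < k := by
    rw [hf x]
    have := hl' x
    omega
  simp only [if_pos hx1, dif_pos hx2]
  have hx3 : (⟨t + 1 + (f (l x)).val, hx2⟩ : Fin k) ∈
      Finset.univ.filter (fun a : Fin k => t < a.val ∧ a.val ≤ 2 * t) := by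
    simp only [Finset.mem_filter, Finset.mem_univ, true_and]
    rw [hf x]
    have := hl' x
    omega
  rw [if_pos hx3]
  apply Fin.ext
  simp only [hf x]
  omega

/-- TARGET -/
theorem cl_join {k : ℕ} {W : Type} {H : SimpleGraph W} {l : W → Fin k} (h : CL k W H l) (c : Fin k)
    (A : Finset (Fin k)) (hA : c ∉ A) : CL k W (H ⊔ SimpleGraph.fromRel (fun x y => l x ∈ A ∧ l y = c)) l := by
  induction A using Finset.induction_on with
  | empty =>
    have he : H ⊔ SimpleGraph.fromRel (fun x y => l x ∈ (∅ : Finset (Fin k)) ∧ l y = c) = H := by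
      ext x y
      simp [SimpleGraph.fromRel_adj]
    rw [he]
    exact h
  | insert a A ha ih =>
    have hac : a ≠ c := by
      rintro rfl
      exact hA (Finset.mem_insert_self _ _)
    have hcA : c ∉ A := fun h2 => hA (Finset.mem_insert_of_mem h2)
    have h2 := (cl_closed k).2.2.2.2.2 W _ l a c hac (ih hcA)
    convert h2 using 1
    ext x y
    simp only [SimpleGraph.sup_adj, SimpleGraph.fromRel_adj, Finset.mem_insert]
    tauto

end ClOps

end Pool.Agent.Helper856.Q8
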