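import Pool.Agent.Helper856.Q8.Defs

open Classical SimpleGraph

namespace Pool.Agent.Helper856.Q8

namespace ClsInd

variable {V : Type} {G : SimpleGraph V}

/-- TARGET -/
theorem cls_induce {q : ℕ} (h : Cls q G) (R : Set V) : Cls q (G.induce R) := by
  intro S hS
  have h1 := h (S.map (Function.Embedding.subtype (fun x => x ∈ R))) (by
    rw [Finset.card_map]
    exact hS)
  refine le_trans ?_ h1
  unfold np
  refine Finset.card_le_card_of_injOn
    (fun T => T.map (Function.Embedding.subtype (fun x => x ∈ R))) ?_ ?_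
  · intro T hT
    rw [Finset.mem_coe, Finset.mem_filter, Finset.mem_powersetCard] at hT
    rw [Finset.mem_coe, Finset.mem_filter, Finset.mem_powersetCard]
    obtain ⟨⟨h2, h3⟩, a, b, c, d, h4, h5⟩ := hT
    refine ⟨⟨Finset.map_subset_map.2 h2, by rw [Finset.card_map]; exact h3⟩,
      a.1, b.1, c.1, d.1, h4, ?_⟩
    show T.map (Function.Embedding.subtype (fun x => x ∈ R)) = _
    rw [h5]
    ext x
    simp only [Finset.mem_map, Finset.mem_insert, Finset.mem_singleton,
      Function.Embedding.subtype_apply]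
    constructor
    · rintro ⟨y, rfl | rfl | rfl | rfl, rfl⟩ <;> simp
    · rintro (rfl | rfl | rfl | rfl)
      · exact ⟨a, Or.inl rfl, rfl⟩
      · exact ⟨b, Or.inr (Or.inl rfl), rfl⟩
      · exact ⟨c, Or.inr (Or.inr (Or.inl rfl)), rfl⟩
      · exact ⟨d, Or.inr (Or.inr (Or.inr rfl)), rfl⟩
  · intro T _ T' _ hTT
    exact Finset.map_injective _ hTT

end ClsInd

end Pool.Agent.Helper856.Q8
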