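import Pool.Agent.Helper856.Q8.Defs
import Pool.Agent.Helper856.Q8.Vlq

open Classical SimpleGraph

namespace Pool.Agent.Helper856.Q8

open Vlq (vlq)

namespace Contact

variable {V : Type} {G : SimpleGraph V}

theorem contact_gen (hS : Sur G) (M : Fin 8 → Fin 8 → Bool) (x : Fin 8 → V)
    (hM : ∀ i j, G.Adj (x i) (x j) ↔ M i j = true)
    (hd : ∀ i j : Fin 8, (∀ k, M i k = M j k) → i = j)
    (L : List (Fin 8 × Fin 8 × Fin 8 × Fin 8)) (hlen : L.length = 7) (hok : okq L = true)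
    (hL : L.all (fun q => M q.1 q.2.1 && M q.2.1 q.2.2.1 && M q.2.2.1 q.2.2.2 &&
      !M q.1 q.2.2.1 && !M q.1 q.2.2.2 && !M q.2.1 q.2.2.2) = true) : False := by
  have hinj : Function.Injective x := by
    intro i j hij
    apply hd
    intro k
    rw [Bool.eq_iff_iff, ← hM, ← hM, hij]
  have hF : ∀ i j, M i j = false → ¬G.Adj (x i) (x j) := by
    intro i j h h'
    rw [hM, h] at h'
    exact Bool.false_ne_true h'
  refine vlq hS x hinj L (by intro h; rw [h] at hlen; simp at hlen) hlen.le (by omega) hok ?_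
  intro q hq
  have hq' := List.all_eq_true.1 hL q hq
  simp only [Bool.and_eq_true, Bool.not_eq_true'] at hq'
  obtain ⟨⟨⟨⟨⟨a, b⟩, c⟩, d⟩, e⟩, f⟩ := hq'
  exact ⟨(hM _ _).2 a, (hM _ _).2 b, (hM _ _).2 c, hF _ _ d, hF _ _ e, hF _ _ f⟩

theorem contact_s322 (hS : Sur G) (c x1 x2 x3 y1 y2 z1 z2 : V)
    (e01 : G.Adj c x1) (n02 : ¬G.Adj c x2) (n03 : ¬G.Adj c x3) (e04 : G.Adj c y1)
    (n05 : ¬G.Adj c y2) (e06 : G.Adj c z1) (n07 : ¬G.Adj c z2) (e12 : G.Adj x1 x2)
    (n13 : ¬G.Adj x1 x3) (n14 : ¬G.Adj x1 y1) (n15 : ¬G.Adj x1 y2) (n16 : ¬G.Adj x1 z1)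
    (n17 : ¬G.Adj x1 z2) (e23 : G.Adj x2 x3) (n24 : ¬G.Adj x2 y1) (n25 : ¬G.Adj x2 y2)
    (n26 : ¬G.Adj x2 z1) (n27 : ¬G.Adj x2 z2) (n34 : ¬G.Adj x3 y1) (n35 : ¬G.Adj x3 y2)
    (n36 : ¬G.Adj x3 z1) (n37 : ¬G.Adj x3 z2) (e45 : G.Adj y1 y2) (n46 : ¬G.Adj y1 z1)
    (n47 : ¬G.Adj y1 z2) (n56 : ¬G.Adj y2 z1) (n57 : ¬G.Adj y2 z2) (e67 : G.Adj z1 z2) : False := by
  refine contact_gen hS (fun i j => ((![82, 5, 10, 4, 33, 16, 129, 64] : Fin 8 → ℕ) i).testBit j.val)
    ![c, x1, x2, x3, y1, y2, z1, z2] ?_ (by decide)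
    [(3, 2, 1, 0), (2, 1, 0, 4), (1, 0, 4, 5), (2, 1, 0, 6), (1, 0, 6, 7), (5, 4, 0, 6), (4, 0, 6, 7)] rfl
    (by decide +kernel) (by decide +kernel)
  intro i j
  fin_cases i <;> fin_cases j <;>
    first
    | exact iff_of_false (SimpleGraph.irrefl G) (by decide)
    | exact iff_of_true (by assumption) (by decide)
    | exact iff_of_false (by assumption) (by decide)
    | exact iff_of_true (SimpleGraph.Adj.symm (by assumption)) (by decide)
    | exact iff_of_false (fun h => absurd (SimpleGraph.Adj.symm h) (by assumption)) (by decide)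

theorem contact_net (hS : Sur G) (v0 v1 v2 v3 v4 v5 v6 v7 : V)
    (e01 : G.Adj v0 v1) (e02 : G.Adj v0 v2) (e03 : G.Adj v0 v3) (n04 : ¬G.Adj v0 v4)
    (n05 : ¬G.Adj v0 v5) (n06 : ¬G.Adj v0 v6) (n07 : ¬G.Adj v0 v7) (e12 : G.Adj v1 v2)
    (n13 : ¬G.Adj v1 v3) (n14 : ¬G.Adj v1 v4) (e15 : G.Adj v1 v5) (n16 : ¬G.Adj v1 v6)
    (n17 : ¬G.Adj v1 v7) (n23 : ¬G.Adj v2 v3) (n24 : ¬G.Adj v2 v4) (n25 : ¬G.Adj v2 v5)
    (n26 : ¬G.Adj v2 v6) (e27 : G.Adj v2 v7) (e34 : G.Adj v3 v4) (n35 : ¬G.Adj v3 v5)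
    (n36 : ¬G.Adj v3 v6) (n37 : ¬G.Adj v3 v7) (n45 : ¬G.Adj v4 v5) (n46 : ¬G.Adj v4 v6)
    (n47 : ¬G.Adj v4 v7) (e56 : G.Adj v5 v6) (n57 : ¬G.Adj v5 v7) (n67 : ¬G.Adj v6 v7) : False := by
  refine contact_gen hS (fun i j => ((![14, 37, 131, 17, 8, 66, 32, 4] : Fin 8 → ℕ) i).testBit j.val)
    ![v0, v1, v2, v3, v4, v5, v6, v7] ?_ (by decide)
    [(3, 0, 1, 5), (3, 0, 2, 7), (5, 1, 2, 7), (4, 3, 0, 1), (4, 3, 0, 2), (6, 5, 1, 0), (6, 5, 1, 2)] rfl
    (by decide +kernel) (by decide +kernel)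
  intro i j
  fin_cases i <;> fin_cases j <;>
    first
    | exact iff_of_false (SimpleGraph.irrefl G) (by decide)
    | exact iff_of_true (by assumption) (by decide)
    | exact iff_of_false (by assumption) (by decide)
    | exact iff_of_true (SimpleGraph.Adj.symm (by assumption)) (by decide)
    | exact iff_of_false (fun h => absurd (SimpleGraph.Adj.symm h) (by assumption)) (by decide)

/-- TARGET -/
theorem contact (hS : Sur G) (n : ℕ) (p : ℕ → V) (hi : ∀ i j, i ≤ n → j ≤ n → p i = p j → i = j)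
    (hp : ∀ i j, i ≤ n → j ≤ n → (G.Adj (p i) (p j) ↔ (i + 1 = j ∨ j + 1 = i)))
    (y a1 a2 : V) (hy1 : G.Adj y a1) (h12 : G.Adj a1 a2) (hy2 : ¬G.Adj y a2) (hne : y ≠ a2)
    (h1 : ∀ i ≤ n, ¬G.Adj a1 (p i)) (h2 : ∀ i ≤ n, ¬G.Adj a2 (p i)) (hyp : ∀ i ≤ n, y ≠ p i)
    (hm : ∃ i ≤ n, G.Adj y (p i)) (hy : ∀ i ≤ n, G.Adj y (p i) → 3 ≤ i ∧ i + 3 ≤ n) : False := by
  have hadj : ∀ s t, s ≤ n → t ≤ n → (s + 1 = t ∨ t + 1 = s) → G.Adj (p s) (p t) :=
    fun s t hs ht h => (hp s t hs ht).2 h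
  have hnadj : ∀ s t, s ≤ n → t ≤ n → ¬ (s + 1 = t ∨ t + 1 = s) → ¬ G.Adj (p s) (p t) :=
    fun s t hs ht h h' => h ((hp s t hs ht).1 h')
  obtain ⟨a, han, hya, hmin⟩ : ∃ a, a ≤ n ∧ G.Adj y (p a) ∧ ∀ j < a, ¬ G.Adj y (p j) := by
    have h3 : ∃ i, i ≤ n ∧ G.Adj y (p i) := hm
    refine ⟨Nat.find h3, (Nat.find_spec h3).1, (Nat.find_spec h3).2, ?_⟩
    intro j hj hadj'
    have := (Nat.find_spec h3).1
    exact Nat.find_min h3 hj ⟨by omega, hadj'⟩
  obtain ⟨b, hbn, hyb, hmax⟩ : ∃ b, b ≤ n ∧ G.Adj y (p b) ∧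
      ∀ j, b < j → j ≤ n → ¬ G.Adj y (p j) := by
    refine ⟨Nat.findGreatest (fun i => G.Adj y (p i)) n, Nat.findGreatest_le n,
      Nat.findGreatest_spec (P := fun i => G.Adj y (p i)) han hya, ?_⟩
    intro j hj hjn
    exact Nat.findGreatest_is_greatest hj hjn
  obtain ⟨ha3, ha3'⟩ := hy a han hya
  obtain ⟨hb3, hb3'⟩ := hy b hbn hyb
  have hab : a ≤ b := by
    by_contra hcon
    exact hmin b (by omega) hyb
  obtain ⟨a', rfl⟩ : ∃ a', a = a' + 3 := ⟨a - 3, by omega⟩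
  rcases Nat.lt_or_ge b (a' + 5) with hlt | hge
  · rcases Nat.lt_or_ge b (a' + 4) with hlt' | hge'
    · have hb : b = a' + 3 := by omega
      subst hb
      exact contact_s322 hS (p (a'+3)) (p (a'+2)) (p (a'+1)) (p (a')) (p (a'+4)) (p (a'+5)) y a1
        (hadj _ _ (by omega) (by omega) (by omega)) (hnadj _ _ (by omega) (by omega) (by omega))
        (hnadj _ _ (by omega) (by omega) (by omega)) (hadj _ _ (by omega) (by omega) (by omega))
        (hnadj _ _ (by omega) (by omega) (by omega)) (hya).symm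
        (fun h => h1 _ (by omega) h.symm) (hadj _ _ (by omega) (by omega) (by omega))
        (hnadj _ _ (by omega) (by omega) (by omega)) (hnadj _ _ (by omega) (by omega) (by omega))
        (hnadj _ _ (by omega) (by omega) (by omega)) (fun h => (hmin _ (by omega)) h.symm)
        (fun h => h1 _ (by omega) h.symm) (hadj _ _ (by omega) (by omega) (by omega))
        (hnadj _ _ (by omega) (by omega) (by omega)) (hnadj _ _ (by omega) (by omega) (by omega))
        (fun h => (hmin _ (by omega)) h.symm) (fun h => h1 _ (by omega) h.symm)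
        (hnadj _ _ (by omega) (by omega) (by omega)) (hnadj _ _ (by omega) (by omega) (by omega))
        (fun h => (hmin _ (by omega)) h.symm) (fun h => h1 _ (by omega) h.symm)
        (hadj _ _ (by omega) (by omega) (by omega)) (fun h => (hmax _ (by omega) (by omega)) h.symm)
        (fun h => h1 _ (by omega) h.symm) (fun h => (hmax _ (by omega) (by omega)) h.symm)
        (fun h => h1 _ (by omega) h.symm) hy1
    · have hb : b = a' + 4 := by omega
      subst hb
      exact contact_net hS y (p (a'+3)) (p (a'+4)) a1 a2 (p (a'+2)) (p (a'+1)) (p (a'+5))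
        hya hyb
        hy1 hy2
        (hmin _ (by omega)) (hmin _ (by omega))
        (hmax _ (by omega) (by omega)) (hadj _ _ (by omega) (by omega) (by omega))
        (fun h => h1 _ (by omega) h.symm) (fun h => h2 _ (by omega) h.symm)
        (hadj _ _ (by omega) (by omega) (by omega)) (hnadj _ _ (by omega) (by omega) (by omega))
        (hnadj _ _ (by omega) (by omega) (by omega)) (fun h => h1 _ (by omega) h.symm)
        (fun h => h2 _ (by omega) h.symm) (hnadj _ _ (by omega) (by omega) (by omega))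
        (hnadj _ _ (by omega) (by omega) (by omega)) (hadj _ _ (by omega) (by omega) (by omega))
        h12 (h1 _ (by omega))
        (h1 _ (by omega)) (h1 _ (by omega))
        (h2 _ (by omega)) (h2 _ (by omega))
        (h2 _ (by omega)) (hadj _ _ (by omega) (by omega) (by omega))
        (hnadj _ _ (by omega) (by omega) (by omega)) (hnadj _ _ (by omega) (by omega) (by omega))
  · exact contact_s322 hS y (p (a'+3)) (p (a'+2)) (p (a'+1)) (p (b)) (p (b+1)) a1 a2
        hya (hmin _ (by omega))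
        (hmin _ (by omega)) hyb
        (hmax _ (by omega) (by omega)) hy1
        hy2 (hadj _ _ (by omega) (by omega) (by omega))
        (hnadj _ _ (by omega) (by omega) (by omega)) (hnadj _ _ (by omega) (by omega) (by omega))
        (hnadj _ _ (by omega) (by omega) (by omega)) (fun h => h1 _ (by omega) h.symm)
        (fun h => h2 _ (by omega) h.symm) (hadj _ _ (by omega) (by omega) (by omega))
        (hnadj _ _ (by omega) (by omega) (by omega)) (hnadj _ _ (by omega) (by omega) (by omega))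
        (fun h => h1 _ (by omega) h.symm) (fun h => h2 _ (by omega) h.symm)
        (hnadj _ _ (by omega) (by omega) (by omega)) (hnadj _ _ (by omega) (by omega) (by omega))
        (fun h => h1 _ (by omega) h.symm) (fun h => h2 _ (by omega) h.symm)
        (hadj _ _ (by omega) (by omega) (by omega)) (fun h => h1 _ (by omega) h.symm)
        (fun h => h2 _ (by omega) h.symm) (fun h => h1 _ (by omega) h.symm)
        (fun h => h2 _ (by omega) h.symm) h12

end Contact

end Pool.Agent.Helper856.Q8
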