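import Pool.Agent.Helper856.Q8.Defs
import Pool.Agent.Helper856.Q8.PrimeConn

open Classical SimpleGraph

namespace Pool.Agent.Helper856.Q8

open PrimeConn (prime_conn)

namespace Cover

variable {V : Type} {G : SimpleGraph V}

/-- TARGET -/
theorem cover (c1 c3 : ℕ) [Fintype V] (hP : Prime G) (h3 : 3 ≤ Fintype.card V) (hE : PL G c1)
    (hF : ∀ x, (F1 G x).card ≤ c3) (x : V) (hU : Up G x = ∅) (hD : 2 * c1 < (Dn G x).card) :
    (Finset.univ \ Dn G x).card ≤ 1 + c3 + c1 * c3 := by
  -- membership facts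
  have mpriv : ∀ q p y, y ∈ priv G q p ↔ (G.Adj q y ∧ ¬G.Adj p y ∧ y ≠ p) := by
    intro q p y; simp [priv]
  have mF : ∀ f, f ∈ F1 G x ↔ (G.Adj x f ∧ (priv G f x).Nonempty ∧ (priv G x f).Nonempty) := by
    intro f; simp [F1]
  have mD : ∀ f, f ∈ Dn G x ↔ (G.Adj x f ∧ priv G f x = ∅) := by
    intro f; simp [Dn]
  have mU : ∀ f, f ∈ Up G x ↔ (G.Adj x f ∧ priv G x f = ∅) := by
    intro f; simp [Up]
  have hnb : ∀ y, G.Adj x y → y ∈ Dn G x ∨ y ∈ F1 G x := by
    intro y hy
    by_cases h : priv G y x = ∅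
    · exact Or.inl ((mD y).2 ⟨hy, h⟩)
    · refine Or.inr ((mF y).2 ⟨hy, Finset.nonempty_iff_ne_empty.2 h, ?_⟩)
      apply Finset.nonempty_iff_ne_empty.2
      intro h2
      have h3 : y ∈ Up G x := (mU y).2 ⟨hy, h2⟩
      rw [hU] at h3
      exact absurd h3 (Finset.notMem_empty _)
  set T : Finset V := (F1 G x).biUnion (fun f => priv G f x) with hT
  have hTc : T.card ≤ c1 * c3 := by
    calc T.card ≤ ∑ f ∈ F1 G x, (priv G f x).card := Finset.card_biUnion_le
      _ ≤ ∑ f ∈ F1 G x, c1 := by
        refine Finset.sum_le_sum (fun f hf => ?_)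
        obtain ⟨h1, h2, r, hr⟩ := (mF f).1 hf
        have hr' := (mpriv x f r).1 hr
        exact hE f x r ⟨h1.symm, hr'.1, hr'.2.1, fun h => hr'.2.2 h.symm⟩
      _ = (F1 G x).card * c1 := by rw [Finset.sum_const, smul_eq_mul]
      _ ≤ c3 * c1 := Nat.mul_le_mul_right _ (hF x)
      _ = c1 * c3 := Nat.mul_comm _ _
  -- the claim
  have hall : ∀ z, z = x ∨ z ∈ Dn G x ∨ z ∈ F1 G x ∨ z ∈ T := by
    by_contra hcon
    push Not at hcon
    obtain ⟨z0, hz0⟩ := hcon
    have hconn := prime_conn hP h3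
    obtain ⟨p⟩ := hconn.preconnected x z0
    let A : Set V := {z | z = x ∨ z ∈ Dn G x ∨ z ∈ F1 G x ∨ z ∈ T}
    have hxA : x ∈ A := Or.inl rfl
    have hz0A : z0 ∉ A := by
      rintro (h | h | h | h)
      · exact hz0.1 h
      · exact hz0.2.1 h
      · exact hz0.2.2.1 h
      · exact hz0.2.2.2 h
    obtain ⟨dd, -, hdA, hdz⟩ := p.exists_boundary_dart A hxA hz0A
    set t := dd.fst with htdef
    set z := dd.snd with hzdef
    have htz : G.Adj t z := dd.adj
    have hzx : z ≠ x := fun h => hdz (Or.inl h)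
    have hzxa : ¬ G.Adj x z := by
      intro h
      rcases hnb z h with h1 | h1
      · exact hdz (Or.inr (Or.inl h1))
      · exact hdz (Or.inr (Or.inr (Or.inl h1)))
    have hzf : ∀ f ∈ F1 G x, ¬ G.Adj f z := by
      intro f hf hfz
      apply hdz
      refine Or.inr (Or.inr (Or.inr ?_))
      rw [hT, Finset.mem_biUnion]
      exact ⟨f, hf, (mpriv f x z).2 ⟨hfz, hzxa, hzx⟩⟩
    rcases hdA with h | h | h | h
    · rw [h] at htz; exact hzxa htz
    · have h1 := ((mD t).1 h).2
      have h2 : z ∈ priv G t x := (mpriv t x z).2 ⟨htz, hzxa, hzx⟩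
      rw [h1] at h2
      exact absurd h2 (Finset.notMem_empty _)
    · exact hzf t h htz
    · rw [hT, Finset.mem_biUnion] at h
      obtain ⟨f, hf, hft⟩ := h
      have hft' := (mpriv f x t).1 hft
      have hf' := (mF f).1 hf
      have hzne : f ≠ z := by
        intro h; rw [h] at hf; exact hdz (Or.inr (Or.inr (Or.inl hf)))
      have hc1 : (priv G f t).card ≤ c1 := hE f t z ⟨hft'.1, htz, hzf f hf, hzne⟩
      have hc2 : (priv G x f).card ≤ c1 :=
        hE x f t ⟨hf'.1, hft'.1, hft'.2.1, fun h => hft'.2.2 h.symm⟩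
      have hsub : Dn G x ⊆ priv G f t ∪ priv G x f := by
        intro d hd
        have hd' := (mD d).1 hd
        rw [Finset.mem_union]
        by_cases hfd : G.Adj f d
        · left
          refine (mpriv f t d).2 ⟨hfd, ?_, ?_⟩
          · intro htd
            have h2 : t ∈ priv G d x := (mpriv d x t).2 ⟨htd.symm, hft'.2.1, hft'.2.2⟩
            rw [hd'.2] at h2
            exact absurd h2 (Finset.notMem_empty _)
          · intro h; rw [h] at hd'; exact hft'.2.1 hd'.1
        · right
          refine (mpriv x f d).2 ⟨hd'.1, hfd, ?_⟩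
          intro h
          rw [h] at hd'
          have := hf'.2.1
          rw [hd'.2] at this
          exact absurd this Finset.not_nonempty_empty
      have := Finset.card_le_card hsub
      have h5 := Finset.card_union_le (priv G f t) (priv G x f)
      omega
  have hsub : Finset.univ \ Dn G x ⊆ {x} ∪ F1 G x ∪ T := by
    intro z hz
    rw [Finset.mem_sdiff] at hz
    rw [Finset.mem_union, Finset.mem_union, Finset.mem_singleton]
    rcases hall z with h | h | h | h
    · exact Or.inl (Or.inl h)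
    · exact absurd h hz.2
    · exact Or.inl (Or.inr h)
    · exact Or.inr h
  have h1 := Finset.card_le_card hsub
  have h2 := Finset.card_union_le ({x} ∪ F1 G x) T
  have h4 := Finset.card_union_le {x} (F1 G x)
  have h5 := hF x
  rw [Finset.card_singleton] at h4
  omega

end Cover

end Pool.Agent.Helper856.Q8
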