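import Pool.Agent.Helper856.Q8.Defs
import Pool.Agent.Helper856.Q8.ClOps

open Classical SimpleGraph

namespace Pool.Agent.Helper856.Q8

open ClOps (cl_closed)

namespace CsBase

variable {V : Type} {G : SimpleGraph V}

/-- TARGET -/
theorem cs_congr {k : ℕ} {S : Set V} {l l' : V → Fin k} (h : CS k G S l) (hl : ∀ v ∈ S, l v = l' v) : CS k G S l'  := by
  unfold CS at *
  have e : (fun x : S => l' x) = (fun x : S => l x) := by
    funext x
    exact (hl x x.2).symm
  rw [e]
  exact h

/-- TARGET -/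
theorem cs_empty {k : ℕ} (l : V → Fin k) : CS k G ∅ l := by
  have h1 := (cl_closed k).1
  have h2 := (cl_closed k).2.2.2.1
  haveI : IsEmpty (↥(∅ : Set V)) := inferInstance
  let e : PEmpty ≃ ↥(∅ : Set V) := Equiv.equivOfIsEmpty _ _
  have h3 := h2 PEmpty (↥(∅ : Set V)) ⊥ PEmpty.elim e h1
  unfold CS
  have e1 : SimpleGraph.map e.toEmbedding ⊥ = G.induce (∅ : Set V) := by
    ext x y
    exact isEmptyElim x
  have e2 : (PEmpty.elim ∘ e.symm : ↥(∅ : Set V) → Fin k) = (fun x : ↥(∅ : Set V) => l x) := by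
    funext x
    exact isEmptyElim x
  rw [e1, e2] at h3
  exact h3

/-- TARGET -/
theorem cs_single {k : ℕ} (l : V → Fin k) (v : V) : CS k G {v} l := by
  have h1 := (cl_closed k).2.1 (l v)
  have h2 := (cl_closed k).2.2.2.1
  let e : Unit ≃ ↥({v} : Set V) := Equiv.ofUnique _ _
  have h3 := h2 Unit (↥({v} : Set V)) ⊥ (fun _ => l v) e h1
  unfold CS
  have e1 : SimpleGraph.map e.toEmbedding ⊥ = G.induce ({v} : Set V) := by
    ext x y
    have hxy : x = y := Subsingleton.elim x y
    subst hxy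
    simp
  have e2 : ((fun _ : Unit => l v) ∘ e.symm : ↥({v} : Set V) → Fin k) = (fun x : ↥({v} : Set V) => l x) := by
    funext x
    have hx : (x : V) = v := x.2
    simp [hx]
  rw [e1, e2] at h3
  exact h3

end CsBase

end Pool.Agent.Helper856.Q8
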