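import Pool.Agent.Helper856.Q8.Defs
import Pool.Agent.Helper856.Q8.ClOps

open Classical SimpleGraph

namespace Pool.Agent.Helper856.Q8

open ClOps (cl_closed cl_const cl_fun cl_join)

namespace CsStep

variable {V : Type} {G : SimpleGraph V}

theorem cs_step_equiv (S T : Set V) (hd : Disjoint S T) :
    ∃ e : S ⊕ T ≃ ((S ∪ T : Set V) : Type), (∀ s : S, ((e (Sum.inl s) : (S ∪ T : Set V)) : V) = s) ∧
      (∀ u : T, ((e (Sum.inr u) : (S ∪ T : Set V)) : V) = u) :=
  ⟨(Equiv.Set.union hd).symm, fun _ => rfl, fun _ => rfl⟩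

/-- TARGET -/
theorem cs_step {k t : ℕ} (hk : 2 * t + 1 ≤ k) (S T : Set V) (hd : Disjoint S T) (l l' l0 : V → Fin k)
    (hS : CS k G S l) (hT : CS k G T l0) (hl : ∀ s ∈ S, (l s).val < t)
    (h1 : ∀ s ∈ S, ∀ s' ∈ S, l s = l s' → ∀ u ∈ T, (G.Adj s u ↔ G.Adj s' u))
    (h2 : ∀ s ∈ S, ∀ u ∈ T, ∀ u' ∈ T, (G.Adj s u ↔ G.Adj s u'))
    (h3 : ∀ s ∈ S, ∀ s' ∈ S, l s = l s' → l' s = l' s') (h4 : ∀ u ∈ T, ∀ u' ∈ T, l' u = l' u')
    (hl' : ∀ v ∈ S ∪ T, (l' v).val < t) : CS k G (S ∪ T) l'  := by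
  obtain ⟨c, hc⟩ : ∃ c : Fin k, c.val = t := ⟨⟨t, by omega⟩, rfl⟩
  have hlc : ∀ s ∈ S, l s ≠ c := by
    intro s hs h
    have := hl s hs
    rw [h, hc] at this
    exact lt_irrefl _ this
  have hT' : CL k T (G.induce T) (fun _ => c) := cl_const hT c
  have hU := (cl_closed k).2.2.1 S T (G.induce S) (G.induce T) (fun x => l x) (fun _ => c) hS hT'
  obtain ⟨A, hA⟩ : ∃ A : Finset (Fin k), ∀ a, a ∈ A ↔ ∃ s ∈ S, l s = a ∧ ∃ u ∈ T, G.Adj s u :=
    ⟨Finset.univ.filter (fun a => ∃ s ∈ S, l s = a ∧ ∃ u ∈ T, G.Adj s u), fun a => by simp⟩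
  have hcA : c ∉ A := by
    rw [hA]
    rintro ⟨s, hs, h, _⟩
    exact hlc s hs h
  have hAs : ∀ s ∈ S, ∀ u ∈ T, (l s ∈ A ↔ G.Adj s u) := by
    intro s hs u hu
    rw [hA]
    constructor
    · rintro ⟨s', hs', e1, u', hu', e2⟩
      rw [h2 s hs u hu u' hu', h1 s hs s' hs' e1.symm u' hu']
      exact e2
    · intro h
      exact ⟨s, hs, rfl, u, hu, h⟩
  have hJ := cl_join hU c A hcA
  obtain ⟨e, he1, he2⟩ := cs_step_equiv S T hd
  have hM := (cl_closed k).2.2.2.1 _ _ _ _ e hJ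
  have hG : SimpleGraph.map e.toEmbedding (SimpleGraph.map Function.Embedding.inl (G.induce S) ⊔
      SimpleGraph.map Function.Embedding.inr (G.induce T) ⊔
      SimpleGraph.fromRel (fun x y => (Sum.elim (fun x : S => l x) (fun _ : T => c)) x ∈ A ∧
        (Sum.elim (fun x : S => l x) (fun _ : T => c)) y = c)) = G.induce (S ∪ T) := by
    ext x y
    obtain ⟨a, rfl⟩ := e.surjective x
    obtain ⟨b, rfl⟩ := e.surjective y
    rw [show e a = e.toEmbedding a from rfl, show e b = e.toEmbedding b from rfl,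
      SimpleGraph.map_adj_apply, SimpleGraph.comap_adj]
    simp only [SimpleGraph.sup_adj, SimpleGraph.fromRel_adj]
    rcases a with s | u <;> rcases b with s' | u'
    · have e1 : ((e.toEmbedding (Sum.inl s) : (S ∪ T : Set V)) : V) = s := he1 s
      have e2 : ((e.toEmbedding (Sum.inl s') : (S ∪ T : Set V)) : V) = s' := he1 s'
      rw [Function.Embedding.subtype_apply, Function.Embedding.subtype_apply, e1, e2]
      have n1 := hlc s s.2
      have n2 := hlc s' s'.2
      simp [SimpleGraph.map_adj, n1, n2]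
    · have e1 : ((e.toEmbedding (Sum.inl s) : (S ∪ T : Set V)) : V) = s := he1 s
      have e2 : ((e.toEmbedding (Sum.inr u') : (S ∪ T : Set V)) : V) = u' := he2 u'
      rw [Function.Embedding.subtype_apply, Function.Embedding.subtype_apply, e1, e2]
      have n1 := hlc s s.2
      have n2 := hAs s s.2 u' u'.2
      simp [SimpleGraph.map_adj, n1, n2, hcA]
    · have e1 : ((e.toEmbedding (Sum.inr u) : (S ∪ T : Set V)) : V) = u := he2 u
      have e2 : ((e.toEmbedding (Sum.inl s') : (S ∪ T : Set V)) : V) = s' := he1 s'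
      rw [Function.Embedding.subtype_apply, Function.Embedding.subtype_apply, e1, e2]
      have n1 := hlc s' s'.2
      have n2 := hAs s' s'.2 u u.2
      simp [SimpleGraph.map_adj, n1, n2, hcA, G.adj_comm]
    · have e1 : ((e.toEmbedding (Sum.inr u) : (S ∪ T : Set V)) : V) = u := he2 u
      have e2 : ((e.toEmbedding (Sum.inr u') : (S ∪ T : Set V)) : V) = u' := he2 u'
      rw [Function.Embedding.subtype_apply, Function.Embedding.subtype_apply, e1, e2]
      simp [SimpleGraph.map_adj, hcA]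
  rw [hG] at hM
  have hlab : ∀ a, ((Sum.elim (fun x : S => l x) (fun _ : T => c)) ∘ e.symm) (e a) =
      (Sum.elim (fun x : S => l x) (fun _ : T => c)) a := by
    intro a
    simp
  refine cl_fun hk hM ?_ (fun x => l' x) (fun x => hl' x x.2) ?_
  · intro x
    obtain ⟨a, rfl⟩ := e.surjective x
    rw [hlab]
    rcases a with s | u
    · exact (hl s s.2).le
    · exact hc.le
  · intro x y hxy
    obtain ⟨a, rfl⟩ := e.surjective x
    obtain ⟨b, rfl⟩ := e.surjective y
    rw [hlab, hlab] at hxy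
    rcases a with s | u <;> rcases b with s' | u'
    · rw [he1, he1]
      exact h3 s s.2 s' s'.2 hxy
    · exact absurd hxy (hlc s s.2)
    · exact absurd hxy.symm (hlc s' s'.2)
    · rw [he2, he2]
      exact h4 u u.2 u' u'.2

end CsStep

end Pool.Agent.Helper856.Q8
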