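import Pool.Agent.Helper856.Q8.Defs
import Pool.Agent.Helper856.Q8.CsStep
import Pool.Agent.Helper856.Q8.CsBase

open Classical SimpleGraph

namespace Pool.Agent.Helper856.Q8

open Pool.Agent.Helper856.Lcw (GLin)
open CsStep (cs_step)
open CsBase (cs_empty cs_congr)

namespace CwSubst

variable {V : Type} {G : SimpleGraph V}

theorem cw_subst_canon {t : ℕ} {I : Type} (Q : SimpleGraph I) (p : I → ℕ) (τ : ℕ) (c : I → Fin t)
    (hc : ∀ u v, p u < τ → p v < τ → c u = c v → ∀ w, τ ≤ p w → (Q.Adj u w ↔ Q.Adj v w)) :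
    ∃ col : I → Fin t, ∀ i j, p i < τ → p j < τ →
      (col i = col j ↔ ∀ w, τ ≤ p w → (Q.Adj i w ↔ Q.Adj j w)) := by
  rcases isEmpty_or_nonempty I with hI | hI
  · exact ⟨c, fun i => (hI.false i).elim⟩
  let R : I → Set I := fun i => {w | τ ≤ p w ∧ Q.Adj i w}
  have hRiff : ∀ i j, R i = R j ↔ ∀ w, τ ≤ p w → (Q.Adj i w ↔ Q.Adj j w) := by
    intro i j
    constructor
    · intro h w hw
      have h1 : w ∈ R i ↔ w ∈ R j := by rw [h]
      exact ⟨fun h2 => (h1.1 ⟨hw, h2⟩).2, fun h2 => (h1.2 ⟨hw, h2⟩).2⟩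
    · intro h
      ext w
      exact ⟨fun h2 => ⟨h2.1, (h w h2.1).1 h2.2⟩, fun h2 => ⟨h2.1, (h w h2.1).2 h2.2⟩⟩
  let g : Set I → I := fun X => if h : ∃ j, p j < τ ∧ R j = X then h.choose else Classical.arbitrary I
  have hg : ∀ i, p i < τ → p (g (R i)) < τ ∧ R (g (R i)) = R i := by
    intro i hi
    have h : ∃ j, p j < τ ∧ R j = R i := ⟨i, hi, rfl⟩
    simp only [g, dif_pos h]
    exact h.choose_spec
  refine ⟨fun i => c (g (R i)), fun i j hi hj => ?_⟩
  rw [← hRiff]
  constructor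
  · intro h
    have h1 := (hRiff _ _).2 (hc _ _ (hg i hi).1 (hg j hj).1 h)
    rw [(hg i hi).2, (hg j hj).2] at h1
    exact h1
  · intro h
    simp only [h]

/-- TARGET -/
theorem cw_subst {k t : ℕ} (hk : 2 * t + 1 ≤ k) [Fintype V] (S : Set V) {I : Type} (π : V → I)
    (Q : SimpleGraph I) (hQ : ∀ u ∈ S, ∀ v ∈ S, π u ≠ π v → (G.Adj u v ↔ Q.Adj (π u) (π v)))
    (hL : GLin t Q) (hF : ∀ i, ∃ l0 : V → Fin k, CS k G {v | v ∈ S ∧ π v = i} l0) : ∃ l : V → Fin k, CS k G S l := by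
  obtain ⟨p, hp, hc⟩ := hL
  have canon : ∀ τ, ∃ col : I → Fin t, ∀ i j, p i < τ → p j < τ →
      (col i = col j ↔ ∀ w, τ ≤ p w → (Q.Adj i w ↔ Q.Adj j w)) := by
    intro τ
    obtain ⟨c, hcτ⟩ := hc τ
    exact cw_subst_canon Q p τ c hcτ
  choose col hcol using canon
  have htk : t ≤ k := by omega
  have hk0 : 0 < k := by omega
  let l : ℕ → V → Fin k := fun τ v =>
    if p (π v) < τ then Fin.castLE htk (col τ (π v)) else ⟨0, hk0⟩
  have hlt : ∀ τ v, p (π v) < τ → l τ v = Fin.castLE htk (col τ (π v)) := by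
    intro τ v hv
    simp only [l, if_pos hv]
  have hleq : ∀ τ v v', p (π v) < τ → p (π v') < τ → (l τ v = l τ v' ↔
      ∀ w, τ ≤ p w → (Q.Adj (π v) w ↔ Q.Adj (π v') w)) := by
    intro τ v v' hv hv'
    rw [hlt τ v hv, hlt τ v' hv', Fin.castLE_inj, hcol τ _ _ hv hv']
  have main : ∀ τ, CS k G {v | v ∈ S ∧ p (π v) < τ} (l τ) := by
    intro τ
    induction τ with
    | zero =>
      have : {v | v ∈ S ∧ p (π v) < 0} = (∅ : Set V) := by
        ext v; simp
      rw [this]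
      exact cs_empty _
    | succ τ ih =>
      have hT : ∃ l0 : V → Fin k, CS k G {v | v ∈ S ∧ p (π v) = τ} l0 := by
        by_cases h : ∃ i, p i = τ
        · obtain ⟨i, hi⟩ := h
          obtain ⟨l0, hl0⟩ := hF i
          refine ⟨l0, ?_⟩
          have : {v | v ∈ S ∧ p (π v) = τ} = {v | v ∈ S ∧ π v = i} := by
            ext v
            constructor
            · rintro ⟨h1, h2⟩
              exact ⟨h1, hp (h2.trans hi.symm)⟩
            · rintro ⟨h1, h2⟩
              exact ⟨h1, by rw [h2, hi]⟩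
          rw [this]
          exact hl0
        · refine ⟨fun _ => ⟨0, hk0⟩, ?_⟩
          have : {v | v ∈ S ∧ p (π v) = τ} = (∅ : Set V) := by
            ext v
            constructor
            · rintro ⟨_, h2⟩
              exact (h ⟨_, h2⟩).elim
            · intro h3; exact h3.elim
          rw [this]
          exact cs_empty _
      obtain ⟨l0, hl0⟩ := hT
      have hun : {v | v ∈ S ∧ p (π v) < τ + 1} =
          {v | v ∈ S ∧ p (π v) < τ} ∪ {v | v ∈ S ∧ p (π v) = τ} := by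
        ext v
        constructor
        · rintro ⟨h1, h2⟩
          rcases Nat.lt_succ_iff_lt_or_eq.1 h2 with h3 | h3
          · exact Or.inl ⟨h1, h3⟩
          · exact Or.inr ⟨h1, h3⟩
        · rintro (⟨h1, h2⟩ | ⟨h1, h2⟩)
          · exact ⟨h1, by omega⟩
          · exact ⟨h1, by omega⟩
      rw [hun]
      refine cs_step hk _ _ ?_ (l τ) (l (τ + 1)) l0 ih hl0 ?_ ?_ ?_ ?_ ?_ ?_
      · rw [Set.disjoint_left]
        rintro v ⟨_, h1⟩ ⟨_, h2⟩
        omega
      · rintro s ⟨_, h1⟩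
        rw [hlt τ s h1]
        exact (col τ (π s)).2
      · rintro s ⟨hs, hsτ⟩ s' ⟨hs', hsτ'⟩ hll u ⟨hu, huτ⟩
        have h5 := (hleq τ s s' hsτ hsτ').1 hll (π u) huτ.ge
        have n1 : π s ≠ π u := by intro h; rw [h] at hsτ; omega
        have n2 : π s' ≠ π u := by intro h; rw [h] at hsτ'; omega
        rw [hQ s hs u hu n1, hQ s' hs' u hu n2, h5]
      · rintro s ⟨hs, hsτ⟩ u ⟨hu, huτ⟩ u' ⟨hu', huτ'⟩
        have e : π u = π u' := hp (huτ.trans huτ'.symm)
        have n1 : π s ≠ π u := by intro h; rw [h] at hsτ; omega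
        have n2 : π s ≠ π u' := by intro h; rw [h] at hsτ; omega
        rw [hQ s hs u hu n1, hQ s hs u' hu' n2, e]
      · rintro s ⟨hs, hsτ⟩ s' ⟨hs', hsτ'⟩ hll
        have h5 := (hleq τ s s' hsτ hsτ').1 hll
        exact (hleq (τ + 1) s s' (by omega) (by omega)).2 (fun w hw => h5 w (by omega))
      · rintro u ⟨hu, huτ⟩ u' ⟨hu', huτ'⟩
        have e : π u = π u' := hp (huτ.trans huτ'.symm)
        simp only [l, e]
      · intro v hv
        have hv' : p (π v) < τ + 1 := by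
          rcases hv with ⟨_, h⟩ | ⟨_, h⟩ <;> omega
        rw [hlt (τ + 1) v hv']
        exact (col (τ + 1) (π v)).2
  have hfin := main (Finset.univ.sup (fun v => p (π v)) + 1)
  have hS : {v | v ∈ S ∧ p (π v) < Finset.univ.sup (fun v => p (π v)) + 1} = S := by
    ext v
    constructor
    · exact fun h => h.1
    · intro h
      refine ⟨h, Nat.lt_succ_of_le ?_⟩
      exact Finset.le_sup (f := fun v => p (π v)) (Finset.mem_univ v)
  rw [hS] at hfin
  exact ⟨_, hfin⟩

end CwSubst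

end Pool.Agent.Helper856.Q8
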