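import Pool.Agent.Helper856.Q8.Defs

open Classical SimpleGraph

namespace Pool.Agent.Helper856.Q8

namespace PrimeQuot

variable {V : Type} {G : SimpleGraph V}

/-- TARGET -/
theorem prime_quot [Fintype V] (S : Finset V) (h2 : 2 ≤ S.card) :
    ∃ π : V → V, (∀ v ∈ S, π v ∈ S ∧ π (π v) = π v) ∧
      (∀ u ∈ S, ∀ v ∈ S, π u ≠ π v → (G.Adj u v ↔ G.Adj (π u) (π v))) ∧
      2 ≤ (S.image π).card ∧ Prime (G.induce ((S.image π : Finset V) : Set V)) := by
  have key : ∀ n : ℕ, ∀ π : V → V, (∀ v ∈ S, π v ∈ S ∧ π (π v) = π v) →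
      (∀ u ∈ S, ∀ v ∈ S, π u ≠ π v → (G.Adj u v ↔ G.Adj (π u) (π v))) →
      2 ≤ (S.image π).card → (S.image π).card = n → ∃ π : V → V, (∀ v ∈ S, π v ∈ S ∧ π (π v) = π v) ∧
      (∀ u ∈ S, ∀ v ∈ S, π u ≠ π v → (G.Adj u v ↔ G.Adj (π u) (π v))) ∧
      2 ≤ (S.image π).card ∧ Prime (G.induce ((S.image π : Finset V) : Set V)) := by
    intro n
    induction n using Nat.strong_induction_on with
    | _ n ih =>
      intro π h1 h3 h4 h5
      by_cases hP : Prime (G.induce ((S.image π : Finset V) : Set V))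
      · exact ⟨π, h1, h3, h4, hP⟩
      · unfold Prime at hP
        push Not at hP
        obtain ⟨M, hM, hMs, hMu⟩ := hP
        obtain ⟨m, hm, y, hy, hmy⟩ := hMs
        obtain ⟨z, hz⟩ := (Set.ne_univ_iff_exists_notMem M).1 hMu
        -- facts on values
        have hR : ∀ r, r ∈ S.image π → r ∈ S ∧ π r = r := by
          intro r hr
          obtain ⟨v, hv, rfl⟩ := Finset.mem_image.1 hr
          exact h1 v hv
        have hmR : (m : V) ∈ S.image π := m.2
        have hyR : (y : V) ∈ S.image π := y.2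
        have hzR : (z : V) ∈ S.image π := z.2
        let M0 : Set V := Subtype.val '' M
        have hm0 : (m : V) ∈ M0 := ⟨m, hm, rfl⟩
        have hy0 : (y : V) ∈ M0 := ⟨y, hy, rfl⟩
        have hz0 : (z : V) ∉ M0 := by
          rintro ⟨z', hz', he⟩
          exact hz ((Subtype.ext he : z' = z) ▸ hz')
        have hmod : ∀ v ∈ S.image π, v ∉ M0 → ∀ a ∈ M0, ∀ b ∈ M0, (G.Adj v a ↔ G.Adj v b) := by
          rintro v hv hvM a ⟨a', ha', rfl⟩ b ⟨b', hb', rfl⟩
          have hvM' : (⟨v, hv⟩ : ((S.image π : Finset V) : Set V)) ∉ M := fun h => hvM ⟨_, h, rfl⟩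
          exact hM ⟨v, hv⟩ hvM' a' ha' b' hb'
        let π' : V → V := fun v => if π v ∈ M0 then (m : V) else π v
        have hπ1 : ∀ v, π v ∈ M0 → π' v = m := fun v hv => if_pos hv
        have hπ2 : ∀ v, π v ∉ M0 → π' v = π v := fun v hv => if_neg hv
        have hlt : (S.image π').card < n := by
          rw [← h5]
          have hsub : S.image π' ⊆ (S.image π).erase (y : V) := by
            intro r hr
            obtain ⟨v, hv, rfl⟩ := Finset.mem_image.1 hr
            by_cases hc : π v ∈ M0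
            · rw [hπ1 v hc]
              exact Finset.mem_erase.2 ⟨fun h => hmy (Subtype.ext h), hmR⟩
            · rw [hπ2 v hc]
              exact Finset.mem_erase.2 ⟨fun h => hc (h ▸ hy0), Finset.mem_image_of_mem _ hv⟩
          exact (Finset.card_le_card hsub).trans_lt (Finset.card_erase_lt_of_mem hyR)
        refine ih _ hlt π' ?_ ?_ ?_ rfl
        · intro v hv
          by_cases hc : π v ∈ M0
          · rw [hπ1 v hc]
            refine ⟨(hR _ hmR).1, hπ1 _ ?_⟩
            rw [(hR _ hmR).2]; exact hm0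
          · rw [hπ2 v hc]
            refine ⟨(h1 v hv).1, ?_⟩
            rw [hπ2 (π v) (by rw [(h1 v hv).2]; exact hc)]
            exact (h1 v hv).2
        · intro u hu v hv huv
          by_cases hcu : π u ∈ M0 <;> by_cases hcv : π v ∈ M0
          · rw [hπ1 u hcu, hπ1 v hcv] at huv
            exact absurd rfl huv
          · rw [hπ1 u hcu, hπ2 v hcv]
            have hne : π u ≠ π v := fun h => hcv (h ▸ hcu)
            rw [h3 u hu v hv hne]
            rw [G.adj_comm (π u), G.adj_comm (m : V)]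
            exact hmod (π v) (Finset.mem_image_of_mem _ hv) hcv _ hcu _ hm0
          · rw [hπ2 u hcu, hπ1 v hcv]
            have hne : π u ≠ π v := fun h => hcu (h ▸ hcv)
            rw [h3 u hu v hv hne]
            exact hmod (π u) (Finset.mem_image_of_mem _ hu) hcu _ hcv _ hm0
          · rw [hπ2 u hcu, hπ2 v hcv] at huv ⊢
            exact h3 u hu v hv huv
        · rw [← Nat.lt_iff_add_one_le, Finset.one_lt_card]
          refine ⟨m, ?_, z, ?_, ?_⟩
          · refine Finset.mem_image.2 ⟨m, (hR _ hmR).1, hπ1 _ ?_⟩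
            rw [(hR _ hmR).2]; exact hm0
          · refine Finset.mem_image.2 ⟨z, (hR _ hzR).1, ?_⟩
            rw [hπ2 _ (by rw [(hR _ hzR).2]; exact hz0), (hR _ hzR).2]
          · intro h
            exact hz0 (h ▸ hm0)
  refine key _ (fun v => v) (fun v hv => ⟨hv, rfl⟩) (fun u _ v _ _ => Iff.rfl) ?_ rfl
  rw [Finset.image_id']
  exact h2

end PrimeQuot

end Pool.Agent.Helper856.Q8
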