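import Pool.Agent.Helper856.Q8.Defs
import Pool.Agent.Helper856.Q8.CwSubst
import Pool.Agent.Helper856.Q8.PrimeQuot
import Pool.Agent.Helper856.Q8.CsBase

open Classical SimpleGraph

namespace Pool.Agent.Helper856.Q8

open Pool.Agent.Helper856.Lcw (GLin)
open CwSubst (cw_subst)
open PrimeQuot (prime_quot)
open CsBase (cs_empty cs_single)

namespace CsAll

variable {V : Type} {G : SimpleGraph V}

/-- TARGET -/
theorem cs_all {k t : ℕ} (hk : 2 * t + 1 ≤ k) [Fintype V]
    (h : ∀ R : Set V, Prime (G.induce R) → GLin t (G.induce R)) (S : Finset V) : ∃ l : V → Fin k, CS k G S l := by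
  have hk0 : 0 < k := by omega
  induction hc : S.card using Nat.strong_induction_on generalizing S with
  | _ n ih =>
    rcases Nat.lt_or_ge S.card 2 with h2 | h2
    · rcases Nat.eq_zero_or_pos S.card with h0 | h0
      · rw [Finset.card_eq_zero] at h0
        subst h0
        refine ⟨fun _ => ⟨0, hk0⟩, ?_⟩
        rw [Finset.coe_empty]
        exact cs_empty _
      · obtain ⟨v, rfl⟩ := Finset.card_eq_one.1 (by omega : S.card = 1)
        refine ⟨fun _ => ⟨0, hk0⟩, ?_⟩
        rw [Finset.coe_singleton]
        exact cs_single _ v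
    · obtain ⟨π, h1, h3, h4, hP⟩ := prime_quot (G := G) S h2
      obtain ⟨r0, hr0⟩ : (S.image π).Nonempty := Finset.card_pos.1 (by omega)
      let π' : V → ((S.image π : Finset V) : Set V) := fun v =>
        if hv : v ∈ S then ⟨π v, Finset.mem_coe.2 (Finset.mem_image_of_mem π hv)⟩
        else ⟨r0, Finset.mem_coe.2 hr0⟩
      have hπ' : ∀ v (hv : v ∈ S),
          π' v = ⟨π v, Finset.mem_coe.2 (Finset.mem_image_of_mem π hv)⟩ := fun v hv => dif_pos hv
      refine cw_subst hk (S : Set V) π' (G.induce ((S.image π : Finset V) : Set V)) ?_ (h _ hP) ?_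
      · intro u hu v hv hne
        have hu' : u ∈ S := hu
        have hv' : v ∈ S := hv
        rw [hπ' u hu', hπ' v hv'] at hne ⊢
        have hne' : π u ≠ π v := fun h => hne (Subtype.ext h)
        exact h3 u hu' v hv' hne'
      · intro i
        obtain ⟨r, hr, hri⟩ : ∃ r ∈ S.image π, r ≠ i.1 :=
          Finset.exists_mem_ne (by omega : 1 < (S.image π).card) i.1
        obtain ⟨v, hv, hvr⟩ := Finset.mem_image.1 hr
        have hlt : (S.filter (fun v => π' v = i)).card < S.card := by
          refine Finset.card_lt_card (Finset.filter_ssubset.2 ⟨v, hv, ?_⟩)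
          rw [hπ' v hv]
          intro h5
          exact hri (by rw [← hvr, ← h5])
        obtain ⟨l, hl⟩ := ih _ (by rw [← hc]; exact hlt) (S.filter (fun v => π' v = i)) rfl
        refine ⟨l, ?_⟩
        have e : {v | v ∈ (S : Set V) ∧ π' v = i} = ((S.filter (fun v => π' v = i) : Finset V) : Set V) := by
          ext v
          simp
        rw [e]
        exact hl

end CsAll

end Pool.Agent.Helper856.Q8
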