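import Mathlib
import Pool.Agent.Helper856.Lcw.GBase

open Classical SimpleGraph

namespace Pool.Agent.Helper856.Q8

open Pool.Agent.Helper856.Lcw (GLin)

variable {V : Type} {G : SimpleGraph V}

/-- `a - b - c - d` is an induced path -/
def IsP4 (G : SimpleGraph V) (a b c d : V) : Prop :=
  G.Adj a b ∧ G.Adj b c ∧ G.Adj c d ∧ ¬G.Adj a c ∧ ¬G.Adj a d ∧ ¬G.Adj b d

/-- `T` is the vertex set of an induced `P4` -/
def P4s (G : SimpleGraph V) (T : Finset V) : Prop := ∃ a b c d, IsP4 G a b c d ∧ T = {a, b, c, d}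

/-- union of the members of a list -/
noncomputable def uL (L : List (Finset V)) : Finset V := L.foldr (fun A B => A ∪ B) ∅

/-- every member of the list meets the union of the later members -/
def Cn : List (Finset V) → Prop
  | [] => True
  | T :: L => (L ≠ [] → (T ∩ uL L).Nonempty) ∧ Cn L

/-- at most 7 different induced `P4`s that hang together cover many vertices -/
def Sur (G : SimpleGraph V) : Prop := ∀ L : List (Finset V), L ≠ [] → L.length ≤ 7 → L.Nodup →
  (∀ T ∈ L, P4s G T) → Cn L → L.length + 2 ≤ (uL L).card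

/-- no induced cycle on four vertices -/
def NC4 (G : SimpleGraph V) : Prop := ∀ a b c d, G.Adj a b → G.Adj b c → G.Adj c d → G.Adj d a →
  a ≠ c → b ≠ d → G.Adj a c ∨ G.Adj b d

/-- module (homogeneous set) -/
def Md (G : SimpleGraph V) (M : Set V) : Prop :=
  ∀ v, v ∉ M → ∀ x ∈ M, ∀ y ∈ M, (G.Adj v x ↔ G.Adj v y)

/-- every module is trivial -/
def Prime (G : SimpleGraph V) : Prop := ∀ M : Set V, Md G M → M.Subsingleton ∨ M = Set.univ

/-- thin spider with `m` legs (bodies `b`, feet `a`) -/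
def Thin (G : SimpleGraph V) (m : ℕ) (a b : Fin m → V) : Prop :=
  (∀ i j, i ≠ j → G.Adj (b i) (b j)) ∧ (∀ i j, i ≠ j → ¬G.Adj (a i) (a j)) ∧
  (∀ i j, G.Adj (a i) (b j) ↔ i = j)

/-- thick spider with `m` legs (bodies `b`, feet `a`) -/
def Thick (G : SimpleGraph V) (m : ℕ) (a b : Fin m → V) : Prop :=
  (∀ i j, i ≠ j → G.Adj (b i) (b j)) ∧ (∀ i j, i ≠ j → ¬G.Adj (a i) (a j)) ∧
  (∀ i j, G.Adj (a i) (b j) ↔ i ≠ j)

/-- no spider with `m` legs -/
def SF (G : SimpleGraph V) (m : ℕ) : Prop := ∀ a b : Fin m → V, ¬Thin G m a b ∧ ¬Thick G m a b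

/-- the private neighbours of `q` with respect to `p` -/
noncomputable def priv [Fintype V] (G : SimpleGraph V) (q p : V) : Finset V :=
  Finset.univ.filter (fun y => G.Adj q y ∧ ¬G.Adj p y ∧ y ≠ p)

/-- bit mask of four indices -/
def mq {n : ℕ} (q : Fin n × Fin n × Fin n × Fin n) : ℕ :=
  (1 <<< q.1.val) ||| (1 <<< q.2.1.val) ||| (1 <<< q.2.2.1.val) ||| (1 <<< q.2.2.2.val)

/-- the index sets are pairwise different and every one meets the union of the later ones -/
def okq {n : ℕ} : List (Fin n × Fin n × Fin n × Fin n) → Bool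
  | [] => true
  | q :: L => (L.isEmpty || mq q &&& L.foldr (fun r m => mq r ||| m) 0 != 0) &&
      L.all (fun r => mq r != mq q) && okq L

/-- certificate trees -/
inductive Tr
  | K : Tr
  | P (n : ℕ) : Tr
  | C (n : ℕ) : Tr
  | N (i j : ℕ) (t s : Tr) : Tr

/-- bit of the pair `i, j` -/
def tb (m i j : ℕ) : Bool := bif Nat.blt i j then m.testBit (16 * i + j) else m.testBit (16 * j + i)

/-- the indices coded by `q` are known to form an induced path -/
def isp (a b q : ℕ) : Bool :=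
  tb a (q % 16) (q / 16 % 16) && tb a (q / 16 % 16) (q / 256 % 16) &&
  tb a (q / 256 % 16) (q / 4096 % 16) && tb b (q % 16) (q / 256 % 16) &&
  tb b (q % 16) (q / 4096 % 16) && tb b (q / 16 % 16) (q / 4096 % 16)

/-- the indices coded by `q` are known to form an induced four-cycle -/
def isc (a b q : ℕ) : Bool :=
  tb a (q % 16) (q / 16 % 16) && tb a (q / 16 % 16) (q / 256 % 16) &&
  tb a (q / 256 % 16) (q / 4096 % 16) && tb a (q / 4096 % 16) (q % 16) &&
  tb b (q % 16) (q / 256 % 16) && tb b (q / 16 % 16) (q / 4096 % 16)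

/-- bit mask of the indices coded by `q` -/
def mk4 (q : ℕ) : ℕ := (1 <<< (q % 16)) ||| (1 <<< (q / 16 % 16)) ||| (1 <<< (q / 256 % 16)) |||
  (1 <<< (q / 4096 % 16))

/-- number of ones among the first `k` bits -/
def pc (m : ℕ) : ℕ → ℕ
  | 0 => 0
  | k + 1 => (bif m.testBit k then 1 else 0) + pc m k

/-- check a list (coded in base 65536, terminated by 0) of paths: `cnt` = number so far,
`u` = union so far, `seen` = masks so far -/
def lf (al a b : ℕ) : ℕ → ℕ → ℕ → ℕ → List ℕ → Bool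
  | 0, _, _, _, _ => false
  | fuel + 1, n, cnt, u, seen =>
    bif Nat.beq n 0 then
      Nat.ble 1 cnt && Nat.ble cnt 7 && Nat.ble (pc u 16) (cnt + 1) && Nat.beq (u &&& al) u
    else
      isp a b (n % 65536) && (Nat.beq cnt 0 || !Nat.beq (mk4 (n % 65536) &&& u) 0) &&
      seen.all (fun s => !Nat.beq s (mk4 (n % 65536))) &&
      lf al a b fuel (n / 65536) (cnt + 1) (u ||| mk4 (n % 65536)) (mk4 (n % 65536) :: seen)

/-- certificate checker; `a`, `b`: masks of the known adjacent and non-adjacent pairs -/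
def chk (c4 : Bool) (al : ℕ) (Q : ℕ → ℕ → Bool) : Tr → ℕ → ℕ → Bool
  | Tr.K, a, b => Q a b
  | Tr.P n, a, b => lf al a b 8 n 0 0 []
  | Tr.C q, a, b => c4 && isc a b q && Nat.beq (mk4 q &&& al) (mk4 q) && Nat.beq (pc (mk4 q) 16) 4
  | Tr.N i j t s, a, b => Nat.blt i j && Nat.blt j 16 && chk c4 al Q t (a ||| (1 <<< (16 * i + j))) b &&
      chk c4 al Q s a (b ||| (1 <<< (16 * i + j)))

/-- the standing assumptions -/
def Fine (G : SimpleGraph V) (m : ℕ) : Prop := Sur G ∧ NC4 G ∧ Prime G ∧ SF G m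

/-- the set-up of the private neighbour lemma: `q ~ p ~ r`, `q ≁ r` -/
def ES (G : SimpleGraph V) (q p r : V) : Prop := G.Adj q p ∧ G.Adj p r ∧ ¬G.Adj q r ∧ q ≠ r

/-- exceptional pairs, type A -/
def eA (G : SimpleGraph V) (q p r w y : V) : Prop := G.Adj w q ∧ G.Adj w p ∧ ¬G.Adj w r ∧ G.Adj w y

/-- exceptional pairs, type B -/
def eB (G : SimpleGraph V) (q p r w y : V) : Prop := G.Adj w q ∧ G.Adj w p ∧ G.Adj w r ∧ ¬G.Adj w y

/-- exceptional pairs, type C -/
def eC (G : SimpleGraph V) (q p r w y : V) : Prop := ¬G.Adj w q ∧ ¬G.Adj w p ∧ ¬G.Adj w r ∧ G.Adj w y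

/-- exceptional pairs -/
def exc (G : SimpleGraph V) (q p r w y : V) : Prop := eA G q p r w y ∨ eB G q p r w y ∨ eC G q p r w y

/-- a set of pairs with matching relation `R` -/
def Mtch {α β : Type} (R : α → β → Prop) (m : ℕ) (w : Fin m → α) (y : Fin m → β) : Prop :=
  Function.Injective w ∧ Function.Injective y ∧ ∀ i j, R (w i) (y j) ↔ i = j

/-- middle vertices -/
noncomputable def Mi [Fintype V] (G : SimpleGraph V) (s x t : V) : Finset V :=
  Finset.univ.filter (fun f => G.Adj x f ∧ G.Adj f t ∧ ¬G.Adj f s)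

/-- set-up of the middle lemma -/
def MS (G : SimpleGraph V) (s x t : V) : Prop := G.Adj s x ∧ ¬G.Adj s t ∧ ¬G.Adj x t ∧ s ≠ t ∧ x ≠ t

/-- exceptional pairs (type 0 and 1) for the middle lemma -/
def mx (G : SimpleGraph V) (s x t : V) (τ : Fin 3) (w f : V) : Prop :=
  (τ = 0 ∧ ¬G.Adj w s ∧ ¬G.Adj w x ∧ ¬G.Adj w t ∧ G.Adj w f) ∨
  (τ = 1 ∧ ¬G.Adj w s ∧ G.Adj w x ∧ ¬G.Adj w t ∧ ¬G.Adj w f ∧ w ≠ s)

/-- incomparable neighbours -/
noncomputable def F1 [Fintype V] (G : SimpleGraph V) (x : V) : Finset V :=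
  Finset.univ.filter (fun f => G.Adj x f ∧ (priv G f x).Nonempty ∧ (priv G x f).Nonempty)

/-- neighbours below -/
noncomputable def Dn [Fintype V] (G : SimpleGraph V) (x : V) : Finset V :=
  Finset.univ.filter (fun y => G.Adj x y ∧ priv G y x = ∅)

/-- neighbours above -/
noncomputable def Up [Fintype V] (G : SimpleGraph V) (x : V) : Finset V :=
  Finset.univ.filter (fun y => G.Adj x y ∧ priv G x y = ∅)

/-- private neighbour bound -/
def PL [Fintype V] (G : SimpleGraph V) (c : ℕ) : Prop := ∀ q p r, ES G q p r → (priv G q p).card ≤ c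

/-- arrangement of the set `S` such that every initial part has at most `k` classes of rows with
respect to all later vertices and all vertices outside `S` -/
def PLin {V : Type} (k : ℕ) (G : SimpleGraph V) (S : Finset V) : Prop :=
  ∃ p : V → ℕ, Set.InjOn p S ∧ ∀ t : ℕ, ∃ c : V → Fin k,
    ∀ u ∈ S, ∀ v ∈ S, p u < t → p v < t → c u = c v → ∀ w, (w ∉ S ∨ t ≤ p w) → (G.Adj u w ↔ G.Adj v w)

/-- the rows of `S` with respect to the outside fall into at most `k` classes -/
def Rows {V : Type} (k : ℕ) (G : SimpleGraph V) (S : Finset V) : Prop :=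
  ∃ c : V → Fin k, ∀ u ∈ S, ∀ v ∈ S, c u = c v → ∀ w, w ∉ S → (G.Adj u w ↔ G.Adj v w)

/-- `x 0 - x 1 - x 2 - x 3 - x 4` is an induced path -/
def IsP5 (G : SimpleGraph V) (x : ℕ → V) : Prop :=
  (∀ i j, i < 5 → j < 5 → x i = x j → i = j) ∧
    ∀ i j, i < 5 → j < 5 → (G.Adj (x i) (x j) ↔ (i + 1 = j ∨ j + 1 = i))

/-- column `i` is known and constant -/
def colC (a b i : ℕ) : Bool :=
  (tb a 0 i && tb a 1 i && tb a 2 i && tb a 3 i && tb a 4 i) ||
  (tb b 0 i && tb b 1 i && tb b 2 i && tb b 3 i && tb b 4 i)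

/-- all columns constant -/
def QA (a b : ℕ) : Bool := colC a b 5 && colC a b 6 && colC a b 7 && colC a b 8 && colC a b 9

/-- column 7 is zero -/
def QH (_a b : ℕ) : Bool := tb b 0 7 && tb b 1 7 && tb b 2 7 && tb b 3 7 && tb b 4 7

/-- column 10 is constant on `al` -/
def QE (al a b : ℕ) : Bool :=
  (List.range 10).all (fun i => !al.testBit i || tb a i 10) ||
  (List.range 10).all (fun i => !al.testBit i || tb b i 10)

/-- the legs `i`, `j` look the same in column `c` -/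
def eqleg (a b c i j : ℕ) : Bool := ((tb a i c && tb a j c) || (tb b i c && tb b j c)) &&
  ((tb a (4 + i) c && tb a (4 + j) c) || (tb b (4 + i) c && tb b (4 + j) c))

/-- three legs look the same in column 8 -/
def QS1 (a b : ℕ) : Bool := (eqleg a b 8 1 2 && eqleg a b 8 1 3) || (eqleg a b 8 0 2 && eqleg a b 8 0 3) ||
  (eqleg a b 8 0 1 && eqleg a b 8 0 3) || (eqleg a b 8 0 1 && eqleg a b 8 0 2)

/-- legs 0, 1 look the same in column 8 or legs 2, 3 in column 9 -/
def QS2 (a b : ℕ) : Bool := eqleg a b 8 0 1 || eqleg a b 9 2 3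

/-- bit of a pair -/
def pb (p q : ℕ) : ℕ := 1 <<< (16 * min p q + max p q)

/-- known adjacencies of a path `0 1 2 3 4` and a house given by the list `L` of its indices -/
def mkA (L : List ℕ) : ℕ := [(0,2),(0,3),(0,4),(1,3),(1,4),(2,4)].foldl
  (fun m e => m ||| pb (L.getD e.1 0) (L.getD e.2 0)) (pb 0 1 ||| pb 1 2 ||| pb 2 3 ||| pb 3 4)

/-- known non-adjacencies -/
def mkB (L : List ℕ) : ℕ := [(0,1),(1,2),(2,3),(3,4)].foldl
  (fun m e => m ||| pb (L.getD e.1 0) (L.getD e.2 0))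
  (pb 0 2 ||| pb 0 3 ||| pb 0 4 ||| pb 1 3 ||| pb 1 4 ||| pb 2 4)

/-- the indices in use -/
def mkAl (L : List ℕ) : ℕ := L.foldl (fun m i => m ||| (1 <<< i)) 31

/-- all index lists -/
def allL : List (List ℕ) :=
  [0,1,2,3,4,5].flatMap (fun a => [0,1,2,3,4,6].flatMap (fun b => [0,1,2,3,4,7].flatMap (fun c =>
    [0,1,2,3,4,8].flatMap (fun e => [0,1,2,3,4,9].map (fun g => [a,b,c,e,g])))))

/-- no repetitions -/
def nd5 : List ℕ → Bool
  | [] => true
  | a :: L => L.all (fun b => !Nat.beq a b) && nd5 L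

/-- coverage check -/
def cov (tab exc : List (List ℕ × Tr)) : Bool :=
  allL.all (fun L => !nd5 L || !Nat.beq (mkA L &&& mkB L) 0 || L == [5,6,7,8,9] ||
    tab.any (fun e => e.1 == L) || exc.any (fun e => e.1 == L))

/-- the certificates for the coexistence of a path and a house exist -/
def CertsOK : Prop := (∃ t, chk false 1023 QA t 2658516839881840235198097336838651906
    174225901101657560382198993360435132497948 = true) ∧
  (∃ t, chk false 255 QH t 232113757366008870264635420 10141204803596754168693817344098 = true) ∧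
  ∃ tab exc : List (List ℕ × Tr),
    tab.all (fun e => chk false (mkAl e.1) (fun _ _ => false) e.2 (mkA e.1) (mkB e.1)) = true ∧
    exc.all (fun e => chk false (mkAl e.1 ||| 1024) (QE (mkAl e.1)) e.2 (mkA e.1) (mkB e.1)) = true ∧
    exc.all (fun e => Nat.beq (pc (mkAl e.1) 16) 6) = true ∧ cov tab exc = true

/-- the certificates for spiders exist -/
def SpOK : Prop := (∃ t, chk true 511 QS1 t 36029106259492894 10141436919715303419239428260064 = true) ∧
  (∃ t, chk true 1023 QS2 t 36029106259492894 10141436919715303419239428260064 = true) ∧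
  (∃ t, chk true 511 QS1 t 31525987679994094 10141436919715307922358007758864 = true) ∧
  (∃ t, chk true 1023 QS2 t 31525987679994094 10141436919715307922358007758864 = true)

/-- parallel legs `(a, b)`, `(a', b')` (feet `a`, `a'`; bodies `b`, `b'`) of a spider -/
def Par2 (G : SimpleGraph V) (a b a' b' : V) : Prop :=
  a ≠ b ∧ a' ≠ b' ∧ a ≠ a' ∧ b ≠ b' ∧ a ≠ b' ∧ a' ≠ b ∧ G.Adj b b' ∧ ¬G.Adj a a' ∧
  (G.Adj a b ↔ G.Adj a' b') ∧ (G.Adj a b' ↔ ¬G.Adj a b) ∧ (G.Adj a' b ↔ ¬G.Adj a b) ∧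
  ∀ v, v ≠ a → v ≠ b → v ≠ a' → v ≠ b' → (G.Adj v a ↔ G.Adj v a') ∧ (G.Adj v b ↔ G.Adj v b')

/-- the class of a leg -/
noncomputable def cls [Fintype V] (G : SimpleGraph V) (x : V × V) : Finset (V × V) :=
  Finset.univ.filter (fun y => y = x ∨ Par2 G x.1 x.2 y.1 y.2)

/-- a family `P` of disjoint classes of parallel legs, five legs `K c` of each class `c` are kept -/
def Fam (G : SimpleGraph V) (P : Finset (Finset (V × V))) (K : Finset (V × V) → Finset (V × V)) : Prop :=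
  (∀ c ∈ P, ∀ x ∈ c, ∀ y ∈ c, x ≠ y → Par2 G x.1 x.2 y.1 y.2) ∧
  (∀ c ∈ P, ∀ c' ∈ P, ∀ x ∈ c, ∀ y ∈ c', (x.1 = y.1 ∨ x.1 = y.2 ∨ x.2 = y.1 ∨ x.2 = y.2) → c = c' ∧ x = y) ∧
  (∀ c ∈ P, K c ⊆ c ∧ (K c).card = 5)

/-- the vertices which are not in a removed leg -/
def kept (P : Finset (Finset (V × V))) (K : Finset (V × V) → Finset (V × V)) : Set V :=
  {v | ∀ c ∈ P, ∀ x ∈ c, x ∉ K c → v ≠ x.1 ∧ v ≠ x.2}

/-- linear layout of the subgraph on `S`, with everything extended to `V` -/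
def Base {t : ℕ} (G : SimpleGraph V) (S : Set V) (p : V → ℕ) (c : ℕ → V → Fin t) : Prop :=
  Set.InjOn p S ∧ ∀ τ, ∀ u ∈ S, ∀ v ∈ S, p u < τ → p v < τ → c τ u = c τ v →
    ∀ w ∈ S, τ ≤ p w → (G.Adj u w ↔ G.Adj v w)

/-- all feet of the legs in `k` are before the threshold and all bodies after it, or vice versa -/
def Split (p : V → ℕ) (τ : ℕ) (k : Finset (V × V)) : Prop :=
  (∀ x ∈ k, p x.1 < τ ∧ τ ≤ p x.2) ∨ (∀ x ∈ k, τ ≤ p x.1 ∧ p x.2 < τ)

/-- membership of a vertex in a class -/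
def inC (k : Finset (V × V)) (v : V) : Prop := ∃ x ∈ k, v = x.1 ∨ v = x.2

/-- number of induced `P4`s inside `X` -/
noncomputable def np (G : SimpleGraph V) (X : Finset V) : ℕ :=
  ((X.powersetCard 4).filter (fun T => P4s G T)).card

/-- the `(q, q - 2)` condition -/
def Cls (q : ℕ) (G : SimpleGraph V) : Prop := ∀ S : Finset V, S.card ≤ q → np G S ≤ q - 2

/-- union of a hanging list of `P4`s -/
def PC (G : SimpleGraph V) (X : Finset V) : Prop :=
  ∃ L : List (Finset V), L ≠ [] ∧ (∀ T ∈ L, P4s G T) ∧ Cn L ∧ uL L = X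

/-- no `P4` with exactly three vertices in `X` -/
def Clo (G : SimpleGraph V) (X : Finset V) : Prop := ∀ T, P4s G T → (T \ X).card ≠ 1

/-- outside vertex which is mixed on `X` -/
def Nh (G : SimpleGraph V) (X : Finset V) (v : V) : Prop :=
  v ∉ X ∧ (∃ x ∈ X, G.Adj v x) ∧ (∃ x ∈ X, ¬G.Adj v x)

/-- closure under the clique-width operations -/
def Cl6 (k : ℕ) (P : ∀ W : Type, SimpleGraph W → (W → Fin k) → Prop) : Prop :=
  P PEmpty ⊥ PEmpty.elim ∧
  (∀ i : Fin k, P Unit ⊥ (fun _ => i)) ∧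
  (∀ (W₁ W₂ : Type) (G₁ : SimpleGraph W₁) (G₂ : SimpleGraph W₂)
      (l₁ : W₁ → Fin k) (l₂ : W₂ → Fin k),
      P W₁ G₁ l₁ → P W₂ G₂ l₂ →
      P (W₁ ⊕ W₂)
        (G₁.map Function.Embedding.inl ⊔ G₂.map Function.Embedding.inr)
        (Sum.elim l₁ l₂)) ∧
  (∀ (W W' : Type) (H : SimpleGraph W) (l' : W → Fin k) (e : W ≃ W'),
      P W H l' → P W' (H.map e.toEmbedding) (l' ∘ e.symm)) ∧
  (∀ (W : Type) (H : SimpleGraph W) (l' : W → Fin k) (i j : Fin k),
      P W H l' → P W H (fun x => if l' x = i then j else l' x)) ∧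
  (∀ (W : Type) (H : SimpleGraph W) (l' : W → Fin k) (i j : Fin k), i ≠ j →
      P W H l' →
      P W (H ⊔ SimpleGraph.fromRel (fun x y => l' x = i ∧ l' y = j)) l')

/-- labelled graphs of clique-width at most `k` -/
def CL (k : ℕ) (W : Type) (H : SimpleGraph W) (l : W → Fin k) : Prop := ∀ P, Cl6 k P → P W H l

/-- the labelled induced subgraph on `S` -/
def CS {V : Type} (k : ℕ) (G : SimpleGraph V) (S : Set V) (l : V → Fin k) : Prop :=
  CL k S (G.induce S) (fun x => l x)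

end Pool.Agent.Helper856.Q8
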