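import Pool.Agent.Helper856.Q8.Defs
import Pool.Agent.Helper856.Q8.PrimeConn

open Classical SimpleGraph

namespace Pool.Agent.Helper856.Q8

open PrimeConn (prime_twins)

namespace DegBound

variable {V : Type} {G : SimpleGraph V}

theorem h940_priv_empty [Fintype V] {q p : V} :
    priv G q p = ∅ ↔ ∀ y, G.Adj q y → y ≠ p → G.Adj p y := by
  unfold priv
  rw [Finset.filter_eq_empty_iff]
  constructor
  · intro h y h1 h2
    by_contra h3
    exact h (Finset.mem_univ y) ⟨h1, h3, h2⟩
  · rintro h y - ⟨h1, h2, h3⟩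
    exact h2 (h y h1 h3)

theorem h940_not_twins [Fintype V] (hP : Prime G) (h3 : 3 ≤ Fintype.card V) {x y : V}
    (hxy : G.Adj x y) (h1 : priv G x y = ∅) (h2 : priv G y x = ∅) : False := by
  rw [h940_priv_empty] at h1 h2
  exact prime_twins hP h3 x y hxy.ne fun w hwx hwy => ⟨fun h => h1 w h hwy, fun h => h2 w h hwx⟩

theorem h940_lt [Fintype V] (hP : Prime G) (h3 : 3 ≤ Fintype.card V) {x y : V}
    (hxy : G.Adj x y) (h1 : priv G x y = ∅) :
    (Finset.univ.filter (fun w => G.Adj x w)).card <
      (Finset.univ.filter (fun w => G.Adj y w)).card := by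
  have h2 : priv G y x ≠ ∅ := fun h => h940_not_twins hP h3 hxy h1 h
  obtain ⟨z, hz⟩ := Finset.nonempty_iff_ne_empty.2 h2
  simp only [priv, Finset.mem_filter, Finset.mem_univ, true_and] at hz
  rw [h940_priv_empty] at h1
  have hy : y ∈ Finset.univ.filter (fun w => G.Adj x w) := by simp [hxy]
  have hx : x ∉ (Finset.univ.filter (fun w => G.Adj x w)).erase y := by simp
  have e : (Finset.univ.filter (fun w => G.Adj x w)).card =
      (insert x ((Finset.univ.filter (fun w => G.Adj x w)).erase y)).card := by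
    rw [Finset.card_insert_of_notMem hx, Finset.card_erase_of_mem hy]
    have := Finset.card_pos.2 ⟨y, hy⟩
    omega
  rw [e]
  apply Finset.card_lt_card
  rw [Finset.ssubset_iff_of_subset]
  · refine ⟨z, by simp [hz.1], ?_⟩
    simp only [Finset.mem_insert, Finset.mem_erase, Finset.mem_filter, Finset.mem_univ, true_and]
    rintro (h | ⟨_, h⟩)
    · exact hz.2.2 h
    · exact hz.2.1 h
  · intro w hw
    simp only [Finset.mem_insert, Finset.mem_erase, Finset.mem_filter, Finset.mem_univ,
      true_and] at hw ⊢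
    rcases hw with rfl | ⟨hwy, hw⟩
    · exact hxy.symm
    · exact h1 w hw hwy

theorem h940_dn [Fintype V] (c1 : ℕ) (hP : Prime G) (h3 : 3 ≤ Fintype.card V)
    (hno : ∀ x, Up G x = ∅ → (Dn G x).card ≤ 2 * c1) (k : ℕ) :
    ∀ x, Fintype.card V - (Finset.univ.filter (fun w => G.Adj x w)).card ≤ k →
      (Dn G x).card ≤ 2 * c1 := by
  induction k with
  | zero =>
    intro x hx
    refine hno x ?_
    rw [Finset.eq_empty_iff_forall_notMem]
    intro y hy
    simp only [Up, Finset.mem_filter, Finset.mem_univ, true_and] at hy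
    have h4 := h940_lt hP h3 hy.1 hy.2
    have h5 : (Finset.univ.filter (fun w => G.Adj y w)).card ≤ Fintype.card V :=
      Finset.card_le_univ _
    omega
  | succ k ih =>
    intro x hx
    by_cases hup : Up G x = ∅
    · exact hno x hup
    · obtain ⟨y, hy⟩ := Finset.nonempty_iff_ne_empty.2 hup
      simp only [Up, Finset.mem_filter, Finset.mem_univ, true_and] at hy
      have h4 := h940_lt hP h3 hy.1 hy.2
      refine (Finset.card_le_card ?_).trans (ih y (by omega))
      intro z hz
      simp only [Dn, Finset.mem_filter, Finset.mem_univ, true_and] at hz ⊢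
      obtain ⟨hz1, hz2⟩ := hz
      have hzy : z ≠ y := by
        rintro rfl
        exact h940_not_twins hP h3 hy.1 hy.2 hz2
      have hy2 := h940_priv_empty.1 hy.2
      have hz3 := h940_priv_empty.1 hz2
      refine ⟨hy2 z hz1 hzy, ?_⟩
      rw [h940_priv_empty]
      intro w hw hwy
      by_cases hwx : w = x
      · rw [hwx]; exact hy.1.symm
      · exact hy2 w (hz3 w hw hwx) hwy

theorem h940_up [Fintype V] (c1 c3 : ℕ) (hP : Prime G) (h3 : 3 ≤ Fintype.card V)
    (hF : ∀ x, (F1 G x).card ≤ c3) (hdn : ∀ x, (Dn G x).card ≤ 2 * c1) (x : V) :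
    (Up G x).card ≤ 1 + 2 * c1 + c3 := by
  by_cases hup : Up G x = ∅
  · rw [hup]; simp
  · obtain ⟨u, hu, hmax⟩ := Finset.exists_max_image (Up G x)
      (fun w => (Finset.univ.filter (fun z => G.Adj w z)).card)
      (Finset.nonempty_iff_ne_empty.2 hup)
    have hsub : Up G x ⊆ ({u} ∪ Dn G u) ∪ F1 G u := by
      intro u' hu'
      by_cases he : u' = u
      · rw [he]; simp
      · have hu1 : G.Adj x u ∧ priv G x u = ∅ := by
          simpa [Up] using hu
        have hu2 : G.Adj x u' ∧ priv G x u' = ∅ := by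
          simpa [Up] using hu'
        have hadj : G.Adj u u' := h940_priv_empty.1 hu1.2 u' hu2.1 he
        rw [Finset.mem_union, Finset.mem_union]
        by_cases h1 : priv G u' u = ∅
        · left; right
          simp only [Dn, Finset.mem_filter, Finset.mem_univ, true_and]
          exact ⟨hadj, h1⟩
        · right
          simp only [F1, Finset.mem_filter, Finset.mem_univ, true_and]
          refine ⟨hadj, Finset.nonempty_iff_ne_empty.2 h1, Finset.nonempty_iff_ne_empty.2 ?_⟩
          intro h2
          have h4 := h940_lt hP h3 hadj h2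
          have h5 := hmax u' hu'
          omega
    refine (Finset.card_le_card hsub).trans ?_
    refine (Finset.card_union_le _ _).trans ?_
    have h6 := Finset.card_union_le ({u} : Finset V) (Dn G u)
    have h7 := hdn u
    have h8 := hF u
    rw [Finset.card_singleton] at h6
    omega

/-- TARGET -/
theorem deg_bound (c1 c3 : ℕ) [Fintype V] (hP : Prime G) (h3 : 3 ≤ Fintype.card V)
    (hF : ∀ x, (F1 G x).card ≤ c3) (hno : ∀ x, Up G x = ∅ → (Dn G x).card ≤ 2 * c1) (v : V) :
    (Finset.univ.filter (fun w => G.Adj v w)).card ≤ 4 * c1 + 2 * c3 + 1 := by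
  have hdn : ∀ x, (Dn G x).card ≤ 2 * c1 := fun x =>
    h940_dn c1 hP h3 hno _ x le_rfl
  have hup := h940_up c1 c3 hP h3 hF hdn v
  have hsub : Finset.univ.filter (fun w => G.Adj v w) ⊆ (Dn G v ∪ Up G v) ∪ F1 G v := by
    intro w hw
    simp only [Finset.mem_filter, Finset.mem_univ, true_and] at hw
    rw [Finset.mem_union, Finset.mem_union]
    simp only [Dn, Up, F1, Finset.mem_filter, Finset.mem_univ, true_and]
    by_cases h1 : priv G w v = ∅
    · exact Or.inl (Or.inl ⟨hw, h1⟩)
    · by_cases h2 : priv G v w = ∅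
      · exact Or.inl (Or.inr ⟨hw, h2⟩)
      · exact Or.inr ⟨hw, Finset.nonempty_iff_ne_empty.2 h1, Finset.nonempty_iff_ne_empty.2 h2⟩
  refine (Finset.card_le_card hsub).trans ?_
  refine (Finset.card_union_le _ _).trans ?_
  have h6 := Finset.card_union_le (Dn G v) (Up G v)
  have h7 := hdn v
  have h8 := hF v
  omega

end DegBound

end Pool.Agent.Helper856.Q8
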