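import Pool.Agent.Helper856.Q8.Defs
import Pool.Agent.Helper856.Q8.Vlq

open Classical SimpleGraph

namespace Pool.Agent.Helper856.Q8

open Vlq (vlq)

namespace EHom

variable {V : Type} {G : SimpleGraph V}

theorem e_hom_mem [Fintype V] (q p y : V) :
    y ∈ priv G q p ↔ G.Adj q y ∧ ¬G.Adj p y ∧ y ≠ p := by
  simp [priv]

theorem e_hom_c5 (hS : Sur G) (y q p r w : V) (a1 : G.Adj y q) (a2 : G.Adj q p) (a3 : G.Adj p r)
    (a4 : G.Adj r w) (a5 : G.Adj w y) (n1 : ¬G.Adj y p) (n2 : ¬G.Adj y r) (n3 : ¬G.Adj q r)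
    (n4 : ¬G.Adj q w) (n5 : ¬G.Adj p w) : False := by
  have d1 : y ≠ q := a1.ne
  have d2 : y ≠ p := fun h => n3 (by rw [h] at a1 n2; exact absurd a3 n2)
  have d3 : y ≠ r := fun h => n1 (by rw [h]; exact a3.symm)
  have d4 : y ≠ w := a5.ne'
  have d5 : q ≠ p := a2.ne
  have d6 : q ≠ r := fun h => n4 (by rw [h]; exact a4)
  have d7 : q ≠ w := fun h => n3 (by rw [h]; exact a4.symm)
  have d8 : p ≠ r := a3.ne
  have d9 : p ≠ w := fun h => n1 (by rw [h]; exact a5.symm)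
  have d10 : r ≠ w := a4.ne
  refine vlq hS (n := 5) ![y, q, p, r, w] ?_ [(0, 1, 2, 3), (1, 2, 3, 4), (2, 3, 4, 0), (3, 4, 0, 1)]
    (by simp) (by simp) (by simp) (by decide) ?_
  · intro i j hij
    fin_cases i <;> fin_cases j <;>
      simp [d1, d2, d3, d4, d5, d6, d7, d8, d9, d10, d1.symm, d2.symm, d3.symm, d4.symm, d5.symm,
        d6.symm, d7.symm, d8.symm, d9.symm, d10.symm] at hij ⊢
  · intro t ht
    simp only [List.mem_cons, List.not_mem_nil, or_false] at ht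
    rcases ht with rfl | rfl | rfl | rfl
    · exact ⟨a1, a2, a3, n1, n2, n3⟩
    · exact ⟨a2, a3, a4, n3, n4, n5⟩
    · exact ⟨a3, a4, a5, n5, fun h => n1 h.symm, fun h => n2 h.symm⟩
    · exact ⟨a4, a5, a1, fun h => n2 h.symm, fun h => n3 h.symm, fun h => n4 h.symm⟩

/-- TARGET -/
theorem e_hom (hS : Sur G) (h4 : NC4 G) [Fintype V] (q p r : V) (h : ES G q p r) (w : V) (hw : w ∉ priv G q p)
    (hp : w ≠ p) (hq : w ≠ q) (hr : w ≠ r) (y y' : V) (hy : y ∈ priv G q p) (hy' : y' ∈ priv G q p)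
    (h1 : G.Adj w y) (h2 : ¬G.Adj w y') : exc G q p r w y ∨ exc G q p r w y'  := by
  obtain ⟨e1, e2, e3, e4⟩ := h
  rw [e_hom_mem] at hy hy' hw
  obtain ⟨y1, y2, y3⟩ := hy
  have y4 : ¬ G.Adj y r := by
    intro hyr
    rcases h4 y q p r y1.symm e1 e2 hyr.symm y3 e4 with h | h
    · exact y2 h.symm
    · exact e3 h
  by_cases c1 : G.Adj w q
  · by_cases c2 : G.Adj w p
    · by_cases c3 : G.Adj w r
      · exact Or.inr (Or.inr (Or.inl ⟨c1, c2, c3, h2⟩))
      · exact Or.inl (Or.inl ⟨c1, c2, c3, h1⟩)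
    · exact absurd ⟨c1.symm, fun h => c2 h.symm, hp⟩ hw
  · by_cases c2 : G.Adj w p
    · exfalso
      rcases h4 y q p w y1.symm e1 c2.symm h1 y3 hq.symm with h | h
      · exact y2 h.symm
      · exact c1 h.symm
    · by_cases c3 : G.Adj w r
      · exfalso
        exact e_hom_c5 hS y q p r w y1.symm e1 e2 c3.symm h1 (fun h => y2 h.symm) y4 e3
          (fun h => c1 h.symm) (fun h => c2 h.symm)
      · exact Or.inl (Or.inr (Or.inr ⟨c1, c2, c3, h1⟩))

end EHom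

end Pool.Agent.Helper856.Q8
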