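import Pool.Agent.Helper856.Q8.Defs
import Pool.Agent.Helper856.Q8.Vlq

open Classical SimpleGraph

namespace Pool.Agent.Helper856.Q8

open Vlq (vlq)

namespace EPairs

variable {V : Type} {G : SimpleGraph V}

theorem inj8 (a b c d e f g h : V)
    (hn : [a, b, c, d, e, f, g, h].Nodup) : Function.Injective ![a, b, c, d, e, f, g, h] := by
  rw [← List.nodup_ofFn]
  simpa [List.ofFn_succ] using hn

/-- TARGET -/
theorem e_pairs (hS : Sur G) (h4 : NC4 G) [Fintype V] (q p r : V) (h : ES G q p r) (w1 w2 y1 y2 y3 : V)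
    (m1 : y1 ∈ priv G q p) (m2 : y2 ∈ priv G q p) (m3 : y3 ∈ priv G q p)
    (n12 : y1 ≠ y2) (n13 : y1 ≠ y3) (n23 : y2 ≠ y3) :
    (eA G q p r w1 y1 → eA G q p r w2 y2 → ¬eA G q p r w1 y2 → ¬eA G q p r w2 y1 →
      w1 ≠ w2 ∧ G.Adj w1 w2 ∧ ¬G.Adj y1 y2 ∧ ¬G.Adj w1 y2 ∧ ¬G.Adj w2 y1) ∧
    (eB G q p r w1 y1 → eB G q p r w2 y2 → ¬eB G q p r w1 y2 → ¬eB G q p r w2 y1 →
      w1 ≠ w2 ∧ G.Adj w1 w2 ∧ ¬G.Adj y1 y2 ∧ G.Adj w1 y2 ∧ G.Adj w2 y1) ∧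
    (eC G q p r w1 y1 → eC G q p r w2 y2 → ¬eC G q p r w1 y2 → ¬eC G q p r w2 y1 →
      w1 ≠ w2 ∧ ¬G.Adj w1 w2 ∧ G.Adj y1 y2 ∧ ¬G.Adj w1 y2 ∧ ¬G.Adj w2 y1) := by
  obtain ⟨hqp, hpr, hqr, nqr⟩ := h
  have key : ∀ y, y ∈ priv G q p → G.Adj y q ∧ ¬G.Adj y p ∧ ¬G.Adj y r ∧ y ≠ q ∧ y ≠ p ∧ y ≠ r := by
    intro y hy
    simp only [priv, Finset.mem_filter, Finset.mem_univ, true_and] at hy
    obtain ⟨a1, a2, a3⟩ := hy
    refine ⟨a1.symm, fun hh => a2 hh.symm, ?_, a1.symm.ne, a3, ?_⟩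
    · intro hyr
      rcases h4 y q p r a1.symm hqp hpr hyr.symm a3 nqr with h1 | h1
      · exact a2 h1.symm
      · exact hqr h1
    · rintro rfl
      exact a2 hpr
  obtain ⟨q1, p1, r1, nq1, np1, nr1⟩ := key y1 m1
  obtain ⟨q2, p2, r2, nq2, np2, nr2⟩ := key y2 m2
  obtain ⟨q3, p3, r3, nq3, np3, nr3⟩ := key y3 m3
  have nqp : q ≠ p := hqp.ne
  have npr : p ≠ r := hpr.ne
  refine ⟨?_, ?_, ?_⟩
  · rintro ⟨w1q, w1p, w1r, w1y⟩ ⟨w2q, w2p, w2r, w2y⟩ e1 e2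
    have c1 : ¬G.Adj w1 y2 := fun hh => e1 ⟨w1q, w1p, w1r, hh⟩
    have c2 : ¬G.Adj w2 y1 := fun hh => e2 ⟨w2q, w2p, w2r, hh⟩
    have nw : w1 ≠ w2 := by
      rintro rfl; exact c2 w1y
    have hwy : ∀ w y, G.Adj w p → ¬G.Adj y p → y ≠ w := by
      intro w y hw hy
      rintro rfl; exact hy hw
    have hwr : ∀ w, G.Adj w q → w ≠ r := by
      intro w hw
      rintro rfl; exact hqr hw.symm
    have hww : G.Adj w1 w2 := by
      by_contra hc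
      refine vlq hS ![y1, y2, y3, w1, w2, q, p, r] (inj8 _ _ _ _ _ _ _ _ ?_)
        [(0, 5, 6, 7), (1, 5, 6, 7), (2, 5, 6, 7), (0, 3, 6, 7), (1, 4, 6, 7), (0, 3, 6, 4), (1, 4, 6, 3)]
        (by simp) (by simp) (by simp) (by decide) ?_
      · have := hwy w1 y1 w1p p1
        have := hwy w1 y2 w1p p2
        have := hwy w1 y3 w1p p3
        have := hwy w2 y1 w2p p1
        have := hwy w2 y2 w2p p2
        have := hwy w2 y3 w2p p3
        have := hwr w1 w1q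
        have := hwr w2 w2q
        have := w1q.ne
        have := w2q.ne
        have := w1p.ne
        have := w2p.ne
        simp only [List.nodup_cons, List.mem_cons, List.not_mem_nil, or_false, not_or]
        refine ⟨⟨?_, ?_, ?_, ?_, ?_, ?_, ?_⟩, ⟨?_, ?_, ?_, ?_, ?_, ?_⟩, ⟨?_, ?_, ?_, ?_, ?_⟩, ⟨?_, ?_, ?_, ?_⟩,
          ⟨?_, ?_, ?_⟩, ⟨?_, ?_⟩, ?_, ?_, List.nodup_nil⟩ <;> first | assumption | simp
      · intro t ht
        simp only [List.mem_cons, List.not_mem_nil, or_false] at ht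
        rcases ht with rfl | rfl | rfl | rfl | rfl | rfl | rfl
        · exact ⟨q1, hqp, hpr, p1, r1, hqr⟩
        · exact ⟨q2, hqp, hpr, p2, r2, hqr⟩
        · exact ⟨q3, hqp, hpr, p3, r3, hqr⟩
        · exact ⟨w1y.symm, w1p, hpr, p1, r1, w1r⟩
        · exact ⟨w2y.symm, w2p, hpr, p2, r2, w2r⟩
        · exact ⟨w1y.symm, w1p, w2p.symm, p1, fun hh => c2 hh.symm, hc⟩
        · exact ⟨w2y.symm, w2p, w1p.symm, p2, fun hh => c1 hh.symm, fun hh => hc hh.symm⟩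
    refine ⟨nw, hww, ?_, c1, c2⟩
    intro hy
    rcases h4 w1 y1 y2 w2 w1y hy w2y.symm hww.symm (hwy w1 y2 w1p p2).symm (hwy w2 y1 w2p p1) with h1 | h1
    · exact c1 h1
    · exact c2 h1.symm
  · rintro ⟨w1q, w1p, w1r, w1y⟩ ⟨w2q, w2p, w2r, w2y⟩ e1 e2
    have c1 : G.Adj w1 y2 := by
      by_contra hc; exact e1 ⟨w1q, w1p, w1r, hc⟩
    have c2 : G.Adj w2 y1 := by
      by_contra hc; exact e2 ⟨w2q, w2p, w2r, hc⟩
    have nw : w1 ≠ w2 := by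
      rintro rfl; exact w1y c2
    have hwy : ∀ w y, G.Adj w p → ¬G.Adj y p → y ≠ w := by
      intro w y hw hy
      rintro rfl; exact hy hw
    have hww : G.Adj w1 w2 := by
      rcases h4 w1 q w2 r w1q w2q.symm w2r w1r.symm nw nqr with h1 | h1
      · exact h1
      · exact absurd h1 hqr
    refine ⟨nw, hww, ?_, c1, c2⟩
    intro hy
    rcases h4 y1 y2 w1 w2 hy c1.symm hww c2 (hwy w1 y1 w1p p1) (hwy w2 y2 w2p p2) with h1 | h1
    · exact w1y h1.symm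
    · exact w2y h1.symm
  · rintro ⟨w1q, w1p, w1r, w1y⟩ ⟨w2q, w2p, w2r, w2y⟩ e1 e2
    have c1 : ¬G.Adj w1 y2 := fun hh => e1 ⟨w1q, w1p, w1r, hh⟩
    have c2 : ¬G.Adj w2 y1 := fun hh => e2 ⟨w2q, w2p, w2r, hh⟩
    have nw : w1 ≠ w2 := by
      rintro rfl; exact c2 w1y
    have hwy : ∀ w y, ¬G.Adj w q → G.Adj y q → y ≠ w := by
      intro w y hw hy
      rintro rfl; exact hw hy
    have hwr : ∀ w, ¬G.Adj w p → w ≠ r := by
      intro w hw
      rintro rfl; exact hw hpr.symm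
    have hwq : ∀ w, ¬G.Adj w p → w ≠ q := by
      intro w hw
      rintro rfl; exact hw hqp
    have hwp : ∀ w, ¬G.Adj w q → w ≠ p := by
      intro w hw
      rintro rfl; exact hw hqp.symm
    have hyy : G.Adj y1 y2 := by
      by_contra hc
      refine vlq hS ![y1, y2, y3, w1, w2, q, p, r] (inj8 _ _ _ _ _ _ _ _ ?_)
        [(0, 5, 6, 7), (1, 5, 6, 7), (2, 5, 6, 7), (3, 0, 5, 6), (4, 1, 5, 6), (3, 0, 5, 1), (4, 1, 5, 0)]
        (by simp) (by simp) (by simp) (by decide) ?_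
      · have := hwy w1 y1 w1q q1
        have := hwy w1 y2 w1q q2
        have := hwy w1 y3 w1q q3
        have := hwy w2 y1 w2q q1
        have := hwy w2 y2 w2q q2
        have := hwy w2 y3 w2q q3
        have := hwr w1 w1p
        have := hwr w2 w2p
        have := hwq w1 w1p
        have := hwq w2 w2p
        have := hwp w1 w1q
        have := hwp w2 w2q
        simp only [List.nodup_cons, List.mem_cons, List.not_mem_nil, or_false, not_or]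
        refine ⟨⟨?_, ?_, ?_, ?_, ?_, ?_, ?_⟩, ⟨?_, ?_, ?_, ?_, ?_, ?_⟩, ⟨?_, ?_, ?_, ?_, ?_⟩, ⟨?_, ?_, ?_, ?_⟩,
          ⟨?_, ?_, ?_⟩, ⟨?_, ?_⟩, ?_, ?_, List.nodup_nil⟩ <;> first | assumption | simp
      · intro t ht
        simp only [List.mem_cons, List.not_mem_nil, or_false] at ht
        rcases ht with rfl | rfl | rfl | rfl | rfl | rfl | rfl
        · exact ⟨q1, hqp, hpr, p1, r1, hqr⟩
        · exact ⟨q2, hqp, hpr, p2, r2, hqr⟩
        · exact ⟨q3, hqp, hpr, p3, r3, hqr⟩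
        · exact ⟨w1y, q1, hqp, w1q, w1p, p1⟩
        · exact ⟨w2y, q2, hqp, w2q, w2p, p2⟩
        · exact ⟨w1y, q1, q2.symm, w1q, c1, hc⟩
        · exact ⟨w2y, q2, q1.symm, w2q, c2, fun hh => hc hh.symm⟩
    refine ⟨nw, ?_, hyy, c1, c2⟩
    intro hww
    rcases h4 w1 y1 y2 w2 w1y hyy w2y.symm hww.symm (hwy w1 y2 w1q q2).symm (hwy w2 y1 w2q q1) with h1 | h1
    · exact c1 h1
    · exact c2 h1.symm

end EPairs

end Pool.Agent.Helper856.Q8
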