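import Pool.Agent.Helper856.Q8.Defs
import Pool.Agent.Helper856.Q8.Vlq

open Classical SimpleGraph

namespace Pool.Agent.Helper856.Q8

open Vlq (vlq)

namespace ETwo

variable {V : Type} {G : SimpleGraph V}

theorem e_two_priv [Fintype V] {q p y : V} (m : y ∈ priv G q p) :
    G.Adj q y ∧ ¬G.Adj p y ∧ y ≠ p := by
  unfold priv at m
  exact (Finset.mem_filter.1 m).2

theorem e_two_p4 (h4 : NC4 G) [Fintype V] {q p r y : V} (h : ES G q p r)
    (m : y ∈ priv G q p) : IsP4 G y q p r ∧ y ≠ q ∧ y ≠ p ∧ y ≠ r := by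
  obtain ⟨a1, a2, a3⟩ := e_two_priv m
  obtain ⟨b1, b2, b3, b4⟩ := h
  have hyr : ¬ G.Adj y r := by
    intro hyr
    rcases h4 y q p r a1.symm b1 b2 hyr.symm a3 b4 with h5 | h5
    · exact a2 h5.symm
    · exact b3 h5
  refine ⟨⟨a1.symm, b1, b2, fun h5 => a2 h5.symm, hyr, b3⟩, a1.ne', a3, ?_⟩
  rintro rfl
  exact a2 b2

theorem e_two_inj {y1 y2 y3 y4 q p r w : V} (n12 : y1 ≠ y2) (n13 : y1 ≠ y3) (n14 : y1 ≠ y4)
    (n23 : y2 ≠ y3) (n24 : y2 ≠ y4) (n34 : y3 ≠ y4) (c1 : y1 ≠ q ∧ y1 ≠ p ∧ y1 ≠ r)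
    (c2 : y2 ≠ q ∧ y2 ≠ p ∧ y2 ≠ r) (c3 : y3 ≠ q ∧ y3 ≠ p ∧ y3 ≠ r)
    (c4 : y4 ≠ q ∧ y4 ≠ p ∧ y4 ≠ r) (d1 : q ≠ p) (d2 : q ≠ r) (d3 : p ≠ r)
    (w1 : y1 ≠ w) (w2 : y2 ≠ w) (w3 : y3 ≠ w) (w4 : y4 ≠ w) (w5 : q ≠ w) (w6 : p ≠ w)
    (w7 : r ≠ w) :
    Function.Injective ([y1, y2, y3, y4, q, p, r, w].get : Fin 8 → V) := by
  apply List.nodup_iff_injective_get.1
  simp only [List.nodup_cons, List.mem_cons, List.not_mem_nil, or_false, not_or,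
    not_false_eq_true, List.nodup_nil, and_true]
  exact ⟨⟨n12, n13, n14, c1.1, c1.2.1, c1.2.2, w1⟩, ⟨n23, n24, c2.1, c2.2.1, c2.2.2, w2⟩,
    ⟨n34, c3.1, c3.2.1, c3.2.2, w3⟩, ⟨c4.1, c4.2.1, c4.2.2, w4⟩, ⟨d1, d2, w5⟩, ⟨d3, w6⟩, w7⟩

/-- TARGET -/
theorem e_two (hS : Sur G) (h4 : NC4 G) [Fintype V] (q p r : V) (h : ES G q p r) (w y1 y2 y3 y4 : V)
    (m1 : y1 ∈ priv G q p) (m2 : y2 ∈ priv G q p) (m3 : y3 ∈ priv G q p) (m4 : y4 ∈ priv G q p)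
    (n12 : y1 ≠ y2) (n13 : y1 ≠ y3) (n14 : y1 ≠ y4) (n23 : y2 ≠ y3) (n24 : y2 ≠ y4) (n34 : y3 ≠ y4)
    (h1 : exc G q p r w y1) (h2 : exc G q p r w y2) (h3 : exc G q p r w y3) : False := by
  obtain ⟨p1, c1⟩ := e_two_p4 h4 h m1
  obtain ⟨p2, c2⟩ := e_two_p4 h4 h m2
  obtain ⟨p3, c3⟩ := e_two_p4 h4 h m3
  obtain ⟨p4, c4⟩ := e_two_p4 h4 h m4
  obtain ⟨b1, b2, b3, b4⟩ := h
  have k1 := e_two_priv m1
  have k2 := e_two_priv m2
  have k3 := e_two_priv m3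
  have k4 := e_two_priv m4
  rcases h1 with ⟨u1, u2, u3, u4⟩ | ⟨u1, u2, u3, u4⟩ | ⟨u1, u2, u3, u4⟩
  · -- type A
    have v2 : G.Adj w y2 := by
      rcases h2 with h2 | h2 | h2
      · exact h2.2.2.2
      · exact absurd h2.2.2.1 u3
      · exact h2.2.2.2
    have v3 : G.Adj w y3 := by
      rcases h3 with h3 | h3 | h3
      · exact h3.2.2.2
      · exact absurd h3.2.2.1 u3
      · exact h3.2.2.2
    have w4 : y4 ≠ w := by
      rintro rfl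
      exact k4.2.1 u2.symm
    have w7 : r ≠ w := by
      rintro rfl
      exact b3 u1.symm
    refine vlq (n := 8) hS _ (e_two_inj n12 n13 n14 n23 n24 n34 c1 c2 c3 c4 b1.ne b4 b2.ne
      u4.ne' v2.ne' v3.ne' w4 u1.ne' u2.ne' w7)
      [(0,4,5,6),(1,4,5,6),(2,4,5,6),(3,4,5,6),(0,7,5,6),(1,7,5,6),(2,7,5,6)]
      (by simp) (by simp) (by simp) (by decide) ?_
    intro t ht
    simp only [List.mem_cons, List.not_mem_nil, or_false] at ht
    rcases ht with rfl | rfl | rfl | rfl | rfl | rfl | rfl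
    · exact p1
    · exact p2
    · exact p3
    · exact p4
    · exact ⟨u4.symm, u2, b2, p1.2.2.2.1, p1.2.2.2.2.1, u3⟩
    · exact ⟨v2.symm, u2, b2, p2.2.2.2.1, p2.2.2.2.2.1, u3⟩
    · exact ⟨v3.symm, u2, b2, p3.2.2.2.1, p3.2.2.2.2.1, u3⟩
  · -- type B
    have v2 : ¬ G.Adj w y2 := by
      rcases h2 with h2 | h2 | h2
      · exact absurd u3 h2.2.2.1
      · exact h2.2.2.2
      · exact absurd u3 h2.2.2.1
    have v3 : ¬ G.Adj w y3 := by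
      rcases h3 with h3 | h3 | h3
      · exact absurd u3 h3.2.2.1
      · exact h3.2.2.2
      · exact absurd u3 h3.2.2.1
    have w1 : y1 ≠ w := by
      rintro rfl
      exact k1.2.1 u2.symm
    have w2 : y2 ≠ w := by
      rintro rfl
      exact k2.2.1 u2.symm
    have w3 : y3 ≠ w := by
      rintro rfl
      exact k3.2.1 u2.symm
    have w4 : y4 ≠ w := by
      rintro rfl
      exact k4.2.1 u2.symm
    refine vlq (n := 8) hS _ (e_two_inj n12 n13 n14 n23 n24 n34 c1 c2 c3 c4 b1.ne b4 b2.ne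
      w1 w2 w3 w4 u1.ne' u2.ne' u3.ne')
      [(0,4,5,6),(1,4,5,6),(2,4,5,6),(3,4,5,6),(0,4,7,6),(1,4,7,6),(2,4,7,6)]
      (by simp) (by simp) (by simp) (by decide) ?_
    intro t ht
    simp only [List.mem_cons, List.not_mem_nil, or_false] at ht
    rcases ht with rfl | rfl | rfl | rfl | rfl | rfl | rfl
    · exact p1
    · exact p2
    · exact p3
    · exact p4
    · exact ⟨p1.1, u1.symm, u3, fun e => u4 e.symm, p1.2.2.2.2.1, b3⟩
    · exact ⟨p2.1, u1.symm, u3, fun e => v2 e.symm, p2.2.2.2.2.1, b3⟩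
    · exact ⟨p3.1, u1.symm, u3, fun e => v3 e.symm, p3.2.2.2.2.1, b3⟩
  · -- type C
    have v2 : G.Adj w y2 := by
      rcases h2 with h2 | h2 | h2
      · exact absurd h2.1 u1
      · exact absurd h2.1 u1
      · exact h2.2.2.2
    have v3 : G.Adj w y3 := by
      rcases h3 with h3 | h3 | h3
      · exact absurd h3.1 u1
      · exact absurd h3.1 u1
      · exact h3.2.2.2
    have w4 : y4 ≠ w := by
      rintro rfl
      exact u1 k4.1.symm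
    have w5 : q ≠ w := by
      rintro rfl
      exact u2 b1
    have w6 : p ≠ w := by
      rintro rfl
      exact u3 b2
    have w7 : r ≠ w := by
      rintro rfl
      exact u2 b2.symm
    refine vlq (n := 8) hS _ (e_two_inj n12 n13 n14 n23 n24 n34 c1 c2 c3 c4 b1.ne b4 b2.ne
      u4.ne' v2.ne' v3.ne' w4 w5 w6 w7)
      [(0,4,5,6),(1,4,5,6),(2,4,5,6),(3,4,5,6),(7,0,4,5),(7,1,4,5),(7,2,4,5)]
      (by simp) (by simp) (by simp) (by decide) ?_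
    intro t ht
    simp only [List.mem_cons, List.not_mem_nil, or_false] at ht
    rcases ht with rfl | rfl | rfl | rfl | rfl | rfl | rfl
    · exact p1
    · exact p2
    · exact p3
    · exact p4
    · exact ⟨u4, p1.1, b1, u1, u2, p1.2.2.2.1⟩
    · exact ⟨v2, p2.1, b1, u1, u2, p2.2.2.2.1⟩
    · exact ⟨v3, p3.1, b1, u1, u2, p3.2.2.2.1⟩

end ETwo

end Pool.Agent.Helper856.Q8
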