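import Pool.Agent.Helper856.Q8.Defs

open Classical SimpleGraph

namespace Pool.Agent.Helper856.Q8

namespace Third

variable {V : Type} {G : SimpleGraph V}

theorem third_out {α : Type} (Y : Finset α) (R : α → α → Prop)
    (h : ∀ y ∈ Y, ∀ a ∈ Y, ∀ b ∈ Y, a ≠ y → b ≠ y → R y a → R y b → a = b) (y : α) (hy : y ∈ Y) :
    (Y.filter (fun a => a ≠ y ∧ R y a)).card ≤ 1 := by
  rw [Finset.card_le_one]
  intro a ha b hb
  rw [Finset.mem_filter] at ha hb
  exact h y hy a ha.1 b hb.1 ha.2.1 hb.2.1 ha.2.2 hb.2.2

theorem third_in {α : Type} (Y : Finset α) (hY : Y.Nonempty) (R : α → α → Prop)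
    (h : ∀ y ∈ Y, ∀ a ∈ Y, ∀ b ∈ Y, a ≠ y → b ≠ y → R y a → R y b → a = b) :
    ∃ y ∈ Y, (Y.filter (fun a => y ≠ a ∧ R a y)).card ≤ 1 := by
  have h1 : ∑ y ∈ Y, (Y.filter (fun a => y ≠ a ∧ R a y)).card ≤ ∑ y ∈ Y, 1 := by
    have h2 : ∑ y ∈ Y, (Y.filter (fun a => y ≠ a ∧ R a y)).card =
        ∑ a ∈ Y, (Y.filter (fun y => y ≠ a ∧ R a y)).card := by
      simp only [Finset.card_filter]
      exact Finset.sum_comm
    rw [h2]
    exact Finset.sum_le_sum fun a ha => third_out Y R h a ha
  exact Finset.exists_le_of_sum_le hY h1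

/-- TARGET -/
theorem third {α : Type} (Y : Finset α) (R : α → α → Prop)
    (h : ∀ y ∈ Y, ∀ a ∈ Y, ∀ b ∈ Y, a ≠ y → b ≠ y → R y a → R y b → a = b) :
    ∃ I ⊆ Y, Y.card ≤ 3 * I.card ∧ ∀ a ∈ I, ∀ b ∈ I, a ≠ b → ¬R a b := by
  induction Y using Finset.strongInduction with
  | H Y ih =>
    rcases Y.eq_empty_or_nonempty with hY | hY
    · subst hY
      exact ⟨∅, Finset.Subset.refl _, by simp, by simp⟩
    · obtain ⟨y, hy, hin⟩ := third_in Y hY R h
      have hout := third_out Y R h y hy
      set B : Finset α := insert y (Y.filter (fun a => y ≠ a ∧ R a y) ∪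
        Y.filter (fun a => a ≠ y ∧ R y a)) with hB
      have hBc : B.card ≤ 3 := by
        refine (Finset.card_insert_le _ _).trans ?_
        have := Finset.card_union_le (Y.filter (fun a => y ≠ a ∧ R a y))
          (Y.filter (fun a => a ≠ y ∧ R y a))
        omega
      have hyB : y ∈ B := Finset.mem_insert_self _ _
      have hss : Y \ B ⊂ Y := by
        refine ⟨Finset.sdiff_subset, fun hsub => ?_⟩
        have := hsub hy
        rw [Finset.mem_sdiff] at this
        exact this.2 hyB
      obtain ⟨I, hI, hIc, hIi⟩ := ih (Y \ B) hss (fun y' hy' a ha b hb =>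
        h y' (Finset.mem_sdiff.1 hy').1 a (Finset.mem_sdiff.1 ha).1 b (Finset.mem_sdiff.1 hb).1)
      have hyI : y ∉ I := fun hyI => (Finset.mem_sdiff.1 (hI hyI)).2 hyB
      refine ⟨insert y I, ?_, ?_, ?_⟩
      · intro a ha
        rcases Finset.mem_insert.1 ha with rfl | ha
        · exact hy
        · exact (Finset.mem_sdiff.1 (hI ha)).1
      · rw [Finset.card_insert_of_notMem hyI]
        have h1 : Y.card ≤ (Y \ B).card + B.card := by
          have := Finset.card_le_card (show Y ⊆ (Y \ B) ∪ B by
            intro a ha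
            by_cases hab : a ∈ B
            · exact Finset.mem_union_right _ hab
            · exact Finset.mem_union_left _ (Finset.mem_sdiff.2 ⟨ha, hab⟩))
          exact this.trans (Finset.card_union_le _ _)
        omega
      · intro a ha b hb hab hR
        rcases Finset.mem_insert.1 ha with ha1 | ha1
        · rcases Finset.mem_insert.1 hb with hb1 | hb1
          · exact hab (ha1.trans hb1.symm)
          · have hb' := Finset.mem_sdiff.1 (hI hb1)
            apply hb'.2
            apply Finset.mem_insert_of_mem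
            apply Finset.mem_union_right
            rw [ha1] at hab hR
            exact Finset.mem_filter.2 ⟨hb'.1, hab.symm, hR⟩
        · rcases Finset.mem_insert.1 hb with hb1 | hb1
          · have ha' := Finset.mem_sdiff.1 (hI ha1)
            apply ha'.2
            apply Finset.mem_insert_of_mem
            apply Finset.mem_union_left
            rw [hb1] at hab hR
            exact Finset.mem_filter.2 ⟨ha'.1, hab.symm, hR⟩
          · exact hIi a ha1 b hb1 hab hR

end Third

end Pool.Agent.Helper856.Q8
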