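import Pool.Agent.Helper856.Q8.Defs
import Pool.Agent.Helper856.Q8.Third

open Classical SimpleGraph

namespace Pool.Agent.Helper856.Q8

open Third (third)

namespace MtchL

variable {V : Type} {G : SimpleGraph V}

/-- TARGET -/
theorem mtch {α β : Type} (R : Fin 3 → α → β → Prop) (Y : Finset β) (m : ℕ)
    (hex : ∀ y ∈ Y, ∃ τ w, R τ w y)
    (h2 : ∀ τ w, ∀ y1 ∈ Y, ∀ y2 ∈ Y, ∀ y3 ∈ Y, y1 ≠ y2 → y1 ≠ y3 → y2 ≠ y3 →
      R τ w y1 → R τ w y2 → R τ w y3 → False)
    (hc : 9 * m < Y.card) :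
    ∃ τ, ∃ w : Fin (m + 1) → α, ∃ y : Fin (m + 1) → β, (∀ i, y i ∈ Y) ∧ Mtch (R τ) (m + 1) w y := by
  have hYne : Y.Nonempty := by
    rw [← Finset.card_pos]; omega
  obtain ⟨y0, hy0⟩ := hYne
  obtain ⟨τ1, w1, -⟩ := hex y0 hy0
  haveI : Nonempty α := ⟨w1⟩
  choose! τ w hR using hex
  obtain ⟨I, hIY, hcard, hI⟩ := third Y (fun y a => R (τ y) (w y) a) (by
    intro y hy a ha b hb hay hby h1 h3
    by_contra hab
    exact h2 (τ y) (w y) y hy a ha b hb (Ne.symm hay) (Ne.symm hby) hab (hR y hy) h1 h3)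
  obtain ⟨τ0, -, hτ0⟩ := Finset.exists_lt_card_fiber_of_mul_lt_card_of_maps_to
    (s := I) (t := (Finset.univ : Finset (Fin 3))) (f := τ) (n := m)
    (fun a _ => Finset.mem_univ _) (by simp; omega)
  obtain ⟨J, hJ, hJc⟩ := Finset.exists_subset_card_eq (Nat.succ_le_of_lt hτ0)
  let e : Fin (m + 1) ≃ J := (Finset.equivFinOfCardEq hJc).symm
  have hmem : ∀ i, ((e i : β) ∈ I ∧ τ (e i) = τ0) := by
    intro i
    have := hJ (e i).2
    simpa using this
  have key : ∀ i j, R τ0 (w (e i)) (e j : β) ↔ i = j := by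
    intro i j
    constructor
    · intro h
      by_contra hij
      have hne : (e i : β) ≠ (e j : β) := by
        intro h'
        exact hij (e.injective (Subtype.ext h'))
      apply hI (e i) (hmem i).1 (e j) (hmem j).1 hne
      simp only [(hmem i).2]
      exact h
    · intro h
      subst h
      have := hR (e i) (hIY (hmem i).1)
      rw [(hmem i).2] at this
      exact this
  refine ⟨τ0, fun i => w (e i), fun i => (e i : β), fun i => hIY (hmem i).1, ?_, ?_, key⟩
  · intro i j hij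
    have h1 : R τ0 (w (e j)) (e j : β) := (key j j).2 rfl
    have h2 : w (e i) = w (e j) := hij
    rw [← h2] at h1
    exact (key i j).1 h1
  · intro i j hij
    exact e.injective (Subtype.ext hij)

end MtchL

end Pool.Agent.Helper856.Q8
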