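import Pool.Agent.Helper856.Q8.Defs
import Pool.Agent.Helper856.Q8.ETwo
import Pool.Agent.Helper856.Q8.EPairs
import Pool.Agent.Helper856.Q8.MtchL

open Classical SimpleGraph

namespace Pool.Agent.Helper856.Q8

open ETwo (e_two)
open EPairs (e_pairs)
open MtchL (mtch)

namespace ESpid

variable {V : Type} {G : SimpleGraph V}

theorem e_spid_ex [Fintype V] (S : Finset V) (h4 : 4 ≤ S.card) (a b c : V) :
    ∃ d ∈ S, a ≠ d ∧ b ≠ d ∧ c ≠ d := by
  classical
  have hc : ({a, b, c} : Finset V).card ≤ 3 := Finset.card_le_three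
  have : ¬ S ⊆ {a, b, c} := fun hs => by
    have := Finset.card_le_card hs
    omega
  rw [Finset.not_subset] at this
  obtain ⟨d, hd, hn⟩ := this
  refine ⟨d, hd, ?_, ?_, ?_⟩
  · rintro rfl
    exact hn (by simp)
  · rintro rfl
    exact hn (by simp)
  · rintro rfl
    exact hn (by simp)

/-- TARGET -/
theorem e_spid (m : ℕ) (hF : Fine G (m + 1)) [Fintype V] (q p r : V) (h : ES G q p r)
    (h4 : 4 ≤ (priv G q p).card) :
    ((priv G q p).filter (fun y => ∃ w, exc G q p r w y)).card ≤ 9 * m := by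
  by_contra hcon
  rw [not_le] at hcon
  obtain ⟨hS, hN, hP, hSF⟩ := hF
  set R : Fin 3 → V → V → Prop := ![eA G q p r, eB G q p r, eC G q p r] with hR
  have hRexc : ∀ τ w y, R τ w y → exc G q p r w y := by
    intro τ w y
    fin_cases τ
    · intro h; exact Or.inl h
    · intro h; exact Or.inr (Or.inl h)
    · intro h; exact Or.inr (Or.inr h)
  have hmem : ∀ y ∈ (priv G q p).filter (fun y => ∃ w, exc G q p r w y), y ∈ priv G q p :=
    fun y hy => (Finset.mem_filter.1 hy).1
  obtain ⟨τ, w, y, hyY, hwi, hyi, hM⟩ := mtch R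
    ((priv G q p).filter (fun y => ∃ w, exc G q p r w y)) m (by
      intro y hy
      obtain ⟨w, hw⟩ := (Finset.mem_filter.1 hy).2
      rcases hw with hw | hw | hw
      · exact ⟨0, w, hw⟩
      · exact ⟨1, w, hw⟩
      · exact ⟨2, w, hw⟩) (by
      intro τ w y1 m1 y2 m2 y3 m3 n12 n13 n23 r1 r2 r3
      obtain ⟨y4, m4, n14, n24, n34⟩ := e_spid_ex (priv G q p) h4 y1 y2 y3
      exact e_two hS hN q p r h w y1 y2 y3 y4 (hmem _ m1) (hmem _ m2) (hmem _ m3) m4
        n12 n13 n14 n23 n24 n34 (hRexc _ _ _ r1) (hRexc _ _ _ r2) (hRexc _ _ _ r3)) hcon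
  have hpair : ∀ i j, i ≠ j → ∃ y3 ∈ priv G q p, y i ≠ y3 ∧ y j ≠ y3 := by
    intro i j _
    obtain ⟨d, hd, h1, h2, _⟩ := e_spid_ex (priv G q p) h4 (y i) (y j) (y j)
    exact ⟨d, hd, h1, h2⟩
  have hself : ∀ i, R τ (w i) (y i) := fun i => (hM i i).2 rfl
  have hne : ∀ i j, i ≠ j → ¬ R τ (w i) (y j) := fun i j hij hr => hij ((hM i j).1 hr)
  fin_cases τ
  · apply (hSF y w).1
    have key : ∀ i j, i ≠ j → w i ≠ w j ∧ G.Adj (w i) (w j) ∧ ¬G.Adj (y i) (y j) ∧
        ¬G.Adj (w i) (y j) ∧ ¬G.Adj (w j) (y i) := by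
      intro i j hij
      obtain ⟨y3, m3, n13, n23⟩ := hpair i j hij
      exact (e_pairs hS hN q p r h (w i) (w j) (y i) (y j) y3 (hmem _ (hyY i)) (hmem _ (hyY j)) m3
        (fun e => hij (hyi e)) n13 n23).1 (hself i) (hself j) (hne i j hij) (hne j i hij.symm)
    refine ⟨fun i j hij => (key i j hij).2.1, fun i j hij => (key i j hij).2.2.1, fun i j => ?_⟩
    constructor
    · intro hadj
      by_contra hij
      exact (key i j hij).2.2.2.2 hadj.symm
    · rintro rfl
      have := hself i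
      exact (show eA G q p r (w i) (y i) from this).2.2.2.symm
  · apply (hSF y w).2
    have key : ∀ i j, i ≠ j → w i ≠ w j ∧ G.Adj (w i) (w j) ∧ ¬G.Adj (y i) (y j) ∧
        G.Adj (w i) (y j) ∧ G.Adj (w j) (y i) := by
      intro i j hij
      obtain ⟨y3, m3, n13, n23⟩ := hpair i j hij
      exact (e_pairs hS hN q p r h (w i) (w j) (y i) (y j) y3 (hmem _ (hyY i)) (hmem _ (hyY j)) m3
        (fun e => hij (hyi e)) n13 n23).2.1 (hself i) (hself j) (hne i j hij) (hne j i hij.symm)
    refine ⟨fun i j hij => (key i j hij).2.1, fun i j hij => (key i j hij).2.2.1, fun i j => ?_⟩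
    constructor
    · rintro hadj rfl
      have := hself i
      exact (show eB G q p r (w i) (y i) from this).2.2.2 hadj.symm
    · intro hij
      exact (key i j hij).2.2.2.2.symm
  · apply (hSF w y).1
    have key : ∀ i j, i ≠ j → w i ≠ w j ∧ ¬G.Adj (w i) (w j) ∧ G.Adj (y i) (y j) ∧
        ¬G.Adj (w i) (y j) ∧ ¬G.Adj (w j) (y i) := by
      intro i j hij
      obtain ⟨y3, m3, n13, n23⟩ := hpair i j hij
      exact (e_pairs hS hN q p r h (w i) (w j) (y i) (y j) y3 (hmem _ (hyY i)) (hmem _ (hyY j)) m3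
        (fun e => hij (hyi e)) n13 n23).2.2 (hself i) (hself j) (hne i j hij) (hne j i hij.symm)
    refine ⟨fun i j hij => (key i j hij).2.2.1, fun i j hij => (key i j hij).2.1, fun i j => ?_⟩
    constructor
    · intro hadj
      by_contra hij
      exact (key i j hij).2.2.2.1 hadj
    · rintro rfl
      have := hself i
      exact (show eC G q p r (w i) (y i) from this).2.2.2

end ESpid

end Pool.Agent.Helper856.Q8
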