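import Pool.Agent.Helper856.Q8.Defs
import Pool.Agent.Helper856.Q8.Vlq

open Classical SimpleGraph

namespace Pool.Agent.Helper856.Q8

open Vlq (vlq)

namespace EZ

variable {V : Type} {G : SimpleGraph V}

theorem e_z_inj7 {a b c d e f g : V} (h : [a, b, c, d, e, f, g].Nodup) :
    Function.Injective ![a, b, c, d, e, f, g] := by
  rw [← List.nodup_ofFn]
  simpa using h

theorem e_z_inj6 {a b c d e f : V} (h : [a, b, c, d, e, f].Nodup) :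
    Function.Injective ![a, b, c, d, e, f] := by
  rw [← List.nodup_ofFn]
  simpa using h

theorem e_z_v7 (hS : Sur G) (a b c d e f g : V) (h : [a, b, c, d, e, f, g].Nodup)
    (L : List (Fin 7 × Fin 7 × Fin 7 × Fin 7)) (hl : L.length = 6) (hok : okq L = true)
    (hL : ∀ q ∈ L, IsP4 G (![a, b, c, d, e, f, g] q.1) (![a, b, c, d, e, f, g] q.2.1)
      (![a, b, c, d, e, f, g] q.2.2.1) (![a, b, c, d, e, f, g] q.2.2.2)) : False :=
  vlq hS _ (e_z_inj7 h) L (by rintro rfl; simp at hl) (by omega) (by omega) hok hL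

theorem e_z_v6 (hS : Sur G) (a b c d e f : V) (h : [a, b, c, d, e, f].Nodup)
    (L : List (Fin 6 × Fin 6 × Fin 6 × Fin 6)) (hl : L.length = 5) (hok : okq L = true)
    (hL : ∀ q ∈ L, IsP4 G (![a, b, c, d, e, f] q.1) (![a, b, c, d, e, f] q.2.1)
      (![a, b, c, d, e, f] q.2.2.1) (![a, b, c, d, e, f] q.2.2.2)) : False :=
  vlq hS _ (e_z_inj6 h) L (by rintro rfl; simp at hl) (by omega) (by omega) hok hL

/-- facts about a private neighbour -/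
structure e_zP (G : SimpleGraph V) (q p r y : V) : Prop where
  yq : G.Adj y q
  yp : ¬G.Adj y p
  yr : ¬G.Adj y r
  nq : y ≠ q
  np : y ≠ p
  nr : y ≠ r

theorem e_z_priv (h4 : NC4 G) [Fintype V] {q p r : V} (h : ES G q p r) {y : V}
    (hy : y ∈ priv G q p) : e_zP G q p r y := by
  simp only [priv, Finset.mem_filter, Finset.mem_univ, true_and] at hy
  obtain ⟨hqy, hpy, hne⟩ := hy
  obtain ⟨hqp, hpr, hqr, hqr'⟩ := h
  have hyp : ¬G.Adj y p := fun h => hpy h.symm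
  refine ⟨hqy.symm, hyp, ?_, hqy.ne', hne, ?_⟩
  · intro hyr
    rcases h4 y q p r hqy.symm hqp hpr hyr.symm hne hqr' with h | h
    · exact hyp h
    · exact hqr h
  · rintro rfl
    exact hpy hpr

theorem e_z_C1 (hS : Sur G) {q p r w z y₁ y₂ : V} (h : ES G q p r) (hz : e_zP G q p r z)
    (h1 : e_zP G q p r y₁) (h2 : e_zP G q p r y₂) (hwq : ¬G.Adj w q) (hwp : ¬G.Adj w p)
    (hwr : ¬G.Adj w r) (hwz : G.Adj w z) (hw1 : ¬G.Adj w y₁) (hw2 : ¬G.Adj w y₂)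
    (hz1 : ¬G.Adj z y₁) (hz2 : ¬G.Adj z y₂) (h12 : y₁ ≠ y₂) : False := by
  obtain ⟨hqp, hpr, hqr, hqr'⟩ := h
  have n1 : w ≠ q := by rintro rfl; exact hwp hqp
  have n2 : w ≠ p := by rintro rfl; exact hwq hqp.symm
  have n3 : w ≠ r := by rintro rfl; exact hwp hpr.symm
  have n4 : w ≠ z := hwz.ne
  have n5 : w ≠ y₁ := by rintro rfl; exact hwq h1.yq
  have n6 : w ≠ y₂ := by rintro rfl; exact hwq h2.yq
  have n7 : z ≠ y₁ := by rintro rfl; exact hw1 hwz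
  have n8 : z ≠ y₂ := by rintro rfl; exact hw2 hwz
  have hnd : [z, y₁, y₂, w, q, p, r].Nodup := by
    simp only [List.nodup_cons, List.mem_cons, List.not_mem_nil, or_false, not_or,
      List.nodup_nil, and_true, not_false_eq_true]
    exact ⟨⟨n7, n8, n4.symm, hz.nq, hz.np, hz.nr⟩, ⟨h12, n5.symm, h1.nq, h1.np, h1.nr⟩,
      ⟨n6.symm, h2.nq, h2.np, h2.nr⟩, ⟨n1, n2, n3⟩, ⟨hqp.ne, hqr'⟩, hpr.ne⟩
  refine e_z_v7 hS z y₁ y₂ w q p r hnd
    [(0, 4, 5, 6), (1, 4, 5, 6), (2, 4, 5, 6), (3, 0, 4, 5), (3, 0, 4, 1), (3, 0, 4, 2)]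
    rfl (by decide +kernel) ?_
  intro t ht
  simp only [List.mem_cons, List.not_mem_nil, or_false] at ht
  rcases ht with rfl | rfl | rfl | rfl | rfl | rfl
  · exact ⟨hz.yq, hqp, hpr, hz.yp, hz.yr, hqr⟩
  · exact ⟨h1.yq, hqp, hpr, h1.yp, h1.yr, hqr⟩
  · exact ⟨h2.yq, hqp, hpr, h2.yp, h2.yr, hqr⟩
  · exact ⟨hwz, hz.yq, hqp, hwq, hwp, hz.yp⟩
  · exact ⟨hwz, hz.yq, h1.yq.symm, hwq, hw1, hz1⟩
  · exact ⟨hwz, hz.yq, h2.yq.symm, hwq, hw2, hz2⟩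

theorem e_z_C2 (hS : Sur G) {q p r w z x y : V} (h : ES G q p r) (hz : e_zP G q p r z)
    (hx : e_zP G q p r x) (hy : e_zP G q p r y) (hwq : ¬G.Adj w q) (hwp : ¬G.Adj w p)
    (hwr : ¬G.Adj w r) (hwz : G.Adj w z) (hwx : ¬G.Adj w x) (hwy : ¬G.Adj w y)
    (hzx : ¬G.Adj z x) (hzy : G.Adj z y) (hxy : G.Adj x y) : False := by
  obtain ⟨hqp, hpr, hqr, hqr'⟩ := h
  have n1 : w ≠ q := by rintro rfl; exact hwp hqp
  have n2 : w ≠ p := by rintro rfl; exact hwq hqp.symm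
  have n3 : w ≠ r := by rintro rfl; exact hwp hpr.symm
  have n4 : w ≠ z := hwz.ne
  have n5 : w ≠ x := by rintro rfl; exact hwq hx.yq
  have n6 : w ≠ y := by rintro rfl; exact hwq hy.yq
  have n7 : z ≠ x := by rintro rfl; exact hwx hwz
  have n8 : z ≠ y := by rintro rfl; exact hwy hwz
  have hnd : [z, x, y, w, q, p, r].Nodup := by
    simp only [List.nodup_cons, List.mem_cons, List.not_mem_nil, or_false, not_or,
      List.nodup_nil, and_true, not_false_eq_true]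
    exact ⟨⟨n7, n8, n4.symm, hz.nq, hz.np, hz.nr⟩, ⟨hxy.ne, n5.symm, hx.nq, hx.np, hx.nr⟩,
      ⟨n6.symm, hy.nq, hy.np, hy.nr⟩, ⟨n1, n2, n3⟩, ⟨hqp.ne, hqr'⟩, hpr.ne⟩
  refine e_z_v7 hS z x y w q p r hnd
    [(0, 4, 5, 6), (1, 4, 5, 6), (2, 4, 5, 6), (3, 0, 4, 5), (3, 0, 4, 1), (3, 0, 2, 1)]
    rfl (by decide +kernel) ?_
  intro t ht
  simp only [List.mem_cons, List.not_mem_nil, or_false] at ht
  rcases ht with rfl | rfl | rfl | rfl | rfl | rfl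
  · exact ⟨hz.yq, hqp, hpr, hz.yp, hz.yr, hqr⟩
  · exact ⟨hx.yq, hqp, hpr, hx.yp, hx.yr, hqr⟩
  · exact ⟨hy.yq, hqp, hpr, hy.yp, hy.yr, hqr⟩
  · exact ⟨hwz, hz.yq, hqp, hwq, hwp, hz.yp⟩
  · exact ⟨hwz, hz.yq, hx.yq.symm, hwq, hwx, hzx⟩
  · exact ⟨hwz, hzy, hxy.symm, hwy, hwx, hzx⟩

theorem e_z_A1 (hS : Sur G) {q p r w z y₁ y₂ : V} (h : ES G q p r) (hz : e_zP G q p r z)
    (h1 : e_zP G q p r y₁) (h2 : e_zP G q p r y₂) (hwq : G.Adj w q) (hwp : G.Adj w p)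
    (hwr : ¬G.Adj w r) (hwz : G.Adj w z) (hw1 : ¬G.Adj w y₁) (hw2 : ¬G.Adj w y₂)
    (hz1 : G.Adj z y₁) (hz2 : G.Adj z y₂) (h12 : y₁ ≠ y₂) : False := by
  obtain ⟨hqp, hpr, hqr, hqr'⟩ := h
  have n3 : w ≠ r := by rintro rfl; exact hqr hwq.symm
  have n5 : w ≠ y₁ := by rintro rfl; exact h1.yp hwp
  have n6 : w ≠ y₂ := by rintro rfl; exact h2.yp hwp
  have hnd : [z, y₁, y₂, w, q, p, r].Nodup := by
    simp only [List.nodup_cons, List.mem_cons, List.not_mem_nil, or_false, not_or,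
      List.nodup_nil, and_true, not_false_eq_true]
    exact ⟨⟨hz1.ne, hz2.ne, hwz.ne', hz.nq, hz.np, hz.nr⟩, ⟨h12, n5.symm, h1.nq, h1.np, h1.nr⟩,
      ⟨n6.symm, h2.nq, h2.np, h2.nr⟩, ⟨hwq.ne, hwp.ne, n3⟩, ⟨hqp.ne, hqr'⟩, hpr.ne⟩
  refine e_z_v7 hS z y₁ y₂ w q p r hnd
    [(0, 4, 5, 6), (1, 4, 5, 6), (2, 4, 5, 6), (0, 3, 5, 6), (1, 0, 3, 5), (2, 0, 3, 5)]
    rfl (by decide +kernel) ?_
  intro t ht
  simp only [List.mem_cons, List.not_mem_nil, or_false] at ht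
  rcases ht with rfl | rfl | rfl | rfl | rfl | rfl
  · exact ⟨hz.yq, hqp, hpr, hz.yp, hz.yr, hqr⟩
  · exact ⟨h1.yq, hqp, hpr, h1.yp, h1.yr, hqr⟩
  · exact ⟨h2.yq, hqp, hpr, h2.yp, h2.yr, hqr⟩
  · exact ⟨hwz.symm, hwp, hpr, hz.yp, hz.yr, hwr⟩
  · exact ⟨hz1.symm, hwz.symm, hwp, fun h => hw1 h.symm, h1.yp, hz.yp⟩
  · exact ⟨hz2.symm, hwz.symm, hwp, fun h => hw2 h.symm, h2.yp, hz.yp⟩

theorem e_z_A2 (hS : Sur G) {q p r w z x y : V} (h : ES G q p r) (hz : e_zP G q p r z)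
    (hx : e_zP G q p r x) (hy : e_zP G q p r y) (hwq : G.Adj w q) (hwp : G.Adj w p)
    (hwr : ¬G.Adj w r) (hwz : G.Adj w z) (hwx : ¬G.Adj w x) (hwy : ¬G.Adj w y)
    (hzx : G.Adj z x) (hzy : ¬G.Adj z y) (hxy : G.Adj x y) : False := by
  obtain ⟨hqp, hpr, hqr, hqr'⟩ := h
  have n3 : w ≠ r := by rintro rfl; exact hqr hwq.symm
  have n5 : w ≠ x := by rintro rfl; exact hx.yp hwp
  have n6 : w ≠ y := by rintro rfl; exact hy.yp hwp
  have n8 : z ≠ y := by rintro rfl; exact hwy hwz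
  have hnd : [z, x, y, w, q, p, r].Nodup := by
    simp only [List.nodup_cons, List.mem_cons, List.not_mem_nil, or_false, not_or,
      List.nodup_nil, and_true, not_false_eq_true]
    exact ⟨⟨hzx.ne, n8, hwz.ne', hz.nq, hz.np, hz.nr⟩, ⟨hxy.ne, n5.symm, hx.nq, hx.np, hx.nr⟩,
      ⟨n6.symm, hy.nq, hy.np, hy.nr⟩, ⟨hwq.ne, hwp.ne, n3⟩, ⟨hqp.ne, hqr'⟩, hpr.ne⟩
  refine e_z_v7 hS z x y w q p r hnd
    [(0, 4, 5, 6), (1, 4, 5, 6), (2, 4, 5, 6), (0, 3, 5, 6), (1, 0, 3, 5), (2, 1, 0, 3)]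
    rfl (by decide +kernel) ?_
  intro t ht
  simp only [List.mem_cons, List.not_mem_nil, or_false] at ht
  rcases ht with rfl | rfl | rfl | rfl | rfl | rfl
  · exact ⟨hz.yq, hqp, hpr, hz.yp, hz.yr, hqr⟩
  · exact ⟨hx.yq, hqp, hpr, hx.yp, hx.yr, hqr⟩
  · exact ⟨hy.yq, hqp, hpr, hy.yp, hy.yr, hqr⟩
  · exact ⟨hwz.symm, hwp, hpr, hz.yp, hz.yr, hwr⟩
  · exact ⟨hzx.symm, hwz.symm, hwp, fun h => hwx h.symm, hx.yp, hz.yp⟩
  · exact ⟨hxy.symm, hzx.symm, hwz.symm, fun h => hzy h.symm, fun h => hwy h.symm,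
      fun h => hwx h.symm⟩

theorem e_z_B1 (hS : Sur G) {q p r w z y : V} (h : ES G q p r) (hz : e_zP G q p r z)
    (hy : e_zP G q p r y) (hwq : G.Adj w q) (hwp : G.Adj w p)
    (hwr : G.Adj w r) (hwz : ¬G.Adj w z) (hwy : G.Adj w y) (hzy : G.Adj z y) : False := by
  obtain ⟨hqp, hpr, hqr, hqr'⟩ := h
  have n4 : w ≠ z := by rintro rfl; exact hz.yp hwp
  have hnd : [z, y, w, q, p, r].Nodup := by
    simp only [List.nodup_cons, List.mem_cons, List.not_mem_nil, or_false, not_or,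
      List.nodup_nil, and_true, not_false_eq_true]
    exact ⟨⟨hzy.ne, n4.symm, hz.nq, hz.np, hz.nr⟩, ⟨hwy.ne', hy.nq, hy.np, hy.nr⟩,
      ⟨hwq.ne, hwp.ne, hwr.ne⟩, ⟨hqp.ne, hqr'⟩, hpr.ne⟩
  refine e_z_v6 hS z y w q p r hnd
    [(0, 3, 4, 5), (1, 3, 4, 5), (0, 3, 2, 5), (0, 1, 2, 5), (0, 1, 2, 4)]
    rfl (by decide +kernel) ?_
  intro t ht
  simp only [List.mem_cons, List.not_mem_nil, or_false] at ht
  rcases ht with rfl | rfl | rfl | rfl | rfl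
  · exact ⟨hz.yq, hqp, hpr, hz.yp, hz.yr, hqr⟩
  · exact ⟨hy.yq, hqp, hpr, hy.yp, hy.yr, hqr⟩
  · exact ⟨hz.yq, hwq.symm, hwr, fun h => hwz h.symm, hz.yr, hqr⟩
  · exact ⟨hzy, hwy.symm, hwr, fun h => hwz h.symm, hz.yr, hy.yr⟩
  · exact ⟨hzy, hwy.symm, hwp, fun h => hwz h.symm, hz.yp, hy.yp⟩

/-- TARGET -/
theorem e_z (hS : Sur G) (h4 : NC4 G) [Fintype V] (q p r : V) (h : ES G q p r) (z : V)
    (hz : z ∈ priv G q p) (w : V) (hw : exc G q p r w z) :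
    ∃ x : V, (∀ y ∈ priv G q p, ∀ y' ∈ priv G q p, (¬∃ w, exc G q p r w y) → (¬∃ w, exc G q p r w y') →
        y ≠ x → y' ≠ x → (G.Adj z y ↔ G.Adj z y')) ∧
      (x ∈ priv G q p → (¬∃ w, exc G q p r w x) → ∀ y ∈ priv G q p, (¬∃ w, exc G q p r w y) → y ≠ x →
        ¬G.Adj x y) := by
  have hzP := e_z_priv h4 h hz
  have hzexc : ∃ w, exc G q p r w z := ⟨w, hw⟩
  rcases hw with ⟨hwq, hwp, hwr, hwz⟩ | ⟨hwq, hwp, hwr, hwz⟩ | ⟨hwq, hwp, hwr, hwz⟩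
  · -- type A
    have hny : ∀ y, (¬∃ w, exc G q p r w y) → ¬G.Adj w y := fun y hy hwy =>
      hy ⟨w, Or.inl ⟨hwq, hwp, hwr, hwy⟩⟩
    by_cases hex : ∃ x ∈ priv G q p, (¬∃ w, exc G q p r w x) ∧ G.Adj z x
    · obtain ⟨x, hx, hxe, hzx⟩ := hex
      have hxP := e_z_priv h4 h hx
      have key : ∀ y ∈ priv G q p, (¬∃ w, exc G q p r w y) → y ≠ x → ¬G.Adj z y := by
        intro y hy hye hyx hzy
        exact e_z_A1 hS h hzP hxP (e_z_priv h4 h hy) hwq hwp hwr hwz (hny x hxe) (hny y hye)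
          hzx hzy hyx.symm
      refine ⟨x, ?_, ?_⟩
      · intro y hy y' hy' hye hye' hyx hyx'
        exact ⟨fun h => absurd h (key y hy hye hyx), fun h => absurd h (key y' hy' hye' hyx')⟩
      · intro _ _ y hy hye hyx hxy
        exact e_z_A2 hS h hzP hxP (e_z_priv h4 h hy) hwq hwp hwr hwz (hny x hxe) (hny y hye)
          hzx (key y hy hye hyx) hxy
    · push Not at hex
      refine ⟨z, ?_, fun _ hc => absurd hzexc hc⟩
      intro y hy y' hy' hye hye' _ _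
      have e1 : ¬G.Adj z y := hex y hy (by push Not at hye; exact hye)
      have e2 : ¬G.Adj z y' := hex y' hy' (by push Not at hye'; exact hye')
      exact ⟨fun h => absurd h e1, fun h => absurd h e2⟩
  · -- type B
    have hny : ∀ y, (¬∃ w, exc G q p r w y) → G.Adj w y := by
      intro y hy
      by_contra hwy
      exact hy ⟨w, Or.inr (Or.inl ⟨hwq, hwp, hwr, hwy⟩)⟩
    refine ⟨z, ?_, fun _ hc => absurd hzexc hc⟩
    have key : ∀ y ∈ priv G q p, (¬∃ w, exc G q p r w y) → ¬G.Adj z y := by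
      intro y hy hye hzy
      exact e_z_B1 hS h hzP (e_z_priv h4 h hy) hwq hwp hwr hwz (hny y hye) hzy
    intro y hy y' hy' hye hye' _ _
    exact ⟨fun h => absurd h (key y hy hye), fun h => absurd h (key y' hy' hye')⟩
  · -- type C
    have hny : ∀ y, (¬∃ w, exc G q p r w y) → ¬G.Adj w y := fun y hy hwy =>
      hy ⟨w, Or.inr (Or.inr ⟨hwq, hwp, hwr, hwy⟩)⟩
    by_cases hex : ∃ x ∈ priv G q p, (¬∃ w, exc G q p r w x) ∧ ¬G.Adj z x
    · obtain ⟨x, hx, hxe, hzx⟩ := hex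
      have hxP := e_z_priv h4 h hx
      have key : ∀ y ∈ priv G q p, (¬∃ w, exc G q p r w y) → y ≠ x → G.Adj z y := by
        intro y hy hye hyx
        by_contra hzy
        exact e_z_C1 hS h hzP hxP (e_z_priv h4 h hy) hwq hwp hwr hwz (hny x hxe) (hny y hye)
          hzx hzy hyx.symm
      refine ⟨x, ?_, ?_⟩
      · intro y hy y' hy' hye hye' hyx hyx'
        exact ⟨fun _ => key y' hy' hye' hyx', fun _ => key y hy hye hyx⟩
      · intro _ _ y hy hye hyx hxy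
        exact e_z_C2 hS h hzP hxP (e_z_priv h4 h hy) hwq hwp hwr hwz (hny x hxe) (hny y hye)
          hzx (key y hy hye hyx) hxy
    · push Not at hex
      refine ⟨z, ?_, fun _ hc => absurd hzexc hc⟩
      intro y hy y' hy' hye hye' _ _
      have e1 : G.Adj z y := hex y hy (by push Not at hye; exact hye)
      have e2 : G.Adj z y' := hex y' hy' (by push Not at hye'; exact hye')
      exact ⟨fun _ => e2, fun _ => e1⟩

end EZ

end Pool.Agent.Helper856.Q8
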