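import Pool.Agent.Helper856.Q8.Defs
import Pool.Agent.Helper856.Q8.EHom
import Pool.Agent.Helper856.Q8.ESpid
import Pool.Agent.Helper856.Q8.EZ

open Classical SimpleGraph

namespace Pool.Agent.Helper856.Q8

open EHom (e_hom)
open ESpid (e_spid)
open EZ (e_z)

namespace EMain

variable {V : Type} {G : SimpleGraph V}

/-- TARGET -/
theorem e_main (m : ℕ) (hF : Fine G (m + 1)) [Fintype V] (q p r : V) (h : ES G q p r) :
    (priv G q p).card ≤ 18 * m + 4 := by
  by_cases h5 : (priv G q p).card ≤ 4
  · omega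
  push Not at h5
  obtain ⟨hS, h4, hPr, _⟩ := id hF
  have hmem : ∀ y, y ∈ priv G q p ↔ G.Adj q y ∧ ¬G.Adj p y ∧ y ≠ p := by
    intro y
    unfold priv
    simp only [Finset.mem_filter, Finset.mem_univ, true_and]
  have hYe := e_spid m hF q p r h (by omega)
  have hx : ∀ z, ∃ x : V, z ∈ (priv G q p).filter (fun y => ∃ w, exc G q p r w y) →
      (∀ y ∈ priv G q p, ∀ y' ∈ priv G q p, (¬∃ w, exc G q p r w y) → (¬∃ w, exc G q p r w y') →
        y ≠ x → y' ≠ x → (G.Adj z y ↔ G.Adj z y')) ∧
      (x ∈ priv G q p → (¬∃ w, exc G q p r w x) → ∀ y ∈ priv G q p, (¬∃ w, exc G q p r w y) →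
        y ≠ x → ¬G.Adj x y) := by
    intro z
    by_cases hz : z ∈ (priv G q p).filter (fun y => ∃ w, exc G q p r w y)
    · obtain ⟨hz1, w, hw⟩ := Finset.mem_filter.mp hz
      obtain ⟨x, hx⟩ := e_z hS h4 q p r h z hz1 w hw
      exact ⟨x, fun _ => hx⟩
    · exact ⟨z, fun hh => absurd hh hz⟩
  choose x hx using hx
  set Ye := (priv G q p).filter (fun y => ∃ w, exc G q p r w y) with hYedef
  set Y1 := (priv G q p).filter (fun y => (¬∃ w, exc G q p r w y) ∧ y ∉ Ye.image x) with hY1def
  have hmod : Md G (Y1 : Set V) := by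
    have key : ∀ v, v ∉ (Y1 : Set V) → ∀ y ∈ (Y1 : Set V), ∀ y' ∈ (Y1 : Set V),
        G.Adj v y → G.Adj v y' := by
      intro v hv y hy y' hy' hadj
      by_contra hnadj
      rw [Finset.mem_coe, hY1def, Finset.mem_filter] at hy hy' hv
      obtain ⟨hyY, hyne, hyX⟩ := hy
      obtain ⟨hyY', hyne', hyX'⟩ := hy'
      have hy1 := (hmem y).mp hyY
      have hy2 := (hmem y').mp hyY'
      by_cases hvp : v = p
      · rw [hvp] at hadj
        exact hy1.2.1 hadj
      by_cases hvq : v = q
      · rw [hvq] at hnadj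
        exact hnadj hy2.1
      by_cases hvr : v = r
      · rw [hvr] at hadj
        rcases h4 y q p r hy1.1.symm h.1 h.2.1 hadj hy1.2.2 h.2.2.2 with h6 | h6
        · exact hy1.2.1 h6.symm
        · exact h.2.2.1 h6
      by_cases hvY : v ∈ priv G q p
      · by_cases hve : ∃ w, exc G q p r w v
        · have hvYe : v ∈ Ye := Finset.mem_filter.mpr ⟨hvY, hve⟩
          have h7 := (hx v hvYe).1 y hyY y' hyY' hyne hyne'
            (fun he => hyX (by rw [he]; exact Finset.mem_image_of_mem x hvYe))
            (fun he => hyX' (by rw [he]; exact Finset.mem_image_of_mem x hvYe))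
          exact hnadj (h7.mp hadj)
        · have hvX : v ∈ Ye.image x := by
            by_contra hcon
            exact hv ⟨hvY, hve, hcon⟩
          obtain ⟨z, hz, hzv⟩ := Finset.mem_image.mp hvX
          have h8 := (hx z hz).2
          rw [hzv] at h8
          refine h8 hvY hve y hyY hyne ?_ hadj
          intro he
          exact hyX (by rw [he]; exact hvX)
      · rcases e_hom hS h4 q p r h v hvY hvp hvq hvr y y' hyY hyY' hadj hnadj with h9 | h9
        · exact hyne ⟨v, h9⟩
        · exact hyne' ⟨v, h9⟩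
    intro v hv y hy y' hy'
    exact ⟨key v hv y hy y' hy', key v hv y' hy' y hy⟩
  have hq : q ∉ (Y1 : Set V) := by
    intro hq
    rw [Finset.mem_coe, hY1def, Finset.mem_filter] at hq
    exact G.loopless.irrefl q ((hmem q).mp hq.1).1
  have hsub : (Y1 : Set V).Subsingleton := by
    rcases hPr _ hmod with h1 | h1
    · exact h1
    · rw [h1] at hq
      exact absurd (Set.mem_univ q) hq
  have hc1 : Y1.card ≤ 1 := Finset.card_le_one.mpr fun a ha b hb => hsub ha hb
  have hcX : (Ye.image x).card ≤ 9 * m := Finset.card_image_le.trans hYe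
  have hcov : priv G q p ⊆ Ye ∪ (Ye.image x ∪ Y1) := by
    intro y hy
    by_cases h1 : ∃ w, exc G q p r w y
    · exact Finset.mem_union_left _ (Finset.mem_filter.mpr ⟨hy, h1⟩)
    · refine Finset.mem_union_right _ ?_
      by_cases h2 : y ∈ Ye.image x
      · exact Finset.mem_union_left _ h2
      · exact Finset.mem_union_right _ (Finset.mem_filter.mpr ⟨hy, h1, h2⟩)
  have hcard := Finset.card_le_card hcov
  have hu1 := Finset.card_union_le Ye (Ye.image x ∪ Y1)
  have hu2 := Finset.card_union_le (Ye.image x) Y1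
  omega

end EMain

end Pool.Agent.Helper856.Q8
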