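import Pool.Agent.Helper856.Q8.Defs

open Classical SimpleGraph

namespace Pool.Agent.Helper856.Q8

open Pool.Agent.Helper856.Lcw (GLin)

namespace GlinTypes

variable {V : Type} {G : SimpleGraph V}

/-- TARGET -/
theorem glin_types {N : ℕ} (p : V → ℕ) (hp : Function.Injective p)
    (h : ∀ t : ℕ, ∃ (α : Type) (_ : Fintype α) (c : V → α), Fintype.card α ≤ N ∧
      ∀ u v, p u < t → p v < t → c u = c v → ∀ w, t ≤ p w → (G.Adj u w ↔ G.Adj v w)) : GLin N G := by
  refine ⟨p, hp, fun t => ?_⟩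
  obtain ⟨α, _, c, hc, h2⟩ := h t
  let e := Fintype.equivFin α
  refine ⟨fun v => Fin.castLE hc (e (c v)), fun u v hu hv huv w hw => ?_⟩
  have h3 : e (c u) = e (c v) := Fin.castLE_injective hc huv
  exact h2 u v hu hv (e.injective h3) w hw

end GlinTypes

end Pool.Agent.Helper856.Q8
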