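import Pool.Agent.Helper856.Q8.Defs

open Classical SimpleGraph

namespace Pool.Agent.Helper856.Q8

namespace KeptF

variable {V : Type} {G : SimpleGraph V}

/-- TARGET -/
theorem kept_leg {P : Finset (Finset (V × V))} {K : Finset (V × V) → Finset (V × V)} (h : Fam G P K)
    (c : Finset (V × V)) (hc : c ∈ P) (x : V × V) (hx : x ∈ K c) : x.1 ∈ kept P K ∧ x.2 ∈ kept P K := by
  have hxc : x ∈ c := (h.2.2 c hc).1 hx
  constructor
  · intro c' hc' y hy hyK
    constructor
    · intro e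
      obtain ⟨h1, h2⟩ := h.2.1 c hc c' hc' x hxc y hy (Or.inl e)
      subst h1 h2
      exact hyK hx
    · intro e
      obtain ⟨h1, h2⟩ := h.2.1 c hc c' hc' x hxc y hy (Or.inr (Or.inl e))
      subst h1 h2
      exact hyK hx
  · intro c' hc' y hy hyK
    constructor
    · intro e
      obtain ⟨h1, h2⟩ := h.2.1 c hc c' hc' x hxc y hy (Or.inr (Or.inr (Or.inl e)))
      subst h1 h2
      exact hyK hx
    · intro e
      obtain ⟨h1, h2⟩ := h.2.1 c hc c' hc' x hxc y hy (Or.inr (Or.inr (Or.inr e)))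
      subst h1 h2
      exact hyK hx

/-- TARGET -/
theorem leg_kept {P : Finset (Finset (V × V))} {K : Finset (V × V) → Finset (V × V)} (h : Fam G P K)
    (c : Finset (V × V)) (hc : c ∈ P) (x : V × V) (hx : x ∈ c) (hk : x.1 ∈ kept P K ∨ x.2 ∈ kept P K) : x ∈ K c := by
  by_contra hxK
  rcases hk with h1 | h1
  · exact (h1 c hc x hx hxK).1 rfl
  · exact (h1 c hc x hx hxK).2 rfl

/-- TARGET -/
theorem not_kept {P : Finset (Finset (V × V))} {K : Finset (V × V) → Finset (V × V)}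
    (v : V) (hv : v ∉ kept P K) : ∃ c ∈ P, ∃ x ∈ c, x ∉ K c ∧ (v = x.1 ∨ v = x.2) := by
  by_contra hcon
  apply hv
  intro c hc x hx hxK
  constructor
  · intro e
    exact hcon ⟨c, hc, x, hx, hxK, Or.inl e⟩
  · intro e
    exact hcon ⟨c, hc, x, hx, hxK, Or.inr e⟩

/-- TARGET -/
theorem avoid {P : Finset (Finset (V × V))} {K : Finset (V × V) → Finset (V × V)} (h : Fam G P K)
    (c : Finset (V × V)) (hc : c ∈ P) (F : Finset V) (hF : F.card ≤ 4) :
    ∃ x ∈ K c, x.1 ∉ F ∧ x.2 ∉ F := by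
  by_contra hcon
  have hall : ∀ x ∈ K c, x.1 ∈ F ∨ x.2 ∈ F := by
    intro x hx
    by_contra h1
    exact hcon ⟨x, hx, fun h2 => h1 (Or.inl h2), fun h2 => h1 (Or.inr h2)⟩
  obtain ⟨hK1, hK2⟩ := h.2.2 c hc
  have hmap : ∀ x ∈ K c, (if x.1 ∈ F then x.1 else x.2) ∈ F := by
    intro x hx
    split_ifs with h1
    · exact h1
    · exact (hall x hx).resolve_left h1
  obtain ⟨x, hx, y, hy, hxy, he⟩ := Finset.exists_ne_map_eq_of_card_lt_of_maps_to (s := K c) (t := F) (by omega)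
    (f := fun x => if x.1 ∈ F then x.1 else x.2) hmap
  apply hxy
  refine (h.2.1 c hc c hc x (hK1 hx) y (hK1 hy) ?_).2
  split_ifs at he with h1 h2 h2
  · exact Or.inl he
  · exact Or.inr (Or.inl he)
  · exact Or.inr (Or.inr (Or.inl he))
  · exact Or.inr (Or.inr (Or.inr he))

end KeptF

end Pool.Agent.Helper856.Q8
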