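import Pool.Agent.Helper856.Q8.Defs
import Pool.Agent.Helper856.Q8.KeptF

open Classical SimpleGraph

namespace Pool.Agent.Helper856.Q8

open KeptF (kept_leg)

namespace SplitC

variable {V : Type} {G : SimpleGraph V}

theorem split_count_ex {P : Finset (Finset (V × V))} {K : Finset (V × V) → Finset (V × V)}
    (h : Fam G P K) (p : V → ℕ) (τ : ℕ) (k : Finset (V × V)) (hk : k ∈ P)
    (hs : Split p τ (K k)) :
    ∃ s o o' : V, p s < τ ∧ τ ≤ p o ∧ τ ≤ p o' ∧ s ∈ kept P K ∧ o ∈ kept P K ∧ o' ∈ kept P K ∧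
      (G.Adj s o ↔ ¬ G.Adj s o') ∧ (∃ x ∈ k, s = x.1 ∨ s = x.2) ∧
      ∀ v, (∀ x ∈ k, v ≠ x.1 ∧ v ≠ x.2) → (G.Adj v o ↔ G.Adj v o') := by
  obtain ⟨h1, h2, h3⟩ := h
  obtain ⟨hsub, hcard⟩ := h3 k hk
  obtain ⟨y, hy, y', hy', hne⟩ := Finset.one_lt_card.mp (by omega : 1 < (K k).card)
  have hpar := h1 k hk y (hsub hy) y' (hsub hy') hne
  obtain ⟨p1, p2, p3, p4, p5, p6, p7, p8, p9, p10, p11, p12⟩ := hpar
  have hky := kept_leg ⟨h1, h2, h3⟩ k hk y hy
  have hky' := kept_leg ⟨h1, h2, h3⟩ k hk y' hy'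
  rcases hs with hs | hs
  · refine ⟨y.1, y.2, y'.2, (hs y hy).1, (hs y hy).2, (hs y' hy').2, hky.1, hky.2, hky'.2, ?_,
      ⟨y, hsub hy, Or.inl rfl⟩, ?_⟩
    · tauto
    · intro v hv
      exact (p12 v (hv y (hsub hy)).1 (hv y (hsub hy)).2 (hv y' (hsub hy')).1
        (hv y' (hsub hy')).2).2
  · refine ⟨y.2, y.1, y'.1, (hs y hy).2, (hs y hy).1, (hs y' hy').1, hky.2, hky.1, hky'.1, ?_,
      ⟨y, hsub hy, Or.inr rfl⟩, ?_⟩
    · rw [G.adj_comm y.2 y.1, G.adj_comm y.2 y'.1]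
      tauto
    · intro v hv
      exact (p12 v (hv y (hsub hy)).1 (hv y (hsub hy)).2 (hv y' (hsub hy')).1
        (hv y' (hsub hy')).2).1

/-- TARGET -/
theorem split_count {t : ℕ} {P : Finset (Finset (V × V))} {K : Finset (V × V) → Finset (V × V)} (h : Fam G P K)
    (p : V → ℕ) (c : ℕ → V → Fin t) (hb : Base G (kept P K) p c) (τ : ℕ) :
    (P.filter (fun k => Split p τ (K k))).card ≤ t := by
  have hex : ∀ k : ↥(P.filter (fun k => Split p τ (K k))), ∃ s o o' : V, p s < τ ∧ τ ≤ p o ∧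
      τ ≤ p o' ∧ s ∈ kept P K ∧ o ∈ kept P K ∧ o' ∈ kept P K ∧
      (G.Adj s o ↔ ¬ G.Adj s o') ∧ (∃ x ∈ k.1, s = x.1 ∨ s = x.2) ∧
      ∀ v, (∀ x ∈ k.1, v ≠ x.1 ∧ v ≠ x.2) → (G.Adj v o ↔ G.Adj v o') := fun k =>
    split_count_ex h p τ k.1 (Finset.mem_filter.mp k.2).1 (Finset.mem_filter.mp k.2).2
  choose s o o' q1 q2 q3 q4 q5 q6 q7 q8 q9 using hex
  have hinj : Function.Injective (fun k : ↥(P.filter (fun k => Split p τ (K k))) => c τ (s k)) := by
    intro k k' hkk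
    by_contra hne
    have hne' : k.1 ≠ k'.1 := fun h' => hne (Subtype.ext h')
    have h1 := hb.2 τ (s k) (q4 k) (s k') (q4 k') (q1 k) (q1 k') hkk (o k) (q5 k) (q2 k)
    have h2 := hb.2 τ (s k) (q4 k) (s k') (q4 k') (q1 k) (q1 k') hkk (o' k) (q6 k) (q3 k)
    have h3 : G.Adj (s k') (o k) ↔ G.Adj (s k') (o' k) := by
      refine q9 k (s k') fun x hx => ?_
      obtain ⟨x', hx', hs'⟩ := q8 k'
      constructor
      · intro he
        apply hne'
        rcases hs' with hs' | hs'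
        · exact (h.2.1 k.1 (Finset.mem_filter.mp k.2).1 k'.1 (Finset.mem_filter.mp k'.2).1 x hx x' hx'
            (Or.inl (he.symm.trans hs'))).1
        · exact (h.2.1 k.1 (Finset.mem_filter.mp k.2).1 k'.1 (Finset.mem_filter.mp k'.2).1 x hx x' hx'
            (Or.inr (Or.inl (he.symm.trans hs')))).1
      · intro he
        apply hne'
        rcases hs' with hs' | hs'
        · exact (h.2.1 k.1 (Finset.mem_filter.mp k.2).1 k'.1 (Finset.mem_filter.mp k'.2).1 x hx x' hx'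
            (Or.inr (Or.inr (Or.inl (he.symm.trans hs'))))).1
        · exact (h.2.1 k.1 (Finset.mem_filter.mp k.2).1 k'.1 (Finset.mem_filter.mp k'.2).1 x hx x' hx'
            (Or.inr (Or.inr (Or.inr (he.symm.trans hs'))))).1
    have h4 := q7 k
    tauto
  have h5 := Fintype.card_le_of_injective _ hinj
  rw [Fintype.card_coe, Fintype.card_fin] at h5
  exact h5

end SplitC

end Pool.Agent.Helper856.Q8
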