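import Pool.Agent.Helper856.Q8.Defs
import Pool.Agent.Helper856.Q8.GlinTypes
import Pool.Agent.Helper856.Q8.SplitC
import Pool.Agent.Helper856.Q8.KeptF

open Classical SimpleGraph

namespace Pool.Agent.Helper856.Q8

open Pool.Agent.Helper856.Lcw (GLin)
open GlinTypes (glin_types)
open SplitC (split_count)
open KeptF (kept_leg)

namespace ExpandFin

variable {V : Type} {G : SimpleGraph V}

theorem expand_fin_ne {P : Finset (Finset (V × V))} {K : Finset (V × V) → Finset (V × V)}
    (h : Fam G P K) {k : Finset (V × V)} (hk : k ∈ P) {x : V × V} (hx : x ∈ k) : x.1 ≠ x.2 := by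
  obtain ⟨hsub, hcard⟩ := h.2.2 k hk
  obtain ⟨y, hy, hne⟩ : ∃ y ∈ K k, y ≠ x := by
    by_contra hc
    push Not at hc
    have h1 : K k ⊆ {x} := fun y hy => Finset.mem_singleton.2 (hc y hy)
    have h2 := Finset.card_le_card h1
    rw [hcard, Finset.card_singleton] at h2
    omega
  exact (h.1 k hk x hx y (hsub hy) hne.symm).1

theorem expand_fin_pair {P : Finset (Finset (V × V))} {K : Finset (V × V) → Finset (V × V)}
    (h : Fam G P K) {k : Finset (V × V)} (hk : k ∈ P) {z y : V × V} (hz : z ∈ k) (hy : y ∈ k)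
    {u : V} (h1 : u ≠ z.1) (h2 : u ≠ z.2) (h3 : u ≠ y.1) (h4 : u ≠ y.2) :
    (G.Adj u z.1 ↔ G.Adj u y.1) ∧ (G.Adj u z.2 ↔ G.Adj u y.2) := by
  by_cases e : z = y
  · subst e
    exact ⟨Iff.rfl, Iff.rfl⟩
  · obtain ⟨_, _, _, _, _, _, _, _, _, _, _, hl⟩ := h.1 k hk z hz y hy e
    exact hl u h1 h2 h3 h4

theorem expand_fin_swap {P : Finset (Finset (V × V))} {K : Finset (V × V) → Finset (V × V)}
    (h : Fam G P K) {k : Finset (V × V)} (hk : k ∈ P) {z y : V × V} (hz : z ∈ k) (hy : y ∈ k)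
    {u : V} (hu : ¬ inC k u) : (G.Adj u z.1 ↔ G.Adj u y.1) ∧ (G.Adj u z.2 ↔ G.Adj u y.2) :=
  expand_fin_pair h hk hz hy (fun e => hu ⟨z, hz, Or.inl e⟩) (fun e => hu ⟨z, hz, Or.inr e⟩)
    (fun e => hu ⟨y, hy, Or.inl e⟩) (fun e => hu ⟨y, hy, Or.inr e⟩)

theorem expand_fin_pos [Fintype V] {P : Finset (Finset (V × V))}
    {K : Finset (V × V) → Finset (V × V)} (h : Fam G P K) (q : V → ℕ)
    (q3 : ∀ v w, q v = q w → v = w ∨ ∃ k ∈ P, inC k v ∧ inC k w)
    (q4 : ∀ k ∈ P, ∀ v w, inC k v → inC k w → q v = q w) :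
    ∃ (p' : V → ℕ) (M : ℕ), 0 < M ∧ Function.Injective p' ∧ (∀ v, p' v / M = q v) ∧
      ∀ k ∈ P, ∀ x ∈ k, p' x.2 = p' x.1 + 1 := by
  let e : V × V ≃ Fin (Fintype.card (V × V)) := Fintype.equivFin (V × V)
  let r : V → ℕ := fun v =>
    if hh : ∃ x : V × V, (∃ k ∈ P, x ∈ k) ∧ v = x.1 then 2 * ((e hh.choose : Fin _) : ℕ)
    else if hh : ∃ x : V × V, (∃ k ∈ P, x ∈ k) ∧ v = x.2 then 2 * ((e hh.choose : Fin _) : ℕ) + 1
    else 0
  have hr1 : ∀ k ∈ P, ∀ x ∈ k, r x.1 = 2 * ((e x : Fin _) : ℕ) := by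
    intro k hk x hx
    have hh : ∃ y : V × V, (∃ k ∈ P, y ∈ k) ∧ x.1 = y.1 := ⟨x, ⟨k, hk, hx⟩, rfl⟩
    have e1 : r x.1 = 2 * ((e hh.choose : Fin _) : ℕ) := dif_pos hh
    obtain ⟨⟨k', hk', hy⟩, hxy⟩ := hh.choose_spec
    have e2 := (h.2.1 k hk k' hk' x hx _ hy (Or.inl hxy)).2
    rw [e1, ← e2]
  have hr2 : ∀ k ∈ P, ∀ x ∈ k, r x.2 = 2 * ((e x : Fin _) : ℕ) + 1 := by
    intro k hk x hx
    have hn : ¬ ∃ y : V × V, (∃ k ∈ P, y ∈ k) ∧ x.2 = y.1 := by
      rintro ⟨y, ⟨k', hk', hy⟩, hxy⟩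
      have e2 := (h.2.1 k hk k' hk' x hx y hy (Or.inr (Or.inr (Or.inl hxy)))).2
      subst e2
      exact expand_fin_ne h hk hx hxy.symm
    have hh : ∃ y : V × V, (∃ k ∈ P, y ∈ k) ∧ x.2 = y.2 := ⟨x, ⟨k, hk, hx⟩, rfl⟩
    have e1 : r x.2 = 2 * ((e hh.choose : Fin _) : ℕ) + 1 := (dif_neg hn).trans (dif_pos hh)
    obtain ⟨⟨k', hk', hy⟩, hxy⟩ := hh.choose_spec
    have e2 := (h.2.1 k hk k' hk' x hx _ hy (Or.inr (Or.inr (Or.inr hxy)))).2
    rw [e1, ← e2]
  have hrM : ∀ v, r v < 2 * Fintype.card (V × V) + 2 := by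
    intro v
    show (if hh : ∃ x : V × V, (∃ k ∈ P, x ∈ k) ∧ v = x.1 then 2 * ((e hh.choose : Fin _) : ℕ)
      else if hh : ∃ x : V × V, (∃ k ∈ P, x ∈ k) ∧ v = x.2 then
        2 * ((e hh.choose : Fin _) : ℕ) + 1
      else 0) < _
    split_ifs with h1 h2
    · have := (e h1.choose).isLt
      omega
    · have := (e h2.choose).isLt
      omega
    · omega
  have hdiv : ∀ v, (q v * (2 * Fintype.card (V × V) + 2) + r v) /
      (2 * Fintype.card (V × V) + 2) = q v := by
    intro v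
    rw [mul_comm, Nat.mul_add_div (by omega), Nat.div_eq_of_lt (hrM v), add_zero]
  refine ⟨fun v => q v * (2 * Fintype.card (V × V) + 2) + r v, 2 * Fintype.card (V × V) + 2,
    by omega, ?_, hdiv, ?_⟩
  · intro u v huv
    simp only [] at huv
    have hq : q u = q v := by rw [← hdiv u, ← hdiv v, huv]
    have hr : r u = r v := by
      rw [hq] at huv
      omega
    rcases q3 u v hq with heq | ⟨k, hk, ⟨x, hx, hxu⟩, ⟨y, hy, hyv⟩⟩
    · exact heq
    · have hexy : ((e x : Fin _) : ℕ) = ((e y : Fin _) : ℕ) → x = y := fun hh =>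
        e.injective (Fin.ext hh)
      rcases hxu with rfl | rfl <;> rcases hyv with rfl | rfl
      · rw [hr1 k hk x hx, hr1 k hk y hy] at hr
        rw [hexy (by omega)]
      · rw [hr1 k hk x hx, hr2 k hk y hy] at hr
        omega
      · rw [hr2 k hk x hx, hr1 k hk y hy] at hr
        omega
      · rw [hr2 k hk x hx, hr2 k hk y hy] at hr
        rw [hexy (by omega)]
  · intro k hk x hx
    show q x.2 * _ + r x.2 = q x.1 * _ + r x.1 + 1
    rw [hr1 k hk x hx, hr2 k hk x hx, q4 k hk x.2 x.1 ⟨x, hx, Or.inr rfl⟩ ⟨x, hx, Or.inl rfl⟩]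
    ring

/-- TARGET -/
theorem expand_fin [Fintype V] {t : ℕ} {P : Finset (Finset (V × V))} {K : Finset (V × V) → Finset (V × V)} (h : Fam G P K)
    (p : V → ℕ) (c : ℕ → V → Fin t) (hb : Base G (kept P K) p c) (q : V → ℕ)
    (q0 : ∀ v, (∀ k ∈ P, ¬inC k v) → q v = p v)
    (q1 : ∀ k ∈ P, ∀ v, inC k v → ∀ τ, q v < τ → (∃ x ∈ K k, p x.1 < τ) ∧ (∃ x ∈ K k, p x.2 < τ))
    (q2 : ∀ k ∈ P, ∀ v, inC k v → ∀ τ, τ ≤ q v → (∀ x ∈ K k, τ ≤ p x.1) ∨ (∀ x ∈ K k, τ ≤ p x.2))
    (q3 : ∀ v w, q v = q w → v = w ∨ ∃ k ∈ P, inC k v ∧ inC k w)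
    (q4 : ∀ k ∈ P, ∀ v w, inC k v → inC k w → q v = q w) :
    GLin (t * 4 ^ t + 4) G := by
  obtain ⟨p', M, hM, hinj, hdiv, hleg⟩ := expand_fin_pos h q q3 q4
  refine glin_types p' hinj ?_
  intro T
  have h1 : ∀ v, p' v < T → q v ≤ T / M := fun v hv => by
    rw [← hdiv]
    exact Nat.div_le_div_right hv.le
  have h2 : ∀ v, T ≤ p' v → T / M ≤ q v := fun v hv => by
    rw [← hdiv]
    exact Nat.div_le_div_right hv
  generalize T / M = Q at h1 h2
  have hrep : ∀ v, ∃ v', q v < Q → (v' ∈ kept P K ∧ p v' < Q ∧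
      ∀ w, (¬ ∃ k ∈ P, inC k v ∧ inC k w) → (G.Adj v w ↔ G.Adj v' w)) := by
    intro v
    by_cases hqv : q v < Q
    swap
    · exact ⟨v, fun hh => absurd hh hqv⟩
    by_cases hno : ∀ k ∈ P, ¬ inC k v
    · refine ⟨v, fun _ => ⟨?_, by rw [← q0 v hno]; exact hqv, fun w _ => Iff.rfl⟩⟩
      intro k hk x hx _
      exact ⟨fun e => hno k hk ⟨x, hx, Or.inl e⟩, fun e => hno k hk ⟨x, hx, Or.inr e⟩⟩
    · push Not at hno
      obtain ⟨k, hk, hkv⟩ := hno
      obtain ⟨⟨y1, hy1, hp1⟩, ⟨y2, hy2, hp2⟩⟩ := q1 k hk v hkv Q hqv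
      have hsub := (h.2.2 k hk).1
      obtain ⟨x, hx, hxv⟩ := id hkv
      rcases hxv with rfl | rfl
      · refine ⟨y1.1, fun _ => ⟨(kept_leg h k hk y1 hy1).1, hp1, fun w hw => ?_⟩⟩
        have hwk : ¬ inC k w := fun hh => hw ⟨k, hk, hkv, hh⟩
        rw [G.adj_comm x.1 w, G.adj_comm y1.1 w]
        exact (expand_fin_swap h hk hx (hsub hy1) hwk).1
      · refine ⟨y2.2, fun _ => ⟨(kept_leg h k hk y2 hy2).2, hp2, fun w hw => ?_⟩⟩
        have hwk : ¬ inC k w := fun hh => hw ⟨k, hk, hkv, hh⟩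
        rw [G.adj_comm x.2 w, G.adj_comm y2.2 w]
        exact (expand_fin_swap h hk hx (hsub hy2) hwk).2
  choose rep hrep using hrep
  let F := P.filter (fun k => Split p Q (K k))
  have hFt : F.card ≤ t := split_count h p c hb Q
  have hFP : ∀ k ∈ F, k ∈ P := fun k hk => (Finset.mem_filter.1 hk).1
  have hyk : ∀ k : {k // k ∈ F}, ∃ y, y ∈ K k.1 := by
    intro k
    have := (h.2.2 k.1 (hFP k.1 k.2)).2
    exact Finset.card_pos.1 (by omega)
  choose yk hyk using hyk
  let col : V → (Fin t × ({k // k ∈ F} → Bool × Bool)) ⊕ Fin 4 := fun v =>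
    if q v < Q then Sum.inl (c Q (rep v),
      fun k => (decide (G.Adj v (yk k).1), decide (G.Adj v (yk k).2)))
    else if ∀ k ∈ P, ¬ inC k v then Sum.inr 0
    else if ∃ k ∈ P, ∃ x ∈ k, v = x.2 then Sum.inr 2
    else if ∃ k ∈ P, ∃ x ∈ k, v = x.1 ∧ p' x.2 < T then Sum.inr 1
    else Sum.inr 3
  have hcol1 : ∀ v, q v < Q → col v = Sum.inl (c Q (rep v),
      fun k => (decide (G.Adj v (yk k).1), decide (G.Adj v (yk k).2))) := fun v hv => if_pos hv
  have hcolr : ∀ v, ¬ q v < Q → ∃ i, col v = Sum.inr i := by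
    intro v hv
    show ∃ i, (if q v < Q then _ else _) = _
    rw [if_neg hv]
    split_ifs
    · exact ⟨_, rfl⟩
    · exact ⟨_, rfl⟩
    · exact ⟨_, rfl⟩
    · exact ⟨_, rfl⟩
  have hin : ∀ k ∈ P, ∀ v, inC k v → ¬ ∀ k ∈ P, ¬ inC k v := fun k hk v hv hh => hh k hk hv
  have hcb2 : ∀ k ∈ P, ∀ x ∈ k, ¬ q x.2 < Q → col x.2 = Sum.inr 2 := by
    intro k hk x hx hq
    show (if q x.2 < Q then _ else _) = _
    rw [if_neg hq, if_neg (hin k hk x.2 ⟨x, hx, Or.inr rfl⟩), if_pos ⟨k, hk, x, hx, rfl⟩]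
  have hne12 : ∀ k ∈ P, ∀ x ∈ k, ¬ ∃ k' ∈ P, ∃ y ∈ k', x.1 = y.2 := by
    rintro k hk x hx ⟨k', hk', y, hy, hxy⟩
    have e2 := (h.2.1 k hk k' hk' x hx y hy (Or.inr (Or.inl hxy))).2
    subst e2
    exact expand_fin_ne h hk hx hxy
  have hcb1 : ∀ k ∈ P, ∀ x ∈ k, ¬ q x.1 < Q → p' x.2 < T → col x.1 = Sum.inr 1 := by
    intro k hk x hx hq hT
    show (if q x.1 < Q then _ else _) = _
    rw [if_neg hq, if_neg (hin k hk x.1 ⟨x, hx, Or.inl rfl⟩), if_neg (hne12 k hk x hx),
      if_pos ⟨k, hk, x, hx, rfl, hT⟩]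
  have hcb3 : ∀ k ∈ P, ∀ x ∈ k, ¬ q x.1 < Q → ¬ p' x.2 < T → col x.1 = Sum.inr 3 := by
    intro k hk x hx hq hT
    show (if q x.1 < Q then _ else _) = _
    rw [if_neg hq, if_neg (hin k hk x.1 ⟨x, hx, Or.inl rfl⟩), if_neg (hne12 k hk x hx),
      if_neg]
    rintro ⟨k', hk', y, hy, hxy, hyT⟩
    have e2 := (h.2.1 k hk k' hk' x hx y hy (Or.inl hxy)).2
    subst e2
    exact hT hyT
  refine ⟨(Fin t × ({k // k ∈ F} → Bool × Bool)) ⊕ Fin 4, inferInstance, col, ?_, ?_⟩
  · rw [Fintype.card_sum, Fintype.card_prod, Fintype.card_fin, Fintype.card_fin,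
      Fintype.card_fun, Fintype.card_prod, Fintype.card_bool, Fintype.card_coe]
    have h5 : (2 * 2) ^ F.card ≤ 4 ^ t := Nat.pow_le_pow_right (by norm_num) hFt
    have h6 := Nat.mul_le_mul_left t h5
    omega
  · intro u v hu hv huv w hw
    by_cases hqu : q u < Q
    · by_cases hqv : q v < Q
      · rw [hcol1 u hqu, hcol1 v hqv] at huv
        have huv' := Sum.inl.inj huv
        have hc1 : c Q (rep u) = c Q (rep v) := congrArg Prod.fst huv'
        have hc2 := congrArg Prod.snd huv'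
        simp only [] at hc2
        have key : ∀ s, s ∈ kept P K → Q ≤ p s → (¬ ∃ k ∈ P, inC k u ∧ inC k s) →
            (¬ ∃ k ∈ P, inC k v ∧ inC k s) → (G.Adj u s ↔ G.Adj v s) := by
          intro s hs hps hus hvs
          rw [(hrep u hqu).2.2 s hus, (hrep v hqv).2.2 s hvs]
          exact hb.2 Q (rep u) (hrep u hqu).1 (rep v) (hrep v hqv).1 (hrep u hqu).2.1
            (hrep v hqv).2.1 hc1 s hs hps
        by_cases hw0 : ∀ k ∈ P, ¬ inC k w
        · refine key w ?_ ?_ (fun ⟨k, hk, _, hh⟩ => hw0 k hk hh)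
            (fun ⟨k, hk, _, hh⟩ => hw0 k hk hh)
          · intro k hk x hx _
            exact ⟨fun e => hw0 k hk ⟨x, hx, Or.inl e⟩, fun e => hw0 k hk ⟨x, hx, Or.inr e⟩⟩
          · rw [← q0 w hw0]
            exact h2 w hw
        · push Not at hw0
          obtain ⟨k, hk, hkw⟩ := hw0
          have hku : ¬ inC k u := fun hh => by
            have e1 := q4 k hk u w hh hkw
            have e2 := h2 w hw
            omega
          have hkv : ¬ inC k v := fun hh => by
            have e1 := q4 k hk v w hh hkw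
            have e2 := h2 w hw
            omega
          have hsub := (h.2.2 k hk).1
          have hKne : ∃ y, y ∈ K k := by
            have := (h.2.2 k hk).2
            exact Finset.card_pos.1 (by omega)
          obtain ⟨y0, hy0⟩ := hKne
          have hsc1 : ∀ y ∈ k, ∀ u', ¬ inC k u' → ¬ ∃ k' ∈ P, inC k' u' ∧ inC k' y.1 := by
            rintro y hy u' hu' ⟨k', hk', hku', x', hx', hxy⟩
            rcases hxy with hxy | hxy
            · have e2 := (h.2.1 k hk k' hk' y hy x' hx' (Or.inl hxy)).1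
              subst e2
              exact hu' hku'
            · have e2 := (h.2.1 k hk k' hk' y hy x' hx' (Or.inr (Or.inl hxy))).1
              subst e2
              exact hu' hku'
          have hsc2 : ∀ y ∈ k, ∀ u', ¬ inC k u' → ¬ ∃ k' ∈ P, inC k' u' ∧ inC k' y.2 := by
            rintro y hy u' hu' ⟨k', hk', hku', x', hx', hxy⟩
            rcases hxy with hxy | hxy
            · have e2 := (h.2.1 k hk k' hk' y hy x' hx' (Or.inr (Or.inr (Or.inl hxy)))).1
              subst e2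
              exact hu' hku'
            · have e2 := (h.2.1 k hk k' hk' y hy x' hx' (Or.inr (Or.inr (Or.inr hxy)))).1
              subst e2
              exact hu' hku'
          have hq2 := q2 k hk w hkw Q (h2 w hw)
          obtain ⟨z, hz, hzw⟩ := hkw
          rcases hzw with rfl | rfl
          · by_cases hex : ∃ y ∈ K k, Q ≤ p y.1
            · obtain ⟨y, hy, hyp⟩ := hex
              rw [(expand_fin_swap h hk hz (hsub hy) hku).1,
                (expand_fin_swap h hk hz (hsub hy) hkv).1]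
              exact key y.1 (kept_leg h k hk y hy).1 hyp (hsc1 y (hsub hy) u hku)
                (hsc1 y (hsub hy) v hkv)
            · push Not at hex
              rcases hq2 with h5 | h5
              · exact absurd (h5 y0 hy0) (not_le.2 (hex y0 hy0))
              · have hkF : k ∈ F := Finset.mem_filter.2 ⟨hk, Or.inl fun x hx =>
                  ⟨hex x hx, h5 x hx⟩⟩
                have h6 := congrArg Prod.fst (congrFun hc2 ⟨k, hkF⟩)
                simp only [decide_eq_decide] at h6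
                have hyk' : yk ⟨k, hkF⟩ ∈ k := hsub (hyk ⟨k, hkF⟩)
                rw [(expand_fin_swap h hk hz hyk' hku).1,
                  (expand_fin_swap h hk hz hyk' hkv).1]
                exact h6
          · by_cases hex : ∃ y ∈ K k, Q ≤ p y.2
            · obtain ⟨y, hy, hyp⟩ := hex
              rw [(expand_fin_swap h hk hz (hsub hy) hku).2,
                (expand_fin_swap h hk hz (hsub hy) hkv).2]
              exact key y.2 (kept_leg h k hk y hy).2 hyp (hsc2 y (hsub hy) u hku)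
                (hsc2 y (hsub hy) v hkv)
            · push Not at hex
              rcases hq2 with h5 | h5
              · have hkF : k ∈ F := Finset.mem_filter.2 ⟨hk, Or.inr fun x hx =>
                  ⟨h5 x hx, hex x hx⟩⟩
                have h6 := congrArg Prod.snd (congrFun hc2 ⟨k, hkF⟩)
                simp only [decide_eq_decide] at h6
                have hyk' : yk ⟨k, hkF⟩ ∈ k := hsub (hyk ⟨k, hkF⟩)
                rw [(expand_fin_swap h hk hz hyk' hku).2,
                  (expand_fin_swap h hk hz hyk' hkv).2]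
                exact h6
              · exact absurd (h5 y0 hy0) (not_le.2 (hex y0 hy0))
      · obtain ⟨i, hi⟩ := hcolr v hqv
        rw [hcol1 u hqu, hi] at huv
        exact absurd huv (by simp)
    · by_cases hqv : q v < Q
      · obtain ⟨i, hi⟩ := hcolr u hqu
        rw [hcol1 v hqv, hi] at huv
        exact absurd huv (by simp)
      · have hq : q u = q v := by
          have e1 := h1 u hu
          have e2 := h1 v hv
          omega
        rcases q3 u v hq with rfl | ⟨k, hk, ⟨x, hx, hxu⟩, ⟨y, hy, hyv⟩⟩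
        · exact Iff.rfl
        · have hpw : ∀ s, p' s < T → w ≠ s := fun s hs e => by
            rw [e] at hw
            omega
          have hx12 := hleg k hk x hx
          have hy12 := hleg k hk y hy
          rcases hxu with rfl | rfl <;> rcases hyv with rfl | rfl
          · by_cases hxT : p' x.2 < T
            · by_cases hyT : p' y.2 < T
              · have h7 := (expand_fin_pair h hk hx hy (hpw _ hu) (hpw _ hxT) (hpw _ hv)
                  (hpw _ hyT)).1
                rw [G.adj_comm x.1 w, G.adj_comm y.1 w]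
                exact h7
              · rw [hcb1 k hk x hx hqu hxT, hcb3 k hk y hy hqv hyT] at huv
                exact absurd (Sum.inr.inj huv) (by decide)
            · by_cases hyT : p' y.2 < T
              · rw [hcb3 k hk x hx hqu hxT, hcb1 k hk y hy hqv hyT] at huv
                exact absurd (Sum.inr.inj huv) (by decide)
              · have h8 : p' x.1 = p' y.1 := by omega
                rw [hinj h8]
          · exfalso
            rw [hcb2 k hk y hy hqv] at huv
            by_cases hxT : p' x.2 < T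
            · rw [hcb1 k hk x hx hqu hxT] at huv
              exact absurd (Sum.inr.inj huv) (by decide)
            · rw [hcb3 k hk x hx hqu hxT] at huv
              exact absurd (Sum.inr.inj huv) (by decide)
          · exfalso
            rw [hcb2 k hk x hx hqu] at huv
            by_cases hyT : p' y.2 < T
            · rw [hcb1 k hk y hy hqv hyT] at huv
              exact absurd (Sum.inr.inj huv) (by decide)
            · rw [hcb3 k hk y hy hqv hyT] at huv
              exact absurd (Sum.inr.inj huv) (by decide)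
          · have h7 := (expand_fin_pair h hk hx hy (hpw x.1 (by omega)) (hpw _ hu)
              (hpw y.1 (by omega)) (hpw _ hv)).2
            rw [G.adj_comm x.2 w, G.adj_comm y.2 w]
            exact h7

end ExpandFin

end Pool.Agent.Helper856.Q8
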