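import Pool.Agent.Helper856.Q8.Defs

open Classical SimpleGraph

namespace Pool.Agent.Helper856.Q8

open Pool.Agent.Helper856.Lcw (GLin)

namespace GlinSmall

variable {V : Type} {G : SimpleGraph V}

/-- TARGET -/
theorem glin_small {k : ℕ} [Fintype V] (h : Fintype.card V ≤ k) : GLin k G := by
  refine ⟨fun v => (Fintype.equivFin V v).val, fun u v huv => ?_, fun t =>
    ⟨fun v => Fin.castLE h (Fintype.equivFin V v), ?_⟩⟩
  · exact (Fintype.equivFin V).injective (Fin.ext huv)
  · intro u v _ _ huv w _
    have h1 : (Fintype.equivFin V u) = (Fintype.equivFin V v) := by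
      have := congrArg Fin.val huv
      exact Fin.ext this
    rw [(Fintype.equivFin V).injective h1]

/-- TARGET -/
theorem glin_mono {k l : ℕ} (h : GLin k G) (hkl : k ≤ l) : GLin l G := by
  obtain ⟨p, hp, h⟩ := h
  refine ⟨p, hp, fun t => ?_⟩
  obtain ⟨c, hc⟩ := h t
  refine ⟨fun v => Fin.castLE hkl (c v), ?_⟩
  intro u v hu hv huv w hw
  apply hc u v hu hv _ w hw
  have := congrArg Fin.val huv
  exact Fin.ext this

end GlinSmall

end Pool.Agent.Helper856.Q8
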