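import Pool.Agent.Helper856.Q8.Defs
import Pool.Agent.Helper856.Q8.KeptF

open Classical SimpleGraph

namespace Pool.Agent.Helper856.Q8

open KeptF (kept_leg)

namespace Slot

variable {V : Type} {G : SimpleGraph V}

/-- TARGET -/
theorem slot {t : ℕ} {P : Finset (Finset (V × V))} {K : Finset (V × V) → Finset (V × V)} (h : Fam G P K)
    (p : V → ℕ) (c : ℕ → V → Fin t) (hb : Base G (kept P K) p c) :
    ∃ q : V → ℕ, (∀ v, (∀ k ∈ P, ¬inC k v) → q v = p v) ∧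
      (∀ k ∈ P, ∀ v, inC k v → ∀ τ, q v < τ → (∃ x ∈ K k, p x.1 < τ) ∧ (∃ x ∈ K k, p x.2 < τ)) ∧
      (∀ k ∈ P, ∀ v, inC k v → ∀ τ, τ ≤ q v → (∀ x ∈ K k, τ ≤ p x.1) ∨ (∀ x ∈ K k, τ ≤ p x.2)) ∧
      (∀ v w, q v = q w → v = w ∨ ∃ k ∈ P, inC k v ∧ inC k w) ∧
      (∀ k ∈ P, ∀ v w, inC k v → inC k w → q v = q w) := by
  have hex : ∀ k ∈ P, ∃ Qk : ℕ, (∃ x ∈ K k, p x.1 ≤ Qk) ∧ (∃ x ∈ K k, p x.2 ≤ Qk) ∧
      ((∀ x ∈ K k, Qk ≤ p x.1) ∨ (∀ x ∈ K k, Qk ≤ p x.2)) ∧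
      ∃ z, z ∈ kept P K ∧ inC k z ∧ Qk = p z := by
    intro k hk
    have hne : (K k).Nonempty := by
      rw [← Finset.card_pos, (h.2.2 k hk).2]
      norm_num
    obtain ⟨m1, hm1, hmin1⟩ := Finset.exists_min_image (K k) (fun x => p x.1) hne
    obtain ⟨m2, hm2, hmin2⟩ := Finset.exists_min_image (K k) (fun x => p x.2) hne
    rcases le_total (p m1.1) (p m2.2) with hle | hle
    · exact ⟨p m2.2, ⟨m1, hm1, hle⟩, ⟨m2, hm2, le_rfl⟩, Or.inr hmin2, m2.2,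
        (kept_leg h k hk m2 hm2).2, ⟨m2, (h.2.2 k hk).1 hm2, Or.inr rfl⟩, rfl⟩
    · exact ⟨p m1.1, ⟨m1, hm1, le_rfl⟩, ⟨m2, hm2, hle⟩, Or.inl hmin1, m1.1,
        (kept_leg h k hk m1 hm1).1, ⟨m1, (h.2.2 k hk).1 hm1, Or.inl rfl⟩, rfl⟩
  choose! Q hQ1 hQ2 hQ3 z hz1 hz2 hz3 using hex
  have huniq : ∀ k ∈ P, ∀ k' ∈ P, ∀ v, inC k v → inC k' v → k = k' := by
    rintro k hk k' hk' v ⟨x, hx, hvx⟩ ⟨y, hy, hvy⟩
    refine (h.2.1 k hk k' hk' x hx y hy ?_).1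
    rcases hvx with h1 | h1 <;> rcases hvy with h2 | h2
    · exact Or.inl (h1.symm.trans h2)
    · exact Or.inr (Or.inl (h1.symm.trans h2))
    · exact Or.inr (Or.inr (Or.inl (h1.symm.trans h2)))
    · exact Or.inr (Or.inr (Or.inr (h1.symm.trans h2)))
  obtain ⟨q, hq0, hq1⟩ : ∃ q : V → ℕ, (∀ v, (∀ k ∈ P, ¬inC k v) → q v = p v) ∧
      ∀ k ∈ P, ∀ v, inC k v → q v = Q k := by
    refine ⟨fun v => if h : ∃ k ∈ P, inC k v then Q h.choose else p v, ?_, ?_⟩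
    · intro v hv
      have : ¬ ∃ k ∈ P, inC k v := by
        rintro ⟨k, hk, hkv⟩
        exact hv k hk hkv
      show (if h : ∃ k ∈ P, inC k v then Q h.choose else p v) = p v
      rw [dif_neg this]
    · intro k hk v hkv
      have hx : ∃ k ∈ P, inC k v := ⟨k, hk, hkv⟩
      show (if h : ∃ k ∈ P, inC k v then Q h.choose else p v) = Q k
      rw [dif_pos hx, huniq _ hx.choose_spec.1 k hk v hx.choose_spec.2 hkv]
  have hkept : ∀ v, (∀ k ∈ P, ¬inC k v) → v ∈ kept P K := by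
    intro v hv c hc x hx _
    exact ⟨fun h1 => hv c hc ⟨x, hx, Or.inl h1⟩, fun h1 => hv c hc ⟨x, hx, Or.inr h1⟩⟩
  refine ⟨q, hq0, ?_, ?_, ?_, ?_⟩
  · intro k hk v hkv τ hτ
    rw [hq1 k hk v hkv] at hτ
    obtain ⟨x, hx, hx'⟩ := hQ1 k hk
    obtain ⟨y, hy, hy'⟩ := hQ2 k hk
    exact ⟨⟨x, hx, lt_of_le_of_lt hx' hτ⟩, ⟨y, hy, lt_of_le_of_lt hy' hτ⟩⟩
  · intro k hk v hkv τ hτ
    rw [hq1 k hk v hkv] at hτ
    rcases hQ3 k hk with h1 | h1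
    · exact Or.inl fun x hx => hτ.trans (h1 x hx)
    · exact Or.inr fun x hx => hτ.trans (h1 x hx)
  · intro v w hvw
    by_cases hv : ∀ k ∈ P, ¬inC k v
    · by_cases hw : ∀ k ∈ P, ¬inC k w
      · left
        rw [hq0 v hv, hq0 w hw] at hvw
        exact hb.1 (hkept v hv) (hkept w hw) hvw
      · push Not at hw
        obtain ⟨k, hk, hkw⟩ := hw
        rw [hq0 v hv, hq1 k hk w hkw, hz3 k hk] at hvw
        have := hb.1 (hkept v hv) (hz1 k hk) hvw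
        exact absurd (this ▸ hz2 k hk) (hv k hk)
    · push Not at hv
      obtain ⟨k, hk, hkv⟩ := hv
      by_cases hw : ∀ k ∈ P, ¬inC k w
      · rw [hq0 w hw, hq1 k hk v hkv, hz3 k hk] at hvw
        have := hb.1 (hz1 k hk) (hkept w hw) hvw
        exact absurd (this ▸ hz2 k hk) (hw k hk)
      · push Not at hw
        obtain ⟨k', hk', hkw⟩ := hw
        right
        rw [hq1 k hk v hkv, hq1 k' hk' w hkw, hz3 k hk, hz3 k' hk'] at hvw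
        have hzz := hb.1 (hz1 k hk) (hz1 k' hk') hvw
        have hkk : k = k' := huniq k hk k' hk' _ (hz2 k hk) (by rw [hzz]; exact hz2 k' hk')
        exact ⟨k, hk, hkv, by rw [hkk]; exact hkw⟩
  · intro k hk v w hkv hkw
    rw [hq1 k hk v hkv, hq1 k hk w hkw]

end Slot

end Pool.Agent.Helper856.Q8
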