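import Pool.Agent.Helper856.Q8.Defs
import Pool.Agent.Helper856.Q8.BaseEx
import Pool.Agent.Helper856.Q8.Slot
import Pool.Agent.Helper856.Q8.ExpandFin
import Pool.Agent.Helper856.Q8.GlinSmall

open Classical SimpleGraph

namespace Pool.Agent.Helper856.Q8

open Pool.Agent.Helper856.Lcw (GLin)
open BaseEx (base_ex)
open Slot (slot)
open ExpandFin (expand_fin)
open GlinSmall (glin_small glin_mono)

namespace Expand

variable {V : Type} {G : SimpleGraph V}

/-- TARGET -/
theorem expand [Fintype V] {t : ℕ} {P : Finset (Finset (V × V))} {K : Finset (V × V) → Finset (V × V)} (h : Fam G P K)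
    (hg : GLin t (G.induce (kept P K))) : GLin (t * 4 ^ t + 4) G := by
  by_cases hne : (kept P K).Nonempty
  · obtain ⟨p, c, hb⟩ := base_ex (kept P K) hne hg
    obtain ⟨q, q0, q1, q2, q3, q4⟩ := slot h p c hb
    exact expand_fin h p c hb q q0 q1 q2 q3 q4
  · apply glin_small
    have hV : IsEmpty V := by
      refine ⟨fun v => hne ?_⟩
      by_cases hP : P.Nonempty
      · obtain ⟨c, hc⟩ := hP
        obtain ⟨hK, hcard⟩ := h.2.2 c hc
        have hKn : (K c).Nonempty := by
          rw [← Finset.card_pos, hcard]
          norm_num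
        obtain ⟨x, hx⟩ := hKn
        refine ⟨x.1, ?_⟩
        intro c' hc' y hy hyK
        constructor
        · intro he
          obtain ⟨hcc, hxy⟩ := h.2.1 c hc c' hc' x (hK hx) y hy (Or.inl he)
          apply hyK
          rw [← hxy, ← hcc]
          exact hx
        · intro he
          obtain ⟨hcc, hxy⟩ := h.2.1 c hc c' hc' x (hK hx) y hy (Or.inr (Or.inl he))
          apply hyK
          rw [← hxy, ← hcc]
          exact hx
      · refine ⟨v, ?_⟩
        intro c hc
        exact absurd ⟨c, hc⟩ hP
    rw [Fintype.card_eq_zero]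
    exact Nat.zero_le _

end Expand

end Pool.Agent.Helper856.Q8
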