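import Pool.Agent.Helper856.Q8.Defs

open Classical SimpleGraph

namespace Pool.Agent.Helper856.Q8

namespace Greedy

variable {V : Type} {G : SimpleGraph V}

/-- TARGET -/
theorem greedy {α : Type} (Y : Finset α) (R : α → α → Prop) (D : ℕ)
    (h : ∀ y ∈ Y, (Y.filter (fun a => a ≠ y ∧ (R y a ∨ R a y))).card ≤ D) :
    ∃ I ⊆ Y, Y.card ≤ (D + 1) * I.card ∧ ∀ a ∈ I, ∀ b ∈ I, a ≠ b → ¬R a b := by
  induction Y using Finset.strongInduction with
  | H Y ih =>
    rcases Y.eq_empty_or_nonempty with he | ⟨y, hy⟩
    · refine ⟨∅, Finset.empty_subset _, ?_, ?_⟩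
      · rw [he]
        simp
      · intro a ha
        exact absurd ha (Finset.notMem_empty a)
    · obtain ⟨B, hB⟩ : ∃ B, B = Y.filter (fun a => a ≠ y ∧ (R y a ∨ R a y)) := ⟨_, rfl⟩
      have hBc : B.card ≤ D := by
        rw [hB]
        exact h y hy
      have hsub : (Y.erase y) \ B ⊆ Y := fun a ha =>
        Finset.mem_of_mem_erase (Finset.mem_sdiff.mp ha).1
      have hssub : (Y.erase y) \ B ⊂ Y := by
        refine ⟨hsub, ?_⟩
        intro hcon
        have := hcon hy
        simp at this
      obtain ⟨I, hI, hcard, hind⟩ := ih _ hssub (by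
        intro z hz
        refine le_trans (Finset.card_le_card ?_) (h z (hsub hz))
        exact Finset.filter_subset_filter _ hsub)
      have hyI : y ∉ I := by
        intro hyI
        have := hI hyI
        simp at this
      refine ⟨insert y I, ?_, ?_, ?_⟩
      · intro a ha
        rcases Finset.mem_insert.mp ha with rfl | ha
        · exact hy
        · exact hsub (hI ha)
      · rw [Finset.card_insert_of_notMem hyI]
        have h1 : (Y.erase y).card ≤ ((Y.erase y) \ B).card + B.card := by
          have := Finset.card_le_card_sdiff_add_card (s := Y.erase y) (t := B)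
          exact this
        have h2 : (Y.erase y).card + 1 = Y.card := Finset.card_erase_add_one hy
        nlinarith
      · have hyr : ∀ b ∈ I, ¬ (R y b ∨ R b y) := by
          intro b hb hr
          have hb' := Finset.mem_sdiff.mp (hI hb)
          apply hb'.2
          rw [hB]
          exact Finset.mem_filter.mpr ⟨Finset.mem_of_mem_erase hb'.1,
            Finset.ne_of_mem_erase hb'.1, hr⟩
        intro a ha b hb hab
        rcases Finset.mem_insert.mp ha with ha1 | ha1
        · rcases Finset.mem_insert.mp hb with hb1 | hb1
          · exact absurd (ha1.trans hb1.symm) hab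
          · rw [ha1]
            exact fun hr => hyr b hb1 (Or.inl hr)
        · rcases Finset.mem_insert.mp hb with hb1 | hb1
          · rw [hb1]
            exact fun hr => hyr a ha1 (Or.inr hr)
          · exact hind a ha1 b hb1 hab

end Greedy

end Pool.Agent.Helper856.Q8
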