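import Pool.Agent.Helper856.Q8.Defs
import Pool.Agent.Helper856.Q8.Greedy

open Classical SimpleGraph

namespace Pool.Agent.Helper856.Q8

open Greedy (greedy)

namespace F1Bound

variable {V : Type} {G : SimpleGraph V}

theorem f1_bound (m c1 K : ℕ) [Fintype V] (h4 : NC4 G) (hSF : SF G (m + 1)) (hE : PL G c1)
    (hK : ∀ x t, ¬G.Adj x t → x ≠ t → ((F1 G x).filter (fun f => G.Adj t f)).card ≤ K) (x : V) :
    (F1 G x).card ≤ m * (c1 + K + c1 * K + 1) := by
  have hch : ∀ f : V, ∃ t : V, f ∈ F1 G x → t ∈ priv G f x := by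
    intro f
    by_cases hf : f ∈ F1 G x
    · obtain ⟨t, ht⟩ := (Finset.mem_filter.1 hf).2.2.1
      exact ⟨t, fun _ => ht⟩
    · exact ⟨f, fun h => absurd h hf⟩
  choose t ht using hch
  have hmp : ∀ q p y, y ∈ priv G q p ↔ (G.Adj q y ∧ ¬G.Adj p y ∧ y ≠ p) := by
    intro q p y
    unfold priv
    rw [Finset.mem_filter]
    exact ⟨fun h => h.2, fun h => ⟨Finset.mem_univ _, h⟩⟩
  have hmF : ∀ f, f ∈ F1 G x ↔ (G.Adj x f ∧ (priv G f x).Nonempty ∧ (priv G x f).Nonempty) := by
    intro f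
    unfold F1
    rw [Finset.mem_filter]
    exact ⟨fun h => h.2, fun h => ⟨Finset.mem_univ _, h⟩⟩
  have ht' : ∀ f ∈ F1 G x, G.Adj f (t f) ∧ ¬ G.Adj x (t f) ∧ t f ≠ x := by
    intro f hf
    exact (hmp _ _ _).1 (ht f hf)
  have hc : ∀ y ∈ F1 G x, ((F1 G x).filter (fun a => a ≠ y ∧
      ((¬G.Adj y a ∨ G.Adj (t y) a) ∨ (¬G.Adj a y ∨ G.Adj (t a) y)))).card ≤ c1 + K + c1 * K := by
    intro y hy
    obtain ⟨y1, y2, y3⟩ := ht' y hy
    obtain ⟨hxy, hn1, hn2⟩ := (hmF y).1 hy
    have b1 : (priv G x y).card ≤ c1 := hE x y (t y) ⟨hxy, y1, y2, fun h => y3 h.symm⟩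
    have b2 : (priv G y x).card ≤ c1 := by
      obtain ⟨r, hr⟩ := hn2
      obtain ⟨r1, r2, r3⟩ := (hmp _ _ _).1 hr
      exact hE y x r ⟨hxy.symm, r1, r2, fun h => r3 h.symm⟩
    have b3 : ((F1 G x).filter (fun f => G.Adj (t y) f)).card ≤ K :=
      hK x (t y) y2 (fun h => y3 h.symm)
    have b4 : ((priv G y x).biUnion (fun t0 => (F1 G x).filter (fun f => G.Adj t0 f))).card ≤
        (priv G y x).card * K := by
      apply Finset.card_biUnion_le_card_mul
      intro t0 ht0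
      obtain ⟨u1, u2, u3⟩ := (hmp _ _ _).1 ht0
      exact hK x t0 u2 (fun h => u3 h.symm)
    have hsub : ((F1 G x).filter (fun a => a ≠ y ∧
      ((¬G.Adj y a ∨ G.Adj (t y) a) ∨ (¬G.Adj a y ∨ G.Adj (t a) y)))) ⊆
        (priv G x y ∪ (F1 G x).filter (fun f => G.Adj (t y) f)) ∪
          (priv G y x).biUnion (fun t0 => (F1 G x).filter (fun f => G.Adj t0 f)) := by
      intro a ha
      obtain ⟨haF, hay, hR⟩ := Finset.mem_filter.1 ha
      have hxa := ((hmF a).1 haF).1
      obtain ⟨a1, a2, a3⟩ := ht' a haF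
      rw [Finset.mem_union, Finset.mem_union]
      have case1 : ¬ G.Adj y a → a ∈ priv G x y := fun h => (hmp _ _ _).2 ⟨hxa, h, hay⟩
      rcases hR with (h | h) | (h | h)
      · exact Or.inl (Or.inl (case1 h))
      · exact Or.inl (Or.inr (Finset.mem_filter.2 ⟨haF, h⟩))
      · exact Or.inl (Or.inl (case1 (fun h' => h h'.symm)))
      · refine Or.inr (Finset.mem_biUnion.2 ⟨t a, (hmp _ _ _).2 ⟨h.symm, a2, a3⟩, ?_⟩)
        exact Finset.mem_filter.2 ⟨haF, a1.symm⟩
    calc _ ≤ _ := Finset.card_le_card hsub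
      _ ≤ (priv G x y ∪ (F1 G x).filter (fun f => G.Adj (t y) f)).card +
          ((priv G y x).biUnion (fun t0 => (F1 G x).filter (fun f => G.Adj t0 f))).card :=
          Finset.card_union_le _ _
      _ ≤ ((priv G x y).card + ((F1 G x).filter (fun f => G.Adj (t y) f)).card) +
          (priv G y x).card * K := Nat.add_le_add (Finset.card_union_le _ _) b4
      _ ≤ c1 + K + c1 * K := Nat.add_le_add (Nat.add_le_add b1 b3) (Nat.mul_le_mul_right _ b2)
  obtain ⟨I, hIF, hIc, hI⟩ := greedy (F1 G x) (fun f f' => ¬G.Adj f f' ∨ G.Adj (t f) f')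
    (c1 + K + c1 * K) (by
      intro y hy
      refine le_trans (le_of_eq ?_) (hc y hy)
      congr 1
      ext a
      simp only [Finset.mem_filter])
  have hIm : I.card ≤ m := by
    by_contra hcon
    push Not at hcon
    obtain ⟨J, hJI, hJc⟩ := Finset.exists_subset_card_eq (s := I) (n := m + 1) hcon
    obtain ⟨e⟩ : Nonempty (Fin (m + 1) ≃ J) := ⟨(Finset.equivFinOfCardEq hJc).symm⟩
    have hbI : ∀ i, (e i : V) ∈ I := fun i => hJI (e i).2
    have hbne : ∀ i j, i ≠ j → (e i : V) ≠ (e j : V) := by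
      intro i j hij h
      exact hij (e.injective (Subtype.ext h))
    have hbR : ∀ i j, i ≠ j → G.Adj (e i : V) (e j) ∧ ¬ G.Adj (t (e i)) (e j) := by
      intro i j hij
      have := hI _ (hbI i) _ (hbI j) (hbne i j hij)
      push Not at this
      exact this
    apply (hSF (fun i => t (e i)) (fun i => (e i : V))).1
    refine ⟨fun i j hij => (hbR i j hij).1, ?_, ?_⟩
    · intro i j hij hadj
      have hi := ht' _ (hIF (hbI i))
      have hj := ht' _ (hIF (hbI j))
      have hxi := ((hmF _).1 (hIF (hbI i))).1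
      have hxj := ((hmF _).1 (hIF (hbI j))).1
      rcases h4 (t (e i)) (e i) (e j) (t (e j)) hi.1.symm (hbR i j hij).1 hj.1 hadj.symm
        (fun h => hi.2.1 (by rw [h]; exact hxj)) (fun h => hj.2.1 (by rw [← h]; exact hxi)) with h | h
      · exact (hbR i j hij).2 h
      · exact (hbR j i (Ne.symm hij)).2 h.symm
    · intro i j
      constructor
      · intro h
        by_contra hij
        exact (hbR i j hij).2 h
      · intro h
        rw [h]
        exact (ht' _ (hIF (hbI j))).1.symm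
  calc (F1 G x).card ≤ (c1 + K + c1 * K + 1) * I.card := hIc
    _ ≤ (c1 + K + c1 * K + 1) * m := Nat.mul_le_mul_left _ hIm
    _ = m * (c1 + K + c1 * K + 1) := Nat.mul_comm _ _

end F1Bound

end Pool.Agent.Helper856.Q8
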