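import Pool.Agent.Helper856.Q8.Defs

open Classical SimpleGraph

namespace Pool.Agent.Helper856.Q8

namespace ParEq

variable {V : Type} {G : SimpleGraph V}

/-- TARGET -/
theorem par_symm {a b a' b' : V} (h : Par2 G a b a' b') : Par2 G a' b' a b := by
  obtain ⟨h1, h2, h3, h4, h5, h6, h7, h8, h9, h10, h11, h12⟩ := h
  refine ⟨h2, h1, h3.symm, h4.symm, h6, h5, h7.symm, fun h => h8 h.symm, h9.symm, ?_, ?_, ?_⟩
  · rw [h11, h9]
  · rw [h10, h9]
  · intro v v1 v2 v3 v4
    have := h12 v v3 v4 v1 v2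
    exact ⟨this.1.symm, this.2.symm⟩

/-- TARGET -/
theorem par_trans {a b a' b' a'' b'' : V} (h : Par2 G a b a' b') (h' : Par2 G a' b' a'' b'') :
    (a = a'' ∧ b = b'') ∨ Par2 G a b a'' b''  := by
  obtain ⟨h1, h2, h3, h4, h5, h6, h7, h8, h9, h10, h11, h12⟩ := h
  obtain ⟨g1, g2, g3, g4, g5, g6, g7, g8, g9, g10, g11, g12⟩ := h'
  by_cases e1 : a = a''
  · subst e1
    by_cases e2 : b = b''
    · exact Or.inl ⟨rfl, e2⟩
    · exfalso
      have := h12 b'' g2.symm (Ne.symm e2) g5.symm g4.symm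
      rw [G.adj_comm b'' a, G.adj_comm b'' a'] at this
      exact iff_not_self ((this.1.trans g10).trans (not_congr g9))
  by_cases e2 : b = b''
  · subst e2
    exfalso
    have := h12 a'' (Ne.symm e1) g2 g3.symm g6
    exact iff_not_self ((this.2.trans g11).trans (not_congr g9))
  by_cases e3 : a'' = b
  · subst e3
    exfalso
    have k1 : ¬ G.Adj a' b' := g11.1 h7
    exact g8 (h11.2 fun hh => k1 (h9.1 hh))
  by_cases e4 : b'' = a
  · subst e4
    exfalso
    have k1 : G.Adj a' b' := by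
      by_contra hh
      exact h8 (g10.2 hh).symm
    exact (h10.1 g7.symm) (h9.2 k1)
  right
  have k1 := h12 b'' e4 (Ne.symm e2) g5.symm g4.symm
  have k2 := h12 a'' (Ne.symm e1) e3 g3.symm g6
  have k3 := g12 b h6.symm h4 (Ne.symm e3) e2
  have k4 := g12 a h3 h5 e1 (Ne.symm e4)
  refine ⟨h1, g2, e1, e2, Ne.symm e4, e3, ?_, ?_, ?_, ?_, ?_, ?_⟩
  · exact k3.2.1 h7
  · intro h
    exact h8 (k4.1.2 h)
  · rw [h9, g9]
  · have := k4.2
    rw [← this, h10]
  · have := k3.1
    rw [G.adj_comm a'' b, ← this, G.adj_comm b a', h11]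
  · intro v v1 v2 v3 v4
    by_cases e5 : v = a'
    · subst e5
      constructor
      · constructor
        · intro h
          exact absurd h.symm h8
        · intro h
          exact absurd h g8
      · rw [h11, g10, h9]
    by_cases e6 : v = b'
    · subst e6
      constructor
      · rw [G.adj_comm v a, h10, h9, G.adj_comm v a'', g11]
      · constructor
        · intro _
          exact g7
        · intro _
          exact h7.symm
    have l1 := h12 v v1 v2 e5 e6
    have l2 := g12 v e5 e6 v3 v4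
    exact ⟨l1.1.trans l2.1, l1.2.trans l2.2⟩

end ParEq

end Pool.Agent.Helper856.Q8
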