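import Pool.Agent.Helper856.Q8.Defs
import Pool.Agent.Helper856.Q8.ParEq

open Classical SimpleGraph

namespace Pool.Agent.Helper856.Q8

open ParEq (par_symm par_trans)

namespace Share

variable {V : Type} {G : SimpleGraph V}

theorem sh_log {A B C D : Prop} (h1 : B ↔ ¬A) (h2 : A ↔ C) (h3 : B ↔ D) (h4 : C ↔ D) : False := by
  tauto

theorem sh_mem_self [Fintype V] (x : V × V) : x ∈ cls G x := by
  unfold cls
  rw [Finset.mem_filter]
  exact ⟨Finset.mem_univ _, Or.inl rfl⟩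

theorem sh_pair [Fintype V] (x p q : V × V) (hp : p ∈ cls G x) (hq : q ∈ cls G x) (hpq : p ≠ q) :
    Par2 G p.1 p.2 q.1 q.2 := by
  unfold cls at hp hq
  rw [Finset.mem_filter] at hp hq
  rcases hp.2 with rfl | hp'
  · rcases hq.2 with rfl | hq'
    · exact absurd rfl hpq
    · exact hq'
  · rcases hq.2 with rfl | hq'
    · exact par_symm hp'
    · rcases par_trans (par_symm hp') hq' with h1 | h1
      · exact absurd (Prod.ext h1.1 h1.2) hpq
      · exact h1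

theorem sh_unique [Fintype V] (x : V × V) (u : V) :
    ((cls G x).filter (fun p => p.1 = u ∨ p.2 = u)).card ≤ 1 := by
  rw [Finset.card_le_one]
  intro p hp q hq
  rw [Finset.mem_filter] at hp hq
  by_contra hpq
  obtain ⟨h1, h2, h3, h4, h5, h6, _⟩ := sh_pair x p q hp.1 hq.1 hpq
  rcases hp.2 with h7 | h7 <;> rcases hq.2 with h8 | h8
  · exact h3 (h7.trans h8.symm)
  · exact h5 (h7.trans h8.symm)
  · exact h6 (h8.trans h7.symm)
  · exact h4 (h7.trans h8.symm)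

theorem sh_choose [Fintype V] (x : V × V) (hx : 6 ≤ (cls G x).card) (u₁ u₂ u₃ u₄ : V) :
    ∃ p : V × V, Par2 G x.1 x.2 p.1 p.2 ∧
      p.1 ≠ u₁ ∧ p.2 ≠ u₁ ∧ p.1 ≠ u₂ ∧ p.2 ≠ u₂ ∧ p.1 ≠ u₃ ∧ p.2 ≠ u₃ ∧ p.1 ≠ u₄ ∧ p.2 ≠ u₄ := by
  have h1 := sh_unique (G := G) x u₁
  have h2 := sh_unique (G := G) x u₂
  have h3 := sh_unique (G := G) x u₃
  have h4 := sh_unique (G := G) x u₄
  set B : Finset (V × V) := ((((cls G x).filter (fun p => p.1 = u₁ ∨ p.2 = u₁)) ∪
    ((cls G x).filter (fun p => p.1 = u₂ ∨ p.2 = u₂))) ∪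
    (((cls G x).filter (fun p => p.1 = u₃ ∨ p.2 = u₃)) ∪
    ((cls G x).filter (fun p => p.1 = u₄ ∨ p.2 = u₄)))) ∪ {x} with hB
  have hBc : B.card ≤ 5 := by
    refine (Finset.card_union_le _ _).trans ?_
    rw [Finset.card_singleton]
    have h5 := Finset.card_union_le (((cls G x).filter (fun p => p.1 = u₁ ∨ p.2 = u₁)) ∪
      ((cls G x).filter (fun p => p.1 = u₂ ∨ p.2 = u₂)))
      (((cls G x).filter (fun p => p.1 = u₃ ∨ p.2 = u₃)) ∪
      ((cls G x).filter (fun p => p.1 = u₄ ∨ p.2 = u₄)))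
    have h6 := Finset.card_union_le ((cls G x).filter (fun p => p.1 = u₁ ∨ p.2 = u₁))
      ((cls G x).filter (fun p => p.1 = u₂ ∨ p.2 = u₂))
    have h7 := Finset.card_union_le ((cls G x).filter (fun p => p.1 = u₃ ∨ p.2 = u₃))
      ((cls G x).filter (fun p => p.1 = u₄ ∨ p.2 = u₄))
    omega
  obtain ⟨p, hp, hpB⟩ : ∃ p ∈ cls G x, p ∉ B := by
    by_contra hcon
    push Not at hcon
    have := Finset.card_le_card (fun p hp => hcon p hp : cls G x ⊆ B)
    omega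
  have hnx : x ≠ p := by
    rintro rfl
    apply hpB
    rw [hB]
    simp
  refine ⟨p, sh_pair x x p (sh_mem_self x) hp hnx, ?_⟩
  have key : ∀ u, (p ∈ (cls G x).filter (fun p => p.1 = u ∨ p.2 = u) → p ∈ B) →
      p.1 ≠ u ∧ p.2 ≠ u := by
    intro u hu
    constructor
    · intro h
      exact hpB (hu (Finset.mem_filter.mpr ⟨hp, Or.inl h⟩))
    · intro h
      exact hpB (hu (Finset.mem_filter.mpr ⟨hp, Or.inr h⟩))
  have k1 := key u₁ (fun h => by rw [hB]; exact Finset.mem_union_left _ (Finset.mem_union_left _ (Finset.mem_union_left _ h)))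
  have k2 := key u₂ (fun h => by rw [hB]; exact Finset.mem_union_left _ (Finset.mem_union_left _ (Finset.mem_union_right _ h)))
  have k3 := key u₃ (fun h => by rw [hB]; exact Finset.mem_union_left _ (Finset.mem_union_right _ (Finset.mem_union_left _ h)))
  have k4 := key u₄ (fun h => by rw [hB]; exact Finset.mem_union_left _ (Finset.mem_union_right _ (Finset.mem_union_right _ h)))
  exact ⟨k1.1, k1.2, k2.1, k2.2, k3.1, k3.2, k4.1, k4.2⟩

/-- TARGET -/
theorem share [Fintype V] (x y : V × V) (hx : 6 ≤ (cls G x).card) (hy : 6 ≤ (cls G y).card)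
    (h : x.1 = y.1 ∨ x.1 = y.2 ∨ x.2 = y.1 ∨ x.2 = y.2) : x = y := by
  by_contra hxy
  obtain ⟨a, b⟩ := x
  obtain ⟨c, e⟩ := y
  obtain ⟨⟨a2, b2⟩, P, n1, n2, n3, n4, _⟩ := sh_choose (a, b) hx c e e e
  obtain ⟨⟨c2, d2⟩, Q, m1, m2, m3, m4, m5, m6, m7, m8⟩ := sh_choose (c, e) hy a b a2 b2
  simp only at P Q n1 n2 n3 n4 m1 m2 m3 m4 m5 m6 m7 m8 h
  obtain ⟨p1, p2, p3, p4, p5, p6, p7, p8, p9, p10, p11, p12⟩ := P
  obtain ⟨q1, q2, q3, q4, q5, q6, q7, q8, q9, q10, q11, q12⟩ := Q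
  have hne : ¬ (a = c ∧ b = e) := fun h => hxy (by rw [h.1, h.2])
  have Pc := p12 c2 m1 m3 m5 m7
  have Pd := p12 d2 m2 m4 m6 m8
  have Qa2 := q12 a2 n1 n3 (Ne.symm m5) (Ne.symm m6)
  have Qb2 := q12 b2 n2 n4 (Ne.symm m7) (Ne.symm m8)
  have hc := G.adj_comm
  by_cases hv : a = e ∧ b = c
  · have h1 : G.Adj a d2 := by rw [hv.1]; exact q7
    have h2 : G.Adj a2 a ↔ G.Adj a2 d2 := by
      have := Qa2.2
      rw [← hv.1] at this
      exact this
    exact p8 ((hc a2 a).mp (h2.mpr ((hc d2 a2).mp (Pd.1.mp ((hc a d2).mp h1)))))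
  · rcases h with h | h | h | h
    · -- a = c
      have hbe : b ≠ e := fun h' => hne ⟨h, h'⟩
      have hbc : b ≠ c := by rw [← h]; exact Ne.symm p1
      have Qb := (q12 b hbc hbe (Ne.symm m3) (Ne.symm m4)).1
      have Qc := Qb2.1
      rw [← h] at Qb Qc
      exact sh_log p10 ((hc a b).trans (Qb.trans (hc b c2)))
        ((hc a b2).trans (Qc.trans (hc b2 c2))) Pc.2
    · -- a = e
      have hbc : b ≠ c := fun h' => hv ⟨h, h'⟩
      have hbe : b ≠ e := by rw [← h]; exact Ne.symm p1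
      have Qb := (q12 b hbc hbe (Ne.symm m3) (Ne.symm m4)).2
      have Qc := Qb2.2
      rw [← h] at Qb Qc
      exact sh_log p10 ((hc a b).trans (Qb.trans (hc b d2)))
        ((hc a b2).trans (Qc.trans (hc b2 d2))) Pd.2
    · -- b = c
      have hae : a ≠ e := fun h' => hv ⟨h', h⟩
      have hac : a ≠ c := by rw [← h]; exact p1
      have Qb := (q12 a hac hae (Ne.symm m1) (Ne.symm m2)).1
      have Qc := Qa2.1
      rw [← h] at Qb Qc
      exact sh_log p11 (Qb.trans (hc a c2)) (Qc.trans (hc a2 c2)) Pc.1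
    · -- b = e
      have hac : a ≠ c := fun h' => hne ⟨h', h⟩
      have hae : a ≠ e := by rw [← h]; exact p1
      have Qb := (q12 a hac hae (Ne.symm m1) (Ne.symm m2)).2
      have Qc := Qa2.2
      rw [← h] at Qb Qc
      exact sh_log p11 (Qb.trans (hc a d2)) (Qc.trans (hc a2 d2)) Pd.1

end Share

end Pool.Agent.Helper856.Q8
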