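import Pool.Agent.Helper856.Q8.Defs
import Pool.Agent.Helper856.Q8.ParEq
import Pool.Agent.Helper856.Q8.Share

open Classical SimpleGraph

namespace Pool.Agent.Helper856.Q8

open ParEq (par_symm par_trans)
open Share (share)

namespace FamEx

variable {V : Type} {G : SimpleGraph V}

theorem fe_mem [Fintype V] (x y : V × V) :
    y ∈ cls G x ↔ (y = x ∨ Par2 G x.1 x.2 y.1 y.2) := by
  unfold cls
  rw [Finset.mem_filter]
  exact ⟨fun h => h.2, fun h => ⟨Finset.mem_univ _, h⟩⟩

theorem fe_eq [Fintype V] (x y : V × V) (h : y ∈ cls G x) : cls G y = cls G x := by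
  rw [fe_mem] at h
  rcases h with rfl | h
  · rfl
  · ext z
    rw [fe_mem, fe_mem]
    constructor
    · rintro (rfl | hz)
      · exact Or.inr h
      · rcases par_trans h hz with ⟨h1, h2⟩ | h1
        · exact Or.inl (Prod.ext h1.symm h2.symm)
        · exact Or.inr h1
    · rintro (rfl | hz)
      · exact Or.inr (par_symm h)
      · rcases par_trans (par_symm h) hz with ⟨h1, h2⟩ | h1
        · exact Or.inl (Prod.ext h1.symm h2.symm)
        · exact Or.inr h1

/-- TARGET -/
theorem fam_ex [Fintype V] : ∃ P K, Fam G P K ∧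
    ∀ e : Fin 6 → V × V, (∀ i j, i ≠ j → Par2 G (e i).1 (e i).2 (e j).1 (e j).2) → ∃ c ∈ P, ∀ i, e i ∈ c := by
  obtain ⟨P, hP⟩ : ∃ P : Finset (Finset (V × V)),
      P = (Finset.univ.filter (fun x => 6 ≤ (cls G x).card)).image (cls G) := ⟨_, rfl⟩
  have hmem : ∀ c, c ∈ P ↔ ∃ x, 6 ≤ (cls G x).card ∧ cls G x = c := by
    intro c
    rw [hP, Finset.mem_image]
    constructor
    · rintro ⟨x, hx, hc⟩
      exact ⟨x, (Finset.mem_filter.1 hx).2, hc⟩
    · rintro ⟨x, hx, hc⟩
      exact ⟨x, Finset.mem_filter.2 ⟨Finset.mem_univ _, hx⟩, hc⟩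
  have hK : ∀ c : Finset (V × V), ∃ t : Finset (V × V), 5 ≤ c.card → t ⊆ c ∧ t.card = 5 := by
    intro c
    by_cases h : 5 ≤ c.card
    · obtain ⟨t, ht1, ht2⟩ := Finset.exists_subset_card_eq h
      exact ⟨t, fun _ => ⟨ht1, ht2⟩⟩
    · exact ⟨∅, fun h' => absurd h' h⟩
  choose K hK using hK
  refine ⟨P, K, ⟨?_, ?_, ?_⟩, ?_⟩
  · intro c hc x hx y hy hxy
    obtain ⟨z, hz, rfl⟩ := (hmem c).1 hc
    rw [← fe_eq z x hx, fe_mem] at hy
    exact hy.resolve_left (fun h => hxy h.symm)
  · intro c hc c' hc' x hx y hy hsh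
    obtain ⟨z, hz, rfl⟩ := (hmem c).1 hc
    obtain ⟨z', hz', rfl⟩ := (hmem c').1 hc'
    have h1 := fe_eq z x hx
    have h2 := fe_eq z' y hy
    have hxy : x = y := share x y (by rw [h1]; exact hz) (by rw [h2]; exact hz') hsh
    refine ⟨?_, hxy⟩
    rw [← h1, ← h2, hxy]
  · intro c hc
    obtain ⟨z, hz, rfl⟩ := (hmem c).1 hc
    exact hK _ (by omega)
  · intro e he
    have hin : ∀ i, e i ∈ cls G (e 0) := by
      intro i
      rw [fe_mem]
      by_cases hi : i = 0
      · left
        rw [hi]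
      · right
        exact he 0 i (fun h => hi h.symm)
    have hinj : Function.Injective e := by
      intro i j hij
      by_contra hne
      have := (he i j hne).2.2.1
      rw [hij] at this
      exact this rfl
    refine ⟨cls G (e 0), (hmem _).2 ⟨e 0, ?_, rfl⟩, hin⟩
    have h1 : (Finset.univ.image e).card = 6 := by
      rw [Finset.card_image_of_injective _ hinj]
      simp
    refine le_trans (le_of_eq h1.symm) (Finset.card_le_card ?_)
    intro y hy
    obtain ⟨i, -, rfl⟩ := Finset.mem_image.1 hy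
    exact hin i

end FamEx

end Pool.Agent.Helper856.Q8
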