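import Pool.Agent.Helper856.Q8.Defs

open Classical SimpleGraph

namespace Pool.Agent.Helper856.Q8

namespace GCross

variable {V : Type} {G : SimpleGraph V}

theorem g_cross_aux (A B C E : Prop) (q1 : ¬(A ∧ ¬B ∧ ¬C)) (q2 : ¬(B ∧ ¬C ∧ ¬E))
    (q3 : ¬(C ∧ ¬B ∧ ¬A)) (q4 : ¬(E ∧ ¬C ∧ ¬B)) (r1 : ¬(E ∧ A ∧ ¬B)) (r2 : ¬(E ∧ B ∧ ¬A))
    (r3 : ¬(A ∧ C ∧ ¬E)) (r4 : ¬(A ∧ E ∧ ¬C)) (h1 : A ∨ B ∨ C ∨ E) (h0 : ¬A ∨ ¬B ∨ ¬C ∨ ¬E) :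
    ¬A ∧ B ∧ C ∧ ¬E := by
  by_cases hA : A <;> by_cases hB : B <;> by_cases hC : C <;> by_cases hE : E <;>
    simp [hA, hB, hC, hE] at q1 q2 q3 q4 r1 r2 r3 r4 h1 h0 ⊢

/-- TARGET -/
theorem g_cross {X : Finset V} (hX : Clo G X) (v : V) (hv : v ∉ X) (a b c e : V) (ha : a ∈ X) (hb : b ∈ X)
    (hc : c ∈ X) (he : e ∈ X) (h : IsP4 G a b c e)
    (h1 : G.Adj v a ∨ G.Adj v b ∨ G.Adj v c ∨ G.Adj v e) (h0 : ¬G.Adj v a ∨ ¬G.Adj v b ∨ ¬G.Adj v c ∨ ¬G.Adj v e) :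
    ¬G.Adj v a ∧ G.Adj v b ∧ G.Adj v c ∧ ¬G.Adj v e := by
  have key : ∀ T : Finset V, P4s G T → (∃ x y z, x ∈ X ∧ y ∈ X ∧ z ∈ X ∧ T = {v, x, y, z}) →
      False := by
    rintro T hT ⟨x, y, z, hx, hy, hz, rfl⟩
    apply hX _ hT
    have : ({v, x, y, z} : Finset V) \ X = {v} := by
      ext w
      simp only [Finset.mem_sdiff, Finset.mem_insert, Finset.mem_singleton]
      constructor
      · rintro ⟨h1 | h1 | h1 | h1, h2⟩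
        · exact h1
        · rw [h1] at h2; exact absurd hx h2
        · rw [h1] at h2; exact absurd hy h2
        · rw [h1] at h2; exact absurd hz h2
      · rintro rfl
        exact ⟨Or.inl rfl, hv⟩
    rw [this, Finset.card_singleton]
  have t1 : ∀ x y z, x ∈ X → y ∈ X → z ∈ X → G.Adj x y → G.Adj y z → ¬G.Adj x z →
      ¬(G.Adj v x ∧ ¬G.Adj v y ∧ ¬G.Adj v z) := by
    intro x y z hx hy hz h1 h2 h3 h4
    exact key _ ⟨v, x, y, z, ⟨h4.1, h1, h2, h4.2.1, h4.2.2, h3⟩, rfl⟩ ⟨x, y, z, hx, hy, hz, rfl⟩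
  have t2 : ∀ x y z, x ∈ X → y ∈ X → z ∈ X → G.Adj y z → ¬G.Adj x y → ¬G.Adj x z →
      ¬(G.Adj v x ∧ G.Adj v y ∧ ¬G.Adj v z) := by
    intro x y z hx hy hz h1 h2 h3 h4
    refine key {x, v, y, z} ⟨x, v, y, z, ⟨h4.1.symm, h4.2.1, h1, h2, h3, h4.2.2⟩, rfl⟩
      ⟨x, y, z, hx, hy, hz, ?_⟩
    exact Finset.insert_comm x v _
  obtain ⟨hab, hbc, hce, hac, hae, hbe⟩ := h
  have q1 := t1 a b c ha hb hc hab hbc hac
  have q2 := t1 b c e hb hc he hbc hce hbe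
  have q3 := t1 c b a hc hb ha hbc.symm hab.symm (fun h => hac h.symm)
  have q4 := t1 e c b he hc hb hce.symm hbc.symm (fun h => hbe h.symm)
  have r1 := t2 e a b he ha hb hab (fun h => hae h.symm) (fun h => hbe h.symm)
  have r2 := t2 e b a he hb ha hab.symm (fun h => hbe h.symm) (fun h => hae h.symm)
  have r3 := t2 a c e ha hc he hce hac hae
  have r4 := t2 a e c ha he hc hce.symm hae hac
  exact g_cross_aux _ _ _ _ q1 q2 q3 q4 r1 r2 r3 r4 h1 h0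

end GCross

end Pool.Agent.Helper856.Q8
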