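import Pool.Agent.Helper856.Q8.Defs
import Pool.Agent.Helper856.Q8.Compl

open Classical SimpleGraph

namespace Pool.Agent.Helper856.Q8

open Compl (isp4_compl p4s_compl)

namespace PcFacts

variable {V : Type} {G : SimpleGraph V}

theorem h400_mem_uL (L : List (Finset V)) (x : V) : x ∈ uL L ↔ ∃ T ∈ L, x ∈ T := by
  induction L with
  | nil => simp [uL]
  | cons T L ih =>
    have e : uL (T :: L) = T ∪ uL L := rfl
    rw [e, Finset.mem_union, ih]
    simp

theorem h400_ind (A : Finset V) (L : List (Finset V)) (hC : Cn L) (h : ∀ T ∈ L, T ⊆ A ∨ Disjoint T A) :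
    uL L ⊆ A ∨ Disjoint (uL L) A := by
  induction L with
  | nil => left; simp [uL]
  | cons T L ih =>
    have e : uL (T :: L) = T ∪ uL L := rfl
    rw [e]
    have ih' := ih hC.2 (fun T' hT' => h T' (List.mem_cons_of_mem _ hT'))
    have hT := h T (List.mem_cons_self)
    by_cases hL : L = []
    · have e2 : uL L = ∅ := by rw [hL]; rfl
      rw [e2, Finset.union_empty]
      exact hT
    · obtain ⟨x, hx⟩ := hC.1 hL
      rw [Finset.mem_inter] at hx
      rcases hT with hT | hT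
      · rcases ih' with ih' | ih'
        · left
          exact Finset.union_subset hT ih'
        · exact absurd (hT hx.1) (Finset.disjoint_left.mp ih' hx.2)
      · rcases ih' with ih' | ih'
        · exact absurd (ih' hx.2) (Finset.disjoint_left.mp hT hx.1)
        · right
          exact Finset.disjoint_union_left.mpr ⟨hT, ih'⟩

theorem h400_card4 {a b c d : V} (h : IsP4 G a b c d) : ({a, b, c, d} : Finset V).card = 4 := by
  obtain ⟨h1, h2, h3, h4, h5, h6⟩ := h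
  have n1 : a ≠ b := h1.ne
  have n2 : b ≠ c := h2.ne
  have n3 : c ≠ d := h3.ne
  have n4 : a ≠ c := by rintro rfl; exact h5 h3
  have n5 : a ≠ d := by rintro rfl; exact h6 h1.symm
  have n6 : b ≠ d := by rintro rfl; exact h5 h1
  rw [Finset.card_insert_of_notMem (by simp [n1, n4, n5]), Finset.card_insert_of_notMem (by simp [n2, n6]),
    Finset.card_insert_of_notMem (by simp [n3]), Finset.card_singleton]

/-- TARGET -/
theorem pc_cross {X : Finset V} (h : PC G X) (A : Finset V) (hA : A ⊆ X) (h1 : A.Nonempty) (h2 : A ≠ X) :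
    ∃ a b c e, a ∈ X ∧ b ∈ X ∧ c ∈ X ∧ e ∈ X ∧ IsP4 G a b c e ∧ (∃ x ∈ ({a, b, c, e} : Finset V), x ∈ A) ∧
      (∃ x ∈ ({a, b, c, e} : Finset V), x ∉ A) := by
  obtain ⟨L, hL, hP, hC, rfl⟩ := h
  by_contra hcon
  have hall : ∀ T ∈ L, T ⊆ A ∨ Disjoint T A := by
    intro T hT
    by_contra hcon2
    push Not at hcon2
    obtain ⟨h3, h4⟩ := hcon2
    obtain ⟨a, b, c, e, hI, hTe⟩ := hP T hT
    apply hcon
    have hsub : ∀ x ∈ T, x ∈ uL L := fun x hx => (h400_mem_uL L x).mpr ⟨T, hT, hx⟩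
    rw [Finset.not_subset] at h3
    rw [Finset.not_disjoint_iff] at h4
    obtain ⟨x, hx1, hx2⟩ := h3
    obtain ⟨y, hy1, hy2⟩ := h4
    refine ⟨a, b, c, e, hsub a ?_, hsub b ?_, hsub c ?_, hsub e ?_, hI, ⟨y, ?_, hy2⟩, ⟨x, ?_, hx2⟩⟩
    · rw [hTe]; simp
    · rw [hTe]; simp
    · rw [hTe]; simp
    · rw [hTe]; simp
    · rw [← hTe]; exact hy1
    · rw [← hTe]; exact hx1
  rcases h400_ind A L hC hall with h | h
  · exact h2 (Finset.Subset.antisymm hA h)
  · obtain ⟨x, hx⟩ := h1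
    exact Finset.disjoint_left.mp h (hA hx) hx

/-- TARGET -/
theorem pc_add {X T : Finset V} (h : PC G X) (hT : P4s G T) (h1 : (T ∩ X).Nonempty) : PC G (T ∪ X) := by
  obtain ⟨L, hL, hP, hC, rfl⟩ := h
  refine ⟨T :: L, by simp, ?_, ⟨fun _ => h1, hC⟩, rfl⟩
  intro T' hT'
  rcases List.mem_cons.mp hT' with h | h
  · rw [h]; exact hT
  · exact hP T' h

/-- TARGET -/
theorem pc_compl {X : Finset V} (h : PC G X) : PC Gᶜ X := by
  obtain ⟨L, hL, hP, hC, rfl⟩ := h
  exact ⟨L, hL, fun T hT => (p4s_compl T).mpr (hP T hT), hC, rfl⟩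

/-- TARGET -/
theorem clo_compl {X : Finset V} (h : Clo G X) : Clo Gᶜ X :=
  fun T hT => h T ((p4s_compl T).mp hT)

/-- TARGET -/
theorem np_compl (X : Finset V) : np Gᶜ X = np G X := by
  unfold np
  congr 1
  apply Finset.filter_congr
  intro T _
  exact p4s_compl T

/-- TARGET -/
theorem cls_compl {q : ℕ} (h : Cls q G) : Cls q Gᶜ := by
  intro S hS
  rw [np_compl]
  exact h S hS

/-- TARGET -/
theorem nh_compl {X : Finset V} {v : V} (h : Nh G X v) : Nh Gᶜ X v := by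
  obtain ⟨hv, ⟨x, hx, hvx⟩, ⟨y, hy, hvy⟩⟩ := h
  refine ⟨hv, ⟨y, hy, ?_⟩, ⟨x, hx, ?_⟩⟩
  · rw [SimpleGraph.compl_adj]
    refine ⟨?_, hvy⟩
    rintro rfl
    exact hv hy
  · rw [SimpleGraph.compl_adj]
    exact fun h => h.2 hvx

/-- TARGET -/
theorem pc_card {X : Finset V} (h : PC G X) : 4 ≤ X.card := by
  obtain ⟨L, hL, hP, hC, rfl⟩ := h
  obtain ⟨T, L', rfl⟩ := List.exists_cons_of_ne_nil hL
  obtain ⟨a, b, c, e, hI, hTe⟩ := hP T List.mem_cons_self
  have h4 := h400_card4 hI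
  rw [← hTe] at h4
  rw [← h4]
  apply Finset.card_le_card
  intro x hx
  exact (h400_mem_uL _ x).mpr ⟨T, List.mem_cons_self, hx⟩

end PcFacts

end Pool.Agent.Helper856.Q8
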