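import Pool.Agent.Helper856.Q8.Defs
import Pool.Agent.Helper856.Q8.PcFacts
import Pool.Agent.Helper856.Q8.GCross

open Classical SimpleGraph

namespace Pool.Agent.Helper856.Q8

open PcFacts (pc_cross)
open GCross (g_cross)

namespace GEnd

variable {V : Type} {G : SimpleGraph V}

/-- step inside the set of non-neighbours of `v` in `X` -/
def Rst (G : SimpleGraph V) (X : Finset V) (v : V) (o o' : V) : Prop :=
  o ∈ X ∧ o' ∈ X ∧ ¬G.Adj v o ∧ ¬G.Adj v o' ∧ G.Adj o o'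

theorem rst_adj1 {X : Finset V} (hX : Clo G X) (v : V) (hv : v ∉ X) (o o' m : V) (hR : Rst G X v o o')
    (hm : m ∈ X) (hvm : G.Adj v m) (h : G.Adj m o) : G.Adj m o' := by
  by_contra hn
  obtain ⟨h1, h2, h3, h4, h5⟩ := hR
  refine hX {v, m, o, o'} ⟨v, m, o, o', ⟨hvm, h, h5, h3, h4, hn⟩, rfl⟩ ?_
  have : ({v, m, o, o'} : Finset V) \ X = {v} := by
    ext y
    simp only [Finset.mem_sdiff, Finset.mem_insert, Finset.mem_singleton]
    constructor
    · rintro ⟨rfl | rfl | rfl | rfl, hy⟩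
      · rfl
      · exact absurd hm hy
      · exact absurd h1 hy
      · exact absurd h2 hy
    · rintro rfl
      exact ⟨Or.inl rfl, hv⟩
  rw [this, Finset.card_singleton]

theorem rst_symm {X : Finset V} {v o o' : V} (hR : Rst G X v o o') : Rst G X v o' o :=
  ⟨hR.2.1, hR.1, hR.2.2.2.1, hR.2.2.1, hR.2.2.2.2.symm⟩

theorem rst_adj {X : Finset V} (hX : Clo G X) (v : V) (hv : v ∉ X) (x k m : V)
    (hR : Relation.ReflTransGen (Rst G X v) x k)
    (hm : m ∈ X) (hvm : G.Adj v m) : G.Adj m x ↔ G.Adj m k := by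
  induction hR with
  | refl => exact Iff.rfl
  | tail _ h2 ih =>
    rw [ih]
    exact ⟨fun h => rst_adj1 hX v hv _ _ m h2 hm hvm h,
      fun h => rst_adj1 hX v hv _ _ m (rst_symm h2) hm hvm h⟩

theorem rst_mem {X : Finset V} (v x k : V) (hx : x ∈ X) (hvx : ¬G.Adj v x)
    (hR : Relation.ReflTransGen (Rst G X v) x k) : k ∈ X ∧ ¬G.Adj v k := by
  induction hR with
  | refl => exact ⟨hx, hvx⟩
  | tail _ h2 _ => exact ⟨h2.2.1, h2.2.2.2.1⟩

theorem core1 {X : Finset V} (hX : Clo G X) (v : V) (hv : v ∉ X) (x : V) (hx : x ∈ X)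
    (hvx : ¬G.Adj v x) (a b c e : V) (hb : b ∈ X) (hc : c ∈ X) (he : e ∈ X)
    (h : IsP4 G a b c e) (hvb : G.Adj v b) (hvc : G.Adj v c) (hve : ¬G.Adj v e)
    (ha : Relation.ReflTransGen (Rst G X v) x a) (k : V)
    (hk : Relation.ReflTransGen (Rst G X v) x k) : IsP4 G k b c e := by
  obtain ⟨h1, h2, h3, h4, h5, h6⟩ := h
  have hb1 := rst_adj hX v hv x a b ha hb hvb
  have hb2 := rst_adj hX v hv x k b hk hb hvb
  have hc1 := rst_adj hX v hv x a c ha hc hvc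
  have hc2 := rst_adj hX v hv x k c hk hc hvc
  have hxb : G.Adj b x := hb1.2 h1.symm
  have hxc : ¬G.Adj c x := fun hh => h4 (hc1.1 hh).symm
  refine ⟨(hb2.1 hxb).symm, h2, h3, fun hh => hxc (hc2.2 hh.symm), fun hh => ?_, h6⟩
  have hk' := rst_mem v x k hx hvx hk
  have hke : Rst G X v k e := ⟨hk'.1, he, hk'.2, hve, hh⟩
  have he2 := rst_adj hX v hv x e c (hk.tail hke) hc hvc
  exact hxc (he2.2 h3)

theorem isP4_symm {a b c e : V} (h : IsP4 G a b c e) : IsP4 G e c b a :=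
  ⟨h.2.2.1.symm, h.2.1.symm, h.1.symm, fun hh => h.2.2.2.2.2 hh.symm, fun hh => h.2.2.2.2.1 hh.symm,
    fun hh => h.2.2.2.1 hh.symm⟩

theorem core2 {X : Finset V} (hX : Clo G X) (hP : PC G X) (v : V) (hv : Nh G X v) (x : V) (hx : x ∈ X)
    (hvx : ¬G.Adj v x) : ∃ m1 ∈ X, ∃ m2 ∈ X, ∃ o ∈ X, G.Adj v m1 ∧
      ∀ k, Relation.ReflTransGen (Rst G X v) x k → IsP4 G k m1 m2 o := by
  obtain ⟨hvX, ⟨y, hy, hvy⟩, _⟩ := hv
  have hKmem : ∀ k, k ∈ X.filter (fun y => Relation.ReflTransGen (Rst G X v) x y) ↔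
      k ∈ X ∧ Relation.ReflTransGen (Rst G X v) x k := fun k => Finset.mem_filter
  obtain ⟨a, b, c, e, ha, hb, hc, he, h, ⟨p, hp, hpK⟩, ⟨q, hq, hqK⟩⟩ :=
    pc_cross hP (X.filter (fun y => Relation.ReflTransGen (Rst G X v) x y)) (Finset.filter_subset _ _)
      ⟨x, (hKmem x).2 ⟨hx, Relation.ReflTransGen.refl⟩⟩ (by
        intro hEq
        rw [← hEq, hKmem] at hy
        exact (rst_mem v x y hx hvx hy.2).2 hvy)
  rw [hKmem] at hpK hqK
  have hpv := (rst_mem v x p hx hvx hpK.2).2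
  simp only [Finset.mem_insert, Finset.mem_singleton] at hp hq
  by_cases hall : ¬G.Adj v a ∧ ¬G.Adj v b ∧ ¬G.Adj v c ∧ ¬G.Adj v e
  · exfalso
    obtain ⟨na, nb, nc, ne⟩ := hall
    have rab : Rst G X v a b := ⟨ha, hb, na, nb, h.1⟩
    have rbc : Rst G X v b c := ⟨hb, hc, nb, nc, h.2.1⟩
    have rce : Rst G X v c e := ⟨hc, he, nc, ne, h.2.2.1⟩
    have hconn : Relation.ReflTransGen (Rst G X v) x a := by
      rcases hp with rfl | rfl | rfl | rfl
      · exact hpK.2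
      · exact hpK.2.tail (rst_symm rab)
      · exact (hpK.2.tail (rst_symm rbc)).tail (rst_symm rab)
      · exact ((hpK.2.tail (rst_symm rce)).tail (rst_symm rbc)).tail (rst_symm rab)
    apply hqK
    rcases hq with rfl | rfl | rfl | rfl
    · exact ⟨ha, hconn⟩
    · exact ⟨hb, hconn.tail rab⟩
    · exact ⟨hc, (hconn.tail rab).tail rbc⟩
    · exact ⟨he, ((hconn.tail rab).tail rbc).tail rce⟩
  · have h1 : G.Adj v a ∨ G.Adj v b ∨ G.Adj v c ∨ G.Adj v e := by tauto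
    have h0 : ¬G.Adj v a ∨ ¬G.Adj v b ∨ ¬G.Adj v c ∨ ¬G.Adj v e := by
      rcases hp with rfl | rfl | rfl | rfl
      · exact Or.inl hpv
      · exact Or.inr (Or.inl hpv)
      · exact Or.inr (Or.inr (Or.inl hpv))
      · exact Or.inr (Or.inr (Or.inr hpv))
    obtain ⟨na, ab, ac, ne⟩ := g_cross hX v hvX a b c e ha hb hc he h h1 h0
    have hp' : p = a ∨ p = e := by
      rcases hp with rfl | rfl | rfl | rfl
      · exact Or.inl rfl
      · exact absurd ab hpv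
      · exact absurd ac hpv
      · exact Or.inr rfl
    rcases hp' with rfl | rfl
    · exact ⟨b, hb, c, hc, e, he, ab, fun k hk =>
        core1 hX v hvX x hx hvx p b c e hb hc he h ab ac ne hpK.2 k hk⟩
    · exact ⟨c, hc, b, hb, a, ha, ac, fun k hk =>
        core1 hX v hvX x hx hvx p c b a hc hb ha (isP4_symm h) ac ab na hpK.2 k hk⟩

/-- TARGET -/
theorem g_end {X : Finset V} (hX : Clo G X) (hP : PC G X) (v : V) (hv : Nh G X v) (a b c e : V) (ha : a ∈ X)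
    (hb : b ∈ X) (hc : c ∈ X) (he : e ∈ X) (h : IsP4 G a b c e)
    (h0 : ¬G.Adj v a ∧ ¬G.Adj v b ∧ ¬G.Adj v c ∧ ¬G.Adj v e) :
    ∃ m1 ∈ X, ∃ m2 ∈ X, ∃ o ∈ X, ∀ x ∈ ({a, b, c, e} : Finset V), IsP4 G x m1 m2 o := by
  obtain ⟨na, nb, nc, ne⟩ := h0
  obtain ⟨m1, h1, m2, h2, o, ho, _, hk⟩ := core2 hX hP v hv a ha na
  have rab : Rst G X v a b := ⟨ha, hb, na, nb, h.1⟩
  have rbc : Rst G X v b c := ⟨hb, hc, nb, nc, h.2.1⟩
  have rce : Rst G X v c e := ⟨hc, he, nc, ne, h.2.2.1⟩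
  refine ⟨m1, h1, m2, h2, o, ho, fun x hx => hk x ?_⟩
  simp only [Finset.mem_insert, Finset.mem_singleton] at hx
  rcases hx with rfl | rfl | rfl | rfl
  · exact Relation.ReflTransGen.refl
  · exact Relation.ReflTransGen.refl.tail rab
  · exact (Relation.ReflTransGen.refl.tail rab).tail rbc
  · exact ((Relation.ReflTransGen.refl.tail rab).tail rbc).tail rce

/-- TARGET -/
theorem g_nbr {X : Finset V} (hX : Clo G X) (hP : PC G X) (v : V) (hv : Nh G X v) (x : V) (hx : x ∈ X)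
    (h0 : ¬G.Adj v x) : ∃ m ∈ X, G.Adj v m ∧ G.Adj x m := by
  obtain ⟨m1, h1, m2, h2, o, ho, hvm, hk⟩ := core2 hX hP v hv x hx h0
  exact ⟨m1, h1, hvm, (hk x Relation.ReflTransGen.refl).1⟩

end GEnd

end Pool.Agent.Helper856.Q8
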