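import Pool.Agent.Helper856.Q8.Defs
import Pool.Agent.Helper856.Q8.PcFacts
import Pool.Agent.Helper856.Q8.GCross
import Pool.Agent.Helper856.Q8.GEnd
import Pool.Agent.Helper856.Q8.Compl

open Classical SimpleGraph

namespace Pool.Agent.Helper856.Q8

open PcFacts (pc_cross pc_compl clo_compl nh_compl)
open GCross (g_cross)
open GEnd (g_end)
open Compl (isp4_compl)

namespace GUniq

variable {V : Type} {G : SimpleGraph V}

theorem g_uniq_A {G : SimpleGraph V} {X : Finset V} (hX : Clo G X) (hP : PC G X) (v v' : V)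
    (hv : Nh G X v) (hv' : Nh G X v') (a b c e : V) (ha : a ∈ X) (hb : b ∈ X) (hc : c ∈ X)
    (he : e ∈ X) (h : IsP4 G a b c e)
    (h1 : G.Adj v a ∨ G.Adj v b ∨ G.Adj v c ∨ G.Adj v e)
    (h0 : ¬G.Adj v a ∨ ¬G.Adj v b ∨ ¬G.Adj v c ∨ ¬G.Adj v e)
    (hn : ¬G.Adj v' a ∧ ¬G.Adj v' b ∧ ¬G.Adj v' c ∧ ¬G.Adj v' e) : False := by
  obtain ⟨k1, k2, k3, k4⟩ := g_cross hX v hv.1 a b c e ha hb hc he h h1 h0
  obtain ⟨m1, hm1, m2, hm2, o, ho, hall⟩ := g_end hX hP v' hv' a b c e ha hb hc he h hn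
  have pa := hall a (by simp)
  have pb := hall b (by simp)
  by_cases hh : ¬G.Adj v b ∨ ¬G.Adj v m1 ∨ ¬G.Adj v m2 ∨ ¬G.Adj v o
  · exact (g_cross hX v hv.1 b m1 m2 o hb hm1 hm2 ho pb (Or.inl k2) hh).1 k2
  · push Not at hh
    exact (g_cross hX v hv.1 a m1 m2 o ha hm1 hm2 ho pa (Or.inr (Or.inl hh.2.1))
      (Or.inl k1)).2.2.2 hh.2.2.2

theorem g_uniq_B {G : SimpleGraph V} {X : Finset V} (hX : Clo G X) (hP : PC G X) (v v' : V)
    (hv : Nh G X v) (hv' : Nh G X v') (a b c e : V) (ha : a ∈ X) (hb : b ∈ X) (hc : c ∈ X)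
    (he : e ∈ X) (h : IsP4 G a b c e)
    (h1 : G.Adj v a ∨ G.Adj v b ∨ G.Adj v c ∨ G.Adj v e)
    (h0 : ¬G.Adj v a ∨ ¬G.Adj v b ∨ ¬G.Adj v c ∨ ¬G.Adj v e)
    (hn : G.Adj v' a ∧ G.Adj v' b ∧ G.Adj v' c ∧ G.Adj v' e) : False := by
  have hne : ∀ x ∈ X, v ≠ x := fun x hx hvx => hv.1 (hvx ▸ hx)
  have hcomp : ∀ x ∈ X, (Gᶜ.Adj v x ↔ ¬G.Adj v x) := by
    intro x hx
    rw [SimpleGraph.compl_adj]
    exact ⟨fun t => t.2, fun t => ⟨hne x hx, t⟩⟩
  have hcomp' : ∀ x, G.Adj v' x → ¬Gᶜ.Adj v' x := by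
    intro x hx hh
    rw [SimpleGraph.compl_adj] at hh
    exact hh.2 hx
  refine g_uniq_A (G := Gᶜ) (clo_compl hX) (pc_compl hP) v v' (nh_compl hv) (nh_compl hv')
    b e a c hb he ha hc (isp4_compl h) ?_ ?_ ⟨hcomp' _ hn.2.1, hcomp' _ hn.2.2.2, hcomp' _ hn.1,
      hcomp' _ hn.2.2.1⟩
  · rw [hcomp a ha, hcomp b hb, hcomp c hc, hcomp e he]
    tauto
  · rw [hcomp a ha, hcomp b hb, hcomp c hc, hcomp e he]
    tauto

theorem g_uniq_const {G : SimpleGraph V} {X : Finset V} (hX : Clo G X) (hP : PC G X) (v v' : V)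
    (hv : Nh G X v) (hv' : Nh G X v') (a b c e : V) (ha : a ∈ X) (hb : b ∈ X) (hc : c ∈ X)
    (he : e ∈ X) (h : IsP4 G a b c e)
    (h1 : G.Adj v a ∨ G.Adj v b ∨ G.Adj v c ∨ G.Adj v e)
    (h0 : ¬G.Adj v a ∨ ¬G.Adj v b ∨ ¬G.Adj v c ∨ ¬G.Adj v e) :
    (¬G.Adj v a ∧ G.Adj v b ∧ G.Adj v c ∧ ¬G.Adj v e) ∧
    (¬G.Adj v' a ∧ G.Adj v' b ∧ G.Adj v' c ∧ ¬G.Adj v' e) := by
  refine ⟨g_cross hX v hv.1 a b c e ha hb hc he h h1 h0, ?_⟩
  have hA := g_uniq_A hX hP v v' hv hv' a b c e ha hb hc he h h1 h0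
  have hB := g_uniq_B hX hP v v' hv hv' a b c e ha hb hc he h h1 h0
  exact g_cross hX v' hv'.1 a b c e ha hb hc he h (by tauto) (by tauto)

/-- TARGET -/
theorem g_uniq {X : Finset V} (hX : Clo G X) (hP : PC G X) (v v' : V) (hv : Nh G X v) (hv' : Nh G X v') :
    ∀ x ∈ X, (G.Adj v x ↔ G.Adj v' x) := by
  set D : Finset V := X.filter (fun x => (G.Adj v x ↔ G.Adj v' x)) with hD
  have hDX : D ⊆ X := Finset.filter_subset _ _
  have hmem : ∀ x ∈ X, (x ∈ D ↔ (G.Adj v x ↔ G.Adj v' x)) := by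
    intro x hx
    rw [hD, Finset.mem_filter]
    exact ⟨fun t => t.2, fun t => ⟨hx, t⟩⟩
  have hP4 : ∀ a b c e : V, a ∈ X → b ∈ X → c ∈ X → e ∈ X → IsP4 G a b c e →
      (∀ x ∈ ({a, b, c, e} : Finset V), x ∈ D) ∨ (∀ x ∈ ({a, b, c, e} : Finset V), x ∉ D) := by
    intro a b c e ha hb hc he h
    by_cases hv1 : (G.Adj v a ∨ G.Adj v b ∨ G.Adj v c ∨ G.Adj v e) ∧
        (¬G.Adj v a ∨ ¬G.Adj v b ∨ ¬G.Adj v c ∨ ¬G.Adj v e)
    · left
      obtain ⟨⟨p1, p2, p3, p4⟩, ⟨q1, q2, q3, q4⟩⟩ :=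
        g_uniq_const hX hP v v' hv hv' a b c e ha hb hc he h hv1.1 hv1.2
      intro x hx
      simp only [Finset.mem_insert, Finset.mem_singleton] at hx
      rcases hx with rfl | rfl | rfl | rfl
      · exact (hmem _ ha).2 (iff_of_false p1 q1)
      · exact (hmem _ hb).2 (iff_of_true p2 q2)
      · exact (hmem _ hc).2 (iff_of_true p3 q3)
      · exact (hmem _ he).2 (iff_of_false p4 q4)
    · by_cases hv2 : (G.Adj v' a ∨ G.Adj v' b ∨ G.Adj v' c ∨ G.Adj v' e) ∧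
        (¬G.Adj v' a ∨ ¬G.Adj v' b ∨ ¬G.Adj v' c ∨ ¬G.Adj v' e)
      · left
        obtain ⟨⟨p1, p2, p3, p4⟩, ⟨q1, q2, q3, q4⟩⟩ :=
          g_uniq_const hX hP v' v hv' hv a b c e ha hb hc he h hv2.1 hv2.2
        intro x hx
        simp only [Finset.mem_insert, Finset.mem_singleton] at hx
        rcases hx with rfl | rfl | rfl | rfl
        · exact (hmem _ ha).2 (iff_of_false q1 p1)
        · exact (hmem _ hb).2 (iff_of_true q2 p2)
        · exact (hmem _ hc).2 (iff_of_true q3 p3)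
        · exact (hmem _ he).2 (iff_of_false q4 p4)
      · have c1 : (G.Adj v a ∧ G.Adj v b ∧ G.Adj v c ∧ G.Adj v e) ∨
            (¬G.Adj v a ∧ ¬G.Adj v b ∧ ¬G.Adj v c ∧ ¬G.Adj v e) := by
          rcases not_and_or.1 hv1 with t | t
          · right; push Not at t; exact t
          · left; push Not at t; exact t
        have c2 : (G.Adj v' a ∧ G.Adj v' b ∧ G.Adj v' c ∧ G.Adj v' e) ∨
            (¬G.Adj v' a ∧ ¬G.Adj v' b ∧ ¬G.Adj v' c ∧ ¬G.Adj v' e) := by
          rcases not_and_or.1 hv2 with t | t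
          · right; push Not at t; exact t
          · left; push Not at t; exact t
        rcases c1 with ⟨p1, p2, p3, p4⟩ | ⟨p1, p2, p3, p4⟩ <;>
          rcases c2 with ⟨q1, q2, q3, q4⟩ | ⟨q1, q2, q3, q4⟩
        · left
          intro x hx
          simp only [Finset.mem_insert, Finset.mem_singleton] at hx
          rcases hx with rfl | rfl | rfl | rfl
          · exact (hmem _ ha).2 (iff_of_true p1 q1)
          · exact (hmem _ hb).2 (iff_of_true p2 q2)
          · exact (hmem _ hc).2 (iff_of_true p3 q3)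
          · exact (hmem _ he).2 (iff_of_true p4 q4)
        · right
          intro x hx hxD
          simp only [Finset.mem_insert, Finset.mem_singleton] at hx
          rcases hx with rfl | rfl | rfl | rfl
          · exact q1 (((hmem _ ha).1 hxD).1 p1)
          · exact q2 (((hmem _ hb).1 hxD).1 p2)
          · exact q3 (((hmem _ hc).1 hxD).1 p3)
          · exact q4 (((hmem _ he).1 hxD).1 p4)
        · right
          intro x hx hxD
          simp only [Finset.mem_insert, Finset.mem_singleton] at hx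
          rcases hx with rfl | rfl | rfl | rfl
          · exact p1 (((hmem _ ha).1 hxD).2 q1)
          · exact p2 (((hmem _ hb).1 hxD).2 q2)
          · exact p3 (((hmem _ hc).1 hxD).2 q3)
          · exact p4 (((hmem _ he).1 hxD).2 q4)
        · left
          intro x hx
          simp only [Finset.mem_insert, Finset.mem_singleton] at hx
          rcases hx with rfl | rfl | rfl | rfl
          · exact (hmem _ ha).2 (iff_of_false p1 q1)
          · exact (hmem _ hb).2 (iff_of_false p2 q2)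
          · exact (hmem _ hc).2 (iff_of_false p3 q3)
          · exact (hmem _ he).2 (iff_of_false p4 q4)
  have hDne : D.Nonempty := by
    obtain ⟨hvX, ⟨x1, hx1, hx1a⟩, ⟨x2, hx2, hx2a⟩⟩ := hv
    obtain ⟨a, b, c, e, ha, hb, hc, he, h, ⟨y, hy, hyA⟩, ⟨z, hz, hzA⟩⟩ :=
      pc_cross hP (X.filter (fun x => G.Adj v x)) (Finset.filter_subset _ _)
        ⟨x1, Finset.mem_filter.2 ⟨hx1, hx1a⟩⟩
        (by
          intro hEq
          have : x2 ∈ X.filter (fun x => G.Adj v x) := by rw [hEq]; exact hx2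
          exact hx2a (Finset.mem_filter.1 this).2)
    have hsub : ∀ w ∈ ({a, b, c, e} : Finset V), w ∈ X := by
      intro w hw
      simp only [Finset.mem_insert, Finset.mem_singleton] at hw
      rcases hw with rfl | rfl | rfl | rfl <;> assumption
    have hyv : G.Adj v y := (Finset.mem_filter.1 hyA).2
    have hzv : ¬G.Adj v z := fun t => hzA (Finset.mem_filter.2 ⟨hsub z hz, t⟩)
    simp only [Finset.mem_insert, Finset.mem_singleton] at hy hz
    have hh := g_uniq_const hX hP v v' ⟨hvX, ⟨x1, hx1, hx1a⟩, ⟨x2, hx2, hx2a⟩⟩ hv' a b c e ha hb hc he h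
      (by rcases hy with rfl | rfl | rfl | rfl <;> tauto)
      (by rcases hz with rfl | rfl | rfl | rfl <;> tauto)
    exact ⟨a, (hmem a ha).2 (iff_of_false hh.1.1 hh.2.1)⟩
  have hDX' : D = X := by
    by_contra hne
    obtain ⟨a, b, c, e, ha, hb, hc, he, h, ⟨y, hy, hyA⟩, ⟨z, hz, hzA⟩⟩ :=
      pc_cross hP D hDX hDne hne
    rcases hP4 a b c e ha hb hc he h with h1 | h1
    · exact hzA (h1 z hz)
    · exact h1 y hy hyA
  intro x hx
  rw [← hmem x hx, hDX']
  exact hx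

end GUniq

end Pool.Agent.Helper856.Q8
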