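import Pool.Agent.Helper856.Q8.Defs
import Pool.Agent.Helper856.Q8.GCross
import Pool.Agent.Helper856.Q8.GUniq
import Pool.Agent.Helper856.Q8.PcFacts

open Classical SimpleGraph

namespace Pool.Agent.Helper856.Q8

open GCross (g_cross)
open GUniq (g_uniq)
open PcFacts (pc_cross)

namespace GCount

variable {V : Type} {G : SimpleGraph V}

/-- TARGET -/
theorem g_count {X : Finset V} (w z : V) (hw : w ∉ X) (hz : z ∉ X) (hzw : z ≠ w)
    (hadj : G.Adj w z) (hz0 : ∀ x ∈ X, ¬G.Adj z x) (A : Finset V) (hA : A ⊆ X) :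
    np G A + ((A ×ˢ A).filter (fun e => G.Adj w e.1 ∧ ¬G.Adj w e.2 ∧ G.Adj e.1 e.2)).card ≤
      np G (insert z (insert w A)) := by
  have hmem : ∀ e ∈ (A ×ˢ A).filter (fun e => G.Adj w e.1 ∧ ¬G.Adj w e.2 ∧ G.Adj e.1 e.2),
      e.1 ∈ A ∧ e.2 ∈ A ∧ G.Adj w e.1 ∧ ¬G.Adj w e.2 ∧ G.Adj e.1 e.2 := by
    intro e he
    rw [Finset.mem_filter, Finset.mem_product] at he
    exact ⟨he.1.1, he.1.2, he.2.1, he.2.2.1, he.2.2.2⟩
  have hzA : ∀ x ∈ A, x ≠ z := fun x hx h => hz (h ▸ hA hx)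
  have hwA : ∀ x ∈ A, x ≠ w := fun x hx h => hw (h ▸ hA hx)
  have hinj : Set.InjOn (fun e : V × V => ({z, w, e.1, e.2} : Finset V))
      ((A ×ˢ A).filter (fun e => G.Adj w e.1 ∧ ¬G.Adj w e.2 ∧ G.Adj e.1 e.2) :
        Finset (V × V)) := by
    intro e he e' he' hee
    obtain ⟨a1, a2, a3, a4, a5⟩ := hmem e he
    obtain ⟨b1, b2, b3, b4, b5⟩ := hmem e' he'
    have hee' : ({z, w, e.1, e.2} : Finset V) = {z, w, e'.1, e'.2} := hee
    have h1 : e.1 ∈ ({z, w, e'.1, e'.2} : Finset V) := by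
      rw [← hee']
      simp
    have h2 : e.2 ∈ ({z, w, e'.1, e'.2} : Finset V) := by
      rw [← hee']
      simp
    simp only [Finset.mem_insert, Finset.mem_singleton] at h1 h2
    have h3 : e.1 = e'.1 := by
      rcases h1 with h | h | h | h
      · exact absurd h (hzA _ a1)
      · exact absurd h (hwA _ a1)
      · exact h
      · rw [h] at a3
        exact absurd a3 b4
    have h4 : e.2 = e'.2 := by
      rcases h2 with h | h | h | h
      · exact absurd h (hzA _ a2)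
      · exact absurd h (hwA _ a2)
      · rw [h] at a4
        exact absurd b3 a4
      · exact h
    exact Prod.ext h3 h4
  have hdisj : Disjoint ((A.powersetCard 4).filter (fun T => P4s G T))
      (((A ×ˢ A).filter (fun e => G.Adj w e.1 ∧ ¬G.Adj w e.2 ∧ G.Adj e.1 e.2)).image
        (fun e : V × V => ({z, w, e.1, e.2} : Finset V))) := by
    rw [Finset.disjoint_left]
    intro T hT hT'
    rw [Finset.mem_filter, Finset.mem_powersetCard] at hT
    obtain ⟨e, -, rfl⟩ := Finset.mem_image.mp hT'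
    have h1 : z ∈ ({z, w, e.1, e.2} : Finset V) := by simp
    exact hz (hA (hT.1.1 h1))
  unfold np
  rw [← Finset.card_image_of_injOn hinj, ← Finset.card_union_of_disjoint hdisj]
  apply Finset.card_le_card
  intro T hT
  rw [Finset.mem_filter, Finset.mem_powersetCard]
  rcases Finset.mem_union.mp hT with h | h
  · rw [Finset.mem_filter, Finset.mem_powersetCard] at h
    exact ⟨⟨fun x hx => Finset.mem_insert_of_mem (Finset.mem_insert_of_mem (h.1.1 hx)), h.1.2⟩,
      h.2⟩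
  · obtain ⟨e, he, rfl⟩ := Finset.mem_image.mp h
    obtain ⟨a1, a2, a3, a4, a5⟩ := hmem e he
    refine ⟨⟨?_, ?_⟩, z, w, e.1, e.2, ⟨hadj.symm, a3, a5, hz0 _ (hA a1), hz0 _ (hA a2), a4⟩, rfl⟩
    · intro x hx
      simp only [Finset.mem_insert, Finset.mem_singleton] at hx ⊢
      rcases hx with h | h | h | h
      · exact Or.inl h
      · exact Or.inr (Or.inl h)
      · exact Or.inr (Or.inr (h ▸ a1))
      · exact Or.inr (Or.inr (h ▸ a2))
    · rw [Finset.card_insert_of_notMem, Finset.card_insert_of_notMem,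
        Finset.card_insert_of_notMem, Finset.card_singleton]
      · rw [Finset.mem_singleton]
        exact a5.ne
      · simp only [Finset.mem_insert, Finset.mem_singleton, not_or]
        exact ⟨(hwA _ a1).symm, (hwA _ a2).symm⟩
      · simp only [Finset.mem_insert, Finset.mem_singleton, not_or]
        exact ⟨hzw, (hzA _ a1).symm, (hzA _ a2).symm⟩

/-- TARGET -/
theorem g_two {X : Finset V} (hX : Clo G X) (hP : PC G X) (w : V) (hw : Nh G X w) :
    2 ≤ ((X ×ˢ X).filter (fun e => G.Adj w e.1 ∧ ¬G.Adj w e.2 ∧ G.Adj e.1 e.2)).card := by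
  obtain ⟨hw0, ⟨x1, hx1, hx1'⟩, ⟨x2, hx2, hx2'⟩⟩ := hw
  obtain ⟨a, b, c, e, ha, hb, hc, he, hp, ⟨y1, hy1, hy1'⟩, ⟨y2, hy2, hy2'⟩⟩ :=
    pc_cross hP (X.filter (fun x => G.Adj w x)) (Finset.filter_subset _ _)
      ⟨x1, Finset.mem_filter.mpr ⟨hx1, hx1'⟩⟩ (fun h => by
        rw [← h] at hx2
        exact hx2' (Finset.mem_filter.mp hx2).2)
  have h1 : G.Adj w y1 := (Finset.mem_filter.mp hy1').2
  have hy2X : y2 ∈ X := by
    simp only [Finset.mem_insert, Finset.mem_singleton] at hy2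
    rcases hy2 with h | h | h | h
    · exact h ▸ ha
    · exact h ▸ hb
    · exact h ▸ hc
    · exact h ▸ he
  have h2 : ¬ G.Adj w y2 := fun h => hy2' (Finset.mem_filter.mpr ⟨hy2X, h⟩)
  simp only [Finset.mem_insert, Finset.mem_singleton] at hy1 hy2
  have h3 : G.Adj w a ∨ G.Adj w b ∨ G.Adj w c ∨ G.Adj w e := by
    rcases hy1 with h | h | h | h
    · exact Or.inl (h ▸ h1)
    · exact Or.inr (Or.inl (h ▸ h1))
    · exact Or.inr (Or.inr (Or.inl (h ▸ h1)))
    · exact Or.inr (Or.inr (Or.inr (h ▸ h1)))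
  have h4 : ¬G.Adj w a ∨ ¬G.Adj w b ∨ ¬G.Adj w c ∨ ¬G.Adj w e := by
    rcases hy2 with h | h | h | h
    · exact Or.inl (h ▸ h2)
    · exact Or.inr (Or.inl (h ▸ h2))
    · exact Or.inr (Or.inr (Or.inl (h ▸ h2)))
    · exact Or.inr (Or.inr (Or.inr (h ▸ h2)))
  obtain ⟨g1, g2, g3, g4⟩ := g_cross hX w hw0 a b c e ha hb hc he hp h3 h4
  obtain ⟨p1, p2, p3, -, -, -⟩ := hp
  have hne : ((b, a) : V × V) ≠ (c, e) := fun h => p2.ne (congrArg Prod.fst h)
  rw [← Finset.card_pair hne]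
  apply Finset.card_le_card
  intro x hx
  rw [Finset.mem_insert, Finset.mem_singleton] at hx
  rw [Finset.mem_filter, Finset.mem_product]
  rcases hx with h | h
  · rw [h]
    exact ⟨⟨hb, ha⟩, g2, g1, p1.symm⟩
  · rw [h]
    exact ⟨⟨hc, he⟩, g3, g4, p3⟩

end GCount

end Pool.Agent.Helper856.Q8
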