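import Pool.Agent.Helper856.Q8.Defs
import Pool.Agent.Helper856.Q8.GCross
import Pool.Agent.Helper856.Q8.GEnd
import Pool.Agent.Helper856.Q8.GUniq
import Pool.Agent.Helper856.Q8.PcFacts
import Pool.Agent.Helper856.Q8.Compl

open Classical SimpleGraph

namespace Pool.Agent.Helper856.Q8

open GCross (g_cross)
open GEnd (g_nbr)
open GUniq (g_uniq)
open PcFacts (pc_cross pc_compl clo_compl nh_compl)
open Compl (isp4_compl)

namespace GOver

variable {V : Type} {G : SimpleGraph V}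

theorem g_over_clo {X : Finset V} (hX : Clo G X) {w x y z : V} (hw : w ∉ X) (hx : x ∈ X)
    (hy : y ∈ X) (hz : z ∈ X) : ¬P4s G {w, x, y, z} := by
  intro h
  apply hX _ h
  have : ({w, x, y, z} : Finset V) \ X = {w} := by
    ext v
    simp only [Finset.mem_sdiff, Finset.mem_insert, Finset.mem_singleton]
    constructor
    · rintro ⟨rfl | rfl | rfl | rfl, hv⟩
      · rfl
      · exact absurd hx hv
      · exact absurd hy hv
      · exact absurd hz hv
    · rintro rfl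
      exact ⟨Or.inl rfl, hw⟩
  rw [this]
  exact Finset.card_singleton w

theorem g_over_a {X : Finset V} (hX : Clo G X) {w : V} (hwX : w ∉ X) {m : V} (hm : m ∈ X)
    (hwm : G.Adj w m) {o : V} (ho : o ∈ X) (hwo : ¬G.Adj w o) {o' : V} (ho' : o' ∈ X)
    (hwo' : ¬G.Adj w o') (hoo : G.Adj o o') (hmo : G.Adj m o) : G.Adj m o' := by
  by_contra hcon
  exact g_over_clo hX hwX hm ho ho' ⟨w, m, o, o', ⟨hwm, hmo, hoo, hwo, hwo', hcon⟩, rfl⟩

theorem g_over_b {X : Finset V} (hX : Clo G X) {w : V} (hwX : w ∉ X) {m : V} (hm : m ∈ X)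
    (hwm : G.Adj w m) {m' : V} (hm' : m' ∈ X) (hwm' : G.Adj w m') (hmm : ¬G.Adj m' m) {o : V}
    (ho : o ∈ X) (hwo : ¬G.Adj w o) (hmo : G.Adj m o) : G.Adj m' o := by
  by_contra hcon
  refine g_over_clo hX hwX hm' hm ho ⟨m', w, m, o, ⟨hwm'.symm, hwm, hmo, hmm, hcon, hwo⟩, ?_⟩
  exact Finset.insert_comm _ _ _

theorem g_over_M {X : Finset V} (hX : Clo G X) (hP : PC G X) (w : V) (hw : Nh G X w) (m : V)
    (hm : m ∈ X) (hwm : G.Adj w m) : ∃ o ∈ X, ¬G.Adj w o ∧ G.Adj m o := by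
  have hw' := hw
  obtain ⟨hwX, -, ⟨o0, ho0, ho0w⟩⟩ := hw'
  by_contra hcon
  set C := X.filter (fun m' => G.Adj w m' ∧ ∀ o ∈ X, ¬G.Adj w o → ¬G.Adj m' o) with hC
  have hCm : ∀ v, v ∈ C ↔ v ∈ X ∧ G.Adj w v ∧ ∀ o ∈ X, ¬G.Adj w o → ¬G.Adj v o := by
    intro v
    rw [hC, Finset.mem_filter]
  have hmC : m ∈ C := (hCm m).2 ⟨hm, hwm, fun o ho hwo hmo => hcon ⟨o, ho, hwo, hmo⟩⟩
  have hCX : C ≠ X := by
    intro h
    rw [← h] at ho0
    exact ho0w ((hCm o0).1 ho0).2.1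
  obtain ⟨a, b, c, e, ha, hb, hc, he, hp, ⟨x, hx, hxC⟩, ⟨y, hy, hyC⟩⟩ :=
    pc_cross hP C (Finset.filter_subset _ _) ⟨m, hmC⟩ hCX
  have chain1 : ∀ p ∈ X, ∀ q ∈ X, G.Adj w p → G.Adj w q → ¬G.Adj p q → p ∈ C → q ∈ C := by
    intro p hp q hq hwp hwq hpq hpC
    refine (hCm q).2 ⟨hq, hwq, fun o ho hwo hqo => ?_⟩
    exact ((hCm p).1 hpC).2.2 o ho hwo (g_over_b hX hwX hq hwq hp hwp hpq ho hwo hqo)
  obtain ⟨p1, p2, p3, p4, p5, p6⟩ := hp
  simp only [Finset.mem_insert, Finset.mem_singleton] at hx hy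
  by_cases hall : G.Adj w a ∧ G.Adj w b ∧ G.Adj w c ∧ G.Adj w e
  · obtain ⟨wa, wb, wc, we⟩ := hall
    have c1 : b ∈ C → e ∈ C := chain1 b hb e he wb we p6
    have c2 : e ∈ C → b ∈ C := chain1 e he b hb we wb (fun h => p6 h.symm)
    have c3 : a ∈ C → e ∈ C := chain1 a ha e he wa we p5
    have c4 : e ∈ C → a ∈ C := chain1 e he a ha we wa (fun h => p5 h.symm)
    have c5 : a ∈ C → c ∈ C := chain1 a ha c hc wa wc p4
    have c6 : c ∈ C → a ∈ C := chain1 c hc a ha wc wa (fun h => p4 h.symm)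
    have haC : a ∈ C := by
      rcases hx with rfl | rfl | rfl | rfl
      · exact hxC
      · exact c4 (c1 hxC)
      · exact c6 hxC
      · exact c4 hxC
    rcases hy with rfl | rfl | rfl | rfl
    · exact hyC haC
    · exact hyC (c2 (c3 haC))
    · exact hyC (c5 haC)
    · exact hyC (c3 haC)
  · have hx1 := ((hCm x).1 hxC).2.1
    have h1 : G.Adj w a ∨ G.Adj w b ∨ G.Adj w c ∨ G.Adj w e := by
      rcases hx with rfl | rfl | rfl | rfl <;> tauto
    obtain ⟨k1, k2, k3, k4⟩ := g_cross hX w hwX a b c e ha hb hc he ⟨p1, p2, p3, p4, p5, p6⟩ h1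
      (by tauto)
    rcases hx with rfl | rfl | rfl | rfl
    · exact k1 hx1
    · exact ((hCm _).1 hxC).2.2 a ha k1 p1.symm
    · exact ((hCm _).1 hxC).2.2 e he k4 p3
    · exact k4 hx1

theorem g_over_cr {X : Finset V} (hX : Clo G X) (hP : PC G X) (w : V) (hw : Nh G X w) :
    ∃ a b c e, a ∈ X ∧ b ∈ X ∧ c ∈ X ∧ e ∈ X ∧ IsP4 G a b c e ∧ ¬G.Adj w a ∧ G.Adj w b ∧
      G.Adj w c ∧ ¬G.Adj w e := by
  have hw' := hw
  obtain ⟨hwX, ⟨m0, hm0, hm0w⟩, ⟨o0, ho0, ho0w⟩⟩ := hw'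
  have hne : X.filter (fun v => G.Adj w v) ≠ X := by
    intro h
    rw [← h] at ho0
    exact ho0w (Finset.mem_filter.1 ho0).2
  obtain ⟨a, b, c, e, ha, hb, hc, he, hp, ⟨x, hx, hxC⟩, ⟨y, hy, hyC⟩⟩ :=
    pc_cross hP (X.filter (fun v => G.Adj w v)) (Finset.filter_subset _ _)
      ⟨m0, Finset.mem_filter.2 ⟨hm0, hm0w⟩⟩ hne
  refine ⟨a, b, c, e, ha, hb, hc, he, hp, ?_⟩
  have hx1 := (Finset.mem_filter.1 hxC).2
  simp only [Finset.mem_insert, Finset.mem_singleton] at hx hy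
  have hyX : y ∈ X := by rcases hy with rfl | rfl | rfl | rfl <;> assumption
  have hy1 : ¬G.Adj w y := fun h => hyC (Finset.mem_filter.2 ⟨hyX, h⟩)
  refine g_cross hX w hwX a b c e ha hb hc he hp ?_ ?_
  · rcases hx with rfl | rfl | rfl | rfl <;> tauto
  · rcases hy with rfl | rfl | rfl | rfl <;> tauto

theorem g_over_noM {X : Finset V} (hX : Clo G X) (hP : PC G X) (w : V) (hw : Nh G X w)
    (hM : (X.filter (fun v => G.Adj w v)).card ≤ 4) (a b c e : V) (ha : a ∈ X) (hb : b ∈ X)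
    (hc : c ∈ X) (he : e ∈ X) (h : IsP4 G a b c e) (h4 : ({a, b, c, e} : Finset V).card = 4)
    (wa : G.Adj w a) (wb : G.Adj w b) (wc : G.Adj w c) (we : G.Adj w e) : False := by
  have hwX := hw.1
  have hsub : ({a, b, c, e} : Finset V) ⊆ X.filter (fun v => G.Adj w v) := by
    intro v hv
    simp only [Finset.mem_insert, Finset.mem_singleton] at hv
    rw [Finset.mem_filter]
    rcases hv with rfl | rfl | rfl | rfl
    · exact ⟨ha, wa⟩
    · exact ⟨hb, wb⟩
    · exact ⟨hc, wc⟩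
    · exact ⟨he, we⟩
  have heq := Finset.eq_of_subset_of_card_le hsub (by rw [h4]; exact hM)
  obtain ⟨p1, p2, p3, p4, p5, p6⟩ := h
  have key : ∀ v ∈ X, G.Adj w v → ∀ o ∈ X, ¬G.Adj w o → (G.Adj v o ↔ G.Adj a o) := by
    intro v hv hwv o ho hwo
    have hv' : v ∈ ({a, b, c, e} : Finset V) := by
      rw [heq, Finset.mem_filter]
      exact ⟨hv, hwv⟩
    have e1 : G.Adj e o ↔ G.Adj a o :=
      ⟨g_over_b hX hwX he we ha wa p5 ho hwo,
        g_over_b hX hwX ha wa he we (fun h => p5 h.symm) ho hwo⟩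
    have e2 : G.Adj b o ↔ G.Adj e o :=
      ⟨g_over_b hX hwX hb wb he we (fun h => p6 h.symm) ho hwo,
        g_over_b hX hwX he we hb wb p6 ho hwo⟩
    have e3 : G.Adj c o ↔ G.Adj a o :=
      ⟨g_over_b hX hwX hc wc ha wa p4 ho hwo,
        g_over_b hX hwX ha wa hc wc (fun h => p4 h.symm) ho hwo⟩
    simp only [Finset.mem_insert, Finset.mem_singleton] at hv'
    rcases hv' with rfl | rfl | rfl | rfl
    · exact Iff.rfl
    · exact e2.trans e1
    · exact e3
    · exact e1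
  obtain ⟨a', b', c', e', ha', hb', hc', he', hp', k1, k2, k3, k4⟩ := g_over_cr hX hP w hw
  apply hp'.2.2.2.2.2
  rw [key b' hb' k2 e' he' k4, ← key c' hc' k3 e' he' k4]
  exact hp'.2.2.1

theorem g_over_noO {X : Finset V} (hX : Clo G X) (hP : PC G X) (w : V) (hw : Nh G X w)
    (hM : (X.filter (fun v => ¬G.Adj w v)).card ≤ 4) (a b c e : V) (ha : a ∈ X) (hb : b ∈ X)
    (hc : c ∈ X) (he : e ∈ X) (h : IsP4 G a b c e) (h4 : ({a, b, c, e} : Finset V).card = 4)
    (wa : ¬G.Adj w a) (wb : ¬G.Adj w b) (wc : ¬G.Adj w c) (we : ¬G.Adj w e) : False := by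
  have hwX := hw.1
  have hsub : ({a, b, c, e} : Finset V) ⊆ X.filter (fun v => ¬G.Adj w v) := by
    intro v hv
    simp only [Finset.mem_insert, Finset.mem_singleton] at hv
    rw [Finset.mem_filter]
    rcases hv with rfl | rfl | rfl | rfl
    · exact ⟨ha, wa⟩
    · exact ⟨hb, wb⟩
    · exact ⟨hc, wc⟩
    · exact ⟨he, we⟩
  have heq := Finset.eq_of_subset_of_card_le hsub (by rw [h4]; exact hM)
  obtain ⟨p1, p2, p3, p4, p5, p6⟩ := h
  have key : ∀ v ∈ X, ¬G.Adj w v → ∀ m ∈ X, G.Adj w m → (G.Adj m v ↔ G.Adj m a) := by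
    intro v hv hwv m hm hwm
    have hv' : v ∈ ({a, b, c, e} : Finset V) := by
      rw [heq, Finset.mem_filter]
      exact ⟨hv, hwv⟩
    have e1 : G.Adj m b ↔ G.Adj m a :=
      ⟨g_over_a hX hwX hm hwm hb wb ha wa p1.symm, g_over_a hX hwX hm hwm ha wa hb wb p1⟩
    have e2 : G.Adj m c ↔ G.Adj m b :=
      ⟨g_over_a hX hwX hm hwm hc wc hb wb p2.symm, g_over_a hX hwX hm hwm hb wb hc wc p2⟩
    have e3 : G.Adj m e ↔ G.Adj m c :=
      ⟨g_over_a hX hwX hm hwm he we hc wc p3.symm, g_over_a hX hwX hm hwm hc wc he we p3⟩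
    simp only [Finset.mem_insert, Finset.mem_singleton] at hv'
    rcases hv' with rfl | rfl | rfl | rfl
    · exact Iff.rfl
    · exact e1
    · exact e2.trans e1
    · exact e3.trans (e2.trans e1)
  obtain ⟨a', b', c', e', ha', hb', hc', he', hp', k1, k2, k3, k4⟩ := g_over_cr hX hP w hw
  apply hp'.2.2.2.2.2
  rw [key e' he' k4 b' hb' k2, ← key a' ha' k1 b' hb' k2]
  exact hp'.1.symm

/-- TARGET -/
theorem g_over {q : ℕ} (hq : 8 ≤ q) {X : Finset V} (hc : X.card + 1 = q) (hn : q ≤ np G X + 2)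
    (hX : Clo G X) (hP : PC G X) (w : V) (hw : Nh G X w)
    (he : ((X ×ˢ X).filter (fun e => G.Adj w e.1 ∧ ¬G.Adj w e.2 ∧ G.Adj e.1 e.2)).card ≤ 4) : False := by
  have hwX := hw.1
  set E := (X ×ˢ X).filter (fun e => G.Adj w e.1 ∧ ¬G.Adj w e.2 ∧ G.Adj e.1 e.2) with hE
  have hEm : ∀ m o, (m, o) ∈ E ↔ (m ∈ X ∧ o ∈ X) ∧ G.Adj w m ∧ ¬G.Adj w o ∧ G.Adj m o := by
    intro m o
    rw [hE, Finset.mem_filter, Finset.mem_product]
  have hMsub : X.filter (fun v => G.Adj w v) ⊆ E.image Prod.fst := by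
    intro m hm
    rw [Finset.mem_filter] at hm
    obtain ⟨o, ho, hwo, hmo⟩ := g_over_M hX hP w hw m hm.1 hm.2
    exact Finset.mem_image.2 ⟨(m, o), (hEm m o).2 ⟨⟨hm.1, ho⟩, hm.2, hwo, hmo⟩, rfl⟩
  have hOsub : X.filter (fun v => ¬G.Adj w v) ⊆ E.image Prod.snd := by
    intro o ho
    rw [Finset.mem_filter] at ho
    obtain ⟨m, hm, hwm, hom⟩ := g_nbr hX hP w hw o ho.1 ho.2
    exact Finset.mem_image.2 ⟨(m, o), (hEm m o).2 ⟨⟨hm, ho.1⟩, hwm, ho.2, hom.symm⟩, rfl⟩
  have hM4 : (X.filter (fun v => G.Adj w v)).card ≤ 4 :=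
    (Finset.card_le_card hMsub).trans (Finset.card_image_le.trans he)
  have hO4 : (X.filter (fun v => ¬G.Adj w v)).card ≤ 4 :=
    (Finset.card_le_card hOsub).trans (Finset.card_image_le.trans he)
  let φ : Finset (V × V) → Finset V := fun s => s.image Prod.fst ∪ s.image Prod.snd
  set Q := (E.powersetCard 2).filter (fun s => (φ s).card = 4) with hQ
  have hPQ : (X.powersetCard 4).filter (fun T => P4s G T) ⊆ Q.image φ := by
    intro T hT
    rw [Finset.mem_filter, Finset.mem_powersetCard] at hT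
    obtain ⟨⟨hTX, hT4⟩, a, b, c, e, hp, rfl⟩ := hT
    have ha : a ∈ X := hTX (by simp)
    have hb : b ∈ X := hTX (by simp)
    have hc' : c ∈ X := hTX (by simp)
    have he' : e ∈ X := hTX (by simp)
    have h1 : G.Adj w a ∨ G.Adj w b ∨ G.Adj w c ∨ G.Adj w e := by
      by_contra hcon
      push Not at hcon
      exact g_over_noO hX hP w hw hO4 a b c e ha hb hc' he' hp hT4 hcon.1 hcon.2.1 hcon.2.2.1
        hcon.2.2.2
    have h0 : ¬G.Adj w a ∨ ¬G.Adj w b ∨ ¬G.Adj w c ∨ ¬G.Adj w e := by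
      by_contra hcon
      push Not at hcon
      exact g_over_noM hX hP w hw hM4 a b c e ha hb hc' he' hp hT4 hcon.1 hcon.2.1 hcon.2.2.1
        hcon.2.2.2
    obtain ⟨k1, k2, k3, k4⟩ := g_cross hX w hwX a b c e ha hb hc' he' hp h1 h0
    have hφ : φ {(b, a), (c, e)} = {a, b, c, e} := by
      ext v
      simp only [φ, Finset.mem_union, Finset.image_insert, Finset.image_singleton,
        Finset.mem_insert, Finset.mem_singleton]
      tauto
    refine Finset.mem_image.2 ⟨{(b, a), (c, e)}, ?_, hφ⟩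
    rw [hQ, Finset.mem_filter, Finset.mem_powersetCard]
    refine ⟨⟨?_, ?_⟩, by rw [hφ]; exact hT4⟩
    · intro p hpp
      simp only [Finset.mem_insert, Finset.mem_singleton] at hpp
      rcases hpp with rfl | rfl
      · exact (hEm b a).2 ⟨⟨hb, ha⟩, k2, k1, hp.1.symm⟩
      · exact (hEm c e).2 ⟨⟨hc', he'⟩, k3, k4, hp.2.2.1⟩
    · rw [Finset.card_pair]
      intro h
      have hbc : b = c := congrArg Prod.fst h
      exact G.ne_of_adj hp.2.1 hbc
  have hc1 : np G X ≤ Q.card := (Finset.card_le_card hPQ).trans Finset.card_image_le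
  have hQE : Q.card ≤ (E.powersetCard 2).card := Finset.card_le_card (Finset.filter_subset _ _)
  have hE2 : (E.powersetCard 2).card = E.card.choose 2 := Finset.card_powersetCard 2 E
  have hE2' : E.card.choose 2 ≤ 6 := by
    have := Nat.choose_le_choose 2 he
    have h42 : Nat.choose 4 2 = 6 := by decide
    omega
  have hQeq : Q = E.powersetCard 2 := by
    refine Finset.eq_of_subset_of_card_le (Finset.filter_subset _ _) ?_
    rw [hE2]
    omega
  have hEc : E.card = 4 := by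
    by_contra hcon
    have h3 : E.card ≤ 3 := by omega
    have := Nat.choose_le_choose 2 h3
    have h33 : Nat.choose 3 2 = 3 := by decide
    omega
  have hinj : ∀ e1 ∈ E, ∀ e2 ∈ E, e1 ≠ e2 → e1.1 ≠ e2.1 ∧ e1.2 ≠ e2.2 := by
    intro e1 h1 e2 h2 hne
    have hs : ({e1, e2} : Finset (V × V)) ∈ Q := by
      rw [hQeq, Finset.mem_powersetCard]
      refine ⟨?_, Finset.card_pair hne⟩
      intro p hp
      simp only [Finset.mem_insert, Finset.mem_singleton] at hp
      rcases hp with rfl | rfl <;> assumption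
    have hs4 := (Finset.mem_filter.1 hs).2
    have hφ : φ {e1, e2} = {e1.1, e2.1} ∪ {e1.2, e2.2} := by
      simp only [φ, Finset.image_insert, Finset.image_singleton]
    rw [hφ] at hs4
    have hle := Finset.card_union_le ({e1.1, e2.1} : Finset V) {e1.2, e2.2}
    have hA := Finset.card_le_two (a := e1.1) (b := e2.1)
    have hB := Finset.card_le_two (a := e1.2) (b := e2.2)
    constructor
    · intro h
      have : ({e1.1, e2.1} : Finset V).card = 1 := by rw [h]; simp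
      omega
    · intro h
      have : ({e1.2, e2.2} : Finset V).card = 1 := by rw [h]; simp
      omega
  have hf : (E.image Prod.fst).card = 4 := by
    rw [Finset.card_image_of_injOn, hEc]
    intro e1 h1 e2 h2 h
    by_contra hne
    exact (hinj e1 h1 e2 h2 hne).1 h
  have hs : (E.image Prod.snd).card = 4 := by
    rw [Finset.card_image_of_injOn, hEc]
    intro e1 h1 e2 h2 h
    by_contra hne
    exact (hinj e1 h1 e2 h2 hne).2 h
  have hfM : E.image Prod.fst ⊆ X.filter (fun v => G.Adj w v) := by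
    intro m hm
    obtain ⟨⟨m', o⟩, hmo, rfl⟩ := Finset.mem_image.1 hm
    have := (hEm m' o).1 hmo
    exact Finset.mem_filter.2 ⟨this.1.1, this.2.1⟩
  have hsO : E.image Prod.snd ⊆ X.filter (fun v => ¬G.Adj w v) := by
    intro m hm
    obtain ⟨⟨m', o⟩, hmo, rfl⟩ := Finset.mem_image.1 hm
    have := (hEm m' o).1 hmo
    exact Finset.mem_filter.2 ⟨this.1.2, this.2.2.1⟩
  have t1 := Finset.card_le_card hfM
  have t2 := Finset.card_le_card hsO
  have t3 := Finset.card_filter_add_card_filter_not (s := X) (fun v => G.Adj w v)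
  omega

end GOver

end Pool.Agent.Helper856.Q8
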