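import Pool.Agent.Helper856.Q8.Defs
import Pool.Agent.Helper856.Q8.GUniq
import Pool.Agent.Helper856.Q8.PcFacts

open Classical SimpleGraph

namespace Pool.Agent.Helper856.Q8

open GUniq (g_uniq)
open PcFacts (pc_card)

namespace GPair

variable {V : Type} {G : SimpleGraph V}

/-- TARGET -/
theorem g_pair [Fintype V] (hPr : Prime G) {X : Finset V} (hX : Clo G X) (hP : PC G X)
    (hc : X.card + 2 ≤ Fintype.card V) :
    ∃ w z, Nh G X w ∧ z ∉ X ∧ z ≠ w ∧
      ((G.Adj w z ∧ ∀ x ∈ X, ¬G.Adj z x) ∨ (¬G.Adj w z ∧ ∀ x ∈ X, G.Adj z x)) := by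
  by_contra hcon
  push Not at hcon
  have h4 := pc_card hP
  have hXne : X.Nonempty := by
    rw [← Finset.card_pos]
    omega
  obtain ⟨x0, hx0⟩ := hXne
  have hM : Md G ({v | v ∈ X ∨ Nh G X v} : Set V) := by
    intro v hv
    have hvX : v ∉ X := fun h => hv (Or.inl h)
    have hvN : ¬ Nh G X v := fun h => hv (Or.inr h)
    by_cases hadj : ∃ x ∈ X, G.Adj v x
    · have hall : ∀ x ∈ X, G.Adj v x := by
        intro x hx
        by_contra hn
        exact hvN ⟨hvX, hadj, ⟨x, hx, hn⟩⟩
      have hallM : ∀ x, (x ∈ X ∨ Nh G X x) → G.Adj v x := by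
        intro x hx
        rcases hx with hx | hx
        · exact hall x hx
        · by_contra hn
          have hne : v ≠ x := by
            rintro rfl
            exact hvN hx
          obtain ⟨y, hy, hny⟩ := (hcon x v hx hvX hne).2 (fun h => hn h.symm)
          exact hny (hall y hy)
      intro x hx y hy
      exact ⟨fun _ => hallM y hy, fun _ => hallM x hx⟩
    · have hnone : ∀ x ∈ X, ¬ G.Adj v x := fun x hx h => hadj ⟨x, hx, h⟩
      have hnoneM : ∀ x, (x ∈ X ∨ Nh G X x) → ¬ G.Adj v x := by
        intro x hx h
        rcases hx with hx | hx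
        · exact hnone x hx h
        · have hne : v ≠ x := by
            rintro rfl
            exact hvN hx
          obtain ⟨y, hy, hny⟩ := (hcon x v hx hvX hne).1 h.symm
          exact hnone y hy hny
      intro x hx y hy
      exact ⟨fun h => absurd h (hnoneM x hx), fun h => absurd h (hnoneM y hy)⟩
  have hMu : ({v | v ∈ X ∨ Nh G X v} : Set V) = Set.univ := by
    rcases hPr _ hM with h | h
    · exfalso
      have h1 : X.card ≤ 1 := by
        rw [Finset.card_le_one]
        intro a ha b hb
        exact h (Or.inl ha) (Or.inl hb)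
      omega
    · exact h
  have hcov : ∀ v, v ∈ X ∨ Nh G X v := by
    intro v
    have : v ∈ ({v | v ∈ X ∨ Nh G X v} : Set V) := by
      rw [hMu]
      exact Set.mem_univ v
    exact this
  have hW : Md G ({v | Nh G X v} : Set V) := by
    intro v hv x hx y hy
    have hvX : v ∈ X := by
      rcases hcov v with h | h
      · exact h
      · exact absurd h hv
    have h5 := g_uniq hX hP x y hx hy v hvX
    rw [G.adj_comm v x, G.adj_comm v y]
    exact h5
  rcases hPr _ hW with h | h
  · have h6 : (Finset.univ.filter (fun v => Nh G X v)).card ≤ 1 := by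
      rw [Finset.card_le_one]
      intro a ha b hb
      exact h (Finset.mem_filter.mp ha).2 (Finset.mem_filter.mp hb).2
    have h7 : (Finset.univ : Finset V) ⊆ X ∪ Finset.univ.filter (fun v => Nh G X v) := by
      intro v _
      rw [Finset.mem_union, Finset.mem_filter]
      rcases hcov v with h | h
      · exact Or.inl h
      · exact Or.inr ⟨Finset.mem_univ v, h⟩
    have h8 := (Finset.card_le_card h7).trans (Finset.card_union_le _ _)
    rw [Finset.card_univ] at h8
    omega
  · have h9 : x0 ∈ ({v | Nh G X v} : Set V) := by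
      rw [h]
      exact Set.mem_univ x0
    exact h9.1 hx0

end GPair

end Pool.Agent.Helper856.Q8
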