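import Pool.Agent.Helper856.Q8.Defs
import Pool.Agent.Helper856.Q8.GCount

open Classical SimpleGraph

namespace Pool.Agent.Helper856.Q8

open GCount (g_count)

namespace GSum

variable {V : Type} {G : SimpleGraph V}

/-- TARGET -/
theorem g_sum {q : ℕ} (hq : 8 ≤ q) (hcls : Cls q G) {X : Finset V} (hc : X.card + 1 = q) (hn : q ≤ np G X + 2)
    (w z : V) (hw : w ∉ X) (hz : z ∉ X) (hzw : z ≠ w) (hadj : G.Adj w z) (hz0 : ∀ x ∈ X, ¬G.Adj z x) :
    ((X ×ˢ X).filter (fun e => G.Adj w e.1 ∧ ¬G.Adj w e.2 ∧ G.Adj e.1 e.2)).card ≤ 4 := by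
  set E := (X ×ˢ X).filter (fun e => G.Adj w e.1 ∧ ¬G.Adj w e.2 ∧ G.Adj e.1 e.2) with hE
  set P := (X.powersetCard 4).filter (fun T => P4s G T) with hP
  obtain ⟨u, hu⟩ : ∃ u, X.card = u + 4 := ⟨X.card - 4, by omega⟩
  have hnP : u + 3 ≤ P.card := by
    have : np G X = P.card := rfl
    omega
  have hx : ∀ x ∈ X, (P.filter (fun T => x ∉ T)).card +
      (E.filter (fun e => x ≠ e.1 ∧ x ≠ e.2)).card ≤ u + 3 := by
    intro x hx
    have h1 := g_count w z hw hz hzw hadj hz0 (X.erase x) (Finset.erase_subset x X)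
    have h2 := hcls (insert z (insert w (X.erase x))) (by
      have h3 := Finset.card_insert_le z (insert w (X.erase x))
      have h4 := Finset.card_insert_le w (X.erase x)
      have h5 := Finset.card_erase_of_mem hx
      omega)
    have e1 : np G (X.erase x) = (P.filter (fun T => x ∉ T)).card := by
      unfold np
      congr 1
      ext T
      simp only [hP, Finset.mem_filter, Finset.mem_powersetCard, Finset.subset_erase]
      tauto
    have e2 : ((X.erase x ×ˢ X.erase x).filter
        (fun e => G.Adj w e.1 ∧ ¬G.Adj w e.2 ∧ G.Adj e.1 e.2)).card =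
        (E.filter (fun e => x ≠ e.1 ∧ x ≠ e.2)).card := by
      congr 1
      ext e
      simp only [hE, Finset.mem_filter, Finset.mem_product, Finset.mem_erase]
      constructor
      · rintro ⟨⟨⟨a, b⟩, c, d⟩, f⟩
        exact ⟨⟨⟨b, d⟩, f⟩, fun h => a h.symm, fun h => c h.symm⟩
      · rintro ⟨⟨⟨b, d⟩, f⟩, a, c⟩
        exact ⟨⟨⟨fun h => a h.symm, b⟩, fun h => c h.symm, d⟩, f⟩
    rw [e1, e2] at h1
    omega
  have hsum := Finset.sum_le_sum hx
  rw [Finset.sum_add_distrib, Finset.sum_const, smul_eq_mul] at hsum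
  have s1 : ∑ x ∈ X, (P.filter (fun T => x ∉ T)).card = P.card * u := by
    have : ∑ x ∈ X, (P.filter (fun T => x ∉ T)).card =
        ∑ T ∈ P, (X.filter (fun x => x ∉ T)).card := by
      simp only [Finset.card_filter]
      exact Finset.sum_comm
    rw [this, Finset.sum_const_nat (m := u)]
    intro T hT
    rw [hP, Finset.mem_filter, Finset.mem_powersetCard] at hT
    have e : X.filter (fun x => x ∉ T) = X \ T := by
      ext x
      simp [Finset.mem_sdiff]
    have := Finset.card_sdiff_add_card_eq_card hT.1.1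
    rw [e]
    omega
  have s2 : ∑ x ∈ X, (E.filter (fun e => x ≠ e.1 ∧ x ≠ e.2)).card = E.card * (u + 2) := by
    have : ∑ x ∈ X, (E.filter (fun e => x ≠ e.1 ∧ x ≠ e.2)).card =
        ∑ e ∈ E, (X.filter (fun x => x ≠ e.1 ∧ x ≠ e.2)).card := by
      simp only [Finset.card_filter]
      exact Finset.sum_comm
    rw [this, Finset.sum_const_nat (m := u + 2)]
    intro p hp
    rw [hE, Finset.mem_filter, Finset.mem_product] at hp
    have hne : p.1 ≠ p.2 := hp.2.2.2.ne
    have hsub : ({p.1, p.2} : Finset V) ⊆ X := by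
      intro y hy
      rw [Finset.mem_insert, Finset.mem_singleton] at hy
      rcases hy with rfl | rfl
      · exact hp.1.1
      · exact hp.1.2
    have e : X.filter (fun x => x ≠ p.1 ∧ x ≠ p.2) = X \ {p.1, p.2} := by
      ext x
      simp [Finset.mem_sdiff]
    have h1 := Finset.card_sdiff_add_card_eq_card hsub
    rw [Finset.card_pair hne] at h1
    rw [e]
    omega
  rw [s1, s2, hu] at hsum
  by_contra hcon
  push Not at hcon
  have h5 : 5 ≤ E.card := hcon
  have hu3 : 3 ≤ u := by omega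
  nlinarith

end GSum

end Pool.Agent.Helper856.Q8
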