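import Pool.Agent.Helper856.Q8.Defs
import Pool.Agent.Helper856.Q8.GPair
import Pool.Agent.Helper856.Q8.GCount
import Pool.Agent.Helper856.Q8.GSum
import Pool.Agent.Helper856.Q8.GOver
import Pool.Agent.Helper856.Q8.PcFacts
import Pool.Agent.Helper856.Q8.Compl
import Pool.Agent.Helper856.Q8.GUniq

open Classical SimpleGraph

namespace Pool.Agent.Helper856.Q8

open GPair (g_pair)
open GCount (g_count g_two)
open GSum (g_sum)
open GOver (g_over)
open PcFacts (pc_add pc_compl clo_compl np_compl cls_compl nh_compl)
open Compl (prime_compl)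
open GUniq (g_uniq)

namespace GClaim

variable {V : Type} {G : SimpleGraph V}

theorem g_claim_card {T : Finset V} (h : P4s G T) : T.card = 4 := by
  obtain ⟨a, b, c, d, ⟨h1, h2, h3, h4, h5, h6⟩, rfl⟩ := h
  have hab : a ≠ b := h1.ne
  have hbc : b ≠ c := h2.ne
  have hcd : c ≠ d := h3.ne
  have hac : a ≠ c := by
    rintro rfl
    exact h5 h3
  have had : a ≠ d := by
    rintro rfl
    exact h4 h3.symm
  have hbd : b ≠ d := by
    rintro rfl
    exact h5 h1
  rw [Finset.card_insert_of_notMem, Finset.card_insert_of_notMem, Finset.card_insert_of_notMem,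
    Finset.card_singleton]
  · simp [hcd]
  · simp [hbc, hbd]
  · simp [hab, hac, had]

theorem g_claim_step {H : SimpleGraph V} {q : ℕ} (hq : 8 ≤ q) (hcls : Cls q H) {X : Finset V}
    (hX : Clo H X) (hP : PC H X) (hlt : X.card < q) (hn : X.card ≤ np H X + 1) (w z : V)
    (hw : Nh H X w) (hz : z ∉ X) (hzw : z ≠ w) (hadj : H.Adj w z) (hz0 : ∀ x ∈ X, ¬H.Adj z x) :
    ∃ X' : Finset V, X.card < X'.card ∧ X'.card ≤ q ∧ PC H X' ∧ X'.card ≤ np H X' + 1 := by
  have he := g_two hX hP w hw
  by_cases h : X.card + 2 ≤ q
  · have hcard : (insert z (insert w X)).card = X.card + 2 := by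
      rw [Finset.card_insert_of_notMem, Finset.card_insert_of_notMem hw.1]
      rw [Finset.mem_insert]
      rintro (h' | h')
      · exact hzw h'
      · exact hz h'
    have hcount := g_count w z hw.1 hz hzw hadj hz0 X (Finset.Subset.refl X)
    have hne : ((X ×ˢ X).filter (fun e => H.Adj w e.1 ∧ ¬H.Adj w e.2 ∧ H.Adj e.1 e.2)).Nonempty := by
      rw [← Finset.card_pos]; omega
    obtain ⟨⟨m, o⟩, hmo⟩ := hne
    rw [Finset.mem_filter, Finset.mem_product] at hmo
    obtain ⟨⟨hm, ho⟩, h1, h2, h3⟩ := hmo
    simp only at hm ho h1 h2 h3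
    have hT : P4s H {z, w, m, o} :=
      ⟨z, w, m, o, ⟨hadj.symm, h1, h3, hz0 m hm, hz0 o ho, h2⟩, rfl⟩
    have hTX : (({z, w, m, o} : Finset V) ∩ X).Nonempty :=
      ⟨m, by rw [Finset.mem_inter]; exact ⟨by simp, hm⟩⟩
    have hpc := pc_add hP hT hTX
    have hU : ({z, w, m, o} : Finset V) ∪ X = insert z (insert w X) := by
      ext x
      simp only [Finset.mem_union, Finset.mem_insert, Finset.mem_singleton]
      constructor
      · rintro ((rfl | rfl | rfl | rfl) | h')
        · exact Or.inl rfl
        · exact Or.inr (Or.inl rfl)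
        · exact Or.inr (Or.inr hm)
        · exact Or.inr (Or.inr ho)
        · exact Or.inr (Or.inr h')
      · rintro (rfl | rfl | h')
        · exact Or.inl (Or.inl rfl)
        · exact Or.inl (Or.inr (Or.inl rfl))
        · exact Or.inr h'
    rw [hU] at hpc
    refine ⟨insert z (insert w X), by omega, by omega, hpc, by omega⟩
  · exfalso
    have hc : X.card + 1 = q := by omega
    have hn' : q ≤ np H X + 2 := by omega
    have h4 := g_sum hq hcls hc hn' w z hw.1 hz hzw hadj hz0
    exact g_over hq hc hn' hX hP w hw h4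

/-- TARGET -/
theorem g_claim [Fintype V] {q : ℕ} (hq : 8 ≤ q) (hcls : Cls q G) (hPr : Prime G) (hV : q + 1 ≤ Fintype.card V) :
    ∀ n : ℕ, ∀ X : Finset V, q - X.card = n → X.card ≤ q → PC G X → X.card ≤ np G X + 1 → False := by
  intro n
  induction n using Nat.strong_induction_on with
  | _ n ih =>
    intro X hXn hXq hP hn
    rcases Nat.lt_or_ge X.card q with hlt | hge
    · -- a larger set gives a contradiction
      have key : ∀ X' : Finset V, X.card < X'.card → X'.card ≤ q → PC G X' →
          X'.card ≤ np G X' + 1 → False := by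
        intro X' h1 h2 h3 h4
        exact ih (q - X'.card) (by omega) X' rfl h2 h3 h4
      by_cases hX : Clo G X
      · obtain ⟨w, z, hw, hz, hzw, h⟩ := g_pair hPr hX hP (by omega)
        rcases h with ⟨hadj, hz0⟩ | ⟨hadj, hz0⟩
        · obtain ⟨X', h1, h2, h3, h4⟩ := g_claim_step hq hcls hX hP hlt hn w z hw hz hzw hadj hz0
          exact key X' h1 h2 h3 h4
        · have hadj' : Gᶜ.Adj w z := by
            rw [SimpleGraph.compl_adj]
            exact ⟨hzw.symm, hadj⟩
          have hz0' : ∀ x ∈ X, ¬Gᶜ.Adj z x := by
            intro x hx h'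
            rw [SimpleGraph.compl_adj] at h'
            exact h'.2 (hz0 x hx)
          obtain ⟨X', h1, h2, h3, h4⟩ := g_claim_step hq (cls_compl hcls) (clo_compl hX)
            (pc_compl hP) hlt (by rw [np_compl]; exact hn) w z (nh_compl hw) hz hzw hadj' hz0'
          have h3' := pc_compl h3
          rw [compl_compl] at h3'
          rw [np_compl] at h4
          exact key X' h1 h2 h3' h4
      · unfold Clo at hX
        push Not at hX
        obtain ⟨T, hT, hT1⟩ := hX
        have hT4 := g_claim_card hT
        have hc1 : (T ∪ X).card = X.card + 1 := by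
          have := Finset.card_sdiff_add_card T X
          omega
        have hint : (T ∩ X).Nonempty := by
          rw [← Finset.card_pos]
          have := Finset.card_sdiff_add_card_inter T X
          omega
        have hpc := pc_add hP hT hint
        have hnp : np G X + 1 ≤ np G (T ∪ X) := by
          unfold np
          rw [Nat.add_one_le_iff]
          apply Finset.card_lt_card
          rw [Finset.ssubset_iff_of_subset]
          · refine ⟨T, ?_, ?_⟩
            · rw [Finset.mem_filter, Finset.mem_powersetCard]
              exact ⟨⟨Finset.subset_union_left, hT4⟩, hT⟩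
            · rw [Finset.mem_filter, Finset.mem_powersetCard]
              rintro ⟨⟨h', _⟩, _⟩
              rw [Finset.sdiff_eq_empty_iff_subset.2 h'] at hT1
              simp at hT1
          · intro S hS
            rw [Finset.mem_filter, Finset.mem_powersetCard] at hS ⊢
            exact ⟨⟨hS.1.1.trans Finset.subset_union_right, hS.1.2⟩, hS.2⟩
        exact key (T ∪ X) (by omega) (by omega) hpc (by omega)
    · have hXq' : X.card = q := le_antisymm hXq hge
      have := hcls X hXq
      omega

end GClaim

end Pool.Agent.Helper856.Q8
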