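import Pool.Agent.Helper856.Q8.Defs
import Pool.Agent.Helper856.Q8.GClaim

open Classical SimpleGraph

namespace Pool.Agent.Helper856.Q8

open GClaim (g_claim)

namespace Growth

variable {V : Type} {G : SimpleGraph V}

theorem growth_card {T : Finset V} (h : P4s G T) : T.card = 4 := by
  obtain ⟨a, b, c, d, ⟨h1, h2, h3, h4, h5, h6⟩, rfl⟩ := h
  have n1 : a ≠ b := h1.ne
  have n2 : b ≠ c := h2.ne
  have n3 : c ≠ d := h3.ne
  have n4 : a ≠ c := by
    rintro rfl
    exact h5 h3
  have n5 : a ≠ d := by
    rintro rfl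
    exact h4 h3.symm
  have n6 : b ≠ d := by
    rintro rfl
    exact h5 h1
  rw [Finset.card_insert_of_notMem (by simp [n1, n4, n5]),
    Finset.card_insert_of_notMem (by simp [n2, n6]),
    Finset.card_insert_of_notMem (by simp [n3]), Finset.card_singleton]

theorem growth_sub (L : List (Finset V)) : ∀ T ∈ L, T ⊆ uL L := by
  induction L with
  | nil => intro T hT; simp at hT
  | cons A L ih =>
    intro T hT
    have e : uL (A :: L) = A ∪ uL L := rfl
    rw [e]
    rcases List.mem_cons.1 hT with rfl | h
    · exact Finset.subset_union_left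
    · exact (ih T h).trans Finset.subset_union_right

/-- TARGET -/
theorem growth [Fintype V] {q : ℕ} (hq : 8 ≤ q) (hcls : Cls q G) (hPr : Prime G) (hV : q + 1 ≤ Fintype.card V) :
    Sur G := by
  intro L hne hlen hnd hP hC
  by_contra hlt
  have hnp : L.length ≤ np G (uL L) := by
    rw [← List.toFinset_card_of_nodup hnd]
    refine Finset.card_le_card ?_
    intro T hT
    rw [List.mem_toFinset] at hT
    rw [Finset.mem_filter, Finset.mem_powersetCard]
    exact ⟨⟨growth_sub L T hT, growth_card (hP T hT)⟩, hP T hT⟩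
  exact g_claim hq hcls hPr hV _ (uL L) rfl (by omega) ⟨L, hne, hP, hC, rfl⟩ (by omega)

end Growth

end Pool.Agent.Helper856.Q8
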