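import Pool.Agent.Helper856.Q8.Defs

open Classical SimpleGraph

namespace Pool.Agent.Helper856.Q8

open Pool.Agent.Helper856.Lcw (GLin)

namespace Induce

variable {V : Type} {G : SimpleGraph V}

theorem sur_induce_mem_uL {W : Type} (L : List (Finset W)) (x : W) :
    x ∈ uL L ↔ ∃ T ∈ L, x ∈ T := by
  induction L with
  | nil => simp [uL]
  | cons T L ih =>
    have e : uL (T :: L) = T ∪ uL L := rfl
    rw [e, Finset.mem_union, ih]
    simp

theorem sur_induce_uL (S : Set V) (L : List (Finset S)) :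
    uL (L.map (fun T => T.map (Function.Embedding.subtype _))) =
      (uL L).map (Function.Embedding.subtype _) := by
  ext x
  rw [sur_induce_mem_uL, Finset.mem_map]
  constructor
  · rintro ⟨T, hT, hx⟩
    obtain ⟨T', hT', rfl⟩ := List.mem_map.1 hT
    obtain ⟨y, hy, rfl⟩ := Finset.mem_map.1 hx
    exact ⟨y, (sur_induce_mem_uL L y).2 ⟨T', hT', hy⟩, rfl⟩
  · rintro ⟨y, hy, rfl⟩
    obtain ⟨T', hT', hy'⟩ := (sur_induce_mem_uL L y).1 hy
    exact ⟨_, List.mem_map.2 ⟨T', hT', rfl⟩, Finset.mem_map.2 ⟨y, hy', rfl⟩⟩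

theorem sur_induce_Cn (S : Set V) (L : List (Finset S)) (h : Cn L) :
    Cn (L.map (fun T => T.map (Function.Embedding.subtype _))) := by
  induction L with
  | nil => exact h
  | cons T L ih =>
    obtain ⟨h1, h2⟩ := h
    refine ⟨fun hne => ?_, ih h2⟩
    have hL : L ≠ [] := by
      rintro rfl
      exact hne rfl
    obtain ⟨x, hx0⟩ := h1 hL
    have hx := (@Finset.mem_inter _ (fun a b => Classical.propDecidable (a = b)) _ _ _).1 hx0
    refine ⟨x.1, ?_⟩
    rw [Finset.mem_inter]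
    refine ⟨Finset.mem_map.2 ⟨x, hx.1, rfl⟩, ?_⟩
    rw [sur_induce_uL]
    exact Finset.mem_map.2 ⟨x, hx.2, rfl⟩

/-- TARGET -/
theorem sur_induce (h : Sur G) (S : Set V) : Sur (G.induce S) := by
  intro L hne hlen hnd hP hC
  have key := h (L.map (fun T => T.map (Function.Embedding.subtype _)))
    (by simpa using hne) (by rw [List.length_map]; exact hlen)
    (hnd.map (Finset.map_injective _)) (by
      intro T hT
      obtain ⟨T', hT', rfl⟩ := List.mem_map.1 hT
      obtain ⟨a, b, c, d, ⟨h1, h2, h3, h4, h5, h6⟩, rfl⟩ := hP T' hT'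
      refine ⟨a.1, b.1, c.1, d.1, ⟨h1, h2, h3, h4, h5, h6⟩, ?_⟩
      ext x
      simp only [Finset.mem_map, Finset.mem_insert, Finset.mem_singleton,
        Function.Embedding.subtype_apply]
      constructor
      · rintro ⟨y, hy, rfl⟩
        rcases hy with rfl | rfl | rfl | rfl
        · exact Or.inl rfl
        · exact Or.inr (Or.inl rfl)
        · exact Or.inr (Or.inr (Or.inl rfl))
        · exact Or.inr (Or.inr (Or.inr rfl))
      · rintro (rfl | rfl | rfl | rfl)
        · exact ⟨a, Or.inl rfl, rfl⟩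
        · exact ⟨b, Or.inr (Or.inl rfl), rfl⟩
        · exact ⟨c, Or.inr (Or.inr (Or.inl rfl)), rfl⟩
        · exact ⟨d, Or.inr (Or.inr (Or.inr rfl)), rfl⟩) (sur_induce_Cn S L hC)
  rw [List.length_map, sur_induce_uL, Finset.card_map] at key
  exact key

/-- TARGET -/
theorem nc4_induce (h : NC4 G) (S : Set V) : NC4 (G.induce S) := by
  intro a b c d h1 h2 h3 h4 hac hbd
  exact h a.1 b.1 c.1 d.1 h1 h2 h3 h4 (fun h' => hac (Subtype.ext h'))
    (fun h' => hbd (Subtype.ext h'))

/-- TARGET -/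
theorem sf_induce {m : ℕ} (h : SF G m) (S : Set V) : SF (G.induce S) m := by
  intro a b
  have h1 := h (fun i => (a i).1) (fun i => (b i).1)
  exact ⟨fun hT => h1.1 ⟨hT.1, hT.2.1, hT.2.2⟩, fun hT => h1.2 ⟨hT.1, hT.2.1, hT.2.2⟩⟩

end Induce

end Pool.Agent.Helper856.Q8
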