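import Pool.Agent.Helper856.Q8.Defs
import Pool.Agent.Helper856.Q8.KeptF

open Classical SimpleGraph

namespace Pool.Agent.Helper856.Q8

open KeptF (kept_leg leg_kept not_kept avoid)

namespace PrimeKept

variable {V : Type} {G : SimpleGraph V}

theorem prime_kept_leg {P : Finset (Finset (V × V))} {K : Finset (V × V) → Finset (V × V)}
    (h : Fam G P K) (M0 : Set V)
    (hA : ∀ v ∈ kept P K, v ∉ M0 → ∀ x ∈ M0, ∀ y ∈ M0, (G.Adj v x ↔ G.Adj v y))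
    (c : Finset (V × V)) (hc : c ∈ P) (hno : ∀ y ∈ K c, ¬ (y.1 ∈ M0 ∧ y.2 ∈ M0)) :
    ∃ y ∈ K c, y.1 ∉ M0 ∧ y.2 ∉ M0 := by
  obtain ⟨hsub, hcard⟩ := h.2.2 c hc
  have h1 : ((K c).filter (fun y => y.1 ∈ M0)).card ≤ 1 := by
    rw [Finset.card_le_one]
    intro y hy y' hy'
    rw [Finset.mem_filter] at hy hy'
    by_contra hne
    have hp := h.1 c hc y (hsub hy.1) y' (hsub hy'.1) hne
    have hy2 : y.2 ∉ M0 := fun h2 => hno y hy.1 ⟨hy.2, h2⟩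
    have hs := (kept_leg h c hc y hy.1).2
    have ha := hA y.2 hs hy2 y.1 hy.2 y'.1 hy'.2
    obtain ⟨_, _, _, _, _, _, _, _, _, _, hq, _⟩ := hp
    rw [G.adj_comm y.2 y.1, G.adj_comm y.2 y'.1] at ha
    tauto
  have h2 : ((K c).filter (fun y => y.2 ∈ M0)).card ≤ 1 := by
    rw [Finset.card_le_one]
    intro y hy y' hy'
    rw [Finset.mem_filter] at hy hy'
    by_contra hne
    have hp := h.1 c hc y (hsub hy.1) y' (hsub hy'.1) hne
    have hy1 : y.1 ∉ M0 := fun h2 => hno y hy.1 ⟨h2, hy.2⟩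
    have hs := (kept_leg h c hc y hy.1).1
    have ha := hA y.1 hs hy1 y.2 hy.2 y'.2 hy'.2
    obtain ⟨_, _, _, _, _, _, _, _, _, hq, _, _⟩ := hp
    tauto
  by_contra hcon
  push Not at hcon
  have h3 : K c ⊆ (K c).filter (fun y => y.1 ∈ M0) ∪ (K c).filter (fun y => y.2 ∈ M0) := by
    intro y hy
    rw [Finset.mem_union, Finset.mem_filter, Finset.mem_filter]
    by_cases hy1 : y.1 ∈ M0
    · exact Or.inl ⟨hy, hy1⟩
    · exact Or.inr ⟨hy, hcon y hy hy1⟩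
  have h4 := (Finset.card_le_card h3).trans (Finset.card_union_le _ _)
  omega

/-- TARGET -/
theorem prime_kept [Fintype V] {P : Finset (Finset (V × V))} {K : Finset (V × V) → Finset (V × V)} (h : Fam G P K)
    (hP : Prime G) : Prime (G.induce (kept P K)) := by
  intro M hM
  by_cases hsub : M.Subsingleton
  · exact Or.inl hsub
  right
  set M0 : Set V := Subtype.val '' M with hM0
  have hA : ∀ v ∈ kept P K, v ∉ M0 → ∀ x ∈ M0, ∀ y ∈ M0, (G.Adj v x ↔ G.Adj v y) := by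
    rintro v hv hvM _ ⟨x, hx, rfl⟩ _ ⟨y, hy, rfl⟩
    have hv' : (⟨v, hv⟩ : kept P K) ∉ M := fun h' => hvM ⟨_, h', rfl⟩
    exact hM ⟨v, hv⟩ hv' x hx y hy
  have hM0S : ∀ v ∈ M0, v ∈ kept P K := by
    rintro _ ⟨x, _, rfl⟩
    exact x.2
  set R : Set V := {v | ∃ c ∈ P, ∃ x ∈ c, x ∉ K c ∧ (v = x.1 ∨ v = x.2) ∧
    ∃ y ∈ K c, y.1 ∈ M0 ∧ y.2 ∈ M0} with hR
  have hii : ∀ u ∈ M0 ∪ R, ∃ u' ∈ M0, ∀ w, w ∉ M0 ∪ R → (G.Adj w u ↔ G.Adj w u') := by
    rintro u (hu | ⟨c, hc, x, hx, hxK, hux, y, hy, hy1, hy2⟩)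
    · exact ⟨u, hu, fun _ _ => Iff.rfl⟩
    · have hne : x ≠ y := fun h' => hxK (h' ▸ hy)
      have hp := h.1 c hc x hx y ((h.2.2 c hc).1 hy) hne
      obtain ⟨_, _, _, _, _, _, _, _, _, _, _, hl⟩ := hp
      have hx1 : x.1 ∈ R := ⟨c, hc, x, hx, hxK, Or.inl rfl, y, hy, hy1, hy2⟩
      have hx2 : x.2 ∈ R := ⟨c, hc, x, hx, hxK, Or.inr rfl, y, hy, hy1, hy2⟩
      have key : ∀ w, w ∉ M0 ∪ R → (G.Adj w x.1 ↔ G.Adj w y.1) ∧ (G.Adj w x.2 ↔ G.Adj w y.2) := by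
        intro w hw
        apply hl w
        · rintro rfl; exact hw (Or.inr hx1)
        · rintro rfl; exact hw (Or.inr hx2)
        · rintro rfl; exact hw (Or.inl hy1)
        · rintro rfl; exact hw (Or.inl hy2)
      rcases hux with rfl | rfl
      · exact ⟨y.1, hy1, fun w hw => (key w hw).1⟩
      · exact ⟨y.2, hy2, fun w hw => (key w hw).2⟩
  have hiii : ∀ w, w ∉ M0 ∪ R → ∃ w' ∈ kept P K, w' ∉ M0 ∧ ∀ m ∈ M0, (G.Adj w m ↔ G.Adj w' m) := by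
    intro w hw
    by_cases hwS : w ∈ kept P K
    · exact ⟨w, hwS, fun h' => hw (Or.inl h'), fun _ _ => Iff.rfl⟩
    · obtain ⟨c, hc, x, hx, hxK, hwx⟩ := not_kept w hwS
      have hno : ∀ y ∈ K c, ¬ (y.1 ∈ M0 ∧ y.2 ∈ M0) := by
        intro y hy hyy
        exact hw (Or.inr ⟨c, hc, x, hx, hxK, hwx, y, hy, hyy⟩)
      obtain ⟨y, hy, hy1, hy2⟩ := prime_kept_leg h M0 hA c hc hno
      have hne : x ≠ y := fun h' => hxK (h' ▸ hy)
      have hp := h.1 c hc x hx y ((h.2.2 c hc).1 hy) hne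
      obtain ⟨_, _, _, _, _, _, _, _, _, _, _, hl⟩ := hp
      have key : ∀ m ∈ M0, (G.Adj m x.1 ↔ G.Adj m y.1) ∧ (G.Adj m x.2 ↔ G.Adj m y.2) := by
        intro m hm
        have hms := hM0S m hm c hc x hx hxK
        apply hl m hms.1 hms.2
        · rintro rfl; exact hy1 hm
        · rintro rfl; exact hy2 hm
      obtain ⟨hk1, hk2⟩ := kept_leg h c hc y hy
      rcases hwx with rfl | rfl
      · refine ⟨y.1, hk1, hy1, fun m hm => ?_⟩
        rw [G.adj_comm x.1 m, G.adj_comm y.1 m]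
        exact (key m hm).1
      · refine ⟨y.2, hk2, hy2, fun m hm => ?_⟩
        rw [G.adj_comm x.2 m, G.adj_comm y.2 m]
        exact (key m hm).2
  have hMd : Md G (M0 ∪ R) := by
    intro w hw u1 hu1 u2 hu2
    obtain ⟨v1, hv1, e1⟩ := hii u1 hu1
    obtain ⟨v2, hv2, e2⟩ := hii u2 hu2
    obtain ⟨w', hw'S, hw'M, e3⟩ := hiii w hw
    rw [e1 w hw, e2 w hw, e3 v1 hv1, e3 v2 hv2]
    exact hA w' hw'S hw'M v1 hv1 v2 hv2
  rcases hP _ hMd with hs | hu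
  · exfalso
    apply hsub
    intro a ha b hb
    exact Subtype.ext (hs (Or.inl ⟨a, ha, rfl⟩) (Or.inl ⟨b, hb, rfl⟩))
  · rw [Set.eq_univ_iff_forall]
    intro s
    have hs : (s : V) ∈ M0 ∪ R := by rw [hu]; exact Set.mem_univ _
    rcases hs with ⟨t, ht, hts⟩ | ⟨c, hc, x, hx, hxK, hsx, _⟩
    · rw [← Subtype.ext hts]; exact ht
    · exfalso
      have hk := s.2 c hc x hx hxK
      rcases hsx with h1 | h1
      · exact hk.1 h1
      · exact hk.2 h1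

end PrimeKept

end Pool.Agent.Helper856.Q8
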