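import Pool.Agent.Helper856.Q8.Defs
import Pool.Agent.Helper856.Q8.KeptF

open Classical SimpleGraph

namespace Pool.Agent.Helper856.Q8

open KeptF (kept_leg leg_kept not_kept avoid)

namespace ParLift

variable {V : Type} {G : SimpleGraph V}

/-- TARGET -/
theorem par_lift {P : Finset (Finset (V × V))} {K : Finset (V × V) → Finset (V × V)} (h : Fam G P K)
    (a b a' b' : kept P K) (hp : Par2 (G.induce (kept P K)) a b a' b') :
    Par2 G (a : V) (b : V) (a' : V) (b' : V) := by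
  obtain ⟨h1, h2, h3, h4, h5, h6, h7, h8, h9, h10, h11, h12⟩ := hp
  refine ⟨fun e => h1 (Subtype.ext e), fun e => h2 (Subtype.ext e), fun e => h3 (Subtype.ext e),
    fun e => h4 (Subtype.ext e), fun e => h5 (Subtype.ext e), fun e => h6 (Subtype.ext e),
    h7, h8, h9, h10, h11, ?_⟩
  intro v hva hvb hva' hvb'
  by_cases hv : v ∈ kept P K
  · exact h12 ⟨v, hv⟩ (fun e => hva (congrArg Subtype.val e)) (fun e => hvb (congrArg Subtype.val e))
      (fun e => hva' (congrArg Subtype.val e)) (fun e => hvb' (congrArg Subtype.val e))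
  · obtain ⟨c, hc, x, hx, hxK, hvx⟩ := not_kept v hv
    obtain ⟨y, hy, hy1, hy2⟩ := avoid h c hc {(a : V), (b : V), (a' : V), (b' : V)}
      Finset.card_le_four
    simp only [Finset.mem_insert, Finset.mem_singleton, not_or] at hy1 hy2
    have hyc : y ∈ c := (h.2.2 c hc).1 hy
    have hxy : x ≠ y := by
      rintro rfl
      exact hxK hy
    have hpar := h.1 c hc x hx y hyc hxy
    have hlast := hpar.2.2.2.2.2.2.2.2.2.2.2
    have hk : ∀ u : kept P K, (u : V) ≠ y.1 → (u : V) ≠ y.2 →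
        (G.Adj u x.1 ↔ G.Adj u y.1) ∧ (G.Adj u x.2 ↔ G.Adj u y.2) := by
      intro u hu1 hu2
      have hu := u.2 c hc x hx hxK
      exact hlast u hu.1 hu.2 hu1 hu2
    have ka := hk a (Ne.symm hy1.1) (Ne.symm hy2.1)
    have kb := hk b (Ne.symm hy1.2.1) (Ne.symm hy2.2.1)
    have ka' := hk a' (Ne.symm hy1.2.2.1) (Ne.symm hy2.2.2.1)
    have kb' := hk b' (Ne.symm hy1.2.2.2) (Ne.symm hy2.2.2.2)
    have hykept := kept_leg h c hc y hy
    rcases hvx with rfl | rfl
    · have h13 := h12 ⟨y.1, hykept.1⟩ (fun e => hy1.1 (congrArg Subtype.val e))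
        (fun e => hy1.2.1 (congrArg Subtype.val e)) (fun e => hy1.2.2.1 (congrArg Subtype.val e))
        (fun e => hy1.2.2.2 (congrArg Subtype.val e))
      have h14 : (G.Adj y.1 a ↔ G.Adj y.1 a') ∧ (G.Adj y.1 b ↔ G.Adj y.1 b') := h13
      rw [G.adj_comm x.1 a, G.adj_comm x.1 b, G.adj_comm x.1 a', G.adj_comm x.1 b', ka.1, kb.1,
        ka'.1, kb'.1, G.adj_comm a, G.adj_comm b, G.adj_comm a', G.adj_comm b']
      exact h14
    · have h13 := h12 ⟨y.2, hykept.2⟩ (fun e => hy2.1 (congrArg Subtype.val e))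
        (fun e => hy2.2.1 (congrArg Subtype.val e)) (fun e => hy2.2.2.1 (congrArg Subtype.val e))
        (fun e => hy2.2.2.2 (congrArg Subtype.val e))
      have h14 : (G.Adj y.2 a ↔ G.Adj y.2 a') ∧ (G.Adj y.2 b ↔ G.Adj y.2 b') := h13
      rw [G.adj_comm x.2 a, G.adj_comm x.2 b, G.adj_comm x.2 a', G.adj_comm x.2 b', ka.2, kb.2,
        ka'.2, kb'.2, G.adj_comm a, G.adj_comm b, G.adj_comm a', G.adj_comm b']
      exact h14

end ParLift

end Pool.Agent.Helper856.Q8
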