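import Pool.Agent.Helper856.Q8.Defs
import Pool.Agent.Helper856.Q8.Sound

open Classical SimpleGraph

namespace Pool.Agent.Helper856.Q8

open Sound (chk_sound)

namespace S1Thick

variable {V : Type} {G : SimpleGraph V}

theorem s1_thick_maskA : ∀ i j : Fin 16, (i : ℕ) < j →
    tb 31525987679994094 i j = true →
      ((j : ℕ) < 4 ∨ ((i : ℕ) < 4 ∧ 4 ≤ (j : ℕ) ∧ (j : ℕ) < 8 ∧ (j : ℕ) - 4 ≠ i)) := by
  decide +kernel

theorem s1_thick_maskB : ∀ i j : Fin 16, (i : ℕ) < j →
    tb 10141436919715307922358007758864 i j = true →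
      (((i : ℕ) < 4 ∧ 4 ≤ (j : ℕ) ∧ (j : ℕ) < 8 ∧ (j : ℕ) - 4 = i) ∨
        (4 ≤ (i : ℕ) ∧ (j : ℕ) < 8)) := by
  decide +kernel

theorem s1_thick_diag : ∀ i : Fin 16, tb 31525987679994094 i i = false ∧
    tb 10141436919715307922358007758864 i i = false := by
  decide +kernel

theorem s1_thick_ne (a b : Fin 4 → V) (h : Thick G 4 a b) :
    (∀ i j, i ≠ j → b i ≠ b j) ∧ (∀ i j, i ≠ j → a i ≠ a j) ∧ (∀ i j, a i ≠ b j) := by
  obtain ⟨h1, h2, h3⟩ := h
  refine ⟨fun i j hij he => ?_, fun i j hij he => ?_, fun i j he => ?_⟩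
  · have := h1 i j hij
    rw [he] at this
    exact G.loopless.irrefl _ this
  · have k1 := (h3 i j).2 hij
    rw [he] at k1
    exact ((h3 j j).1 k1) rfl
  · by_cases hij : i = j
    · subst hij
      obtain ⟨k, hk⟩ : ∃ k : Fin 4, k ≠ i := exists_ne i
      have k1 := (h3 k i).2 hk
      rw [← he] at k1
      exact h2 k i hk k1
    · have k1 := h1 j i (Ne.symm hij)
      rw [← he] at k1
      exact ((h3 i i).1 k1) rfl

/-- the numbering of the vertices -/
def s1_thick_f (a b : Fin 4 → V) (v : V) (k : ℕ) : V :=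
  if h : k < 4 then b ⟨k, h⟩ else if h' : k < 8 then a ⟨k - 4, by omega⟩ else v

theorem s1_thick_f1 (a b : Fin 4 → V) (v : V) (i : Fin 4) : s1_thick_f a b v i = b i := by
  unfold s1_thick_f
  rw [dif_pos i.2]

theorem s1_thick_f2 (a b : Fin 4 → V) (v : V) (i : Fin 4) : s1_thick_f a b v (4 + i) = a i := by
  unfold s1_thick_f
  have := i.2
  rw [dif_neg (by omega), dif_pos (by omega)]
  congr 1
  apply Fin.ext
  simp

theorem s1_thick_f3 (a b : Fin 4 → V) (v : V) : s1_thick_f a b v 8 = v := by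
  unfold s1_thick_f
  rw [dif_neg (by omega), dif_neg (by omega)]

theorem s1_thick_leg {a b : Fin 4 → V} {v : V} {a' b' : ℕ}
    (hA : ∀ i j, i < j → j < 16 → tb a' i j = true →
      G.Adj (s1_thick_f a b v i) (s1_thick_f a b v j))
    (hB : ∀ i j, i < j → j < 16 → tb b' i j = true →
      ¬G.Adj (s1_thick_f a b v i) (s1_thick_f a b v j)) (i j : Fin 4)
    (h : eqleg a' b' 8 i j = true) :
    (G.Adj v (a i) ↔ G.Adj v (a j)) ∧ (G.Adj v (b i) ↔ G.Adj v (b j)) := by
  have hi := i.2
  have hj := j.2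
  have c1 : ∀ k : Fin 4, tb a' k 8 = true → G.Adj v (b k) := by
    intro k hk
    have := hA k 8 (by omega) (by omega) hk
    rw [s1_thick_f1, s1_thick_f3] at this
    exact this.symm
  have c2 : ∀ k : Fin 4, tb b' k 8 = true → ¬ G.Adj v (b k) := by
    intro k hk hadj
    have := hB k 8 (by omega) (by omega) hk
    rw [s1_thick_f1, s1_thick_f3] at this
    exact this hadj.symm
  have c3 : ∀ k : Fin 4, tb a' (4 + k) 8 = true → G.Adj v (a k) := by
    intro k hk
    have := hA (4 + k) 8 (by omega) (by omega) hk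
    rw [s1_thick_f2, s1_thick_f3] at this
    exact this.symm
  have c4 : ∀ k : Fin 4, tb b' (4 + k) 8 = true → ¬ G.Adj v (a k) := by
    intro k hk hadj
    have := hB (4 + k) 8 (by omega) (by omega) hk
    rw [s1_thick_f2, s1_thick_f3] at this
    exact this hadj.symm
  unfold eqleg at h
  simp only [Bool.and_eq_true, Bool.or_eq_true] at h
  obtain ⟨h1, h2⟩ := h
  constructor
  · rcases h2 with ⟨x, y⟩ | ⟨x, y⟩
    · exact ⟨fun _ => c3 j y, fun _ => c3 i x⟩
    · exact ⟨fun hh => absurd hh (c4 i x), fun hh => absurd hh (c4 j y)⟩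
  · rcases h1 with ⟨x, y⟩ | ⟨x, y⟩
    · exact ⟨fun _ => c1 j y, fun _ => c1 i x⟩
    · exact ⟨fun hh => absurd hh (c2 i x), fun hh => absurd hh (c2 j y)⟩

theorem s1_thick_fin (E : Fin 4 → Fin 4 → Prop) (hs : ∀ i j, E i j → E j i)
    (ht : ∀ i j k, E i j → E j k → E i k) (z c : Fin 4) (hc : ∀ i, i ≠ z → E c i) :
    ∃ z : Fin 4, ∀ i j, i ≠ z → j ≠ z → E i j :=
  ⟨z, fun i j hi hj => ht i c j (hs c i (hc i hi)) (hc j hj)⟩

/-- TARGET -/
theorem s1_thick (t : Tr) (ht : chk true 511 QS1 t 31525987679994094 10141436919715307922358007758864 = true)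
    (hS : Sur G) (h4 : NC4 G) (a b : Fin 4 → V) (h : Thick G 4 a b) (v : V) (hv : ∀ i, v ≠ a i ∧ v ≠ b i) :
    ∃ z : Fin 4, ∀ i j, i ≠ z → j ≠ z → (G.Adj v (a i) ↔ G.Adj v (a j)) ∧ (G.Adj v (b i) ↔ G.Adj v (b j)) := by
  obtain ⟨n1, n2, n3⟩ := s1_thick_ne a b h
  have hlt : ∀ i, (511 : ℕ).testBit i = true → i < 9 := by
    intro i hi
    by_contra hcon
    have h1 : (511 : ℕ).testBit i = false := by
      apply Nat.testBit_lt_two_pow
      calc (511 : ℕ) < 2 ^ 9 := by norm_num
        _ ≤ 2 ^ i := Nat.pow_le_pow_right (by norm_num) (by omega)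
    rw [h1] at hi
    exact absurd hi (by simp)
  have hne : ∀ i j, i < j → j < 9 → s1_thick_f a b v i ≠ s1_thick_f a b v j := by
    intro i j hij hj
    unfold s1_thick_f
    by_cases hi4 : i < 4
    · rw [dif_pos hi4]
      by_cases hj4 : j < 4
      · rw [dif_pos hj4]
        apply n1
        intro he
        have := congrArg Fin.val he
        simp only at this
        omega
      · rw [dif_neg hj4]
        by_cases hj8 : j < 8
        · rw [dif_pos hj8]
          exact (n3 _ _).symm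
        · rw [dif_neg hj8]
          exact (hv _).2.symm
    · rw [dif_neg hi4, dif_pos (by omega), dif_neg (by omega)]
      by_cases hj8 : j < 8
      · rw [dif_pos hj8]
        apply n2
        intro he
        have := congrArg Fin.val he
        simp only at this
        omega
      · rw [dif_neg hj8]
        exact (hv _).1.symm
  refine chk_sound (al := 511) hS (fun _ => h4) (s1_thick_f a b v) ?_ _ t
    31525987679994094 10141436919715307922358007758864 ?_ ?_ ?_ ?_ ht
  · intro i j hi hj he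
    by_contra hij
    rcases lt_or_gt_of_ne hij with h1 | h1
    · exact hne i j h1 (hlt j hj) he
    · exact hne j i h1 (hlt i hi) he.symm
  · intro a' b' hA hB hQ
    have hleg := s1_thick_leg hA hB
    have hs : ∀ i j : Fin 4, ((G.Adj v (a i) ↔ G.Adj v (a j)) ∧ (G.Adj v (b i) ↔ G.Adj v (b j))) →
        ((G.Adj v (a j) ↔ G.Adj v (a i)) ∧ (G.Adj v (b j) ↔ G.Adj v (b i))) :=
      fun i j hh => ⟨hh.1.symm, hh.2.symm⟩
    have htr : ∀ i j k : Fin 4,
        ((G.Adj v (a i) ↔ G.Adj v (a j)) ∧ (G.Adj v (b i) ↔ G.Adj v (b j))) →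
        ((G.Adj v (a j) ↔ G.Adj v (a k)) ∧ (G.Adj v (b j) ↔ G.Adj v (b k))) →
        ((G.Adj v (a i) ↔ G.Adj v (a k)) ∧ (G.Adj v (b i) ↔ G.Adj v (b k))) :=
      fun i j k h1 h2 => ⟨h1.1.trans h2.1, h1.2.trans h2.2⟩
    have hr : ∀ i : Fin 4,
        ((G.Adj v (a i) ↔ G.Adj v (a i)) ∧ (G.Adj v (b i) ↔ G.Adj v (b i))) :=
      fun i => ⟨Iff.rfl, Iff.rfl⟩
    unfold QS1 at hQ
    simp only [Bool.and_eq_true, Bool.or_eq_true] at hQ
    rcases hQ with ((⟨q1, q2⟩ | ⟨q1, q2⟩) | ⟨q1, q2⟩) | ⟨q1, q2⟩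
    · refine s1_thick_fin _ hs htr 0 1 (fun i hi => ?_)
      have e1 := hleg 1 2 q1
      have e2 := hleg 1 3 q2
      fin_cases i
      · exact absurd rfl hi
      · exact hr 1
      · exact e1
      · exact e2
    · refine s1_thick_fin _ hs htr 1 0 (fun i hi => ?_)
      have e1 := hleg 0 2 q1
      have e2 := hleg 0 3 q2
      fin_cases i
      · exact hr 0
      · exact absurd rfl hi
      · exact e1
      · exact e2
    · refine s1_thick_fin _ hs htr 2 0 (fun i hi => ?_)
      have e1 := hleg 0 1 q1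
      have e2 := hleg 0 3 q2
      fin_cases i
      · exact hr 0
      · exact e1
      · exact absurd rfl hi
      · exact e2
    · refine s1_thick_fin _ hs htr 3 0 (fun i hi => ?_)
      have e1 := hleg 0 1 q1
      have e2 := hleg 0 2 q2
      fin_cases i
      · exact hr 0
      · exact e1
      · exact e2
      · exact absurd rfl hi
  · intro i hi
    exact s1_thick_diag ⟨i, hi⟩
  · intro i j hij hj hb
    obtain ⟨h1, h2, h3⟩ := h
    have := s1_thick_maskA ⟨i, by omega⟩ ⟨j, hj⟩ hij hb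
    simp only at this
    unfold s1_thick_f
    rcases this with hj4 | ⟨hi4, hj4, hj8, hne'⟩
    · rw [dif_pos (by omega), dif_pos hj4]
      apply h1
      intro he
      have := congrArg Fin.val he
      simp only at this
      omega
    · rw [dif_pos hi4, dif_neg (by omega), dif_pos hj8]
      apply SimpleGraph.Adj.symm
      rw [h3]
      intro he
      have := congrArg Fin.val he
      simp only at this
      omega
  · intro i j hij hj hb
    obtain ⟨h1, h2, h3⟩ := h
    have := s1_thick_maskB ⟨i, by omega⟩ ⟨j, hj⟩ hij hb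
    simp only at this
    unfold s1_thick_f
    rcases this with ⟨hi4, hj4, hj8, hne'⟩ | ⟨hi4, hj8⟩
    · rw [dif_pos hi4, dif_neg (by omega), dif_pos hj8]
      intro hadj
      have h5 := (h3 _ _).1 hadj.symm
      apply h5
      apply Fin.ext
      exact hne'
    · rw [dif_neg (by omega), dif_pos (by omega), dif_neg (by omega), dif_pos hj8]
      apply h2
      intro he
      have := congrArg Fin.val he
      simp only at this
      omega

end S1Thick

end Pool.Agent.Helper856.Q8
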