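import Pool.Agent.Helper856.Q8.Defs
import Pool.Agent.Helper856.Q8.Sound

open Classical SimpleGraph

namespace Pool.Agent.Helper856.Q8

open Sound (chk_sound)

namespace S1Thin

variable {V : Type} {G : SimpleGraph V}

/-- the points of the configuration -/
def fS (a b : Fin 4 → V) (v : V) (k : ℕ) : V :=
  match k with
  | 0 => b 0
  | 1 => b 1
  | 2 => b 2
  | 3 => b 3
  | 4 => a 0
  | 5 => a 1
  | 6 => a 2
  | 7 => a 3
  | _ => v

theorem maskA : ∀ i j : Fin 16, i < j → tb 36029106259492894 i j = true →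
    (i.val, j.val) ∈ [(0,1),(0,2),(0,3),(1,2),(1,3),(2,3),(0,4),(1,5),(2,6),(3,7)] := by
  decide +kernel

theorem maskB : ∀ i j : Fin 16, i < j → tb 10141436919715303419239428260064 i j = true →
    (i.val, j.val) ∈ [(0,5),(0,6),(0,7),(1,4),(1,6),(1,7),(2,4),(2,5),(2,7),(3,4),(3,5),(3,6),
      (4,5),(4,6),(4,7),(5,6),(5,7),(6,7)] := by
  decide +kernel

theorem diagAB : ∀ i : Fin 16, tb 36029106259492894 i i = false ∧
    tb 10141436919715303419239428260064 i i = false := by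
  decide +kernel

theorem bits511 (i : ℕ) (h : Nat.testBit 511 i = true) : i < 9 := by
  by_contra hc
  push Not at hc
  have h2 : 511 < 2 ^ i := lt_of_lt_of_le (by norm_num) (Nat.pow_le_pow_right (by norm_num) hc)
  rw [Nat.testBit_lt_two_pow h2] at h
  exact absurd h (by simp)

theorem eqleg_sound (f : ℕ → V) (a' b' c i j : ℕ) (hc : 8 ≤ c) (hc' : c < 16) (hi : i < 4) (hj : j < 4)
    (ha : ∀ i j, i < j → j < 16 → tb a' i j = true → G.Adj (f i) (f j))
    (hb : ∀ i j, i < j → j < 16 → tb b' i j = true → ¬G.Adj (f i) (f j))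
    (h : eqleg a' b' c i j = true) :
    (G.Adj (f i) (f c) ↔ G.Adj (f j) (f c)) ∧ (G.Adj (f (4 + i)) (f c) ↔ G.Adj (f (4 + j)) (f c)) := by
  simp only [eqleg, Bool.and_eq_true, Bool.or_eq_true] at h
  obtain ⟨h1, h2⟩ := h
  constructor
  · rcases h1 with ⟨p, q⟩ | ⟨p, q⟩
    · exact iff_of_true (ha _ _ (by omega) hc' p) (ha _ _ (by omega) hc' q)
    · exact iff_of_false (hb _ _ (by omega) hc' p) (hb _ _ (by omega) hc' q)
  · rcases h2 with ⟨p, q⟩ | ⟨p, q⟩
    · exact iff_of_true (ha _ _ (by omega) hc' p) (ha _ _ (by omega) hc' q)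
    · exact iff_of_false (hb _ _ (by omega) hc' p) (hb _ _ (by omega) hc' q)

/-- TARGET -/
theorem s1_thin (t : Tr) (ht : chk true 511 QS1 t 36029106259492894 10141436919715303419239428260064 = true)
    (hS : Sur G) (h4 : NC4 G) (a b : Fin 4 → V) (h : Thin G 4 a b) (v : V) (hv : ∀ i, v ≠ a i ∧ v ≠ b i) :
    ∃ z : Fin 4, ∀ i j, i ≠ z → j ≠ z → (G.Adj v (a i) ↔ G.Adj v (a j)) ∧ (G.Adj v (b i) ↔ G.Adj v (b j)) := by
  obtain ⟨hB, hA, hAB⟩ := h
  have hbb : ∀ i j : Fin 4, i ≠ j → b i ≠ b j := by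
    intro i j hij he
    have := hB i j hij
    rw [he] at this
    exact G.loopless.irrefl _ this
  have haa : ∀ i j : Fin 4, i ≠ j → a i ≠ a j := by
    intro i j hij he
    have h1 := (hAB i i).mpr rfl
    rw [he] at h1
    exact hij ((hAB j i).mp h1).symm
  have hab : ∀ i j : Fin 4, a i ≠ b j := by
    intro i j he
    have key : ∀ k, k ≠ j → i = k := by
      intro k hk
      have h1 := hB j k hk.symm
      rw [← he] at h1
      exact (hAB i k).mp h1
    have hd : ∀ j : Fin 4, j + 1 ≠ j ∧ j + 2 ≠ j ∧ j + 1 ≠ j + 2 := by decide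
    have h1 := key (j + 1) (hd j).1
    have h2 := key (j + 2) (hd j).2.1
    exact (hd j).2.2 (h1.symm.trans h2)
  refine chk_sound hS (fun _ => h4) (fS a b v) ?_ _ t _ _ ?_ ?_ ?_ ?_ ht
  · intro i j hi hj hf
    have hi' := bits511 i hi
    have hj' := bits511 j hj
    clear hi hj
    by_contra hne
    interval_cases i <;> interval_cases j <;>
      first
        | exact hne rfl
        | exact hbb _ _ (by decide) hf
        | exact haa _ _ (by decide) hf
        | exact hab _ _ hf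
        | exact hab _ _ hf.symm
        | exact (hv _).1 hf
        | exact (hv _).2 hf
        | exact (hv _).1 hf.symm
        | exact (hv _).2 hf.symm
  · intro a' b' ha' hb' hq
    have E : ∀ i j : Fin 4, eqleg a' b' 8 i j = true →
        (G.Adj v (a i) ↔ G.Adj v (a j)) ∧ (G.Adj v (b i) ↔ G.Adj v (b j)) := by
      intro i j he
      have h := eqleg_sound (fS a b v) a' b' 8 i j (by norm_num) (by norm_num)
        i.isLt j.isLt ha' hb' he
      have fb : ∀ i : Fin 4, fS a b v i = b i := by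
        intro i; fin_cases i <;> rfl
      have fa : ∀ i : Fin 4, fS a b v (4 + i) = a i := by
        intro i; fin_cases i <;> rfl
      have fv : fS a b v 8 = v := rfl
      rw [fb, fb, fa, fa, fv] at h
      rw [G.adj_comm v (a i), G.adj_comm v (a j), G.adj_comm v (b i), G.adj_comm v (b j)]
      exact ⟨h.2, h.1⟩
    have fin : ∀ z w : Fin 4, (∀ i, i ≠ z → (G.Adj v (a w) ↔ G.Adj v (a i)) ∧
        (G.Adj v (b w) ↔ G.Adj v (b i))) → ∃ z : Fin 4, ∀ i j, i ≠ z → j ≠ z →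
        (G.Adj v (a i) ↔ G.Adj v (a j)) ∧ (G.Adj v (b i) ↔ G.Adj v (b j)) := by
      intro z w hw
      refine ⟨z, fun i j hi hj => ⟨(hw i hi).1.symm.trans (hw j hj).1,
        (hw i hi).2.symm.trans (hw j hj).2⟩⟩
    simp only [QS1, Bool.or_eq_true, Bool.and_eq_true] at hq
    rcases hq with ((⟨h1, h2⟩ | ⟨h1, h2⟩) | ⟨h1, h2⟩) | ⟨h1, h2⟩
    · have e1 := E 1 2 h1
      have e2 := E 1 3 h2
      refine fin 0 1 fun i hi => ?_
      fin_cases i
      · exact absurd rfl hi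
      · exact ⟨Iff.rfl, Iff.rfl⟩
      · exact e1
      · exact e2
    · have e1 := E 0 2 h1
      have e2 := E 0 3 h2
      refine fin 1 0 fun i hi => ?_
      fin_cases i
      · exact ⟨Iff.rfl, Iff.rfl⟩
      · exact absurd rfl hi
      · exact e1
      · exact e2
    · have e1 := E 0 1 h1
      have e2 := E 0 3 h2
      refine fin 2 0 fun i hi => ?_
      fin_cases i
      · exact ⟨Iff.rfl, Iff.rfl⟩
      · exact e1
      · exact absurd rfl hi
      · exact e2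
    · have e1 := E 0 1 h1
      have e2 := E 0 2 h2
      refine fin 3 0 fun i hi => ?_
      fin_cases i
      · exact ⟨Iff.rfl, Iff.rfl⟩
      · exact e1
      · exact e2
      · exact absurd rfl hi
  · intro i hi
    exact diagAB ⟨i, hi⟩
  · intro i j hij hj htb
    have hm := maskA ⟨i, by omega⟩ ⟨j, hj⟩ hij htb
    simp only [List.mem_cons, Prod.mk.injEq, List.not_mem_nil, or_false] at hm
    rcases hm with ⟨rfl, rfl⟩ | ⟨rfl, rfl⟩ | ⟨rfl, rfl⟩ | ⟨rfl, rfl⟩ | ⟨rfl, rfl⟩ | ⟨rfl, rfl⟩ |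
      ⟨rfl, rfl⟩ | ⟨rfl, rfl⟩ | ⟨rfl, rfl⟩ | ⟨rfl, rfl⟩ <;>
      first
        | exact hB _ _ (by decide)
        | exact ((hAB _ _).mpr rfl).symm
  · intro i j hij hj htb
    have hm := maskB ⟨i, by omega⟩ ⟨j, hj⟩ hij htb
    simp only [List.mem_cons, Prod.mk.injEq, List.not_mem_nil, or_false] at hm
    rcases hm with ⟨rfl, rfl⟩ | ⟨rfl, rfl⟩ | ⟨rfl, rfl⟩ | ⟨rfl, rfl⟩ | ⟨rfl, rfl⟩ | ⟨rfl, rfl⟩ |
      ⟨rfl, rfl⟩ | ⟨rfl, rfl⟩ | ⟨rfl, rfl⟩ | ⟨rfl, rfl⟩ | ⟨rfl, rfl⟩ | ⟨rfl, rfl⟩ |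
      ⟨rfl, rfl⟩ | ⟨rfl, rfl⟩ | ⟨rfl, rfl⟩ | ⟨rfl, rfl⟩ | ⟨rfl, rfl⟩ | ⟨rfl, rfl⟩ <;>
      first
        | exact hA _ _ (by decide)
        | exact fun hh => absurd ((hAB _ _).mp hh.symm) (by decide)

end S1Thin

end Pool.Agent.Helper856.Q8
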