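import Pool.Agent.Helper856.Q8.Defs
import Pool.Agent.Helper856.Q8.Sound

open Classical SimpleGraph

namespace Pool.Agent.Helper856.Q8

open Sound (chk_sound)

namespace S2Thick

variable {V : Type} {G : SimpleGraph V}

theorem s2_thick_all (m : ℕ) (L : List ℕ)
    (h : ((List.range 16).all fun i => (List.range 16).all fun j =>
      !(Nat.blt i j) || !(tb m i j) || L.any fun q => Nat.beq q (16 * i + j)) = true)
    (i j : ℕ) (hij : i < j) (hj : j < 16) (ht : tb m i j = true) :
    ∃ q ∈ L, i = q / 16 ∧ j = q % 16 := by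
  rw [List.all_eq_true] at h
  have h1 := h i (List.mem_range.2 (by omega))
  rw [List.all_eq_true] at h1
  have h2 := h1 j (List.mem_range.2 hj)
  have h3 : Nat.blt i j = true := by
    rw [Nat.blt_eq]; exact hij
  rw [h3, ht] at h2
  simp only [Bool.not_true, Bool.false_or, List.any_eq_true] at h2
  obtain ⟨q, hq, hq2⟩ := h2
  have h4 := Nat.eq_of_beq_eq_true hq2
  exact ⟨q, hq, by omega, by omega⟩

/-- TARGET -/
theorem s2_thick (t : Tr) (ht : chk true 1023 QS2 t 31525987679994094 10141436919715307922358007758864 = true)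
    (hS : Sur G) (h4 : NC4 G) (a b : Fin 4 → V) (h : Thick G 4 a b) (v v' : V) (hne : v ≠ v')
    (hv : ∀ i, v ≠ a i ∧ v ≠ b i) (hv' : ∀ i, v' ≠ a i ∧ v' ≠ b i) :
    ((G.Adj v (a 0) ↔ G.Adj v (a 1)) ∧ (G.Adj v (b 0) ↔ G.Adj v (b 1))) ∨
    ((G.Adj v' (a 2) ↔ G.Adj v' (a 3)) ∧ (G.Adj v' (b 2) ↔ G.Adj v' (b 3))) := by
  let f : ℕ → V := fun k => match k with
    | 0 => b 0
    | 1 => b 1
    | 2 => b 2
    | 3 => b 3
    | 4 => a 0
    | 5 => a 1
    | 6 => a 2
    | 7 => a 3
    | 8 => v
    | _ => v'
  have hbb : ∀ i j, i ≠ j → b i ≠ b j := fun i j hij => (h.1 i j hij).ne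
  have haa : ∀ i j, i ≠ j → a i ≠ a j := by
    intro i j hij he
    have h1 := (h.2.2 i j).2 hij
    rw [he] at h1
    exact (h.2.2 j j).1 h1 rfl
  have hab : ∀ i j, a i ≠ b j := by
    intro i j he
    by_cases hij : i = j
    · subst hij
      obtain ⟨k, hk⟩ := exists_ne i
      have h1 := (h.2.2 k i).2 hk
      rw [← he] at h1
      exact h.2.1 k i hk h1
    · exact ((h.2.2 i j).2 hij).ne he
  have hinj : ∀ i j, (1023 : ℕ).testBit i = true → (1023 : ℕ).testBit j = true →
      f i = f j → i = j := by
    intro i j hi hj hij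
    have hi' : i < 10 := by
      have h0 : (1023 : ℕ) = 2 ^ 10 - 1 := by norm_num
      rw [h0, Nat.testBit_two_pow_sub_one] at hi
      simpa using hi
    have hj' : j < 10 := by
      have h0 : (1023 : ℕ) = 2 ^ 10 - 1 := by norm_num
      rw [h0, Nat.testBit_two_pow_sub_one] at hj
      simpa using hj
    clear hi hj
    by_contra hne'
    interval_cases i <;> interval_cases j <;>
    first
      | exact hne' rfl
      | exact hbb _ _ (by decide) hij
      | exact haa _ _ (by decide) hij
      | exact hab _ _ hij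
      | exact hab _ _ hij.symm
      | exact (hv _).1 hij
      | exact (hv _).2 hij
      | exact (hv _).1 hij.symm
      | exact (hv _).2 hij.symm
      | exact (hv' _).1 hij
      | exact (hv' _).2 hij
      | exact (hv' _).1 hij.symm
      | exact (hv' _).2 hij.symm
      | exact hne hij
      | exact hne hij.symm
  refine chk_sound hS (fun _ => h4) f hinj _ t 31525987679994094 10141436919715307922358007758864
    ?_ (by decide +kernel) ?_ ?_ ht
  · intro a' b' h1 h2 hQ
    unfold QS2 eqleg at hQ
    simp only [Bool.or_eq_true, Bool.and_eq_true] at hQ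
    rcases hQ with ⟨h3, h5⟩ | ⟨h3, h5⟩
    · left
      constructor
      · rcases h5 with ⟨h6, h7⟩ | ⟨h6, h7⟩
        · have h8 : G.Adj (a 0) v := h1 4 8 (by norm_num) (by norm_num) h6
          have h9 : G.Adj (a 1) v := h1 5 8 (by norm_num) (by norm_num) h7
          exact ⟨fun _ => h9.symm, fun _ => h8.symm⟩
        · have h8 : ¬G.Adj (a 0) v := h2 4 8 (by norm_num) (by norm_num) h6
          have h9 : ¬G.Adj (a 1) v := h2 5 8 (by norm_num) (by norm_num) h7
          exact ⟨fun h => absurd h.symm h8, fun h => absurd h.symm h9⟩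
      · rcases h3 with ⟨h6, h7⟩ | ⟨h6, h7⟩
        · have h8 : G.Adj (b 0) v := h1 0 8 (by norm_num) (by norm_num) h6
          have h9 : G.Adj (b 1) v := h1 1 8 (by norm_num) (by norm_num) h7
          exact ⟨fun _ => h9.symm, fun _ => h8.symm⟩
        · have h8 : ¬G.Adj (b 0) v := h2 0 8 (by norm_num) (by norm_num) h6
          have h9 : ¬G.Adj (b 1) v := h2 1 8 (by norm_num) (by norm_num) h7
          exact ⟨fun h => absurd h.symm h8, fun h => absurd h.symm h9⟩
    · right
      constructor
      · rcases h5 with ⟨h6, h7⟩ | ⟨h6, h7⟩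
        · have h8 : G.Adj (a 2) v' := h1 6 9 (by norm_num) (by norm_num) h6
          have h9 : G.Adj (a 3) v' := h1 7 9 (by norm_num) (by norm_num) h7
          exact ⟨fun _ => h9.symm, fun _ => h8.symm⟩
        · have h8 : ¬G.Adj (a 2) v' := h2 6 9 (by norm_num) (by norm_num) h6
          have h9 : ¬G.Adj (a 3) v' := h2 7 9 (by norm_num) (by norm_num) h7
          exact ⟨fun h => absurd h.symm h8, fun h => absurd h.symm h9⟩
      · rcases h3 with ⟨h6, h7⟩ | ⟨h6, h7⟩
        · have h8 : G.Adj (b 2) v' := h1 2 9 (by norm_num) (by norm_num) h6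
          have h9 : G.Adj (b 3) v' := h1 3 9 (by norm_num) (by norm_num) h7
          exact ⟨fun _ => h9.symm, fun _ => h8.symm⟩
        · have h8 : ¬G.Adj (b 2) v' := h2 2 9 (by norm_num) (by norm_num) h6
          have h9 : ¬G.Adj (b 3) v' := h2 3 9 (by norm_num) (by norm_num) h7
          exact ⟨fun h => absurd h.symm h8, fun h => absurd h.symm h9⟩
  · intro i j hij hj htb
    obtain ⟨q, hq, h5, h6⟩ := s2_thick_all 31525987679994094
      [1, 2, 3, 5, 6, 7, 18, 19, 20, 22, 23, 35, 36, 37, 39, 52, 53, 54] (by decide +kernel) i j hij hj htb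
    simp only [List.mem_cons, List.mem_nil_iff, or_false] at hq
    rcases hq with rfl | rfl | rfl | rfl | rfl | rfl | rfl | rfl | rfl | rfl | rfl | rfl | rfl | rfl | rfl | rfl | rfl | rfl
    · have e1 : i = 0 := h5
      have e2 : j = 1 := h6
      subst e1 e2
      exact h.1 0 1 (by decide)
    · have e1 : i = 0 := h5
      have e2 : j = 2 := h6
      subst e1 e2
      exact h.1 0 2 (by decide)
    · have e1 : i = 0 := h5
      have e2 : j = 3 := h6
      subst e1 e2
      exact h.1 0 3 (by decide)
    · have e1 : i = 0 := h5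
      have e2 : j = 5 := h6
      subst e1 e2
      exact ((h.2.2 1 0).2 (by decide)).symm
    · have e1 : i = 0 := h5
      have e2 : j = 6 := h6
      subst e1 e2
      exact ((h.2.2 2 0).2 (by decide)).symm
    · have e1 : i = 0 := h5
      have e2 : j = 7 := h6
      subst e1 e2
      exact ((h.2.2 3 0).2 (by decide)).symm
    · have e1 : i = 1 := h5
      have e2 : j = 2 := h6
      subst e1 e2
      exact h.1 1 2 (by decide)
    · have e1 : i = 1 := h5
      have e2 : j = 3 := h6
      subst e1 e2
      exact h.1 1 3 (by decide)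
    · have e1 : i = 1 := h5
      have e2 : j = 4 := h6
      subst e1 e2
      exact ((h.2.2 0 1).2 (by decide)).symm
    · have e1 : i = 1 := h5
      have e2 : j = 6 := h6
      subst e1 e2
      exact ((h.2.2 2 1).2 (by decide)).symm
    · have e1 : i = 1 := h5
      have e2 : j = 7 := h6
      subst e1 e2
      exact ((h.2.2 3 1).2 (by decide)).symm
    · have e1 : i = 2 := h5
      have e2 : j = 3 := h6
      subst e1 e2
      exact h.1 2 3 (by decide)
    · have e1 : i = 2 := h5
      have e2 : j = 4 := h6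
      subst e1 e2
      exact ((h.2.2 0 2).2 (by decide)).symm
    · have e1 : i = 2 := h5
      have e2 : j = 5 := h6
      subst e1 e2
      exact ((h.2.2 1 2).2 (by decide)).symm
    · have e1 : i = 2 := h5
      have e2 : j = 7 := h6
      subst e1 e2
      exact ((h.2.2 3 2).2 (by decide)).symm
    · have e1 : i = 3 := h5
      have e2 : j = 4 := h6
      subst e1 e2
      exact ((h.2.2 0 3).2 (by decide)).symm
    · have e1 : i = 3 := h5
      have e2 : j = 5 := h6
      subst e1 e2
      exact ((h.2.2 1 3).2 (by decide)).symm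
    · have e1 : i = 3 := h5
      have e2 : j = 6 := h6
      subst e1 e2
      exact ((h.2.2 2 3).2 (by decide)).symm
  · intro i j hij hj htb
    have hself : ∀ k, ¬G.Adj (b k) (a k) := fun k hk => (h.2.2 k k).1 hk.symm rfl
    obtain ⟨q, hq, h5, h6⟩ := s2_thick_all 10141436919715307922358007758864
      [4, 21, 38, 55, 69, 70, 71, 86, 87, 103] (by decide +kernel) i j hij hj htb
    simp only [List.mem_cons, List.mem_nil_iff, or_false] at hq
    rcases hq with rfl | rfl | rfl | rfl | rfl | rfl | rfl | rfl | rfl | rfl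
    · have e1 : i = 0 := h5
      have e2 : j = 4 := h6
      subst e1 e2
      exact hself 0
    · have e1 : i = 1 := h5
      have e2 : j = 5 := h6
      subst e1 e2
      exact hself 1
    · have e1 : i = 2 := h5
      have e2 : j = 6 := h6
      subst e1 e2
      exact hself 2
    · have e1 : i = 3 := h5
      have e2 : j = 7 := h6
      subst e1 e2
      exact hself 3
    · have e1 : i = 4 := h5
      have e2 : j = 5 := h6
      subst e1 e2
      exact h.2.1 0 1 (by decide)
    · have e1 : i = 4 := h5
      have e2 : j = 6 := h6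
      subst e1 e2
      exact h.2.1 0 2 (by decide)
    · have e1 : i = 4 := h5
      have e2 : j = 7 := h6
      subst e1 e2
      exact h.2.1 0 3 (by decide)
    · have e1 : i = 5 := h5
      have e2 : j = 6 := h6
      subst e1 e2
      exact h.2.1 1 2 (by decide)
    · have e1 : i = 5 := h5
      have e2 : j = 7 := h6
      subst e1 e2
      exact h.2.1 1 3 (by decide)
    · have e1 : i = 6 := h5
      have e2 : j = 7 := h6
      subst e1 e2
      exact h.2.1 2 3 (by decide)

end S2Thick

end Pool.Agent.Helper856.Q8
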