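import Pool.Agent.Helper856.Q8.Defs
import Pool.Agent.Helper856.Q8.Sound

open Classical SimpleGraph

namespace Pool.Agent.Helper856.Q8

open Sound (chk_sound)

namespace S2Thin

variable {V : Type} {G : SimpleGraph V}

theorem s2_thin_ab {G : SimpleGraph V} {a b : Fin 4 → V} (h : Thin G 4 a b) (i j : Fin 4) :
    b i ≠ a j := by
  intro e
  have hex : ∀ i j : Fin 4, ∃ k, i ≠ k ∧ j ≠ k := by decide
  obtain ⟨k, hk1, hk2⟩ := hex i j
  have h1 := h.1 i k hk1
  rw [e] at h1
  exact hk2 ((h.2.2 j k).1 h1)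

theorem s2_thin_aa {G : SimpleGraph V} {a b : Fin 4 → V} (h : Thin G 4 a b) (i j : Fin 4)
    (e : a i = a j) : i = j := by
  have h1 := (h.2.2 i i).2 rfl
  rw [e] at h1
  exact ((h.2.2 j i).1 h1).symm

theorem s2_thin_leg {G : SimpleGraph V} (f : ℕ → V) (a' b' : ℕ)
    (hA : ∀ i j, i < j → j < 16 → tb a' i j = true → G.Adj (f i) (f j))
    (hB : ∀ i j, i < j → j < 16 → tb b' i j = true → ¬G.Adj (f i) (f j))
    (c i j : ℕ) (hi : i < 4) (hj : j < 4) (hc : 8 ≤ c) (hc' : c < 16)
    (he : eqleg a' b' c i j = true) :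
    (G.Adj (f c) (f (4 + i)) ↔ G.Adj (f c) (f (4 + j))) ∧
      (G.Adj (f c) (f i) ↔ G.Adj (f c) (f j)) := by
  simp only [eqleg, Bool.and_eq_true, Bool.or_eq_true] at he
  obtain ⟨h1, h2⟩ := he
  constructor
  · rcases h2 with ⟨h3, h4⟩ | ⟨h3, h4⟩
    · exact ⟨fun _ => (hA _ _ (by omega) hc' h4).symm, fun _ => (hA _ _ (by omega) hc' h3).symm⟩
    · exact ⟨fun h => absurd h.symm (hB _ _ (by omega) hc' h3),
        fun h => absurd h.symm (hB _ _ (by omega) hc' h4)⟩
  · rcases h1 with ⟨h3, h4⟩ | ⟨h3, h4⟩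
    · exact ⟨fun _ => (hA _ _ (by omega) hc' h4).symm, fun _ => (hA _ _ (by omega) hc' h3).symm⟩
    · exact ⟨fun h => absurd h.symm (hB _ _ (by omega) hc' h3),
        fun h => absurd h.symm (hB _ _ (by omega) hc' h4)⟩

/-- TARGET -/
theorem s2_thin (t : Tr) (ht : chk true 1023 QS2 t 36029106259492894 10141436919715303419239428260064 = true)
    (hS : Sur G) (h4 : NC4 G) (a b : Fin 4 → V) (h : Thin G 4 a b) (v v' : V) (hne : v ≠ v')
    (hv : ∀ i, v ≠ a i ∧ v ≠ b i) (hv' : ∀ i, v' ≠ a i ∧ v' ≠ b i) :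
    ((G.Adj v (a 0) ↔ G.Adj v (a 1)) ∧ (G.Adj v (b 0) ↔ G.Adj v (b 1))) ∨
    ((G.Adj v' (a 2) ↔ G.Adj v' (a 3)) ∧ (G.Adj v' (b 2) ↔ G.Adj v' (b 3))) := by
  obtain ⟨f, hf⟩ : ∃ f : ℕ → V, f = fun k => if hk : k < 4 then b ⟨k, hk⟩ else
    if hk' : k - 4 < 4 then a ⟨k - 4, hk'⟩ else if k = 8 then v else v' := ⟨_, rfl⟩
  have fb : ∀ k (hk : k < 4), f k = b ⟨k, hk⟩ := fun k hk => by
    rw [hf]
    simp only
    rw [dif_pos hk]
  have fa : ∀ k (hk : 4 ≤ k) (hk' : k - 4 < 4), f k = a ⟨k - 4, hk'⟩ := fun k hk hk' => by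
    rw [hf]
    simp only
    rw [dif_neg (by omega), dif_pos hk']
  have f8 : f 8 = v := by simp [hf]
  have f9 : f 9 = v' := by simp [hf]
  have hne' : ∀ i j, i < j → j < 10 → f i ≠ f j := by
    intro i j hij hj
    by_cases h1 : j < 4
    · rw [fb i (by omega), fb j h1]
      exact (h.1 _ _ (by simp only [ne_eq, Fin.mk.injEq]; omega)).ne
    by_cases h2 : j < 8
    · rw [fa j (by omega) (by omega)]
      by_cases h3 : i < 4
      · rw [fb i h3]
        exact s2_thin_ab h _ _
      · rw [fa i (by omega) (by omega)]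
        intro e
        have := s2_thin_aa h _ _ e
        rw [Fin.ext_iff] at this
        simp only at this
        omega
    have h3 : j = 8 ∨ j = 9 := by omega
    rcases h3 with rfl | rfl
    · rw [f8]
      by_cases h3 : i < 4
      · rw [fb i h3]
        exact fun e => (hv _).2 e.symm
      · rw [fa i (by omega) (by omega)]
        exact fun e => (hv _).1 e.symm
    · rw [f9]
      by_cases h3 : i < 4
      · rw [fb i h3]
        exact fun e => (hv' _).2 e.symm
      by_cases h5 : i < 8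
      · rw [fa i (by omega) (by omega)]
        exact fun e => (hv' _).1 e.symm
      · have h6 : i = 8 := by omega
        rw [h6, f8]
        exact hne
  have hal : ∀ i, (1023 : ℕ).testBit i = true → i < 10 := by
    intro i hi
    by_contra hcon
    have h1 : (1023 : ℕ) < 2 ^ i := lt_of_lt_of_le (by norm_num : (1023 : ℕ) < 2 ^ 10)
      (Nat.pow_le_pow_right (by norm_num) (by omega))
    rw [Nat.testBit_lt_two_pow h1] at hi
    exact absurd hi (by simp)
  have hA : ∀ i j : Fin 16, i < j → tb 36029106259492894 i j = true →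
      ((j : ℕ) < 4 ∨ ((i : ℕ) < 4 ∧ (j : ℕ) = i + 4)) := by decide +kernel
  have hB : ∀ i j : Fin 16, i < j → tb 10141436919715303419239428260064 i j = true →
      ((4 ≤ (i : ℕ) ∧ (j : ℕ) < 8) ∨ ((i : ℕ) < 4 ∧ 4 ≤ (j : ℕ) ∧ (j : ℕ) < 8 ∧
        (j : ℕ) ≠ i + 4)) := by decide +kernel
  have hD : ∀ i : Fin 16, tb 36029106259492894 i i = false ∧
      tb 10141436919715303419239428260064 i i = false := by decide +kernel
  refine chk_sound (c4 := true) (al := 1023) (Q := QS2) hS (fun _ => h4) f ?_ _ t _ _ ?_ ?_ ?_ ?_ ht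
  · intro i j hi hj hij
    rcases lt_trichotomy i j with h1 | h1 | h1
    · exact absurd hij (hne' i j h1 (hal j hj))
    · exact h1
    · exact absurd hij.symm (hne' j i h1 (hal i hi))
  · intro a' b' h1 h2 h3
    simp only [QS2, Bool.or_eq_true] at h3
    rcases h3 with h3 | h3
    · left
      have := s2_thin_leg f a' b' h1 h2 8 0 1 (by norm_num) (by norm_num) (by norm_num)
        (by norm_num) h3
      rw [f8, fb 0 (by norm_num), fb 1 (by norm_num), fa (4 + 0) (by norm_num) (by norm_num),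
        fa (4 + 1) (by norm_num) (by norm_num)] at this
      exact this
    · right
      have := s2_thin_leg f a' b' h1 h2 9 2 3 (by norm_num) (by norm_num) (by norm_num)
        (by norm_num) h3
      rw [f9, fb 2 (by norm_num), fb 3 (by norm_num), fa (4 + 2) (by norm_num) (by norm_num),
        fa (4 + 3) (by norm_num) (by norm_num)] at this
      exact this
  · intro i hi
    exact hD ⟨i, hi⟩
  · intro i j hij hj h1
    rcases hA ⟨i, by omega⟩ ⟨j, hj⟩ hij h1 with h2 | ⟨h2, h3⟩
    · simp only at h2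
      rw [fb i (by omega), fb j h2]
      exact h.1 _ _ (by simp only [ne_eq, Fin.mk.injEq]; omega)
    · simp only at h2 h3
      rw [fb i h2, fa j (by omega) (by omega)]
      exact ((h.2.2 _ _).2 (by simp only [Fin.mk.injEq]; omega)).symm
  · intro i j hij hj h1
    rcases hB ⟨i, by omega⟩ ⟨j, hj⟩ hij h1 with ⟨h2, h3⟩ | ⟨h2, h3, h5, h6⟩
    · simp only at h2 h3
      rw [fa i (by omega) (by omega), fa j (by omega) (by omega)]
      exact h.2.1 _ _ (by simp only [ne_eq, Fin.mk.injEq]; omega)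
    · simp only at h2 h3 h5 h6
      rw [fb i h2, fa j (by omega) (by omega)]
      intro h7
      have := (h.2.2 _ _).1 h7.symm
      simp only [Fin.mk.injEq] at this
      omega

end S2Thin

end Pool.Agent.Helper856.Q8
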