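import Pool.Agent.Helper856.Q8.Defs
import Pool.Agent.Helper856.Q8.S1Thin
import Pool.Agent.Helper856.Q8.S2Thin
import Pool.Agent.Helper856.Q8.S1Thick
import Pool.Agent.Helper856.Q8.S2Thick

open Classical SimpleGraph

namespace Pool.Agent.Helper856.Q8

open S1Thin (s1_thin)
open S2Thin (s2_thin)
open S1Thick (s1_thick)
open S2Thick (s2_thick)

namespace SpPar

variable {V : Type} {G : SimpleGraph V}

theorem two_others {m : ℕ} (hm : 4 ≤ m) (i j : Fin m) : ∃ k l : Fin m, k ≠ i ∧ k ≠ j ∧ l ≠ i ∧ l ≠ j ∧ k ≠ l := by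
  have h1 : 1 < ((Finset.univ : Finset (Fin m)) \ {i, j}).card := by
    have h2 := Finset.le_card_sdiff ({i, j} : Finset (Fin m)) (Finset.univ : Finset (Fin m))
    have h3 : ({i, j} : Finset (Fin m)).card ≤ 2 := Finset.card_le_two
    have h4 : (Finset.univ : Finset (Fin m)).card = m := by simp
    omega
  obtain ⟨k, hk, l, hl, hkl⟩ := Finset.one_lt_card.1 h1
  simp only [Finset.mem_sdiff, Finset.mem_univ, Finset.mem_insert, Finset.mem_singleton, true_and,
    not_or] at hk hl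
  exact ⟨k, l, hk.1, hk.2, hl.1, hl.2, hkl⟩

theorem inj4 {m : ℕ} {x y z w : Fin m} (h1 : x ≠ y) (h2 : x ≠ z) (h3 : x ≠ w) (h4 : y ≠ z)
    (h5 : y ≠ w) (h6 : z ≠ w) : Function.Injective ![x, y, z, w] := by
  intro p q h
  fin_cases p <;> fin_cases q <;> simp_all

theorem comb1 {m : ℕ} (hm : 4 ≤ m) {κ : Type} (f : Fin m → κ)
    (h1 : ∀ e : Fin 4 → Fin m, Function.Injective e → ∃ z : Fin 4, ∀ i j, i ≠ z → j ≠ z →
      f (e i) = f (e j)) (hnc : ∃ i j, f i ≠ f j) :
    ∃ z : Fin m, (∀ i j, i ≠ z → j ≠ z → f i = f j) ∧ ∀ i, i ≠ z → f z ≠ f i := by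
  have key : ∀ i j, f i ≠ f j → (∀ k l, k ≠ i → k ≠ j → l ≠ i → l ≠ j → k ≠ l →
      (f k = f l ∧ (f k = f i ∨ f k = f j))) := by
    intro i j hij k l h2 h3 h4 h5 h6
    have hij' : i ≠ j := fun h => hij (by rw [h])
    obtain ⟨z, hz⟩ := h1 ![i, j, k, l] (inj4 hij' h2.symm h4.symm h3.symm h5.symm h6)
    have e01 := hz 0 1
    have e02 := hz 0 2
    have e03 := hz 0 3
    have e12 := hz 1 2
    have e13 := hz 1 3
    have e23 := hz 2 3
    simp only [Matrix.cons_val_zero, Matrix.cons_val_one, Matrix.cons_val] at e01 e02 e03 e12 e13 e23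
    fin_cases z
    · have a1 := e12 (by decide) (by decide)
      have a2 := e23 (by decide) (by decide)
      exact ⟨a2, Or.inr a1.symm⟩
    · have a1 := e02 (by decide) (by decide)
      have a2 := e23 (by decide) (by decide)
      exact ⟨a2, Or.inl a1.symm⟩
    · exact absurd (e01 (by decide) (by decide)) hij
    · exact absurd (e01 (by decide) (by decide)) hij
  have main : ∀ i j, f i ≠ f j → ∀ k l, k ≠ i → k ≠ j → l ≠ i → l ≠ j → k ≠ l → f k = f j →
      (∀ p, p ≠ i → f p = f j) := by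
    intro i j hij k l h2 h3 h4 h5 h6 h7 p hp
    have hij' : i ≠ j := fun h => hij (by rw [h])
    by_cases hpj : p = j
    · rw [hpj]
    by_cases hpk : p = k
    · rw [hpk, h7]
    have := (key i j hij k p h2 h3 hp hpj (Ne.symm hpk)).1
    rw [← this, h7]
  obtain ⟨i, j, hij⟩ := hnc
  obtain ⟨k, l, h2, h3, h4, h5, h6⟩ := two_others hm i j
  obtain ⟨-, h7⟩ := key i j hij k l h2 h3 h4 h5 h6
  rcases h7 with h7 | h7
  · have hm' := main j i (Ne.symm hij) k l h3 h2 h5 h4 h6 h7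
    refine ⟨j, fun p q hp hq => (hm' p hp).trans (hm' q hq).symm, fun p hp => ?_⟩
    rw [hm' p hp]
    exact Ne.symm hij
  · have hm' := main i j hij k l h2 h3 h4 h5 h6 h7
    refine ⟨i, fun p q hp hq => (hm' p hp).trans (hm' q hq).symm, fun p hp => ?_⟩
    rw [hm' p hp]
    exact hij

theorem comb2 {m : ℕ} (hm : 4 ≤ m) {κ W : Type} (τ : W → Fin m → κ)
    (h1 : ∀ w, ∀ e : Fin 4 → Fin m, Function.Injective e → ∃ z : Fin 4, ∀ i j, i ≠ z → j ≠ z →
      τ w (e i) = τ w (e j))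
    (h2 : ∀ w w', w ≠ w' → ∀ e : Fin 4 → Fin m, Function.Injective e →
      τ w (e 0) = τ w (e 1) ∨ τ w' (e 2) = τ w' (e 3)) :
    ∃ z : Fin m, ∀ w, ∀ i j, i ≠ z → j ≠ z → τ w i = τ w j := by
  by_cases hc : ∃ w, ∃ i j, τ w i ≠ τ w j
  · obtain ⟨w, hw⟩ := hc
    obtain ⟨z, hz1, hz2⟩ := comb1 hm (τ w) (h1 w) hw
    refine ⟨z, fun w' i j hi hj => ?_⟩
    by_contra hne
    obtain ⟨z', hz1', hz2'⟩ := comb1 hm (τ w') (h1 w') ⟨i, j, hne⟩
    have hww : w ≠ w' := by
      rintro rfl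
      exact hne (hz1 i j hi hj)
    have hzz : z' ≠ z := by
      rintro rfl
      exact hne (hz1' i j hi hj)
    obtain ⟨k, l, a1, a2, a3, a4, a5⟩ := two_others hm z z'
    have := h2 w w' hww ![z, k, z', l] (inj4 a1.symm hzz.symm a3.symm a2 a5 a4.symm)
    simp only [Matrix.cons_val_zero, Matrix.cons_val_one, Matrix.cons_val] at this
    rcases this with h | h
    · exact hz2 k a1 h
    · exact hz2' l a4 h
  · push Not at hc
    exact ⟨⟨0, by omega⟩, fun w i j _ _ => hc w i j⟩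


/-- TARGET -/
theorem sp_par (hC : SpOK) (hS : Sur G) (h4 : NC4 G) (m : ℕ) (hm : 4 ≤ m) (a b : Fin m → V)
    (h : Thin G m a b ∨ Thick G m a b) :
    ∃ z : Fin m, ∀ i j, i ≠ z → j ≠ z → i ≠ j → Par2 G (a i) (b i) (a j) (b j) := by
  obtain ⟨⟨t1, ht1⟩, ⟨t2, ht2⟩, ⟨t3, ht3⟩, ⟨t4, ht4⟩⟩ := hC
  let W : Type := {v : V // ∀ i, v ≠ a i ∧ v ≠ b i}
  let τ : W → Fin m → Prop × Prop := fun w i => (G.Adj w.1 (a i), G.Adj w.1 (b i))
  have hτ : ∀ (w : W) (i j : Fin m), τ w i = τ w j ↔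
      ((G.Adj w.1 (a i) ↔ G.Adj w.1 (a j)) ∧ (G.Adj w.1 (b i) ↔ G.Adj w.1 (b j))) := by
    intro w i j
    simp only [τ, Prod.mk.injEq, eq_iff_iff]
  have hthin : Thin G m a b → ∀ e : Fin 4 → Fin m, Function.Injective e →
      Thin G 4 (a ∘ e) (b ∘ e) := by
    rintro ⟨k1, k2, k3⟩ e he
    refine ⟨fun i j hij => k1 _ _ (fun h => hij (he h)), fun i j hij => k2 _ _ (fun h => hij (he h)),
      fun i j => ?_⟩
    simp only [Function.comp_apply]
    rw [k3]
    exact he.eq_iff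
  have hthick : Thick G m a b → ∀ e : Fin 4 → Fin m, Function.Injective e →
      Thick G 4 (a ∘ e) (b ∘ e) := by
    rintro ⟨k1, k2, k3⟩ e he
    refine ⟨fun i j hij => k1 _ _ (fun h => hij (he h)), fun i j hij => k2 _ _ (fun h => hij (he h)),
      fun i j => ?_⟩
    simp only [Function.comp_apply]
    rw [k3]
    exact he.ne_iff
  obtain ⟨z, hz⟩ : ∃ z : Fin m, ∀ w, ∀ i j, i ≠ z → j ≠ z → τ w i = τ w j := by
    apply comb2 hm τ
    · intro w e he
      have hv : ∀ i, w.1 ≠ (a ∘ e) i ∧ w.1 ≠ (b ∘ e) i := fun i => w.2 (e i)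
      rcases h with h | h
      · obtain ⟨z, hz⟩ := s1_thin t1 ht1 hS h4 (a ∘ e) (b ∘ e) (hthin h e he) w.1 hv
        exact ⟨z, fun i j hi hj => (hτ w _ _).2 (hz i j hi hj)⟩
      · obtain ⟨z, hz⟩ := s1_thick t3 ht3 hS h4 (a ∘ e) (b ∘ e) (hthick h e he) w.1 hv
        exact ⟨z, fun i j hi hj => (hτ w _ _).2 (hz i j hi hj)⟩
    · intro w w' hww e he
      have hv : ∀ i, w.1 ≠ (a ∘ e) i ∧ w.1 ≠ (b ∘ e) i := fun i => w.2 (e i)
      have hv' : ∀ i, w'.1 ≠ (a ∘ e) i ∧ w'.1 ≠ (b ∘ e) i := fun i => w'.2 (e i)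
      have hne : w.1 ≠ w'.1 := fun h => hww (Subtype.ext h)
      rw [hτ, hτ]
      rcases h with h | h
      · exact s2_thin t2 ht2 hS h4 (a ∘ e) (b ∘ e) (hthin h e he) w.1 w'.1 hne hv hv'
      · exact s2_thick t4 ht4 hS h4 (a ∘ e) (b ∘ e) (hthick h e he) w.1 w'.1 hne hv hv'
  refine ⟨z, fun i j hi hj hij => ?_⟩
  have hout : ∀ v, (∀ k, v ≠ a k ∧ v ≠ b k) →
      (G.Adj v (a i) ↔ G.Adj v (a j)) ∧ (G.Adj v (b i) ↔ G.Adj v (b j)) := by
    intro v hv
    exact (hτ ⟨v, hv⟩ i j).1 (hz ⟨v, hv⟩ i j hi hj)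
  rcases h with ⟨k1, k2, k3⟩ | ⟨k1, k2, k3⟩
  · have hab : ∀ p q, a p ≠ b q := by
      intro p q hpq
      obtain ⟨k, l, c1, c2, -⟩ := two_others hm p q
      have d1 := k1 q k c2.symm
      rw [← hpq, k3] at d1
      exact c1 d1.symm
    have haa : a i ≠ a j := by
      intro h
      have d1 := (k3 i i).2 rfl
      rw [h, k3] at d1
      exact hij d1.symm
    refine ⟨hab _ _, hab _ _, haa, (k1 i j hij).ne, hab _ _, hab _ _, k1 i j hij, k2 i j hij, ?_, ?_, ?_, ?_⟩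
    · simp [k3]
    · simp [k3, hij]
    · simp [k3, hij.symm]
    · intro v v1 v2 v3 v4
      by_cases hv : ∀ k, v ≠ a k ∧ v ≠ b k
      · exact hout v hv
      · push Not at hv
        obtain ⟨k, hk⟩ := hv
        by_cases hka : v = a k
        · subst hka
          have hki : k ≠ i := fun h => v1 (by rw [h])
          have hkj : k ≠ j := fun h => v3 (by rw [h])
          simp [k2 k i hki, k2 k j hkj, k3, hki, hkj]
        · have hkb := hk hka
          subst hkb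
          have hki : k ≠ i := fun h => v2 (by rw [h])
          have hkj : k ≠ j := fun h => v4 (by rw [h])
          rw [G.adj_comm (b k) (a i), G.adj_comm (b k) (a j)]
          simp [k1 k i hki, k1 k j hkj, k3, hki.symm, hkj.symm]
  · have hab : ∀ p q, a p ≠ b q := by
      intro p q hpq
      obtain ⟨k, l, c1, c2, -⟩ := two_others hm p q
      have d1 := (k3 k q).2 c2
      rw [← hpq] at d1
      exact k2 k p c1 d1
    have haa : a i ≠ a j := by
      intro h
      have d1 := (k3 i j).2 hij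
      rw [h, k3] at d1
      exact d1 rfl
    refine ⟨hab _ _, hab _ _, haa, (k1 i j hij).ne, hab _ _, hab _ _, k1 i j hij, k2 i j hij, ?_, ?_, ?_, ?_⟩
    · simp [k3]
    · simp [k3, hij]
    · simp [k3, hij.symm]
    · intro v v1 v2 v3 v4
      by_cases hv : ∀ k, v ≠ a k ∧ v ≠ b k
      · exact hout v hv
      · push Not at hv
        obtain ⟨k, hk⟩ := hv
        by_cases hka : v = a k
        · subst hka
          have hki : k ≠ i := fun h => v1 (by rw [h])
          have hkj : k ≠ j := fun h => v3 (by rw [h])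
          simp [k2 k i hki, k2 k j hkj, k3, hki, hkj]
        · have hkb := hk hka
          subst hkb
          have hki : k ≠ i := fun h => v2 (by rw [h])
          have hkj : k ≠ j := fun h => v4 (by rw [h])
          rw [G.adj_comm (b k) (a i), G.adj_comm (b k) (a j)]
          simp [k1 k i hki, k1 k j hkj, k3, hki.symm, hkj.symm]

end SpPar

end Pool.Agent.Helper856.Q8
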