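import Pool.Agent.Helper856.Q8.Defs
import Pool.Agent.Helper856.Q8.SpPar
import Pool.Agent.Helper856.Q8.ParLift
import Pool.Agent.Helper856.Q8.KeptF
import Pool.Agent.Helper856.Q8.Induce

open Classical SimpleGraph

namespace Pool.Agent.Helper856.Q8

open SpPar (sp_par)
open ParLift (par_lift)
open KeptF (leg_kept)
open Induce (sur_induce nc4_induce)

namespace SfKept

variable {V : Type} {G : SimpleGraph V}

theorem sf_kept_aux (hC : SpOK) (hS : Sur G) (h4 : NC4 G) {P : Finset (Finset (V × V))}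
    {K : Finset (V × V) → Finset (V × V)} (h : Fam G P K)
    (hcls : ∀ e : Fin 6 → V × V, (∀ i j, i ≠ j → Par2 G (e i).1 (e i).2 (e j).1 (e j).2) → ∃ c ∈ P, ∀ i, e i ∈ c)
    (a b : Fin 7 → kept P K)
    (hab : Thin (G.induce (kept P K)) 7 a b ∨ Thick (G.induce (kept P K)) 7 a b) : False := by
  obtain ⟨z, hz⟩ := sp_par (G := G.induce (kept P K)) hC (sur_induce hS _) (nc4_induce h4 _) 7
    (by norm_num) a b hab
  set e : Fin 6 → V × V := fun i => ((a (z.succAbove i) : V), (b (z.succAbove i) : V)) with he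
  have hpar : ∀ i j, i ≠ j → Par2 G (e i).1 (e i).2 (e j).1 (e j).2 := by
    intro i j hij
    refine par_lift h _ _ _ _ (hz _ _ (Fin.succAbove_ne z i) (Fin.succAbove_ne z j) ?_)
    intro hh
    exact hij (Fin.succAbove_right_injective hh)
  obtain ⟨c, hc, hec⟩ := hcls e hpar
  have hK : ∀ i, e i ∈ K c := fun i =>
    leg_kept h c hc (e i) (hec i) (Or.inl (a (z.succAbove i)).2)
  have hinj : Function.Injective e := by
    intro i j hij
    by_contra hne
    have h1 := (hpar i j hne).2.2.1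
    exact h1 (by rw [hij])
  have h5 : (K c).card = 5 := (h.2.2 c hc).2
  have h6 : (Finset.univ.image e).card = 6 := by
    rw [Finset.card_image_of_injective _ hinj, Finset.card_univ, Fintype.card_fin]
  have h7 : Finset.univ.image e ⊆ K c := by
    intro x hx
    obtain ⟨i, -, rfl⟩ := Finset.mem_image.1 hx
    exact hK i
  have h8 := Finset.card_le_card h7
  omega

/-- TARGET -/
theorem sf_kept (hC : SpOK) (hS : Sur G) (h4 : NC4 G) {P : Finset (Finset (V × V))}
    {K : Finset (V × V) → Finset (V × V)} (h : Fam G P K)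
    (hcls : ∀ e : Fin 6 → V × V, (∀ i j, i ≠ j → Par2 G (e i).1 (e i).2 (e j).1 (e j).2) → ∃ c ∈ P, ∀ i, e i ∈ c) :
    SF (G.induce (kept P K)) 7 := by
  intro a b
  exact ⟨fun ht => sf_kept_aux hC hS h4 h hcls a b (Or.inl ht),
    fun ht => sf_kept_aux hC hS h4 h hcls a b (Or.inr ht)⟩

end SfKept

end Pool.Agent.Helper856.Q8
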