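import Pool.Agent.Helper856.Q8.Defs

open Classical SimpleGraph

namespace Pool.Agent.Helper856.Q8

open Pool.Agent.Helper856.Lcw (GLin)

namespace PLinL

variable {V : Type} {G : SimpleGraph V}

/-- TARGET -/
theorem plin_base {k : ℕ} (S : Finset V) (h : S.card ≤ k) (hk : 0 < k) : PLin k G S := by
  refine ⟨fun v => if hv : v ∈ S then (S.equivFin ⟨v, hv⟩).val else 0, ?_, fun t =>
    ⟨fun v => if hv : v ∈ S then Fin.castLE h (S.equivFin ⟨v, hv⟩) else ⟨0, hk⟩, ?_⟩⟩
  · intro u hu v hv huv
    have hu' : u ∈ S := hu
    have hv' : v ∈ S := hv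
    simp only [hu', hv', dif_pos] at huv
    have h1 := S.equivFin.injective (Fin.ext huv)
    exact congrArg Subtype.val h1
  · intro u hu v hv _ _ huv w _
    simp only [hu, hv, dif_pos] at huv
    have h2 : S.equivFin ⟨u, hu⟩ = S.equivFin ⟨v, hv⟩ := by
      have := congrArg Fin.val huv
      exact Fin.ext this
    have h1 := S.equivFin.injective h2
    have h3 : u = v := congrArg Subtype.val h1
    rw [h3]

/-- TARGET -/
theorem plin_step {a b : ℕ} (S S' : Finset V) (hSS : S ⊆ S') (ha : (S' \ S).card ≤ a) (hr : Rows b G S)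
    (h : PLin (a + b) G S) : PLin (a + b) G S'  := by
  obtain ⟨p, hp, hc⟩ := h
  obtain ⟨cr, hcr⟩ := hr
  set D := S' \ S with hD
  set N := S.sup p + 1 with hN
  have hpN : ∀ v ∈ S, p v < N := fun v hv => Nat.lt_succ_of_le (Finset.le_sup (f := p) hv)
  let p' : V → ℕ := fun v => if v ∈ S then p v else
    if hv : v ∈ D then N + (D.equivFin ⟨v, hv⟩).val else 0
  have hpS : ∀ v ∈ S, p' v = p v := fun v hv => by simp only [p', if_pos hv]
  have hpD : ∀ v (hvS : v ∉ S) (hv : v ∈ D), p' v = N + (D.equivFin ⟨v, hv⟩).val := by
    intro v hvS hv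
    simp only [p', if_neg hvS, dif_pos hv]
  have hmem : ∀ v, v ∈ S' → v ∉ S → v ∈ D := fun v h1 h2 => by
    rw [hD]; exact Finset.mem_sdiff.2 ⟨h1, h2⟩
  refine ⟨p', ?_, fun t => ?_⟩
  · intro u hu v hv huv
    have hu' : u ∈ S' := hu
    have hv' : v ∈ S' := hv
    by_cases hus : u ∈ S
    · by_cases hvs : v ∈ S
      · rw [hpS u hus, hpS v hvs] at huv
        exact hp hus hvs huv
      · rw [hpS u hus, hpD v hvs (hmem v hv' hvs)] at huv
        have := hpN u hus
        omega
    · by_cases hvs : v ∈ S
      · rw [hpS v hvs, hpD u hus (hmem u hu' hus)] at huv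
        have := hpN v hvs
        omega
      · rw [hpD v hvs (hmem v hv' hvs), hpD u hus (hmem u hu' hus)] at huv
        have h1 : (D.equivFin ⟨u, hmem u hu' hus⟩) = (D.equivFin ⟨v, hmem v hv' hvs⟩) :=
          Fin.ext (by omega)
        exact congrArg Subtype.val (D.equivFin.injective h1)
  · obtain ⟨c, hc⟩ := hc t
    by_cases htN : t ≤ N
    · refine ⟨c, ?_⟩
      intro u hu v hv hut hvt huv w hw
      have hus : u ∈ S := by
        by_contra hus
        rw [hpD u hus (hmem u hu hus)] at hut
        omega
      have hvs : v ∈ S := by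
        by_contra hvs
        rw [hpD v hvs (hmem v hv hvs)] at hvt
        omega
      rw [hpS u hus] at hut
      rw [hpS v hvs] at hvt
      apply hc u hus v hvs hut hvt huv w
      by_cases hws : w ∈ S
      · right
        rcases hw with hw | hw
        · exact absurd (hSS hws) hw
        · rwa [hpS w hws] at hw
      · exact Or.inl hws
    · let c' : V → Fin (a + b) := fun v => if v ∈ S then Fin.natAdd a (cr v) else
        if hv : v ∈ D then Fin.castAdd b (Fin.castLE ha (D.equivFin ⟨v, hv⟩)) else c v
      have hcS : ∀ v ∈ S, c' v = Fin.natAdd a (cr v) := fun v hv => by simp only [c', if_pos hv]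
      have hcD : ∀ v (hvS : v ∉ S) (hv : v ∈ D),
          c' v = Fin.castAdd b (Fin.castLE ha (D.equivFin ⟨v, hv⟩)) := by
        intro v hvS hv
        simp only [c', if_neg hvS, dif_pos hv]
      refine ⟨c', ?_⟩
      intro u hu v hv hut hvt huv w hw
      have hws : w ∉ S := by
        intro hws
        rcases hw with hw | hw
        · exact hw (hSS hws)
        · rw [hpS w hws] at hw
          have := hpN w hws
          omega
      by_cases hus : u ∈ S
      · by_cases hvs : v ∈ S
        · rw [hcS u hus, hcS v hvs] at huv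
          have h1 : cr u = cr v := by
            have := congrArg Fin.val huv
            simp only [Fin.val_natAdd] at this
            exact Fin.ext (by omega)
          exact hcr u hus v hvs h1 w hws
        · exfalso
          rw [hcS u hus, hcD v hvs (hmem v hv hvs)] at huv
          have := congrArg Fin.val huv
          simp only [Fin.val_natAdd, Fin.val_castAdd, Fin.val_castLE] at this
          have h2 := (D.equivFin ⟨v, hmem v hv hvs⟩).isLt
          omega
      · by_cases hvs : v ∈ S
        · exfalso
          rw [hcS v hvs, hcD u hus (hmem u hu hus)] at huv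
          have := congrArg Fin.val huv
          simp only [Fin.val_natAdd, Fin.val_castAdd, Fin.val_castLE] at this
          have h2 := (D.equivFin ⟨u, hmem u hu hus⟩).isLt
          omega
        · rw [hcD v hvs (hmem v hv hvs), hcD u hus (hmem u hu hus)] at huv
          have := congrArg Fin.val huv
          simp only [Fin.val_castAdd, Fin.val_castLE] at this
          have h1 : (D.equivFin ⟨u, hmem u hu hus⟩) = (D.equivFin ⟨v, hmem v hv hvs⟩) :=
            Fin.ext this
          have h2 : u = v := congrArg Subtype.val (D.equivFin.injective h1)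
          rw [h2]

/-- TARGET -/
theorem glin_of_plin {k : ℕ} [Fintype V] (h : PLin k G Finset.univ) : GLin k G := by
  obtain ⟨p, hp, h⟩ := h
  refine ⟨p, fun u v huv => hp (by simp) (by simp) huv, fun t => ?_⟩
  obtain ⟨c, hc⟩ := h t
  exact ⟨c, fun u v hu hv huv w hw =>
    hc u (Finset.mem_univ _) v (Finset.mem_univ _) hu hv huv w (Or.inr hw)⟩

end PLinL

end Pool.Agent.Helper856.Q8
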