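import Pool.Agent.Helper856.Q8.Defs
import Pool.Agent.Helper856.Q8.PrimeConn

open Classical SimpleGraph

namespace Pool.Agent.Helper856.Q8

open PrimeConn (prime_twins)

namespace RowsDn

variable {V : Type} {G : SimpleGraph V}

/-- TARGET -/
theorem rows_dn (c3 : ℕ) [Fintype V] (hP : Prime G) (h3 : 3 ≤ Fintype.card V)
    (hF : ∀ x, (F1 G x).card ≤ c3) (x : V) : Rows (2 ^ c3) G (Dn G x) := by
  have hcard : Fintype.card ((F1 G x).powerset : Finset (Finset V)) ≤ Fintype.card (Fin (2 ^ c3)) := by
    rw [Fintype.card_coe, Finset.card_powerset, Fintype.card_fin]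
    exact Nat.pow_le_pow_right (by norm_num) (hF x)
  obtain ⟨e⟩ := Function.Embedding.nonempty_of_card_le hcard
  refine ⟨fun d => e ⟨(F1 G x).filter (fun f => G.Adj d f),
    Finset.mem_powerset.mpr (Finset.filter_subset _ _)⟩, ?_⟩
  intro u hu v hv huv w hw
  have hfil : (F1 G x).filter (fun f => G.Adj u f) = (F1 G x).filter (fun f => G.Adj v f) :=
    Subtype.ext_iff.mp (e.injective huv)
  have hD : ∀ d, d ∈ Dn G x → G.Adj x d ∧ ∀ y, G.Adj d y → y ≠ x → G.Adj x y := by
    intro d hd
    simp only [Dn, Finset.mem_filter, Finset.mem_univ, true_and] at hd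
    refine ⟨hd.1, fun y h1 h2 => ?_⟩
    by_contra h3
    have : y ∈ priv G d x := by simp [priv, h1, h2, h3]
    rw [hd.2] at this
    exact absurd this (Finset.notMem_empty y)
  obtain ⟨hu1, hu2⟩ := hD u hu
  obtain ⟨hv1, hv2⟩ := hD v hv
  by_cases hwx : w = x
  · subst hwx
    exact ⟨fun _ => hv1.symm, fun _ => hu1.symm⟩
  by_cases hxw : G.Adj x w
  · by_cases hne : (priv G x w).Nonempty
    · have hwF : w ∈ F1 G x := by
        simp only [F1, Finset.mem_filter, Finset.mem_univ, true_and]
        refine ⟨hxw, ?_, hne⟩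
        rw [Finset.nonempty_iff_ne_empty]
        intro he
        exact hw (by simp only [Dn, Finset.mem_filter, Finset.mem_univ, true_and]; exact ⟨hxw, he⟩)
      have h1 : w ∈ (F1 G x).filter (fun f => G.Adj u f) ↔ G.Adj u w := by
        rw [Finset.mem_filter]
        exact ⟨fun h => h.2, fun h => ⟨hwF, h⟩⟩
      have h2 : w ∈ (F1 G x).filter (fun f => G.Adj v f) ↔ G.Adj v w := by
        rw [Finset.mem_filter]
        exact ⟨fun h => h.2, fun h => ⟨hwF, h⟩⟩
      rw [← h1, ← h2, hfil]
    · rw [Finset.not_nonempty_iff_eq_empty] at hne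
      have hall : ∀ d ∈ Dn G x, G.Adj x d → G.Adj d w := by
        intro d hd hxd
        by_contra hnot
        have hdw : d ≠ w := fun h => hw (h ▸ hd)
        have : d ∈ priv G x w := by
          simp only [priv, Finset.mem_filter, Finset.mem_univ, true_and]
          exact ⟨hxd, fun h => hnot h.symm, hdw⟩
        rw [hne] at this
        exact absurd this (Finset.notMem_empty d)
      exact ⟨fun _ => hall v hv hv1, fun _ => hall u hu hu1⟩
  · exact ⟨fun h => absurd (hu2 w h hwx) hxw, fun h => absurd (hv2 w h hwx) hxw⟩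

end RowsDn

end Pool.Agent.Helper856.Q8
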