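import Pool.Agent.Helper856.Q8.Defs
import Pool.Agent.Helper856.Q8.Cover
import Pool.Agent.Helper856.Q8.ChainStep
import Pool.Agent.Helper856.Q8.RowsDn
import Pool.Agent.Helper856.Q8.PLinL

open Classical SimpleGraph

namespace Pool.Agent.Helper856.Q8

open Pool.Agent.Helper856.Lcw (GLin)
open Cover (cover)
open ChainStep (chain_step)
open RowsDn (rows_dn)
open PLinL (plin_base plin_step glin_of_plin)

namespace GlinChain

variable {V : Type} {G : SimpleGraph V}

theorem glin_chain_aux (c1 c3 : ℕ) [Fintype V] (hP : Prime G) (h3 : 3 ≤ Fintype.card V)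
    (hE : PL G c1) (hF : ∀ x, (F1 G x).card ≤ c3) (N : ℕ) : ∀ x, (Dn G x).card ≤ N →
    PLin ((c1 * c3 + 1 + c1 + c3) + 2 ^ c3) G (Dn G x) := by
  have h2 : 0 < 2 ^ c3 := by positivity
  induction N with
  | zero =>
    intro x hx
    exact plin_base _ (by omega) (by positivity)
  | succ N ih =>
    intro x hx
    by_cases h : (Dn G x).card ≤ c1 * c3 + 1
    · exact plin_base _ (by omega) (by positivity)
    · push Not at h
      obtain ⟨y, hy, hsub, hcard⟩ := chain_step c1 c3 hP h3 hE hF x h
      have hy' : y ∉ Dn G y := by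
        intro h
        rw [Dn, Finset.mem_filter] at h
        exact G.loopless.irrefl y h.2.1
      have hlt : (Dn G y).card < (Dn G x).card := by
        apply Finset.card_lt_card
        rw [Finset.ssubset_iff_of_subset hsub]
        exact ⟨y, hy, hy'⟩
      exact plin_step _ _ hsub hcard (rows_dn c3 hP h3 hF y) (ih y (by omega))

/-- TARGET -/
theorem glin_chain (c1 c3 : ℕ) [Fintype V] (hP : Prime G) (h3 : 3 ≤ Fintype.card V) (hE : PL G c1)
    (hF : ∀ x, (F1 G x).card ≤ c3) (x : V) (hU : Up G x = ∅) (hD : 2 * c1 < (Dn G x).card) :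
    GLin ((c1 * c3 + 1 + c1 + c3) + 2 ^ c3) G := by
  have h1 := glin_chain_aux c1 c3 hP h3 hE hF _ x le_rfl
  have h2 := cover c1 c3 hP h3 hE hF x hU hD
  exact glin_of_plin (plin_step _ _ (Finset.subset_univ _) (by omega) (rows_dn c3 hP h3 hF x) h1)

end GlinChain

end Pool.Agent.Helper856.Q8
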