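import Pool.Agent.Helper856.Q8.Defs
import Pool.Agent.Helper856.Q8.Greedy

open Classical SimpleGraph

namespace Pool.Agent.Helper856.Q8

open Greedy (greedy)

namespace KtBound

variable {V : Type} {G : SimpleGraph V}

/-- TARGET -/
theorem kt_bound (m c1 c2 : ℕ) [Fintype V] (h4 : NC4 G) (hSF : SF G (m + 1)) (hE : PL G c1)
    (hM : ∀ s x t, MS G s x t → (Mi G s x t).card ≤ c2) (x t : V) (hxt : ¬G.Adj x t) (hne : x ≠ t) :
    ((F1 G x).filter (fun f => G.Adj t f)).card ≤ m * (c1 * c2 + c2 + 1) := by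
  obtain ⟨K, hKdef⟩ : ∃ K, K = (F1 G x).filter (fun f => G.Adj t f) := ⟨_, rfl⟩
  rw [← hKdef]
  have hK : ∀ f ∈ K, G.Adj x f ∧ G.Adj t f ∧ (priv G x f).Nonempty := by
    intro f hf
    rw [hKdef, Finset.mem_filter, F1, Finset.mem_filter] at hf
    exact ⟨hf.1.2.1, hf.2, hf.1.2.2.2⟩
  clear hKdef
  have hcl : ∀ f ∈ K, ∀ f' ∈ K, f ≠ f' → G.Adj f f' := by
    intro f hf f' hf' hff
    obtain ⟨a1, a2, _⟩ := hK f hf
    obtain ⟨b1, b2, _⟩ := hK f' hf'
    rcases h4 x f t f' a1 a2.symm b2 b1.symm hne hff with h | h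
    · exact absurd h hxt
    · exact h
  obtain ⟨s, hs⟩ : ∃ s : V → V, ∀ f ∈ K, s f ∈ priv G x f :=
    ⟨fun f => if h : (priv G x f).Nonempty then h.choose else f, fun f hf => by
      have h := (hK f hf).2.2
      simp only [dif_pos h]
      exact h.choose_spec⟩
  have hs1 : ∀ f ∈ K, G.Adj x (s f) ∧ ¬G.Adj f (s f) ∧ s f ≠ f := by
    intro f hf
    have := hs f hf
    rw [priv, Finset.mem_filter] at this
    exact this.2
  have hMS : ∀ f ∈ K, MS G (s f) x t := by
    intro f hf
    obtain ⟨a1, a2, a3⟩ := hs1 f hf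
    obtain ⟨b1, b2, _⟩ := hK f hf
    refine ⟨a1.symm, ?_, hxt, ?_, hne⟩
    · intro h
      rcases h4 (s f) x f t a1.symm b1 b2.symm h.symm a3 hne with h' | h'
      · exact a2 h'.symm
      · exact hxt h'
    · intro h
      rw [h] at a1
      exact hxt a1
  obtain ⟨R, hR⟩ : ∃ R : V → V → Prop, ∀ a b, R a b ↔ ¬G.Adj (s a) b :=
    ⟨fun a b => ¬G.Adj (s a) b, fun a b => Iff.rfl⟩
  obtain ⟨I, hIK, hIc, hI⟩ := greedy K R (c1 * c2 + c2) (by
    intro y hy
    have hsub : ∀ a, a ∈ K → (a ≠ y ∧ (R y a ∨ R a y)) → a ∈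
        ((priv G x y).filter (fun s0 => MS G s0 x t)).biUnion (fun s0 => Mi G s0 x t) ∪
          Mi G (s y) x t := by
      intro a haK ha
      obtain ⟨hay, h⟩ := ha
      rw [hR, hR] at h
      obtain ⟨b1, b2, _⟩ := hK a haK
      rw [Finset.mem_union]
      rcases h with h | h
      · right
        rw [Mi, Finset.mem_filter]
        exact ⟨Finset.mem_univ _, b1, b2.symm, fun h' => h h'.symm⟩
      · left
        obtain ⟨a1, a2, a3⟩ := hs1 a haK
        rw [Finset.mem_biUnion]
        refine ⟨s a, ?_, ?_⟩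
        · rw [Finset.mem_filter, priv, Finset.mem_filter]
          refine ⟨⟨Finset.mem_univ _, a1, fun h' => h h'.symm, ?_⟩, hMS a haK⟩
          intro h'
          apply a2
          rw [h']
          exact hcl a haK y hy hay
        · rw [Mi, Finset.mem_filter]
          exact ⟨Finset.mem_univ _, b1, b2.symm, a2⟩
    have hES : (priv G x y).card ≤ c1 := by
      obtain ⟨b1, b2, _⟩ := hK y hy
      exact hE x y t ⟨b1, b2.symm, hxt, hne⟩
    refine (Finset.card_le_card (t := ((priv G x y).filter (fun s0 => MS G s0 x t)).biUnion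
      (fun s0 => Mi G s0 x t) ∪ Mi G (s y) x t) (by
        intro a ha
        rw [Finset.mem_filter] at ha
        exact hsub a ha.1 ha.2)).trans ?_
    calc _ ≤ _ := Finset.card_union_le _ _
      _ ≤ c1 * c2 + c2 := by
          apply Nat.add_le_add _ (hM _ _ _ (hMS y hy))
          calc _ ≤ ((priv G x y).filter (fun s0 => MS G s0 x t)).card * c2 := by
                apply Finset.card_biUnion_le_card_mul
                intro s0 hs0
                rw [Finset.mem_filter] at hs0
                exact hM _ _ _ hs0.2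
            _ ≤ c1 * c2 := Nat.mul_le_mul_right _ ((Finset.card_filter_le _ _).trans hES))
  have hIm : I.card ≤ m := by
    by_contra hcon
    push Not at hcon
    have hI' : ∀ a ∈ I, ∀ b ∈ I, a ≠ b → G.Adj (s a) b := by
      intro a ha b hb hab
      have := hI a ha b hb hab
      rw [hR] at this
      push Not at this
      exact this
    obtain ⟨e, he1, he2⟩ : ∃ e : Fin (m + 1) → V, (∀ i, e i ∈ I) ∧ Function.Injective e :=
      ⟨fun i => (I.equivFin.symm (Fin.castLE (by omega) i) : V), fun i => Subtype.coe_prop _,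
        fun i j h => Fin.castLE_injective _ (I.equivFin.symm.injective (Subtype.ext h))⟩
    apply (hSF (fun i => s (e i)) e).2
    refine ⟨?_, ?_, ?_⟩
    · intro i j hij
      exact hcl _ (hIK (he1 i)) _ (hIK (he1 j)) (fun h => hij (he2 h))
    · intro i j hij h
      have hne' : e i ≠ e j := fun h => hij (he2 h)
      obtain ⟨a1, a2, a3⟩ := hs1 _ (hIK (he1 i))
      obtain ⟨b1, b2, b3⟩ := hs1 _ (hIK (he1 j))
      rcases h4 (s (e i)) (s (e j)) (e i) (e j) h (hI' _ (he1 j) _ (he1 i) hne'.symm)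
        (hcl _ (hIK (he1 i)) _ (hIK (he1 j)) hne') (hI' _ (he1 i) _ (he1 j) hne').symm a3 b3
        with h' | h'
      · exact a2 h'.symm
      · exact b2 h'.symm
    · intro i j
      constructor
      · intro h hij
        subst hij
        exact (hs1 _ (hIK (he1 i))).2.1 h.symm
      · intro hij
        exact hI' _ (he1 i) _ (he1 j) (fun h => hij (he2 h))
  calc K.card ≤ (c1 * c2 + c2 + 1) * I.card := hIc
    _ ≤ (c1 * c2 + c2 + 1) * m := Nat.mul_le_mul_left _ hIm
    _ = m * (c1 * c2 + c2 + 1) := Nat.mul_comm _ _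

end KtBound

end Pool.Agent.Helper856.Q8
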