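import Pool.Agent.Helper856.Q8.Defs
import Pool.Agent.Helper856.Q8.Vlq

open Classical SimpleGraph

namespace Pool.Agent.Helper856.Q8

open Vlq (vlq)

namespace MHom

variable {V : Type} {G : SimpleGraph V}

theorem m_hom_inj (s x t w f1 f2 f3 f4 : V) (a1 : s ≠ x) (a2 : s ≠ t) (a3 : s ≠ w)
    (a4 : s ≠ f1) (a5 : s ≠ f2) (a6 : s ≠ f3) (a7 : s ≠ f4)
    (b1 : x ≠ t) (b2 : x ≠ w) (b3 : x ≠ f1) (b4 : x ≠ f2) (b5 : x ≠ f3) (b6 : x ≠ f4)
    (c1 : t ≠ w) (c2 : t ≠ f1) (c3 : t ≠ f2) (c4 : t ≠ f3) (c5 : t ≠ f4)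
    (d1 : w ≠ f1) (d2 : w ≠ f2) (d3 : w ≠ f3) (d4 : w ≠ f4)
    (e1 : f1 ≠ f2) (e2 : f1 ≠ f3) (e3 : f1 ≠ f4) (e4 : f2 ≠ f3) (e5 : f2 ≠ f4) (e6 : f3 ≠ f4) :
    Function.Injective ![s, x, t, w, f1, f2, f3, f4] := by
  rw [← List.nodup_ofFn]
  simp [List.ofFn_succ, *]

theorem m_hom_key (hS : Sur G) [Fintype V] (s x t : V) (h : MS G s x t)
    (hM : 4 ≤ (Mi G s x t).card)
    (w : V) (hw : w ∉ Mi G s x t) (hs : w ≠ s) (hx : w ≠ x) (ht : w ≠ t) (f f' : V)
    (hf : f ∈ Mi G s x t) (hf' : f' ∈ Mi G s x t) (h1 : G.Adj w f) (h2 : ¬G.Adj w f')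
    (hc : (¬G.Adj w s ∧ ¬G.Adj w x ∧ G.Adj w t) ∨ (G.Adj w s ∧ G.Adj w x ∧ ¬G.Adj w t)) :
    False := by
  obtain ⟨hsx, hst, hxt, hst', hxt'⟩ := h
  have hne : f ≠ f' := by
    rintro rfl
    exact h2 h1
  have hmem : ∀ g, g ∈ Mi G s x t ↔ (G.Adj x g ∧ G.Adj g t ∧ ¬G.Adj g s) := by
    intro g
    simp [Mi]
  have hcard : 1 < (((Mi G s x t).erase f).erase f').card := by
    rw [Finset.card_erase_of_mem, Finset.card_erase_of_mem hf]
    · omega
    · exact Finset.mem_erase.2 ⟨hne.symm, hf'⟩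
  obtain ⟨g1, hg1, g2, hg2, hg12⟩ := Finset.one_lt_card.1 hcard
  simp only [Finset.mem_erase] at hg1 hg2
  obtain ⟨p1, p2, p3⟩ := hg1
  obtain ⟨q1, q2, q3⟩ := hg2
  have hwm : ∀ g ∈ Mi G s x t, w ≠ g := by
    rintro g hg rfl
    exact hw hg
  have hsm : ∀ g ∈ Mi G s x t, s ≠ g := by
    rintro g hg rfl
    exact hst ((hmem _).1 hg).2.1
  have hxm : ∀ g ∈ Mi G s x t, x ≠ g := by
    intro g hg
    exact ((hmem _).1 hg).1.ne
  have htm : ∀ g ∈ Mi G s x t, t ≠ g := by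
    intro g hg
    exact ((hmem _).1 hg).2.1.ne'
  have hinj : Function.Injective ![s, x, t, w, f, f', g1, g2] :=
    m_hom_inj s x t w f f' g1 g2 hsx.ne hst' hs.symm (hsm _ hf) (hsm _ hf') (hsm _ p3) (hsm _ q3)
      hxt' hx.symm (hxm _ hf) (hxm _ hf') (hxm _ p3) (hxm _ q3)
      ht.symm (htm _ hf) (htm _ hf') (htm _ p3) (htm _ q3)
      (hwm _ hf) (hwm _ hf') (hwm _ p3) (hwm _ q3)
      hne p2.symm q2.symm p1.symm q1.symm hg12
  have hP : ∀ g ∈ Mi G s x t, IsP4 G s x g t := by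
    intro g hg
    obtain ⟨k1, k2, k3⟩ := (hmem _).1 hg
    exact ⟨hsx, k1, k2, fun k => k3 k.symm, hst, hxt⟩
  rcases hc with ⟨c1, c2, c3⟩ | ⟨c1, c2, c3⟩
  · have hQ1 : ∀ g ∈ Mi G s x t, G.Adj w g → IsP4 G w g x s := by
      intro g hg hwg
      obtain ⟨k1, k2, k3⟩ := (hmem _).1 hg
      exact ⟨hwg, k1.symm, hsx.symm, c2, c1, k3⟩
    have hQ2 : ∀ g ∈ Mi G s x t, ¬G.Adj w g → IsP4 G x g t w := by
      intro g hg hwg
      obtain ⟨k1, k2, k3⟩ := (hmem _).1 hg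
      exact ⟨k1, k2, c3.symm, hxt, fun k => c2 k.symm, fun k => hwg k.symm⟩
    by_cases hg : G.Adj w g1
    · refine vlq hS ![s, x, t, w, f, f', g1, g2] hinj
        [(0,1,4,2), (0,1,5,2), (0,1,6,2), (0,1,7,2), (3,4,1,0), (1,5,2,3), (3,6,1,0)]
        (by simp) (by simp) (by simp) (by decide) ?_
      intro q hq
      simp only [List.mem_cons, List.not_mem_nil, or_false] at hq
      rcases hq with rfl | rfl | rfl | rfl | rfl | rfl | rfl
      · exact hP f hf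
      · exact hP f' hf'
      · exact hP g1 p3
      · exact hP g2 q3
      · exact hQ1 f hf h1
      · exact hQ2 f' hf' h2
      · exact hQ1 g1 p3 hg
    · refine vlq hS ![s, x, t, w, f, f', g1, g2] hinj
        [(0,1,4,2), (0,1,5,2), (0,1,6,2), (0,1,7,2), (3,4,1,0), (1,5,2,3), (1,6,2,3)]
        (by simp) (by simp) (by simp) (by decide) ?_
      intro q hq
      simp only [List.mem_cons, List.not_mem_nil, or_false] at hq
      rcases hq with rfl | rfl | rfl | rfl | rfl | rfl | rfl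
      · exact hP f hf
      · exact hP f' hf'
      · exact hP g1 p3
      · exact hP g2 q3
      · exact hQ1 f hf h1
      · exact hQ2 f' hf' h2
      · exact hQ2 g1 p3 hg
  · have hQ1 : ∀ g ∈ Mi G s x t, G.Adj w g → IsP4 G s w g t := by
      intro g hg hwg
      obtain ⟨k1, k2, k3⟩ := (hmem _).1 hg
      exact ⟨c1.symm, hwg, k2, fun k => k3 k.symm, hst, c3⟩
    have hQ2 : ∀ g ∈ Mi G s x t, ¬G.Adj w g → IsP4 G w x g t := by
      intro g hg hwg
      obtain ⟨k1, k2, k3⟩ := (hmem _).1 hg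
      exact ⟨c2, k1, k2, hwg, c3, hxt⟩
    by_cases hg : G.Adj w g1
    · refine vlq hS ![s, x, t, w, f, f', g1, g2] hinj
        [(0,1,4,2), (0,1,5,2), (0,1,6,2), (0,1,7,2), (0,3,4,2), (3,1,5,2), (0,3,6,2)]
        (by simp) (by simp) (by simp) (by decide) ?_
      intro q hq
      simp only [List.mem_cons, List.not_mem_nil, or_false] at hq
      rcases hq with rfl | rfl | rfl | rfl | rfl | rfl | rfl
      · exact hP f hf
      · exact hP f' hf'
      · exact hP g1 p3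
      · exact hP g2 q3
      · exact hQ1 f hf h1
      · exact hQ2 f' hf' h2
      · exact hQ1 g1 p3 hg
    · refine vlq hS ![s, x, t, w, f, f', g1, g2] hinj
        [(0,1,4,2), (0,1,5,2), (0,1,6,2), (0,1,7,2), (0,3,4,2), (3,1,5,2), (3,1,6,2)]
        (by simp) (by simp) (by simp) (by decide) ?_
      intro q hq
      simp only [List.mem_cons, List.not_mem_nil, or_false] at hq
      rcases hq with rfl | rfl | rfl | rfl | rfl | rfl | rfl
      · exact hP f hf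
      · exact hP f' hf'
      · exact hP g1 p3
      · exact hP g2 q3
      · exact hQ1 f hf h1
      · exact hQ2 f' hf' h2
      · exact hQ2 g1 p3 hg

/-- TARGET -/
theorem m_hom (hS : Sur G) (h4 : NC4 G) [Fintype V] (s x t : V) (h : MS G s x t) (hM : 4 ≤ (Mi G s x t).card)
    (w : V) (hw : w ∉ Mi G s x t) (hs : w ≠ s) (hx : w ≠ x) (ht : w ≠ t) (f f' : V)
    (hf : f ∈ Mi G s x t) (hf' : f' ∈ Mi G s x t) (h1 : G.Adj w f) (h2 : ¬G.Adj w f') :
    (∃ τ, mx G s x t τ w f) ∨ (∃ τ, mx G s x t τ w f') := by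
  have h' := h
  obtain ⟨hsx, hst, hxt, hst', hxt'⟩ := h
  have hmem : ∀ g, g ∈ Mi G s x t ↔ (G.Adj x g ∧ G.Adj g t ∧ ¬G.Adj g s) := by
    intro g
    simp [Mi]
  obtain ⟨k1, k2, k3⟩ := (hmem _).1 hf
  obtain ⟨l1, l2, l3⟩ := (hmem _).1 hf'
  by_cases c1 : G.Adj w s
  · by_cases c2 : G.Adj w x
    · by_cases c3 : G.Adj w t
      · exfalso
        have hwf : w ≠ f' := by
          rintro rfl
          exact hw hf'
        rcases h4 x w t f' c2.symm c3 l2.symm l1.symm hxt' hwf with h5 | h5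
        · exact hxt h5
        · exact h2 h5
      · exact (m_hom_key hS s x t h' hM w hw hs hx ht f f' hf hf' h1 h2
          (Or.inr ⟨c1, c2, c3⟩)).elim
    · exfalso
      have hsf : s ≠ f := by
        rintro rfl
        exact hst k2
      rcases h4 s x f w hsx k1 h1.symm c1 hsf hx.symm with h5 | h5
      · exact k3 h5.symm
      · exact c2 h5.symm
  · by_cases c2 : G.Adj w x
    · by_cases c3 : G.Adj w t
      · exact absurd ((hmem w).2 ⟨c2.symm, c3, c1⟩) hw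
      · right
        exact ⟨1, Or.inr ⟨rfl, c1, c2, c3, h2, hs⟩⟩
    · by_cases c3 : G.Adj w t
      · exact (m_hom_key hS s x t h' hM w hw hs hx ht f f' hf hf' h1 h2
          (Or.inl ⟨c1, c2, c3⟩)).elim
      · left
        exact ⟨0, Or.inl ⟨rfl, c1, c2, c3, h1⟩⟩

end MHom

end Pool.Agent.Helper856.Q8
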