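import Pool.Agent.Helper856.Q8.Defs
import Pool.Agent.Helper856.Q8.Vlq

open Classical SimpleGraph

namespace Pool.Agent.Helper856.Q8

open Vlq (vlq)

namespace MTwo

variable {V : Type} {G : SimpleGraph V}

/-- TARGET (corrected: `w ≠ t` added; without it `w = t`, `τ = 0` is a counterexample) -/
theorem m_two' (hS : Sur G) (h4 : NC4 G) [Fintype V] (s x t : V) (h : MS G s x t) (hM : 4 ≤ (Mi G s x t).card)
    (τ : Fin 3) (w y1 y2 y3 : V) (hwt : w ≠ t)
    (m1 : y1 ∈ Mi G s x t) (m2 : y2 ∈ Mi G s x t) (m3 : y3 ∈ Mi G s x t)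
    (n12 : y1 ≠ y2) (n13 : y1 ≠ y3) (n23 : y2 ≠ y3)
    (h1 : mx G s x t τ w y1) (h2 : mx G s x t τ w y2) (h3 : mx G s x t τ w y3) : False := by
  obtain ⟨hsx, hst, hxt, nst, nxt⟩ := h
  have hmem : ∀ f, f ∈ Mi G s x t → G.Adj x f ∧ G.Adj f t ∧ ¬G.Adj f s := by
    intro f hf
    unfold Mi at hf
    rw [Finset.mem_filter] at hf
    exact hf.2
  obtain ⟨y4, m4, n4⟩ : ∃ y4 ∈ Mi G s x t, y4 ∉ ({y1, y2, y3} : Finset V) := by
    apply Finset.exists_mem_notMem_of_card_lt_card
    refine lt_of_le_of_lt Finset.card_le_three ?_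
    omega
  simp only [Finset.mem_insert, Finset.mem_singleton, not_or] at n4
  obtain ⟨n41, n42, n43⟩ := n4
  have a1 := hmem _ m1
  have a2 := hmem _ m2
  have a3 := hmem _ m3
  have a4 := hmem _ m4
  have nsx : s ≠ x := hsx.ne
  have p4 : ∀ f, f ∈ Mi G s x t → IsP4 G s x f t := by
    intro f hf
    obtain ⟨b1, b2, b3⟩ := hmem f hf
    exact ⟨hsx, b1, b2, fun h => b3 h.symm, hst, hxt⟩
  have nys : ∀ f, f ∈ Mi G s x t → f ≠ s := by
    rintro f hf rfl
    exact hst (hmem _ hf).2.1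
  have nyx : ∀ f, f ∈ Mi G s x t → f ≠ x := by
    rintro f hf rfl
    exact G.loopless.irrefl _ (hmem _ hf).1
  have nyt : ∀ f, f ∈ Mi G s x t → f ≠ t := fun f hf => (hmem f hf).2.1.ne
  have main : ∀ (L : List (Fin 8 × Fin 8 × Fin 8 × Fin 8)), ¬G.Adj w t → w ≠ s → w ≠ x →
      L ≠ [] → L.length ≤ 7 → 8 ≤ L.length + 1 → okq L = true →
      (∀ q ∈ L, IsP4 G ((![y1, y2, y3, y4, s, x, t, w] : Fin 8 → V) q.1)
        ((![y1, y2, y3, y4, s, x, t, w] : Fin 8 → V) q.2.1)
        ((![y1, y2, y3, y4, s, x, t, w] : Fin 8 → V) q.2.2.1)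
        ((![y1, y2, y3, y4, s, x, t, w] : Fin 8 → V) q.2.2.2)) → False := by
    intro L hwt' nws nwx h0 h7 hn hok hL
    have nyw : ∀ f, f ∈ Mi G s x t → f ≠ w := by
      rintro f hf rfl
      exact hwt' (hmem _ hf).2.1
    refine vlq hS (![y1, y2, y3, y4, s, x, t, w] : Fin 8 → V) ?_ L h0 h7 hn hok hL
    have hnd : [y1, y2, y3, y4, s, x, t, w].Nodup := by
      simp only [List.nodup_cons, List.mem_cons, List.not_mem_nil, or_false, not_or,
        not_false_eq_true, List.nodup_nil, and_true]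
      exact ⟨⟨n12, n13, Ne.symm n41, nys _ m1, nyx _ m1, nyt _ m1, nyw _ m1⟩,
        ⟨n23, Ne.symm n42, nys _ m2, nyx _ m2, nyt _ m2, nyw _ m2⟩,
        ⟨Ne.symm n43, nys _ m3, nyx _ m3, nyt _ m3, nyw _ m3⟩,
        ⟨nys _ m4, nyx _ m4, nyt _ m4, nyw _ m4⟩,
        ⟨nsx, nst, Ne.symm nws⟩, ⟨nxt, Ne.symm nwx⟩, Ne.symm hwt⟩
    have e : (![y1, y2, y3, y4, s, x, t, w] : Fin 8 → V) =
        fun i => [y1, y2, y3, y4, s, x, t, w].get i := by
      funext i
      fin_cases i <;> rfl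
    rw [e]
    exact List.nodup_iff_injective_get.1 hnd
  have q1 := p4 _ m1
  have q2 := p4 _ m2
  have q3 := p4 _ m3
  have q4 := p4 _ m4
  rcases h1 with ⟨t1, u1, u2, u3, u4⟩ | ⟨t1, u1, u2, u3, u4, u5⟩
  · subst t1
    rcases h2 with ⟨-, -, -, -, v4⟩ | ⟨t2, -⟩
    · rcases h3 with ⟨-, -, -, -, w4⟩ | ⟨t2, -⟩
      · have r : ∀ f, f ∈ Mi G s x t → G.Adj w f → IsP4 G w f x s := by
          intro f hf hwf
          obtain ⟨b1, b2, b3⟩ := hmem f hf
          exact ⟨hwf, b1.symm, hsx.symm, u2, u1, b3⟩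
        have r1 := r _ m1 u4
        have r2 := r _ m2 v4
        have r3 := r _ m3 w4
        have nws : w ≠ s := by
          rintro rfl
          exact u2 hsx
        have nwx : w ≠ x := by
          rintro rfl
          exact u1 hsx.symm
        refine main [(4,5,0,6),(4,5,1,6),(4,5,2,6),(4,5,3,6),(7,0,5,4),(7,1,5,4),(7,2,5,4)]
          u3 nws nwx (by simp) (by simp) (by simp) (by decide) ?_
        intro q hq
        simp only [List.mem_cons, List.not_mem_nil, or_false] at hq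
        rcases hq with rfl | rfl | rfl | rfl | rfl | rfl | rfl
        · exact q1
        · exact q2
        · exact q3
        · exact q4
        · exact r1
        · exact r2
        · exact r3
      · exact absurd t2 (by decide)
    · exact absurd t2 (by decide)
  · subst t1
    rcases h2 with ⟨t2, -⟩ | ⟨-, -, -, -, v4, -⟩
    · exact absurd t2 (by decide)
    · rcases h3 with ⟨t2, -⟩ | ⟨-, -, -, -, w4, -⟩
      · exact absurd t2 (by decide)
      · have r : ∀ f, f ∈ Mi G s x t → ¬G.Adj w f → IsP4 G w x f t := by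
          intro f hf hwf
          obtain ⟨b1, b2, b3⟩ := hmem f hf
          exact ⟨u2, b1, b2, hwf, u3, hxt⟩
        have r1 := r _ m1 u4
        have r2 := r _ m2 v4
        have r3 := r _ m3 w4
        refine main [(4,5,0,6),(4,5,1,6),(4,5,2,6),(4,5,3,6),(7,5,0,6),(7,5,1,6),(7,5,2,6)]
          u3 u5 u2.ne (by simp) (by simp) (by simp) (by decide) ?_
        intro q hq
        simp only [List.mem_cons, List.not_mem_nil, or_false] at hq
        rcases hq with rfl | rfl | rfl | rfl | rfl | rfl | rfl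
        · exact q1
        · exact q2
        · exact q3
        · exact q4
        · exact r1
        · exact r2
        · exact r3

end MTwo

end Pool.Agent.Helper856.Q8
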