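import Pool.Agent.Helper856.Q8.Defs
import Pool.Agent.Helper856.Q8.MHom
import Pool.Agent.Helper856.Q8.MTwo
import Pool.Agent.Helper856.Q8.MtchL

open Classical SimpleGraph

namespace Pool.Agent.Helper856.Q8

open MHom (m_hom)
open MTwo (m_two')
open MtchL (mtch)

namespace MMain

variable {V : Type} {G : SimpleGraph V}

/-- TARGET -/
theorem m_main (m : ℕ) (hF : Fine G (m + 1)) [Fintype V] (s x t : V) (h : MS G s x t) :
    (Mi G s x t).card ≤ 9 * m + 4 := by
  by_contra hcon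
  push Not at hcon
  obtain ⟨hS, h4, hP, hSF⟩ := hF
  obtain ⟨hsx, hst, hxt, hst', hxt'⟩ := h
  have h : MS G s x t := ⟨hsx, hst, hxt, hst', hxt'⟩
  have hmem : ∀ f, f ∈ Mi G s x t ↔ G.Adj x f ∧ G.Adj f t ∧ ¬G.Adj f s := by
    intro f
    simp [Mi]
  have hclique : ∀ f f', f ∈ Mi G s x t → f' ∈ Mi G s x t → f ≠ f' → G.Adj f f' := by
    intro f f' hf hf' hne
    rw [hmem] at hf hf'
    rcases h4 x f t f' hf.1 hf.2.1 hf'.2.1.symm hf'.1.symm hxt' hne with h' | h'
    · exact absurd h' hxt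
    · exact h'
  obtain ⟨Me, hMedef⟩ : ∃ Me, Me = (Mi G s x t).filter (fun f => ∃ τ w, mx G s x t τ w f ∧ w ≠ t) :=
    ⟨_, rfl⟩
  have hMemem : ∀ f, f ∈ Me ↔ f ∈ Mi G s x t ∧ ∃ τ w, mx G s x t τ w f ∧ w ≠ t := by
    intro f
    rw [hMedef, Finset.mem_filter]
  have hMecard : Me.card ≤ 9 * m := by
    by_contra hc
    push Not at hc
    obtain ⟨τ, w, y, hy, hw, hyi, hR⟩ := mtch (fun τ w f => mx G s x t τ w f ∧ w ≠ t) Me m
      (fun f hf => ((hMemem f).1 hf).2)
      (fun τ w y1 hy1 y2 hy2 y3 hy3 n12 n13 n23 r1 r2 r3 =>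
        m_two' hS h4 s x t h (by omega) τ w y1 y2 y3 r1.2 ((hMemem _).1 hy1).1 ((hMemem _).1 hy2).1
          ((hMemem _).1 hy3).1 n12 n13 n23 r1.1 r2.1 r3.1) hc
    have hyM : ∀ i, y i ∈ Mi G s x t := fun i => ((hMemem _).1 (hy i)).1
    have hyy : ∀ i j, i ≠ j → G.Adj (y i) (y j) := fun i j hij =>
      hclique _ _ (hyM i) (hyM j) (fun e => hij (hyi e))
    rcases (hR 0 0).2 rfl with ⟨⟨hτ, -⟩ | ⟨hτ, -⟩, -⟩
    · -- thin
      subst hτ
      have hw0 : ∀ i, ¬G.Adj (w i) s ∧ ¬G.Adj (w i) x ∧ ¬G.Adj (w i) t ∧ G.Adj (w i) (y i) := by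
        intro i
        rcases (hR i i).2 rfl with ⟨⟨-, h1⟩ | ⟨h0, -⟩, -⟩
        · exact h1
        · exact absurd h0 (by decide)
      have hadj : ∀ i j, G.Adj (w i) (y j) ↔ i = j := by
        intro i j
        constructor
        · intro hij
          exact (hR i j).1 ⟨Or.inl ⟨rfl, (hw0 i).1, (hw0 i).2.1, (hw0 i).2.2.1, hij⟩, ((hR i i).2 rfl).2⟩
        · rintro rfl
          exact (hw0 i).2.2.2
      have hne : ∀ i j, w i ≠ y j := by
        intro i j e
        apply (hw0 i).2.1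
        rw [e]
        exact ((hmem _).1 (hyM j)).1.symm
      refine (hSF w y).1 ⟨hyy, ?_, hadj⟩
      intro i j hij hww
      rcases h4 (w i) (y i) (y j) (w j) ((hadj i i).2 rfl) (hyy i j hij) ((hadj j j).2 rfl).symm
        hww.symm (hne i j) (fun e => hne j i e.symm) with h' | h'
      · exact hij ((hadj i j).1 h')
      · exact hij ((hadj j i).1 h'.symm).symm
    · -- thick
      subst hτ
      have hw0 : ∀ i, ¬G.Adj (w i) s ∧ G.Adj (w i) x ∧ ¬G.Adj (w i) t ∧ ¬G.Adj (w i) (y i) ∧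
          w i ≠ s := by
        intro i
        rcases (hR i i).2 rfl with ⟨⟨h0, -⟩ | ⟨-, h1⟩, -⟩
        · exact absurd h0 (by decide)
        · exact h1
      have hadj : ∀ i j, G.Adj (w i) (y j) ↔ i ≠ j := by
        intro i j
        constructor
        · rintro h1 rfl
          exact (hw0 i).2.2.2.1 h1
        · intro hij
          by_contra hn
          exact hij ((hR i j).1 ⟨Or.inr ⟨rfl, (hw0 i).1, (hw0 i).2.1, (hw0 i).2.2.1, hn,
            (hw0 i).2.2.2.2⟩, ((hR i i).2 rfl).2⟩)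
      have hne : ∀ i j, w i ≠ y j := by
        intro i j e
        apply (hw0 i).2.2.1
        rw [e]
        exact ((hmem _).1 (hyM j)).2.1
      refine (hSF w y).2 ⟨hyy, ?_, hadj⟩
      intro i j hij hww
      rcases h4 (w i) (y j) (y i) (w j) ((hadj i j).2 hij) (hyy j i hij.symm)
        ((hadj j i).2 hij.symm).symm hww.symm (hne i i) (fun e => hne j j e.symm) with h' | h'
      · exact (hw0 i).2.2.2.1 h'
      · exact (hw0 j).2.2.2.1 h'.symm
  have hMd : Md G {f | f ∈ Mi G s x t ∧ f ∉ Me} := by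
    intro v hv f hf f' hf'
    obtain ⟨hfM, hfe⟩ := hf
    obtain ⟨hfM', hfe'⟩ := hf'
    have hv' : v ∈ Mi G s x t → v ∈ Me := by
      intro h1
      by_contra h2
      exact hv ⟨h1, h2⟩
    by_cases hvs : v = s
    · subst hvs
      exact ⟨fun h1 => absurd h1.symm ((hmem f).1 hfM).2.2,
        fun h1 => absurd h1.symm ((hmem f').1 hfM').2.2⟩
    by_cases hvx : v = x
    · subst hvx
      exact ⟨fun _ => ((hmem f').1 hfM').1, fun _ => ((hmem f).1 hfM).1⟩
    by_cases hvt : v = t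
    · subst hvt
      exact ⟨fun _ => ((hmem f').1 hfM').2.1.symm, fun _ => ((hmem f).1 hfM).2.1.symm⟩
    by_cases hvM : v ∈ Mi G s x t
    · have hve := hv' hvM
      exact ⟨fun _ => hclique v f' hvM hfM' (fun e => hfe' (e ▸ hve)),
        fun _ => hclique v f hvM hfM (fun e => hfe (e ▸ hve))⟩
    have key : ∀ g g', g ∈ Mi G s x t → g' ∈ Mi G s x t → g ∉ Me → g' ∉ Me →
        G.Adj v g → G.Adj v g' := by
      intro g g' hg hg' hge hge' h1
      by_contra h2
      rcases m_hom hS h4 s x t h (by omega) v hvM hvs hvx hvt g g' hg hg' h1 h2 with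
        ⟨τ, h3⟩ | ⟨τ, h3⟩
      · exact hge ((hMemem g).2 ⟨hg, τ, v, h3, hvt⟩)
      · exact hge' ((hMemem g').2 ⟨hg', τ, v, h3, hvt⟩)
    exact ⟨key f f' hfM hfM' hfe hfe', key f' f hfM' hfM hfe' hfe⟩
  have hsub : Me ⊆ Mi G s x t := fun f hf => ((hMemem f).1 hf).1
  have hcard : (Mi G s x t \ Me).card ≤ 1 := by
    rcases hP _ hMd with h1 | h1
    · rw [Finset.card_le_one]
      intro a ha b hb
      rw [Finset.mem_sdiff] at ha hb
      exact h1 ha hb
    · exfalso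
      have : s ∈ {f | f ∈ Mi G s x t ∧ f ∉ Me} := by rw [h1]; trivial
      exact hst ((hmem s).1 this.1).2.1
  have := Finset.card_sdiff_add_card_eq_card hsub
  omega

end MMain

end Pool.Agent.Helper856.Q8
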