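import Pool.Agent.Helper856.Q8.Defs
import Pool.Agent.Helper856.Q8.Contact

open Classical SimpleGraph

namespace Pool.Agent.Helper856.Q8

open Contact (contact)

namespace Tripod

variable {V : Type} {G : SimpleGraph V}

theorem tripod_dist_adj (hc : G.Connected) (a u v : V) (h : G.Adj u v) :
    G.dist a v ≤ G.dist a u + 1 := by
  have h1 := hc.dist_triangle (u := a) (v := u) (w := v)
  have h2 : G.dist u v = 1 := dist_eq_one_iff_adj.2 h
  omega

theorem tripod_geo (hc : G.Connected) (a b : V) : ∃ (n : ℕ) (p : ℕ → V), n = G.dist a b ∧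
    p 0 = a ∧ p n = b ∧ (∀ i < n, G.Adj (p i) (p (i + 1))) ∧ ∀ i ≤ n, G.dist a (p i) = i := by
  obtain ⟨W, hW⟩ := hc.exists_walk_length_eq_dist a b
  refine ⟨W.length, W.getVert, hW, W.getVert_zero, W.getVert_length,
    fun i hi => W.adj_getVert_succ hi, ?_⟩
  have h1 : ∀ i ≤ W.length, G.dist a (W.getVert i) ≤ i := by
    intro i
    induction i with
    | zero => intro _; simp
    | succ i ih =>
      intro hi
      have := tripod_dist_adj hc a _ _ (W.adj_getVert_succ (i := i) (by omega))
      have := ih (by omega)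
      omega
  have h2 : ∀ j i, i + j = W.length → W.length ≤ G.dist a (W.getVert i) + j := by
    intro j
    induction j with
    | zero =>
      intro i hi
      have : i = W.length := by omega
      subst this
      rw [W.getVert_length]
      omega
    | succ j ih =>
      intro i hi
      have h3 := ih (i + 1) (by omega)
      have := tripod_dist_adj hc a _ _ (W.adj_getVert_succ (i := i) (by omega))
      omega
  intro i hi
  have h3 := h1 i hi
  have h4 := h2 (W.length - i) i (by omega)
  omega

/-- TARGET -/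
theorem tripod (hS : Sur G) [Fintype V] (hc : G.Connected) (x y z : ℕ → V)
    (hxy : ∀ i ≤ 3, ∀ j ≤ 3, x i ≠ y j) (hxz : ∀ i ≤ 3, ∀ j ≤ 3, x i ≠ z j) (hyz : ∀ i ≤ 3, ∀ j ≤ 3, y i ≠ z j)
    (xi : ∀ i ≤ 3, ∀ j ≤ 3, x i = x j → i = j) (yi : ∀ i ≤ 3, ∀ j ≤ 3, y i = y j → i = j)
    (zi : ∀ i ≤ 3, ∀ j ≤ 3, z i = z j → i = j)
    (hx0 : ∀ v, G.Adj (x 0) v ↔ v = x 1) (hx1 : ∀ v, G.Adj (x 1) v ↔ (v = x 0 ∨ v = x 2))
    (hx2 : ∀ v, G.Adj (x 2) v ↔ (v = x 1 ∨ v = x 3))
    (hy0 : ∀ v, G.Adj (y 0) v ↔ v = y 1) (hy1 : ∀ v, G.Adj (y 1) v ↔ (v = y 0 ∨ v = y 2))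
    (hy2 : ∀ v, G.Adj (y 2) v ↔ (v = y 1 ∨ v = y 3))
    (hz0 : ∀ v, G.Adj (z 0) v ↔ v = z 1) (hz1 : ∀ v, G.Adj (z 1) v ↔ (v = z 0 ∨ v = z 2))
    (hz2 : ∀ v, G.Adj (z 2) v ↔ (v = z 1 ∨ v = z 3)) : False := by
  obtain ⟨n, p, -, p0, pn, padj, pd⟩ := tripod_geo hc (x 0) (y 0)
  have hi : ∀ i j, i ≤ n → j ≤ n → p i = p j → i = j := by
    intro i j h1 h2 h
    have := pd i h1
    rw [h, pd j h2] at this
    exact this.symm
  have hp : ∀ i j, i ≤ n → j ≤ n → (G.Adj (p i) (p j) ↔ (i + 1 = j ∨ j + 1 = i)) := by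
    intro i j h1 h2
    constructor
    · intro h
      have e1 := tripod_dist_adj hc (x 0) _ _ h
      have e2 := tripod_dist_adj hc (x 0) _ _ h.symm
      rw [pd i h1, pd j h2] at e1 e2
      have : i ≠ j := by
        intro e
        rw [e] at h
        exact G.loopless.irrefl _ h
      omega
    · rintro (h | h)
      · subst h; exact padj i (by omega)
      · subst h; exact (padj j (by omega)).symm
  -- the start of the path
  have n1 : 1 ≤ n := by
    rcases Nat.eq_zero_or_pos n with h | h
    · exfalso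
      rw [h, p0] at pn
      exact hxy 0 (by omega) 0 (by omega) pn
    · exact h
  have p1 : p 1 = x 1 := (hx0 _).1 (p0 ▸ padj 0 (by omega))
  have n2 : 2 ≤ n := by
    rcases Nat.lt_or_ge 1 n with h | h
    · exact h
    · exfalso
      have : n = 1 := by omega
      rw [this, p1] at pn
      exact hxy 1 (by omega) 0 (by omega) pn
  have p2 : p 2 = x 2 := by
    have h := padj 1 (by omega)
    rw [p1] at h
    rcases (hx1 _).1 h with h | h
    · exfalso
      have := hi 2 0 (by omega) (by omega) (h.trans p0.symm)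
      omega
    · exact h
  have n3 : 3 ≤ n := by
    rcases Nat.lt_or_ge 2 n with h | h
    · exact h
    · exfalso
      have : n = 2 := by omega
      rw [this, p2] at pn
      exact hxy 2 (by omega) 0 (by omega) pn
  have p3 : p 3 = x 3 := by
    have h := padj 2 (by omega)
    rw [p2] at h
    rcases (hx2 _).1 h with h | h
    · exfalso
      have := hi 3 1 (by omega) (by omega) (h.trans p1.symm)
      omega
    · exact h
  -- the end of the path
  have e1 : p (n - 1) = y 1 := by
    have h := (hp n (n - 1) (by omega) (by omega)).2 (Or.inr (by omega))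
    rw [pn] at h
    exact (hy0 _).1 h
  have e2 : p (n - 2) = y 2 := by
    have h := (hp (n - 1) (n - 2) (by omega) (by omega)).2 (Or.inr (by omega))
    rw [e1] at h
    rcases (hy1 _).1 h with h | h
    · exfalso
      have := hi (n - 2) n (by omega) (by omega) (h.trans pn.symm)
      omega
    · exact h
  have e3 : p (n - 3) = y 3 := by
    have h := (hp (n - 2) (n - 3) (by omega) (by omega)).2 (Or.inr (by omega))
    rw [e2] at h
    rcases (hy2 _).1 h with h | h
    · exfalso
      have := hi (n - 3) (n - 1) (by omega) (by omega) (h.trans e1.symm)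
      omega
    · exact h
  -- the third path avoids `p`
  have off : ∀ j ≤ 2, ∀ k ≤ n, p k = z j → 1 ≤ k ∧ k + 1 ≤ n := by
    intro j hj k hk h
    constructor
    · rcases Nat.eq_zero_or_pos k with h' | h'
      · exfalso
        rw [h', p0] at h
        exact hxz 0 (by omega) j (by omega) h
      · exact h'
    · rcases Nat.lt_or_ge k n with h' | h'
      · exact h'
      · exfalso
        have : k = n := by omega
        rw [this, pn] at h
        exact hyz 0 (by omega) j (by omega) h
  have z0 : ∀ k ≤ n, p k ≠ z 0 := by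
    intro k hk h
    obtain ⟨a, b⟩ := off 0 (by omega) k hk h
    have c1 := (hp k (k - 1) (by omega) (by omega)).2 (Or.inr (by omega))
    have c2 := (hp k (k + 1) (by omega) (by omega)).2 (Or.inl (by omega))
    rw [h] at c1 c2
    have := hi (k - 1) (k + 1) (by omega) (by omega) (((hz0 _).1 c1).trans ((hz0 _).1 c2).symm)
    omega
  have z1 : ∀ k ≤ n, p k ≠ z 1 := by
    intro k hk h
    obtain ⟨a, b⟩ := off 1 (by omega) k hk h
    have c1 := (hp k (k - 1) (by omega) (by omega)).2 (Or.inr (by omega))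
    have c2 := (hp k (k + 1) (by omega) (by omega)).2 (Or.inl (by omega))
    rw [h] at c1 c2
    rcases (hz1 _).1 c1 with d | d
    · exact z0 _ (by omega) d
    · rcases (hz1 _).1 c2 with d' | d'
      · exact z0 _ (by omega) d'
      · have := hi (k - 1) (k + 1) (by omega) (by omega) (d.trans d'.symm)
        omega
  have z2 : ∀ k ≤ n, p k ≠ z 2 := by
    intro k hk h
    obtain ⟨a, b⟩ := off 2 (by omega) k hk h
    have c1 := (hp k (k - 1) (by omega) (by omega)).2 (Or.inr (by omega))
    have c2 := (hp k (k + 1) (by omega) (by omega)).2 (Or.inl (by omega))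
    rw [h] at c1 c2
    rcases (hz2 _).1 c1 with d | d
    · exact z1 _ (by omega) d
    · rcases (hz2 _).1 c2 with d' | d'
      · exact z1 _ (by omega) d'
      · have := hi (k - 1) (k + 1) (by omega) (by omega) (d.trans d'.symm)
        omega
  -- the set of the neighbours of the path
  have zA0 : ∀ i ≤ n, ¬G.Adj (z 0) (p i) := fun i hin h => z1 i hin ((hz0 _).1 h)
  have zA1 : ∀ i ≤ n, ¬G.Adj (z 1) (p i) := by
    intro i hin h
    rcases (hz1 _).1 h with h | h
    · exact z0 i hin h
    · exact z2 i hin h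
  have hex : ∃ k : ℕ, ∃ w : V, G.dist (z 0) w = k ∧ ∃ i ≤ n, G.Adj w (p i) :=
    ⟨_, x 0, rfl, 1, n1, by rw [p1]; exact (hx0 _).2 rfl⟩
  obtain ⟨w, hwk, i0, hi0, hwi⟩ := Nat.find_spec hex
  have hmin : ∀ v : V, G.dist (z 0) v < Nat.find hex → ∀ i ≤ n, ¬G.Adj v (p i) := by
    intro v hv i hin h
    exact Nat.find_min hex hv ⟨v, rfl, i, hin, h⟩
  obtain ⟨k, q, hk, q0, qk, qadj, qd⟩ := tripod_geo hc (z 0) w
  rw [← hwk, ← hk] at hmin
  have k1 : 1 ≤ k := by
    rcases Nat.eq_zero_or_pos k with h | h
    · exfalso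
      rw [h, q0] at qk
      rw [← qk] at hwi
      exact zA0 i0 hi0 hwi
    · exact h
  have k2 : 2 ≤ k := by
    rcases Nat.lt_or_ge 1 k with h | h
    · exact h
    · exfalso
      have hk1 : k = 1 := by omega
      have h' := qadj 0 (by omega)
      rw [q0] at h'
      have h'' := (hz0 _).1 h'
      rw [hk1] at qk
      rw [← qk, h''] at hwi
      exact zA1 i0 hi0 hwi
  have hadj1 : G.Adj (q (k - 1)) (q k) := by
    have := qadj (k - 1) (by omega)
    rwa [show k - 1 + 1 = k by omega] at this
  have hadj2 : G.Adj (q (k - 2)) (q (k - 1)) := by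
    have := qadj (k - 2) (by omega)
    rwa [show k - 2 + 1 = k - 1 by omega] at this
  have nA1 : ∀ i ≤ n, ¬G.Adj (q (k - 1)) (p i) :=
    hmin _ (by rw [qd (k - 1) (by omega)]; omega)
  have nA2 : ∀ i ≤ n, ¬G.Adj (q (k - 2)) (p i) :=
    hmin _ (by rw [qd (k - 2) (by omega)]; omega)
  have hoff : ∀ i ≤ n, q k ≠ p i := by
    intro i hin h
    rw [h] at hadj1
    exact nA1 i hin hadj1
  refine contact hS n p hi hp (q k) (q (k - 1)) (q (k - 2)) hadj1.symm hadj2.symm ?_ ?_ nA1 nA2
    hoff ⟨i0, hi0, by rw [qk]; exact hwi⟩ ?_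
  · intro h
    have := tripod_dist_adj hc (z 0) _ _ h.symm
    rw [qd k le_rfl, qd (k - 2) (by omega)] at this
    omega
  · intro h
    have h1 := qd k le_rfl
    rw [h, qd (k - 2) (by omega)] at h1
    omega
  · intro i hin h
    constructor
    · by_contra hlt
      have : i = 0 ∨ i = 1 ∨ i = 2 := by omega
      rcases this with e | e | e
      · rw [e, p0] at h
        exact hoff 1 (by omega) (((hx0 _).1 h.symm).trans p1.symm)
      · rw [e, p1] at h
        rcases (hx1 _).1 h.symm with h' | h'
        · exact hoff 0 (by omega) (h'.trans p0.symm)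
        · exact hoff 2 (by omega) (h'.trans p2.symm)
      · rw [e, p2] at h
        rcases (hx2 _).1 h.symm with h' | h'
        · exact hoff 1 (by omega) (h'.trans p1.symm)
        · exact hoff 3 (by omega) (h'.trans p3.symm)
    · by_contra hlt
      have : i = n ∨ i = n - 1 ∨ i = n - 2 := by omega
      rcases this with e | e | e
      · rw [e, pn] at h
        exact hoff (n - 1) (by omega) (((hy0 _).1 h.symm).trans e1.symm)
      · rw [e, e1] at h
        rcases (hy1 _).1 h.symm with h' | h'
        · exact hoff n (by omega) (h'.trans pn.symm)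
        · exact hoff (n - 2) (by omega) (h'.trans e2.symm)
      · rw [e, e2] at h
        rcases (hy2 _).1 h.symm with h' | h'
        · exact hoff (n - 1) (by omega) (h'.trans e1.symm)
        · exact hoff (n - 3) (by omega) (h'.trans e3.symm)

end Tripod

end Pool.Agent.Helper856.Q8
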