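import Pool.Agent.Helper856.Q8.Defs
import Pool.Agent.Helper856.Q8.Tripod
import Pool.Agent.Helper856.Q8.Induce

open Classical SimpleGraph

namespace Pool.Agent.Helper856.Q8

open Tripod (tripod)
open Induce (sur_induce)

namespace Layer3

variable {V : Type} {G : SimpleGraph V}

structure Geo (G : SimpleGraph V) (r u : V) (n : ℕ) (g : ℕ → V) : Prop where
  g0 : g 0 = u
  lev : ∀ i, G.dist r (g i) = n - i
  adj : ∀ i < n, G.Adj (g i) (g (i + 1))
  far : ∀ i, n ≤ i → g i = r

theorem lev_adj (hc : G.Connected) (r : V) {v w : V} (h : G.Adj v w) :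
    G.dist r w ≤ G.dist r v + 1 := by
  have h1 := hc.dist_triangle (u := r) (v := v) (w := w)
  rw [dist_eq_one_iff_adj.2 h] at h1
  exact h1

theorem exists_geo (hc : G.Connected) (r u : V) : ∃ g, Geo G r u (G.dist r u) g := by
  obtain ⟨p, hp⟩ := hc.exists_walk_length_eq_dist u r
  have hn : p.length = G.dist r u := by rw [hp, dist_comm]
  have hadj : ∀ i < G.dist r u, G.Adj (p.getVert i) (p.getVert (i + 1)) := by
    intro i hi
    exact p.adj_getVert_succ (by omega)
  have hfar : ∀ i, G.dist r u ≤ i → p.getVert i = r := fun i hi =>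
    p.getVert_of_length_le (by omega)
  have hlo : ∀ i, G.dist r u ≤ G.dist r (p.getVert i) + i := by
    intro i
    induction i with
    | zero => simp
    | succ i ih =>
      by_cases hi : i < G.dist r u
      · have := lev_adj hc r (hadj i hi).symm
        omega
      · omega
  have hhi : ∀ k ≤ G.dist r u, G.dist r (p.getVert (G.dist r u - k)) ≤ k := by
    intro k
    induction k with
    | zero =>
      intro _
      rw [Nat.sub_zero, hfar _ le_rfl]
      simp
    | succ k ih =>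
      intro hk
      have h1 := ih (by omega)
      have h2 := hadj (G.dist r u - (k + 1)) (by omega)
      have h3 : G.dist r u - (k + 1) + 1 = G.dist r u - k := by omega
      rw [h3] at h2
      have := lev_adj hc r h2.symm
      omega
  refine ⟨p.getVert, ⟨by simp, ?_, hadj, hfar⟩⟩
  intro i
  by_cases hi : i ≤ G.dist r u
  · have h1 := hlo i
    have h2 := hhi (G.dist r u - i) (by omega)
    have h3 : G.dist r u - (G.dist r u - i) = i := by omega
    rw [h3] at h2
    omega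
  · rw [hfar i (by omega)]
    simp
    omega

theorem Geo.self_adj {r u : V} {n : ℕ} {g : ℕ → V} (hc : G.Connected) (h : Geo G r u n g)
    {i j : ℕ} (hi : i ≤ 3) (hn : 5 ≤ n) (hij : G.Adj (g i) (g j)) : j = i + 1 ∨ i = j + 1 := by
  have h1 := lev_adj hc r hij
  have h2 := lev_adj hc r hij.symm
  rw [h.lev, h.lev] at h1 h2
  have h3 : i ≠ j := by
    rintro rfl
    exact hij.ne rfl
  omega

theorem Geo.dist_le {r u : V} {n : ℕ} {g : ℕ → V} (hc : G.Connected) (h : Geo G r u n g)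
    (i : ℕ) : G.dist u (g i) ≤ i := by
  induction i with
  | zero => rw [h.g0]; simp
  | succ i ih =>
    by_cases hi : i < n
    · have := lev_adj hc u (h.adj i hi)
      omega
    · rw [h.far (i + 1) (by omega), ← h.far i (by omega)]
      omega

theorem Geo.cross {r u v : V} {n : ℕ} {g g' : ℕ → V} (hc : G.Connected) (h : Geo G r u n g)
    (h' : Geo G r v n g') (huv : 9 ≤ G.dist u v) {i j : ℕ} (hi : i ≤ 3) (hn : 5 ≤ n) :
    g i ≠ g' j ∧ ¬ G.Adj (g i) (g' j) := by
  have d1 := h.dist_le hc i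
  have d2 := h'.dist_le hc j
  rw [dist_comm] at d2
  have l1 := h.lev i
  have l2 := h'.lev j
  constructor
  · intro he
    rw [he, l2] at l1
    have t := hc.dist_triangle (u := u) (v := g i) (w := v)
    rw [← he] at d2
    omega
  · intro he
    have e1 := lev_adj hc r he
    rw [l1, l2] at e1
    have e2 := lev_adj hc r he.symm
    rw [l1, l2] at e2
    have t := hc.dist_triangle (u := u) (v := g i) (w := v)
    have t2 := hc.dist_triangle (u := g i) (v := g' j) (w := v)
    rw [dist_eq_one_iff_adj.2 he] at t2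
    omega

theorem Geo.nbr {r u v w : V} {n : ℕ} {g g' g'' : ℕ → V} (hc : G.Connected) (h : Geo G r u n g)
    (h' : Geo G r v n g') (h'' : Geo G r w n g'') (huv : 9 ≤ G.dist u v) (huw : 9 ≤ G.dist u w)
    {i : ℕ} (hi : i ≤ 2) (hn : 5 ≤ n) (z : V)
    (hz : (∃ j, z = g j) ∨ (∃ j, z = g' j) ∨ (∃ j, z = g'' j)) :
    G.Adj (g i) z ↔ (z = g (i + 1) ∨ ∃ k, i = k + 1 ∧ z = g k) := by
  constructor
  · intro hadj
    rcases hz with ⟨j, rfl⟩ | ⟨j, rfl⟩ | ⟨j, rfl⟩
    · rcases h.self_adj hc (by omega) hn hadj with h1 | h1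
      · left; rw [h1]
      · right; exact ⟨j, h1, rfl⟩
    · exact absurd hadj (h.cross hc h' huv (by omega) hn).2
    · exact absurd hadj (h.cross hc h'' huw (by omega) hn).2
  · rintro (rfl | ⟨k, rfl, rfl⟩)
    · exact h.adj i (by omega)
    · exact (h.adj k (by omega)).symm

theorem Geo.reach {r u : V} {n : ℕ} {g : ℕ → V} (h : Geo G r u n g) (S : Set V)
    (hS : ∀ i, g i ∈ S) (hr : r ∈ S) (i : ℕ) :
    (G.induce S).Reachable ⟨r, hr⟩ ⟨g i, hS i⟩ := by
  have key : ∀ k ≤ n, (G.induce S).Reachable ⟨r, hr⟩ ⟨g (n - k), hS (n - k)⟩ := by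
    intro k
    induction k with
    | zero =>
      intro _
      have : (⟨r, hr⟩ : S) = ⟨g (n - 0), hS (n - 0)⟩ := Subtype.ext (h.far _ (by omega)).symm
      rw [← this]
    | succ k ih =>
      intro hk
      refine (ih (by omega)).trans (SimpleGraph.Adj.reachable ?_)
      have h2 := h.adj (n - (k + 1)) (by omega)
      have h3 : n - (k + 1) + 1 = n - k := by omega
      rw [h3] at h2
      exact h2.symm
  by_cases hi : i ≤ n
  · have h1 := key (n - i) (by omega)
    have h3 : n - (n - i) = i := by omega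
    have h4 : (⟨g (n - (n - i)), hS (n - (n - i))⟩ : S) = ⟨g i, hS i⟩ := Subtype.ext (by rw [h3])
    rwa [h4] at h1
  · have : (⟨r, hr⟩ : S) = ⟨g i, hS i⟩ := Subtype.ext (h.far _ (by omega)).symm
    rw [← this]

/-- TARGET -/
theorem layer3 (hS : Sur G) [Fintype V] (hc : G.Connected) (r : V) (a b c : V)
    (h1 : G.dist r a = G.dist r b) (h2 : G.dist r a = G.dist r c)
    (hab : 9 ≤ G.dist a b) (hac : 9 ≤ G.dist a c) (hbc : 9 ≤ G.dist b c) : False := by
  obtain ⟨ga, hga⟩ := exists_geo hc r a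
  obtain ⟨gb, hgb⟩ := exists_geo hc r b
  obtain ⟨gc, hgc⟩ := exists_geo hc r c
  rw [← h1] at hgb
  rw [← h2] at hgc
  set n := G.dist r a with hn
  have hn5 : 5 ≤ n := by
    have t := hc.dist_triangle (u := a) (v := r) (w := b)
    rw [dist_comm (u := a) (v := r)] at t
    omega
  have hba : 9 ≤ G.dist b a := by rw [dist_comm]; exact hab
  have hca : 9 ≤ G.dist c a := by rw [dist_comm]; exact hac
  have hcb : 9 ≤ G.dist c b := by rw [dist_comm]; exact hbc
  set S : Set V := {z | (∃ j, z = ga j) ∨ (∃ j, z = gb j) ∨ (∃ j, z = gc j)} with hSdef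
  have mA : ∀ i, ga i ∈ S := fun i => Or.inl ⟨i, rfl⟩
  have mB : ∀ i, gb i ∈ S := fun i => Or.inr (Or.inl ⟨i, rfl⟩)
  have mC : ∀ i, gc i ∈ S := fun i => Or.inr (Or.inr ⟨i, rfl⟩)
  have hr : r ∈ S := by
    have := mA n
    rwa [hga.far n le_rfl] at this
  have hconn : (G.induce S).Connected := by
    rw [connected_iff_exists_forall_reachable]
    refine ⟨⟨r, hr⟩, ?_⟩
    rintro ⟨z, (⟨j, rfl⟩ | ⟨j, rfl⟩ | ⟨j, rfl⟩)⟩
    · exact hga.reach S mA hr j
    · exact hgb.reach S mB hr j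
    · exact hgc.reach S mC hr j
  haveI : Fintype ↥S := Fintype.ofFinite _
  have nA : ∀ i ≤ 2, ∀ z ∈ S, G.Adj (ga i) z ↔ (z = ga (i + 1) ∨ ∃ k, i = k + 1 ∧ z = ga k) :=
    fun i hi z hz => hga.nbr hc hgb hgc hab hac hi hn5 z hz
  have nB : ∀ i ≤ 2, ∀ z ∈ S, G.Adj (gb i) z ↔ (z = gb (i + 1) ∨ ∃ k, i = k + 1 ∧ z = gb k) :=
    fun i hi z hz => hgb.nbr hc hga hgc hba hbc hi hn5 z (by
      rcases hz with h | h | h
      · exact Or.inr (Or.inl h)
      · exact Or.inl h
      · exact Or.inr (Or.inr h))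
  have nC : ∀ i ≤ 2, ∀ z ∈ S, G.Adj (gc i) z ↔ (z = gc (i + 1) ∨ ∃ k, i = k + 1 ∧ z = gc k) :=
    fun i hi z hz => hgc.nbr hc hga hgb hca hcb hi hn5 z (by
      rcases hz with h | h | h
      · exact Or.inr (Or.inl h)
      · exact Or.inr (Or.inr h)
      · exact Or.inl h)
  have inj : ∀ {u : V} {g : ℕ → V}, Geo G r u n g → ∀ i ≤ 3, ∀ j ≤ 3, g i = g j → i = j := by
    intro u g hg i hi j hj he
    have l1 := hg.lev i
    have l2 := hg.lev j
    rw [he, l2] at l1
    omega
  have e0 : ∀ (g : ℕ → V) (mg : ∀ i, g i ∈ S),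
      (∀ i ≤ 2, ∀ z ∈ S, G.Adj (g i) z ↔ (z = g (i + 1) ∨ ∃ k, i = k + 1 ∧ z = g k)) →
      (∀ v : S, (G.induce S).Adj ⟨g 0, mg 0⟩ v ↔ v = ⟨g 1, mg 1⟩) ∧
      (∀ v : S, (G.induce S).Adj ⟨g 1, mg 1⟩ v ↔ (v = ⟨g 0, mg 0⟩ ∨ v = ⟨g 2, mg 2⟩)) ∧
      (∀ v : S, (G.induce S).Adj ⟨g 2, mg 2⟩ v ↔ (v = ⟨g 1, mg 1⟩ ∨ v = ⟨g 3, mg 3⟩)) := by
    intro g mg hg
    refine ⟨?_, ?_, ?_⟩
    · rintro ⟨z, hz⟩
      rw [comap_adj]
      show G.Adj (g 0) z ↔ _
      rw [hg 0 (by omega) z hz, Subtype.mk.injEq]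
      constructor
      · rintro (h | ⟨k, hk, _⟩)
        · exact h
        · omega
      · intro h; exact Or.inl h
    · rintro ⟨z, hz⟩
      rw [comap_adj]
      show G.Adj (g 1) z ↔ _
      rw [hg 1 (by omega) z hz, Subtype.mk.injEq, Subtype.mk.injEq]
      constructor
      · rintro (h | ⟨k, hk, h⟩)
        · exact Or.inr h
        · have : k = 0 := by omega
          subst this
          exact Or.inl h
      · rintro (h | h)
        · exact Or.inr ⟨0, rfl, h⟩
        · exact Or.inl h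
    · rintro ⟨z, hz⟩
      rw [comap_adj]
      show G.Adj (g 2) z ↔ _
      rw [hg 2 (by omega) z hz, Subtype.mk.injEq, Subtype.mk.injEq]
      constructor
      · rintro (h | ⟨k, hk, h⟩)
        · exact Or.inr h
        · have : k = 1 := by omega
          subst this
          exact Or.inl h
      · rintro (h | h)
        · exact Or.inr ⟨1, rfl, h⟩
        · exact Or.inl h
  obtain ⟨a0, a1, a2⟩ := e0 ga mA nA
  obtain ⟨b0, b1, b2⟩ := e0 gb mB nB
  obtain ⟨c0, c1, c2⟩ := e0 gc mC nC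
  exact tripod (sur_induce hS S) hconn (fun i => ⟨ga i, mA i⟩) (fun i => ⟨gb i, mB i⟩)
    (fun i => ⟨gc i, mC i⟩)
    (fun i hi j hj he => (hga.cross hc hgb hab hi hn5).1 (congrArg Subtype.val he))
    (fun i hi j hj he => (hga.cross hc hgc hac hi hn5).1 (congrArg Subtype.val he))
    (fun i hi j hj he => (hgb.cross hc hgc hbc hi hn5).1 (congrArg Subtype.val he))
    (fun i hi j hj he => inj hga i hi j hj (congrArg Subtype.val he))
    (fun i hi j hj he => inj hgb i hi j hj (congrArg Subtype.val he))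
    (fun i hi j hj he => inj hgc i hi j hj (congrArg Subtype.val he))
    a0 a1 a2 b0 b1 b2 c0 c1 c2

end Layer3

end Pool.Agent.Helper856.Q8
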