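import Pool.Agent.Helper856.Q8.Defs
import Pool.Agent.Helper856.Q8.Layer3
import Pool.Agent.Helper856.Q8.Ball

open Classical SimpleGraph

namespace Pool.Agent.Helper856.Q8

open Layer3 (layer3)
open Ball (ball_card)

namespace LayerB

variable {V : Type} {G : SimpleGraph V}

/-- TARGET -/
theorem layer_bound (hS : Sur G) [Fintype V] (hc : G.Connected) (d : ℕ)
    (hd : ∀ v, (Finset.univ.filter (fun w => G.Adj v w)).card ≤ d) (r : V) (n : ℕ) :
    (Finset.univ.filter (fun w => G.dist r w = n)).card ≤ 2 * (d + 1) ^ 8 := by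
  by_contra hcon
  push Not at hcon
  set L := Finset.univ.filter (fun w => G.dist r w = n) with hL
  set B : V → Finset V := fun v => Finset.univ.filter (fun w => G.dist v w ≤ 8) with hB
  have hBc : ∀ v, (B v).card ≤ (d + 1) ^ 8 := fun v => ball_card hc d hd v 8
  have hpos : 0 < L.card := by omega
  obtain ⟨a, ha⟩ := Finset.card_pos.mp hpos
  have h1 : (B a).card < L.card := by
    have := hBc a
    omega
  obtain ⟨b, hbL, hb⟩ := Finset.exists_mem_notMem_of_card_lt_card h1
  have h2 : (B a ∪ B b).card < L.card := by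
    have h3 := Finset.card_union_le (B a) (B b)
    have h4 := hBc a
    have h5 := hBc b
    omega
  obtain ⟨c, hcL, hc'⟩ := Finset.exists_mem_notMem_of_card_lt_card h2
  rw [Finset.mem_union, not_or] at hc'
  obtain ⟨hca, hcb⟩ := hc'
  simp only [hL, hB, Finset.mem_filter, Finset.mem_univ, true_and, not_le] at ha hb hbL hcL hca hcb
  exact layer3 hS hc r a b c (ha.trans hbL.symm) (ha.trans hcL.symm) (by omega) (by omega) (by omega)

end LayerB

end Pool.Agent.Helper856.Q8
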