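import Pool.Agent.Helper856.Q8.Defs
import Pool.Agent.Helper856.Q8.LayerB

open Classical SimpleGraph

namespace Pool.Agent.Helper856.Q8

open Pool.Agent.Helper856.Lcw (GLin)
open LayerB (layer_bound)

namespace SparseG

variable {V : Type} {G : SimpleGraph V}

/-- TARGET -/
theorem sparse_glin (hS : Sur G) [Fintype V] (hc : G.Connected) (d : ℕ)
    (hd : ∀ v, (Finset.univ.filter (fun w => G.Adj v w)).card ≤ d) :
    GLin (4 * (d + 1) ^ 8 + 1) G := by
  classical
  obtain ⟨r⟩ : Nonempty V := hc.nonempty
  set N : ℕ := Fintype.card V with hN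
  have hNpos : 0 < N := Fintype.card_pos_iff.mpr ⟨r⟩
  let e : V ≃ Fin N := Fintype.equivFin V
  have he : ∀ v, (e v : ℕ) < N := fun v => (e v).2
  refine ⟨fun v => G.dist r v * N + (e v : ℕ), ?_, ?_⟩
  · intro u v huv
    simp only at huv
    have h1 : (e u : ℕ) = (e v : ℕ) := by
      have h2 := congrArg (fun x => x % N) huv
      simp only [Nat.mul_add_mod_self_right, Nat.mod_eq_of_lt (he u),
        Nat.mod_eq_of_lt (he v)] at h2
      exact h2
    exact e.injective (Fin.ext h1)
  · intro t
    set l : ℕ := t / N with hl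
    have hlow : ∀ u, G.dist r u * N + (e u : ℕ) < t → G.dist r u ≤ l := by
      intro u hu
      rw [hl, Nat.le_div_iff_mul_le hNpos]
      omega
    have hhigh : ∀ w, t ≤ G.dist r w * N + (e w : ℕ) → l ≤ G.dist r w := by
      intro w hw
      have h1 := he w
      have h2 : t < (G.dist r w + 1) * N := by
        have h3 : (G.dist r w + 1) * N = G.dist r w * N + N := by ring
        omega
      have h4 : t / N < G.dist r w + 1 := Nat.div_lt_of_lt_mul (by rw [mul_comm]; exact h2)
      omega
    set X : Finset V := Finset.univ.filter (fun u => G.dist r u * N + (e u : ℕ) < t ∧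
      ∃ w, t ≤ G.dist r w * N + (e w : ℕ) ∧ G.Adj u w) with hX
    have hXsub : X ⊆ (Finset.univ.filter (fun w => G.dist r w = l - 1)) ∪
        (Finset.univ.filter (fun w => G.dist r w = l)) := by
      intro u hu
      rw [hX, Finset.mem_filter] at hu
      obtain ⟨_, hu1, w, hw1, hw2⟩ := hu
      have h1 := hlow u hu1
      have h2 := hhigh w hw1
      have h3 : G.dist r w ≤ G.dist r u + G.dist u w := hc.dist_triangle
      have h4 : G.dist u w = 1 := SimpleGraph.dist_eq_one_iff_adj.mpr hw2
      rw [Finset.mem_union, Finset.mem_filter, Finset.mem_filter]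
      by_cases h5 : G.dist r u = l
      · exact Or.inr ⟨Finset.mem_univ _, h5⟩
      · exact Or.inl ⟨Finset.mem_univ _, by omega⟩
    have hXcard : X.card ≤ 4 * (d + 1) ^ 8 := by
      refine (Finset.card_le_card hXsub).trans ((Finset.card_union_le _ _).trans ?_)
      have h1 := layer_bound hS hc d hd r (l - 1)
      have h2 := layer_bound hS hc d hd r l
      have h3 : 4 * (d + 1) ^ 8 = 2 * (d + 1) ^ 8 + 2 * (d + 1) ^ 8 := by ring
      rw [h3]
      exact Nat.add_le_add h1 h2
    refine ⟨fun u => if h : u ∈ X then ⟨(X.equivFin ⟨u, h⟩).val + 1, by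
        have := (X.equivFin ⟨u, h⟩).2
        omega⟩ else ⟨0, by omega⟩, ?_⟩
    intro u v hu hv hc2 w hw
    simp only at hu hv hw
    by_cases huX : u ∈ X
    · by_cases hvX : v ∈ X
      · have h1 : (X.equivFin ⟨u, huX⟩).val + 1 = (X.equivFin ⟨v, hvX⟩).val + 1 := by
          have := congrArg Fin.val hc2
          simpa [huX, hvX] using this
        have h2 : X.equivFin ⟨u, huX⟩ = X.equivFin ⟨v, hvX⟩ := Fin.ext (by omega)
        have h3 : u = v := congrArg Subtype.val (X.equivFin.injective h2)
        rw [h3]
      · exfalso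
        have := congrArg Fin.val hc2
        simp [huX, hvX] at this
    · by_cases hvX : v ∈ X
      · exfalso
        have := congrArg Fin.val hc2
        simp [huX, hvX] at this
      · constructor
        · intro h
          exfalso
          apply huX
          rw [hX, Finset.mem_filter]
          exact ⟨Finset.mem_univ _, hu, w, hw, h⟩
        · intro h
          exfalso
          apply hvX
          rw [hX, Finset.mem_filter]
          exact ⟨Finset.mem_univ _, hv, w, hw, h⟩

end SparseG

end Pool.Agent.Helper856.Q8
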