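import Pool.Agent.Helper856.Q8.Defs
import Pool.Agent.Helper856.Q8.EMain
import Pool.Agent.Helper856.Q8.MMain
import Pool.Agent.Helper856.Q8.KtBound
import Pool.Agent.Helper856.Q8.F1Bound
import Pool.Agent.Helper856.Q8.GlinChain
import Pool.Agent.Helper856.Q8.DegBound
import Pool.Agent.Helper856.Q8.PrimeConn
import Pool.Agent.Helper856.Q8.SparseG
import Pool.Agent.Helper856.Q8.GlinSmall

open Classical SimpleGraph

namespace Pool.Agent.Helper856.Q8

open Pool.Agent.Helper856.Lcw (GLin)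
open EMain (e_main)
open MMain (m_main)
open KtBound (kt_bound)
open F1Bound (f1_bound)
open GlinChain (glin_chain)
open DegBound (deg_bound)
open PrimeConn (prime_conn)
open SparseG (sparse_glin)
open GlinSmall (glin_small glin_mono)

namespace SfMain

variable {V : Type} {G : SimpleGraph V}

/-- TARGET -/
theorem sf_main (m : ℕ) : ∃ k, ∀ (V : Type) [Fintype V] (G : SimpleGraph V), Fine G (m + 1) → GLin k G := by
  obtain ⟨c1, hc1⟩ : ∃ c1, c1 = 18 * m + 4 := ⟨_, rfl⟩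
  obtain ⟨c2, hc2⟩ : ∃ c2, c2 = 9 * m + 4 := ⟨_, rfl⟩
  obtain ⟨K, hK⟩ : ∃ K, K = m * (c1 * c2 + c2 + 1) := ⟨_, rfl⟩
  obtain ⟨c3, hc3⟩ : ∃ c3, c3 = m * (c1 + K + c1 * K + 1) := ⟨_, rfl⟩
  refine ⟨3 + ((c1 * c3 + 1 + c1 + c3) + 2 ^ c3) + (4 * ((4 * c1 + 2 * c3 + 1) + 1) ^ 8 + 1), ?_⟩
  intro V _ G hF
  obtain ⟨hS, h4, hP, hSF⟩ := id hF
  by_cases h3 : 3 ≤ Fintype.card V
  · have hE : PL G c1 := by
      intro q p r h
      rw [hc1]
      exact e_main m hF q p r h
    have hM : ∀ s x t, MS G s x t → (Mi G s x t).card ≤ c2 := by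
      intro s x t h
      rw [hc2]
      exact m_main m hF s x t h
    have hKK : ∀ x t, ¬G.Adj x t → x ≠ t →
        ((F1 G x).filter (fun f => G.Adj t f)).card ≤ K := by
      intro x t h1 h2
      rw [hK]
      exact kt_bound m c1 c2 h4 hSF hE hM x t h1 h2
    have hF1 : ∀ x, (F1 G x).card ≤ c3 := by
      intro x
      rw [hc3]
      exact f1_bound m c1 K h4 hSF hE hKK x
    by_cases hx : ∃ x, Up G x = ∅ ∧ 2 * c1 < (Dn G x).card
    · obtain ⟨x, hU, hD⟩ := hx
      exact glin_mono (glin_chain c1 c3 hP h3 hE hF1 x hU hD) ((Nat.le_add_left _ _).trans (Nat.le_add_right _ _))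
    · push Not at hx
      have hdeg := deg_bound c1 c3 hP h3 hF1 hx
      exact glin_mono (sparse_glin hS (prime_conn hP h3) (4 * c1 + 2 * c3 + 1) hdeg) (Nat.le_add_left _ _)
  · have h5 : Fintype.card V ≤ 3 := by omega
    exact glin_small ((h5.trans (Nat.le_add_right _ _)).trans (Nat.le_add_right _ _))

end SfMain

end Pool.Agent.Helper856.Q8
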