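import Pool.Agent.Helper856.Q8.Defs
import Pool.Agent.Helper856.Q8.FamEx
import Pool.Agent.Helper856.Q8.PrimeKept
import Pool.Agent.Helper856.Q8.SfKept
import Pool.Agent.Helper856.Q8.Induce
import Pool.Agent.Helper856.Q8.SfMain
import Pool.Agent.Helper856.Q8.Expand

open Classical SimpleGraph

namespace Pool.Agent.Helper856.Q8

open Pool.Agent.Helper856.Lcw (GLin)
open FamEx (fam_ex)
open PrimeKept (prime_kept)
open SfKept (sf_kept)
open Induce (sur_induce nc4_induce)
open SfMain (sf_main)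
open Expand (expand)

namespace Nc4Main

variable {V : Type} {G : SimpleGraph V}

/-- TARGET -/
theorem nc4_main (hC : SpOK) : ∃ k, ∀ (V : Type) [Fintype V] (G : SimpleGraph V), Sur G → NC4 G → Prime G → GLin k G := by
  obtain ⟨t, ht⟩ := sf_main 6
  refine ⟨t * 4 ^ t + 4, ?_⟩
  intro V _ G hS h4 hP
  obtain ⟨P, K, hF, hcls⟩ := fam_ex (G := G)
  apply expand hF
  exact ht _ _ ⟨sur_induce hS _, nc4_induce h4 _, prime_kept hF hP, sf_kept hC hS h4 hF hcls⟩

end Nc4Main

end Pool.Agent.Helper856.Q8
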