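import Pool.Agent.Helper856.Q8.Defs
import Pool.Agent.Helper856.Q8.C4Or
import Pool.Agent.Helper856.Q8.Nc4Main
import Pool.Agent.Helper856.Q8.Compl
import Pool.Agent.Helper856.Q8.GlinSmall

open Classical SimpleGraph

namespace Pool.Agent.Helper856.Q8

open Pool.Agent.Helper856.Lcw (GLin)
open C4Or (c4_or)
open Nc4Main (nc4_main)
open Compl (sur_compl prime_compl glin_compl)
open GlinSmall (glin_small glin_mono)

namespace PrimeMain

variable {V : Type} {G : SimpleGraph V}

/-- TARGET -/
theorem prime_main (hC : CertsOK) (hC' : SpOK) : ∃ k, ∀ (V : Type) [Fintype V] (G : SimpleGraph V), Sur G → Prime G → GLin k G := by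
  obtain ⟨k0, hk0⟩ := nc4_main hC'
  refine ⟨max k0 7, fun V _ G hS hP => ?_⟩
  by_cases hc : Fintype.card V ≤ 6
  · exact glin_small (hc.trans (le_trans (by norm_num) (le_max_right _ _)))
  · push Not at hc
    rcases c4_or hC hS hP hc with h | h
    · exact glin_mono (hk0 V G hS h hP) (le_max_left _ _)
    · exact glin_compl (glin_mono (hk0 V Gᶜ (sur_compl hS) h (prime_compl hP)) (le_max_left _ _))

end PrimeMain

end Pool.Agent.Helper856.Q8
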