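import Pool.Agent.Helper856.Q8.Defs
import Pool.Agent.Helper856.Q8.Growth
import Pool.Agent.Helper856.Q8.PrimeMain
import Pool.Agent.Helper856.Q8.GlinSmall
import Pool.Agent.Helper856.Q8.ClsInd

open Classical SimpleGraph

namespace Pool.Agent.Helper856.Q8

open Pool.Agent.Helper856.Lcw (GLin)
open Growth (growth)
open PrimeMain (prime_main)
open GlinSmall (glin_small glin_mono)
open ClsInd (cls_induce)

namespace FinalB

variable {V : Type} {G : SimpleGraph V}

/-- TARGET -/
theorem final_bound (hC : CertsOK) (hC' : SpOK) (q : ℕ) (hq : 8 ≤ q) : ∃ t, ∀ (V : Type) [Fintype V]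
    (G : SimpleGraph V), Cls q G → ∀ R : Set V, Prime (G.induce R) → GLin t (G.induce R) := by
  obtain ⟨k, hk⟩ := prime_main hC hC'
  refine ⟨max k q, ?_⟩
  intro V _ G hcls R hP
  by_cases hc : Fintype.card R ≤ q
  · exact glin_mono (glin_small hc) (le_max_right _ _)
  · have hS : Sur (G.induce R) := growth hq (cls_induce hcls R) hP (by omega)
    exact glin_mono (hk R (G.induce R) hS hP) (le_max_left _ _)

end FinalB

end Pool.Agent.Helper856.Q8
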