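import Pool.Agent.Helper856.Q8.Defs

open Classical SimpleGraph

namespace Pool.Agent.Helper856.Q8

namespace IsoP4

variable {V : Type} {G : SimpleGraph V}

/-- TARGET -/
theorem iso_p4 (A : Finset V) : P4s G A ↔ (A.card = 4 ∧ Nonempty (G.induce (A : Set V) ≃g SimpleGraph.pathGraph 4)) := by
  constructor
  · rintro ⟨a, b, c, d, ⟨hab, hbc, hcd, hac, had, hbd⟩, rfl⟩
    have nab : a ≠ b := hab.ne
    have nbc : b ≠ c := hbc.ne
    have ncd : c ≠ d := hcd.ne
    have nac : a ≠ c := fun h => had (h ▸ hcd)
    have nad : a ≠ d := fun h => hac (h ▸ hcd.symm)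
    have nbd : b ≠ d := fun h => had (h ▸ hab)
    refine ⟨?_, ?_⟩
    · rw [Finset.card_insert_of_notMem, Finset.card_insert_of_notMem,
        Finset.card_insert_of_notMem, Finset.card_singleton]
      · simpa using ncd
      · simp [nbc, nbd]
      · simp [nab, nac, nad]
    · have hf : ∀ i : Fin 4, (![a, b, c, d] : Fin 4 → V) i ∈ ((({a, b, c, d} : Finset V)) : Set V) := by
        intro i
        fin_cases i <;> simp
      let f : Fin 4 → ((({a, b, c, d} : Finset V)) : Set V) := fun i => ⟨![a, b, c, d] i, hf i⟩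
      have hinj : Function.Injective f := by
        intro i j hij
        have h := congrArg Subtype.val hij
        fin_cases i <;> fin_cases j <;>
          simp [f, nab, nbc, ncd, nac, nad, nbd, nab.symm, nbc.symm, ncd.symm, nac.symm, nad.symm,
            nbd.symm] at h ⊢
      have hsurj : Function.Surjective f := by
        rintro ⟨x, hx⟩
        have hx' : x = a ∨ x = b ∨ x = c ∨ x = d := by simpa using hx
        rcases hx' with rfl | rfl | rfl | rfl
        · exact ⟨0, rfl⟩
        · exact ⟨1, rfl⟩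
        · exact ⟨2, rfl⟩
        · exact ⟨3, rfl⟩
      let e := Equiv.ofBijective f ⟨hinj, hsurj⟩
      have hadj : ∀ i j : Fin 4, G.Adj (![a, b, c, d] i) (![a, b, c, d] j) ↔
          (SimpleGraph.pathGraph 4).Adj i j := by
        intro i j
        rw [SimpleGraph.pathGraph_adj]
        fin_cases i <;> fin_cases j <;>
          simp [hab, hbc, hcd, hac, had, hbd, hab.symm, hbc.symm, hcd.symm,
            G.adj_comm c a, G.adj_comm d a, G.adj_comm d b]
      refine ⟨(SimpleGraph.Iso.symm ⟨e, ?_⟩)⟩
      intro i j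
      exact hadj i j
  · rintro ⟨_, ⟨φ⟩⟩
    have hadj : ∀ i j : Fin 4, G.Adj (φ.symm i : V) (φ.symm j : V) ↔
        (SimpleGraph.pathGraph 4).Adj i j := by
      intro i j
      exact φ.symm.map_adj_iff
    refine ⟨φ.symm 0, φ.symm 1, φ.symm 2, φ.symm 3, ⟨?_, ?_, ?_, ?_, ?_, ?_⟩, ?_⟩
    · rw [hadj, SimpleGraph.pathGraph_adj]; simp
    · rw [hadj, SimpleGraph.pathGraph_adj]; simp
    · rw [hadj, SimpleGraph.pathGraph_adj]; simp
    · rw [hadj, SimpleGraph.pathGraph_adj]; simp
    · rw [hadj, SimpleGraph.pathGraph_adj]; simp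
    · rw [hadj, SimpleGraph.pathGraph_adj]; simp
    · ext x
      constructor
      · intro hx
        have h1 : x = (φ.symm (φ ⟨x, hx⟩) : V) := by simp
        generalize φ ⟨x, hx⟩ = i at h1
        rw [h1]
        fin_cases i <;> simp
      · intro hx
        simp only [Finset.mem_insert, Finset.mem_singleton] at hx
        rcases hx with rfl | rfl | rfl | rfl
        · exact (φ.symm 0).2
        · exact (φ.symm 1).2
        · exact (φ.symm 2).2
        · exact (φ.symm 3).2

end IsoP4

end Pool.Agent.Helper856.Q8
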