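import Pool.Agent.Helper856.Q8.Defs
import Pool.Agent.Helper856.Q8.IsoP4

open Classical SimpleGraph

namespace Pool.Agent.Helper856.Q8

namespace FinalC

variable {V : Type} {G : SimpleGraph V}

/-- the condition of the problem gives `Cls` -/
theorem cls_of {q : ℕ} (h : ∀ S : Finset V, S.card ≤ q →
    {A : Finset V | A ⊆ S ∧ A.card = 4 ∧
      Nonempty (G.induce (A : Set V) ≃g SimpleGraph.pathGraph 4)}.ncard ≤ q - 2) : Cls q G := by
  intro S hS
  have h1 := h S hS
  have h2 : {A : Finset V | A ⊆ S ∧ A.card = 4 ∧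
      Nonempty (G.induce (A : Set V) ≃g SimpleGraph.pathGraph 4)} =
      (((S.powersetCard 4).filter (fun T => P4s G T) : Finset (Finset V)) : Set (Finset V)) := by
    ext A
    rw [Finset.mem_coe, Finset.mem_filter, Finset.mem_powersetCard, IsoP4.iso_p4 A]
    constructor
    · rintro ⟨h3, h4, h5⟩
      exact ⟨⟨h3, h4⟩, h4, h5⟩
    · rintro ⟨⟨h3, h4⟩, h5⟩
      exact ⟨h3, h4, h5.2⟩
  rw [h2, Set.ncard_coe_finset] at h1
  exact h1

end FinalC

end Pool.Agent.Helper856.Q8
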